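import Mathlib
import Pool.Agent.Hartshorne.Cone

/-!
Zak's theorem on tangencies, in the form needed here.
-/

namespace Pool.Agent.Hartshorne

open MvPolynomial

set_option linter.unusedSectionVars false

section Zak

variable {ρ : Type} [Fintype ρ] [DecidableEq ρ]

/-- Forget the parameter. -/
noncomputable def zk0 (ρ : Type) : (Option ρ → ℂ) →ₗ[ℂ] (ρ → ℂ) where
  toFun := fun w b => w (some b)
  map_add' := fun _ _ => rfl
  map_smul' := fun _ _ => rfl

/-- Translate by a multiple of a vector. -/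
noncomputable def zkz (z : ρ → ℂ) : (Option ρ → ℂ) →ₗ[ℂ] (ρ → ℂ) where
  toFun := fun w b => w (some b) - w none * z b
  map_add' := by
    intro w w'; funext b
    simp only [Pi.add_apply]
    ring
  map_smul' := by
    intro t w; funext b
    simp only [Pi.smul_apply, smul_eq_mul, RingHom.id_apply]
    ring

lemma zk0_apply (w : Option ρ → ℂ) (b : ρ) : zk0 ρ w b = w (some b) := rfl

lemma zkz_apply (z : ρ → ℂ) (w : Option ρ → ℂ) (b : ρ) :
    zkz z w b = w (some b) - w none * z b := rfl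

lemma zk_agree (z : ρ → ℂ) {w : Option ρ → ℂ} (hw : w none = 0) : zkz z w = zk0 ρ w := by
  funext b
  rw [zkz_apply, zk0_apply, hw, zero_mul, sub_zero]

/-- The difference quotient. -/
lemma exists_quot (z : ρ → ℂ) (g : MvPolynomial ρ ℂ) :
    ∃ h : MvPolynomial (Option ρ) ℂ, lsub (zk0 ρ) g - lsub (zkz z) g = X none * h ∧
      ∀ w : Option ρ → ℂ, w none = 0 → eval w h = grad (zk0 ρ w) g ⬝ᵥ z := by
  have hp : (Ideal.span {(X none : MvPolynomial (Option ρ) ℂ)}).IsPrime := by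
    rw [Ideal.span_singleton_prime (X_ne_zero _)]
    exact X_prime
  have h1 : lsub (zk0 ρ) g - lsub (zkz z) g ∈
      Ideal.span {(X none : MvPolynomial (Option ρ) ℂ)} := by
    refine mem_of_eval_zero hp (fun w hw => ?_)
    have h2 := hw _ (Ideal.mem_span_singleton_self _)
    rw [eval_X] at h2
    rw [map_sub, eval_lsub, eval_lsub, zk_agree z h2, sub_self]
  obtain ⟨h, hh⟩ := Ideal.mem_span_singleton.mp h1
  refine ⟨h, hh, fun w hw => ?_⟩
  have h2 := congrArg (fun f => eval w (pderiv none f)) hh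
  rw [map_sub, pderiv_lsub, pderiv_lsub, pderiv_mul, pderiv_X_self, one_mul, map_add, map_mul,
    eval_X, hw, zero_mul, add_zero] at h2
  rw [← h2, map_sub, map_sum, map_sum, ← Finset.sum_sub_distrib, dotProduct]
  refine Finset.sum_congr rfl (fun b _ => ?_)
  rw [map_mul, map_mul, eval_C, eval_C, eval_lsub, eval_lsub, zk_agree z hw, zk0_apply, zkz_apply,
    grad_apply, Pi.single_eq_same, Pi.single_eq_of_ne (by simp), one_mul]
  ring

lemma euler_grad {I : Ideal (MvPolynomial ρ ℂ)} (hhom : HI I) {p : ρ → ℂ}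
    (hp : ∀ g ∈ I, eval p g = 0) {g : MvPolynomial ρ ℂ} (hg : g ∈ I) : grad p g ⬝ᵥ p = 0 := by
  have h1 := grad_dot_line (x := p) (w := 0) (g := g) (by
    intro z
    rw [comb_ln, smul_zero, add_zero, ← sum_homogeneousComponent g, map_sum]
    refine Finset.sum_eq_zero (fun e _ => ?_)
    rw [eval_smul_of_isHomogeneous (homogeneousComponent_isHomogeneous e g), hp _ (hhom g hg e),
      mul_zero]) (pt 0)
  rw [comb_ln_one] at h1
  exact h1

lemma exists_grad_of_mem {I : Ideal (MvPolynomial ρ ℂ)} {p H : ρ → ℂ}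
    (h : H ∈ gradSpan I p) : ∃ g ∈ I, grad p g = H := by
  refine Submodule.span_induction (p := fun H _ => ∃ g ∈ I, grad p g = H) ?_ ?_ ?_ ?_ h
  · rintro _ ⟨g, hg, rfl⟩
    refine ⟨g, hg, ?_⟩
    funext b
    rw [grad_apply]
  · exact ⟨0, I.zero_mem, map_zero _⟩
  · rintro _ _ _ _ ⟨g, hg, rfl⟩ ⟨g', hg', rfl⟩
    exact ⟨g + g', I.add_mem hg hg', map_add _ _ _⟩
  · rintro a _ _ ⟨g, hg, rfl⟩
    refine ⟨a • g, ?_, map_smul _ _ _⟩
    rw [smul_eq_C_mul]
    exact I.mul_mem_left _ hg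

/-- **Zak's theorem on tangencies**, in the form needed here. -/
theorem zak {c : ℕ} {κ : Type*} [Fintype κ] (I : Ideal (MvPolynomial ρ ℂ)) (hI : I.IsPrime)
    (hhom : HI I)
    (hdim : ((Fintype.card ρ : ℕ) : WithBot ℕ∞) ≤
      ringKrullDim (MvPolynomial ρ ℂ ⧸ I) + (c : WithBot ℕ∞)) (H : ρ → ℂ)
    (B : Set (MvPolynomial ρ ℂ)) (hB : ∀ h ∈ B, ∃ e, h.IsHomogeneous e)
    (hBI : ∀ y ≠ 0, (∀ h ∈ B, eval y h = 0) → (∀ g ∈ I, eval y g = 0) ∧ H ∈ gradSpan I y)
    (y₀ : ρ → ℂ) (hy₀ : ∀ h ∈ B, eval y₀ h = 0)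
    (e : κ → MvPolynomial ρ ℂ) (he : ∀ k, eval y₀ (e k) = 0)
    (hloc : ∀ h ∈ B, ∃ u, eval y₀ u ≠ 0 ∧ u * h ∈ Ideal.span (Set.range e))
    (p₀ : ρ → ℂ) (hp₀ : ∀ g ∈ I, eval p₀ g = 0) (g : Fin c → MvPolynomial ρ ℂ)
    (hg : ∀ k, g k ∈ I) (hgli : LinearIndependent ℂ (fun k => grad p₀ (g k)))
    (hH : H ⬝ᵥ p₀ ≠ 0) (hcard : Fintype.card κ + c + 1 ≤ Fintype.card ρ) : False := by
  classical
  set z : ρ → ℂ := y₀ - p₀ with hz
  set q₀ : Option ρ → ℂ := fun o => Option.elim o 1 y₀ with hq₀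
  have hq0 : zk0 ρ q₀ = y₀ := by
    funext b; rfl
  have hqz : zkz z q₀ = p₀ := by
    funext b
    rw [zkz_apply, hq₀]
    simp only [Option.elim_some, Option.elim_none, one_mul]
    rw [hz, Pi.sub_apply, sub_sub_cancel]
  obtain ⟨P, hP, hGP, hPq, hPdim⟩ := exists_prime_at
    (Sum.elim (fun k => lsub (zk0 ρ) (e k)) (fun k => lsub (zkz z) (g k))) q₀ (by
      rintro (k | k)
      · rw [Sum.elim_inl, eval_lsub, hq0]; exact he k
      · rw [Sum.elim_inr, eval_lsub, hqz]; exact hp₀ _ (hg k))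
  rw [Fintype.card_option, Fintype.card_sum, Fintype.card_fin] at hPdim
  -- the equations in the prime
  have hBP : ∀ h ∈ B, lsub (zk0 ρ) h ∈ P := by
    intro h hh
    obtain ⟨v, hv, hm⟩ := hloc h hh
    have h1 : lsub (zk0 ρ) (v * h) ∈ P := by
      have h2 : Ideal.span (Set.range e) ≤ P.comap (lsub (zk0 ρ)) := by
        rw [Ideal.span_le]
        rintro _ ⟨k, rfl⟩
        exact hGP (Sum.inl k)
      exact h2 hm
    rw [map_mul] at h1
    rcases hP.mem_or_mem h1 with h2 | h2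
    · have h3 := hPq _ h2
      rw [eval_lsub, hq0] at h3
      exact absurd h3 hv
    · exact h2
  have hIP : ∀ h ∈ I, lsub (zkz z) h ∈ P := by
    intro h hh
    obtain ⟨v, hv, hm⟩ := (point_case I hI p₀ hp₀ c g hg hgli).2 hdim h hh
    have h1 : lsub (zkz z) (v * h) ∈ P := by
      have h2 : Ideal.span (Set.range g) ≤ P.comap (lsub (zkz z)) := by
        rw [Ideal.span_le]
        rintro _ ⟨k, rfl⟩
        exact hGP (Sum.inr k)
      exact h2 hm
    rw [map_mul] at h1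
    rcases hP.mem_or_mem h1 with h2 | h2
    · have h3 := hPq _ h2
      rw [eval_lsub, hqz] at h3
      exact absurd h3 hv
    · exact h2
  -- the homogeneous core
  set P' := hcore P with hP'
  have hP'p : P'.IsPrime := hcore_isPrime hP
  have hP'h : ∀ f ∈ P', ∀ e, homogeneousComponent e f ∈ P' := hcore_hom P
  have hP'dim : ((Fintype.card ρ + 1 : ℕ) : WithBot ℕ∞) ≤
      ringKrullDim (MvPolynomial (Option ρ) ℂ ⧸ P') + ((Fintype.card κ + c : ℕ) : WithBot ℕ∞) := by
    refine hPdim.trans (add_le_add_left ?_ _)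
    exact ringKrullDim_le_of_surjective (Ideal.Quotient.factor (hcore_le P))
      (Ideal.Quotient.factor_surjective (hcore_le P))
  have hBP' : ∀ h ∈ B, lsub (zk0 ρ) h ∈ P' := by
    intro h hh
    obtain ⟨k, hk⟩ := hB h hh
    exact mem_hcore_of_homog (isHomogeneous_lsub _ _ _ hk) (hBP h hh)
  have hIP' : ∀ h ∈ I, lsub (zkz z) h ∈ P' := by
    intro h hh
    rw [← sum_homogeneousComponent h, map_sum]
    refine Ideal.sum_mem _ (fun k _ => ?_)
    exact mem_hcore_of_homog (isHomogeneous_lsub _ _ _ (homogeneousComponent_isHomogeneous k h))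
      (hIP _ (hhom h hh k))
  have hlam : (X none : MvPolynomial (Option ρ) ℂ) ∉ P' := by
    intro h
    have h1 := hPq _ (hcore_le P h)
    rw [eval_X] at h1
    exact one_ne_zero h1
  have hI0 : ∀ h ∈ I, eval 0 h = 0 := by
    intro h hh
    have h1 := hp₀ _ (hhom h hh 0)
    rwa [homogeneousComponent_zero, eval_C, ← eval_zero_eq_coeff] at h1
  have hI0P' : ∀ h ∈ I, lsub (zk0 ρ) h ∈ P' := by
    intro h hh
    refine mem_of_eval_zero hP'p (fun w hw => ?_)
    rw [eval_lsub]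
    by_cases hw0 : zk0 ρ w = 0
    · rw [hw0]; exact hI0 h hh
    · refine (hBI _ hw0 (fun b hb => ?_)).1 h hh
      have h1 := hw _ (hBP' b hb)
      rwa [eval_lsub] at h1
  -- a point at the hyperplane at infinity
  obtain ⟨w, hwn, hwP, hw0⟩ : ∃ w : Option ρ → ℂ, w none = 0 ∧ (∀ h ∈ P', eval w h = 0) ∧
      w ≠ 0 := by
    by_contra hno
    push Not at hno
    have h1 := dim_le_of_no_zero (r := 1)
      (LinearMap.pi (fun _ => LinearMap.proj (R := ℂ) (φ := fun _ : Option ρ => ℂ) none)) P' hP'h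
      (by
        intro p hp hpP
        exact hno p (congrFun hp 0) hpP)
    have h2 : ((Fintype.card ρ + 1 : ℕ) : WithBot ℕ∞) ≤
        ((1 + (Fintype.card κ + c) : ℕ) : WithBot ℕ∞) := by
      refine hP'dim.trans ?_
      rw [Nat.cast_add 1 _]
      exact add_le_add_left (by exact_mod_cast h1) _
    have h3 : Fintype.card ρ + 1 ≤ 1 + (Fintype.card κ + c) := by exact_mod_cast h2
    omega
  have hy : zk0 ρ w ≠ 0 := by
    intro h0
    apply hw0
    funext o
    rcases o with _ | b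
    · exact hwn
    · exact congrFun h0 b
  obtain ⟨hyI, hyH⟩ := hBI _ hy (fun b hb => by
    have h1 := hwP _ (hBP' b hb)
    rwa [eval_lsub] at h1)
  obtain ⟨g', hg', hgH⟩ := exists_grad_of_mem hyH
  obtain ⟨h, hh, hhe⟩ := exists_quot z g'
  have h1 : X none * h ∈ P' := by
    rw [← hh]
    exact Ideal.sub_mem _ (hI0P' g' hg') (hIP' g' hg')
  have h2 : h ∈ P' := (hP'p.mem_or_mem h1).resolve_left hlam
  have h3 := hwP h h2
  rw [hhe w hwn, hgH, hz, dotProduct_sub] at h3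
  have h4 : H ⬝ᵥ y₀ = 0 := by
    by_cases hy00 : y₀ = 0
    · rw [hy00, dotProduct_zero]
    · obtain ⟨h5, h6⟩ := hBI y₀ hy00 hy₀
      obtain ⟨g'', hg'', hgH'⟩ := exists_grad_of_mem h6
      rw [← hgH']
      exact euler_grad hhom h5 hg''
  rw [h4, zero_sub, neg_eq_zero] at h3
  exact hH h3

end Zak

end Pool.Agent.Hartshorne
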