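import Mathlib
import Pool.Agent.Hartshorne.Const
import Pool.Agent.Hartshorne.LocEq

/-!
Definitions: a nonsingular point all of whose lines are free, adapted frames at one line,
components of the cone of lines, pencils parametrised by an irreducible cone.
-/

namespace Pool.Agent.Hartshorne

open MvPolynomial

set_option linter.unusedSectionVars false

section Defs

variable {ρ : Type*} [Fintype ρ] [DecidableEq ρ] {n : ℕ}

/-- A nonsingular point of a nonsingular cone with a frame, all of whose lines are free. -/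
structure PtS (I : Ideal (MvPolynomial ρ ℂ)) (x : ρ → ℂ) (u : Fin n → (ρ → ℂ)) (c d D : ℕ)
    (F : Fin c → MvPolynomial ρ ℂ) : Prop where
  hI : I.IsPrime
  hhom : HI I
  hdim : ((Fintype.card ρ : ℕ) : WithBot ℕ∞) ≤
      ringKrullDim (MvPolynomial ρ ℂ ⧸ I) + (c : WithBot ℕ∞)
  hD : 0 < D
  hd : 0 < d
  hx : ∀ h ∈ I, eval x h = 0
  hF : ∀ i, F i ∈ I ∧ (F i).IsHomogeneous d
  hli : LinearIndependent ℂ (fun i => grad x (F i))
  good : ∀ p ≠ 0, (∀ h ∈ I, eval p h = 0) → GoodPt I c D p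
  hbas : LinearIndependent ℂ (Fin.cons x u : Fin (n + 1) → (ρ → ℂ))
  hn : n + 1 = Fintype.card ρ
  free : ∀ v, (∀ i z, eval (comb (pl x u v) z) (F i) = 0) →
    ∀ a : ρ → ℂ, (∀ i, grad x (F i) ⬝ᵥ a = 0) → ∃ b : ρ → ℂ, ∀ h ∈ I, ∀ z : Fin 2 → ℂ,
      grad (comb (pl x u v) z) h ⬝ᵥ (z 0 • a + z 1 • b) = 0

/-- A line through the vertex, with a frame adapted to it. -/
structure LineS (I : Ideal (MvPolynomial ρ ℂ)) (x : ρ → ℂ) (u : Fin n → (ρ → ℂ)) (c d D : ℕ)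
    (F : Fin c → MvPolynomial ρ ℂ) (f : Fin c → ℕ) (v : Fin n → ℂ) : Prop
    extends PtS I x u c d D F where
  hv0 : v ≠ 0
  hv : ∀ i z, eval (comb (pl x u v) z) (F i) = 0
  ad1 : ∀ i, grad x (F i) ∈ Wsp (El I x u v) (f i)
  ad2 : ∀ e, ∀ y ∈ Wsp (El I x u v) e,
      ∃ a : Fin c → ℂ, (∀ i, e < f i → a i = 0) ∧ y = ∑ i, a i • grad x (F i)

/-- A component of the cone of lines through the vertex, of codimension `m`. -/
structure CompS (I : Ideal (MvPolynomial ρ ℂ)) (x : ρ → ℂ) (u : Fin n → (ρ → ℂ)) (c d D : ℕ)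
    (F : Fin c → MvPolynomial ρ ℂ) (K : Ideal (MvPolynomial (Fin n) ℂ)) (m : ℕ) : Prop
    extends PtS I x u c d D F where
  hK : K.IsPrime
  hKh : HI K
  hKa : allF x u F ≤ K
  loc : ∀ (F' : Fin c → MvPolynomial ρ ℂ) (f : Fin c → ℕ) (v : Fin n → ℂ),
    LineS I x u c d D F' f v → (∀ g ∈ K, eval v g = 0) →
      ∑ i, (f i + 1) = m ∧
      ∀ g ∈ K, ∃ q, eval v q ≠ 0 ∧ q * g ∈ Ideal.span (Set.range (yF x u F' f))

/-- An irreducible cone, locally cut out by `m` equations, in a linear space of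
codimension `c`. -/
structure KLoc {σ : Type*} (K : Ideal (MvPolynomial σ ℂ)) (c m : ℕ) : Prop where
  hK : K.IsPrime
  hKh : HI K
  loc : ∀ v ≠ 0, (∀ g ∈ K, eval v g = 0) → ∃ y : Fin m → MvPolynomial σ ℂ,
    (∀ k, y k ∈ K) ∧ ∀ g ∈ K, ∃ q, eval v q ≠ 0 ∧ q * g ∈ Ideal.span (Set.range y)
  lin : ∃ l : Fin c → MvPolynomial σ ℂ, (∀ i, l i ∈ K ∧ (l i).IsHomogeneous 1) ∧
    LinearIndependent ℂ (fun i => grad 0 (l i))

/-- A pencil of lines parametrised by such a cone. -/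
structure KPen (I : Ideal (MvPolynomial ρ ℂ)) (x : ρ → ℂ) (u : Fin n → (ρ → ℂ)) (c d D : ℕ)
    (F : Fin c → MvPolynomial ρ ℂ) (K : Ideal (MvPolynomial (Fin n) ℂ)) (m : ℕ) : Prop where
  kloc : KLoc K c m
  vertex : Vertex I x c d F
  hD : 0 < D
  good : ∀ v ≠ 0, (∀ g ∈ K, eval v g = 0) → GoodLine I x u c D v

end Defs

end Pool.Agent.Hartshorne
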