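import Mathlib
import Pool.Agent.HartN.Defs

/-!
Loci in an irreducible cone which is contained in a linear space.
-/

namespace Pool.Agent.Hartshorne

open MvPolynomial

set_option linter.unusedSectionVars false

section CapT

variable {σ : Type*} [Fintype σ] [DecidableEq σ]

lemma eval_of_isHomogeneous_one {l : MvPolynomial σ ℂ} (hl : l.IsHomogeneous 1) (z : σ → ℂ) :
    eval z l = grad 0 l ⬝ᵥ z := by
  have h1 := congrArg (eval z) hl.sum_X_mul_pderiv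
  rw [map_sum, one_smul] at h1
  rw [← h1]
  refine Finset.sum_congr rfl (fun i _ => ?_)
  have h2 := eval_smul_of_isHomogeneous (hl.pderiv (i := i)) 0 z
  rw [zero_smul, Nat.sub_self, pow_zero, one_mul] at h2
  rw [map_mul, eval_X, grad_apply, h2, mul_comm]

lemma le_dim_of_le_add {a : WithBot ℕ∞} {N k : ℕ} (h : (N : WithBot ℕ∞) ≤ a + (k : WithBot ℕ∞)) :
    ((N - k : ℕ) : WithBot ℕ∞) ≤ a := by
  induction a using WithBot.recBotCoe with
  | bot =>
    rw [WithBot.bot_add, le_bot_iff] at h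
    exact absurd h (WithBot.natCast_ne_bot _)
  | coe x =>
    induction x using ENat.recTopCoe with
    | top => exact le_top
    | coe m =>
      have h3 : N ≤ m + k := by exact_mod_cast h
      have h4 : N - k ≤ m := by omega
      have h5 : ((N - k : ℕ) : ℕ∞) ≤ (m : ℕ∞) := Nat.cast_le.mpr h4
      exact WithBot.coe_le_coe.mpr h5

/-- Coordinates on the linear space. -/
lemma exists_coord {c : ℕ} (w : Fin c → (σ → ℂ)) (hw : LinearIndependent ℂ w) :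
    c ≤ Fintype.card σ ∧ ∃ μ : (σ → ℂ) →ₗ[ℂ] (Fin (Fintype.card σ - c) → ℂ),
      ∀ z, μ z = 0 → (∀ i, w i ⬝ᵥ z = 0) → z = 0 := by
  classical
  set L : (σ → ℂ) →ₗ[ℂ] (Fin c → ℂ) := (Matrix.of w).mulVecLin with hL
  have hLz : ∀ z, z ∈ LinearMap.ker L ↔ ∀ i, w i ⬝ᵥ z = 0 := by
    intro z
    rw [LinearMap.mem_ker, hL, Matrix.mulVecLin_apply]
    constructor
    · intro h i
      exact congrFun h i
    · intro h
      funext i
      exact h i
  have h1 := finrank_sol_of_li w hw (LinearMap.ker L) hLz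
  have hc : c ≤ Fintype.card σ := by omega
  refine ⟨hc, ?_⟩
  obtain ⟨g, hg⟩ := (LinearMap.ker L).subtype.exists_leftInverse_of_injective
    (Submodule.ker_subtype _)
  have h2 : Module.finrank ℂ (LinearMap.ker L) =
      Module.finrank ℂ (Fin (Fintype.card σ - c) → ℂ) := by
    rw [Module.finrank_fin_fun]
    omega
  set E := LinearEquiv.ofFinrankEq _ _ h2 with hE
  refine ⟨E.toLinearMap.comp g, ?_⟩
  intro z hz hwz
  have h3 : g z = 0 := by
    have h4 : E (g z) = 0 := hz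
    rwa [LinearEquiv.map_eq_zero_iff] at h4
  have h5 := LinearMap.congr_fun hg ⟨z, (hLz z).mpr hwz⟩
  have h6 : g z = ⟨z, (hLz z).mpr hwz⟩ := h5
  rw [h3] at h6
  exact (congrArg Subtype.val h6).symm

/-- Two cones in a linear space meet. -/
theorem capT {P Q : Ideal (MvPolynomial σ ℂ)} (hP : P.IsPrime) (hQ : Q.IsPrime) (hPh : HI P)
    (hQh : HI Q) {c : ℕ} (l : Fin c → MvPolynomial σ ℂ) (hl : ∀ i, (l i).IsHomogeneous 1)
    (hli : LinearIndependent ℂ (fun i => grad 0 (l i))) (hlP : ∀ i, l i ∈ P)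
    (hlQ : ∀ i, l i ∈ Q) {a b : ℕ}
    (ha : ((Fintype.card σ : ℕ) : WithBot ℕ∞) ≤
      ringKrullDim (MvPolynomial σ ℂ ⧸ P) + (a : WithBot ℕ∞))
    (hb : ((Fintype.card σ : ℕ) : WithBot ℕ∞) ≤
      ringKrullDim (MvPolynomial σ ℂ ⧸ Q) + (b : WithBot ℕ∞))
    (hab : a + b < Fintype.card σ + c) :
    ∃ v : σ → ℂ, v ≠ 0 ∧ (∀ f ∈ P, eval v f = 0) ∧ ∀ f ∈ Q, eval v f = 0 := by
  classical
  by_contra hcon
  push Not at hcon
  obtain ⟨hc, μ, hμ⟩ := exists_coord _ hli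
  set lam : (σ ⊕ σ → ℂ) →ₗ[ℂ] (Fin (Fintype.card σ - c) → ℂ) :=
    μ.comp (LinearMap.funLeft ℂ ℂ (Sum.inl : σ → σ ⊕ σ) -
      LinearMap.funLeft ℂ ℂ (Sum.inr : σ → σ ⊕ σ)) with hlam
  have h1 := dim_le_of_no_zero lam (prodI P Q) (prodI_hom hPh hQh) (by
    intro p hp hpI
    have hl1 : ∀ i, eval (fun j => p (Sum.inl j)) (l i) = 0 := by
      intro i
      have h4 := hpI _ (Ideal.mem_sup_left (Ideal.mem_map_of_mem
          (rename Sum.inl : MvPolynomial σ ℂ →ₐ[ℂ] MvPolynomial (σ ⊕ σ) ℂ) (hlP i)))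
      have h5 : eval p (rename Sum.inl (l i)) = 0 := h4
      rw [eval_rename] at h5
      exact h5
    have hl2 : ∀ i, eval (fun j => p (Sum.inr j)) (l i) = 0 := by
      intro i
      have h4 := hpI _ (Ideal.mem_sup_right (Ideal.mem_map_of_mem
          (rename Sum.inr : MvPolynomial σ ℂ →ₐ[ℂ] MvPolynomial (σ ⊕ σ) ℂ) (hlQ i)))
      have h5 : eval p (rename Sum.inr (l i)) = 0 := h4
      rw [eval_rename] at h5
      exact h5
    have h2 : ∀ i, p (Sum.inl i) = p (Sum.inr i) := by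
      have h3 : (fun j => p (Sum.inl j)) - (fun j => p (Sum.inr j)) = 0 := by
        apply hμ
        · exact hp
        · intro i
          rw [dotProduct_sub, ← eval_of_isHomogeneous_one (hl i),
            ← eval_of_isHomogeneous_one (hl i), hl1, hl2, sub_zero]
      intro i
      exact sub_eq_zero.mp (congrFun h3 i)
    set v : σ → ℂ := fun i => p (Sum.inl i) with hv
    have hpv : p = Sum.elim v v := by
      funext i
      rcases i with i | i
      · rfl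
      · exact (h2 i).symm
    have h3 : v = 0 := by
      by_contra hne
      obtain ⟨f, hf, hfv⟩ := hcon v hne (fun f hf => by
        have h4 := hpI _ (Ideal.mem_sup_left (Ideal.mem_map_of_mem
          (rename Sum.inl : MvPolynomial σ ℂ →ₐ[ℂ] MvPolynomial (σ ⊕ σ) ℂ) hf))
        rw [hpv] at h4
        have h5 : eval (Sum.elim v v) (rename Sum.inl f) = 0 := h4
        rwa [eval_rename] at h5)
      have h4 := hpI _ (Ideal.mem_sup_right (Ideal.mem_map_of_mem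
          (rename Sum.inr : MvPolynomial σ ℂ →ₐ[ℂ] MvPolynomial (σ ⊕ σ) ℂ) hf))
      rw [hpv] at h4
      have h5 : eval (Sum.elim v v) (rename Sum.inr f) = 0 := h4
      rw [eval_rename] at h5
      exact hfv h5
    rw [hpv, h3]
    funext i
    rcases i with i | i <;> rfl)
  have h2 := (le_dim_prodI hP hQ (le_dim_of_le_add ha) (le_dim_of_le_add hb)).trans h1
  have h3 : (Fintype.card σ - a) + (Fintype.card σ - b) ≤ Fintype.card σ - c := by
    exact_mod_cast h2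
  omega

/-- A locally constant function on an irreducible cone is constant. -/
theorem const_of_locallyK {K : Ideal (MvPolynomial σ ℂ)} (hK : K.IsPrime) {α : Type*}
    (φ : (σ → ℂ) → α)
    (hloc : ∀ v₀ ≠ 0, (∀ g ∈ K, eval v₀ g = 0) → ∃ Δ : MvPolynomial σ ℂ, eval v₀ Δ ≠ 0 ∧
      ∀ v ≠ 0, (∀ g ∈ K, eval v g = 0) → eval v Δ ≠ 0 → φ v = φ v₀)
    {v₁ v₂ : σ → ℂ} (hv₁0 : v₁ ≠ 0) (hv₁ : ∀ g ∈ K, eval v₁ g = 0)
    (hv₂0 : v₂ ≠ 0) (hv₂ : ∀ g ∈ K, eval v₂ g = 0) : φ v₁ = φ v₂ := by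
  classical
  obtain ⟨Δ₁, h1, h1'⟩ := hloc v₁ hv₁0 hv₁
  obtain ⟨Δ₂, h2, h2'⟩ := hloc v₂ hv₂0 hv₂
  obtain ⟨i₀, hi₀⟩ := Function.ne_iff.mp hv₁0
  have h3 : X i₀ * (Δ₁ * Δ₂) ∉ K := by
    intro hmem
    rcases hK.mem_or_mem hmem with h | h
    · have h4 := hv₁ _ h
      rw [eval_X] at h4
      exact hi₀ h4
    · rcases hK.mem_or_mem h with h | h
      · exact h1 (hv₁ _ h)
      · exact h2 (hv₂ _ h)
  have h4 : ∃ v, (∀ g ∈ K, eval v g = 0) ∧ eval v (X i₀ * (Δ₁ * Δ₂)) ≠ 0 := by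
    by_contra hcon
    push Not at hcon
    exact h3 (mem_of_eval_zero hK hcon)
  obtain ⟨v, hvK, hv⟩ := h4
  rw [map_mul, map_mul, eval_X] at hv
  have hv0 : v ≠ 0 := by
    rintro rfl
    exact hv (by rw [Pi.zero_apply, zero_mul])
  have h5 := right_ne_zero_of_mul hv
  rw [← h1' v hv0 hvK (left_ne_zero_of_mul h5), h2' v hv0 hvK (right_ne_zero_of_mul h5)]

/-- Loci of an irreducible cone contain cones of small codimension. -/
lemma KLoc.exists_prime {K : Ideal (MvPolynomial σ ℂ)} {c m : ℕ} (h : KLoc K c m) {m' : ℕ}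
    {Z : Set (σ → ℂ)} (hZ : IsLocus {v | ∀ g ∈ K, eval v g = 0} m' Z) {v₀ : σ → ℂ}
    (hv₀ : v₀ ∈ Z) :
    ∃ P : Ideal (MvPolynomial σ ℂ), P.IsPrime ∧ HI P ∧ K ≤ P ∧
      ((Fintype.card σ : ℕ) : WithBot ℕ∞) ≤
        ringKrullDim (MvPolynomial σ ℂ ⧸ P) + ((m + m' : ℕ) : WithBot ℕ∞) ∧
      ∀ v ≠ 0, (∀ f ∈ P, eval v f = 0) → v ∈ Z := by
  classical
  obtain ⟨Δ, g, hΔ, hg, hΔg⟩ := hZ.eqs v₀ hv₀
  obtain ⟨hv₀0, hv₀Y⟩ := hZ.sub v₀ hv₀
  obtain ⟨y, hyK, hyloc⟩ := h.loc v₀ hv₀0 hv₀Y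
  obtain ⟨Q, hQ, hGQ, hQv, hdim⟩ := exists_prime_at (Sum.elim y g) v₀ (by
    rintro (i | j)
    · exact hv₀Y _ (hyK i)
    · exact hg j)
  rw [Fintype.card_sum, Fintype.card_fin, Fintype.card_fin] at hdim
  obtain ⟨i₀, hi₀⟩ := Function.ne_iff.mp hv₀0
  have hKQ : K ≤ Q := by
    intro f hf
    obtain ⟨q, hq, hqf⟩ := hyloc f hf
    have h1 : q * f ∈ Q := by
      have h2 : Ideal.span (Set.range y) ≤ Q := by
        rw [Ideal.span_le]
        rintro _ ⟨k, rfl⟩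
        exact hGQ (Sum.inl k)
      exact h2 hqf
    rcases hQ.mem_or_mem h1 with h2 | h2
    · exact absurd (hQv _ h2) hq
    · exact h2
  have hKP : K ≤ hcore Q := by
    intro f hf
    rw [mem_hcore]
    intro e
    exact hKQ (h.hKh f hf e)
  refine ⟨hcore Q, hcore_isPrime hQ, hcore_hom Q, hKP, ?_, ?_⟩
  · refine hdim.trans (add_le_add_left ?_ _)
    exact ringKrullDim_le_of_surjective (Ideal.Quotient.factor (hcore_le Q))
      (Ideal.Quotient.factor_surjective (hcore_le Q))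
  · intro v hv hvP
    have hvY : v ∈ {v | ∀ g ∈ K, eval v g = 0} := fun f hf => hvP f (hKP hf)
    by_contra hvZ
    obtain ⟨F, hF, hFZ⟩ := hZ.closed v hvY hv hvZ
    apply hF
    apply hvP
    rw [mem_hcore]
    intro e
    have h1 : Δ * X i₀ * homogeneousComponent e F ∈ Q := by
      refine mem_of_eval_zero hQ (fun q hq => ?_)
      rw [map_mul, map_mul, eval_X]
      by_cases hΔq : eval q Δ = 0
      · rw [hΔq, zero_mul, zero_mul]
      by_cases hqi : q i₀ = 0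
      · rw [hqi, mul_zero, zero_mul]
      have hq0 : q ≠ 0 := by
        rintro rfl
        exact hqi rfl
      have hqZ : q ∈ Z := hΔg q (fun f hf => hq _ (hKQ hf)) hq0 hΔq
        (fun j => hq _ (hGQ (Sum.inr j)))
      rw [eval_hc_of_line (fun t ht => hFZ _ (hZ.smul q hqZ t ht)) e, mul_zero]
    rcases hQ.mem_or_mem h1 with h2 | h2
    · rcases hQ.mem_or_mem h2 with h3 | h3
      · exact absurd (hQv _ h3) hΔ
      · have h4 := hQv _ h3
        rw [eval_X] at h4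
        exact absurd h4 hi₀
    · exact h2

/-- Loci of small codimension in an irreducible cone meet. -/
theorem KLoc.meet {K : Ideal (MvPolynomial σ ℂ)} {c m : ℕ} (h : KLoc K c m) {m₁ m₂ : ℕ}
    {Z₁ Z₂ : Set (σ → ℂ)} (hZ₁ : IsLocus {v | ∀ g ∈ K, eval v g = 0} m₁ Z₁)
    (hZ₂ : IsLocus {v | ∀ g ∈ K, eval v g = 0} m₂ Z₂)
    (hcard : 2 * m + m₁ + m₂ < Fintype.card σ + c) (h₁ : Z₁.Nonempty) (h₂ : Z₂.Nonempty) :
    (Z₁ ∩ Z₂).Nonempty := by
  obtain ⟨v₁, hv₁⟩ := h₁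
  obtain ⟨v₂, hv₂⟩ := h₂
  obtain ⟨P₁, hP₁, hP₁h, hKP₁, hP₁d, hP₁Z⟩ := h.exists_prime hZ₁ hv₁
  obtain ⟨P₂, hP₂, hP₂h, hKP₂, hP₂d, hP₂Z⟩ := h.exists_prime hZ₂ hv₂
  obtain ⟨l, hl, hli⟩ := h.lin
  obtain ⟨v, hv, hvP₁, hvP₂⟩ := capT hP₁ hP₂ hP₁h hP₂h l (fun i => (hl i).2) hli
    (fun i => hKP₁ (hl i).1) (fun i => hKP₂ (hl i).1) hP₁d hP₂d (by omega)
  exact ⟨v, hP₁Z v hv hvP₁, hP₂Z v hv hvP₂⟩

/-- Constancy of special vectors in a family of spaces of constant dimension. -/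
theorem KLoc.constancy {γ : Type*} [Fintype γ] {K : Ideal (MvPolynomial σ ℂ)} {c m : ℕ}
    (h : KLoc K c m) {H : (σ → ℂ) → Submodule ℂ (γ → ℂ)} {g : ℕ}
    (hF : FrameProp {v | v ∈ {v | ∀ g ∈ K, eval v g = 0} ∧ v ≠ 0} H)
    (hg : ∀ v ∈ {v | v ∈ {v | ∀ g ∈ K, eval v g = 0} ∧ v ≠ 0}, Module.finrank ℂ (H v) = g)
    (wt : γ → ℕ) (M : ℕ) (hwt : ∀ b, wt b ≤ M)
    (hsc : ∀ v, (∀ g ∈ K, eval v g = 0) → v ≠ 0 → ∀ t : ℂ, t ≠ 0 → ∀ h ∈ H v,
      (fun b => t ^ wt b * h b) ∈ H (t • v))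
    (hcard : 2 * m + Fintype.card γ < Fintype.card σ + c)
    (α : γ → ℂ) (hα : ∀ b, α b ≠ 0 → wt b = M) {v₁ v₂ : σ → ℂ}
    (hv₁ : ∀ g ∈ K, eval v₁ g = 0) (hv₁0 : v₁ ≠ 0)
    (hv₂ : ∀ g ∈ K, eval v₂ g = 0) (hv₂0 : v₂ ≠ 0)
    (h₁ : α ∈ H v₁) : α ∈ H v₂ := by
  classical
  by_contra hα₂
  have hYt : ∀ v, (∀ g ∈ K, eval v g = 0) → ∀ t : ℂ, ∀ g ∈ K, eval (t • v) g = 0 := by
    intro v hv t g hgK
    rw [← sum_homogeneousComponent g, map_sum]
    refine Finset.sum_eq_zero (fun e _ => ?_)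
    rw [eval_smul_of_isHomogeneous (homogeneousComponent_isHomogeneous e g),
      hv _ (h.hKh g hgK e), mul_zero]
  -- a functional
  obtain ⟨f, hf, hfH⟩ := Submodule.exists_le_ker_of_notMem hα₂
  set a₀ : γ → ℂ := fun b => f (Pi.single b 1) with ha₀
  have hfa : ∀ h : γ → ℂ, f h = a₀ ⬝ᵥ h := by
    intro h
    conv_lhs => rw [pi_eq_sum_univ' h, map_sum]
    refine Finset.sum_congr rfl (fun b _ => ?_)
    rw [map_smul, smul_eq_mul, mul_comm]
  obtain ⟨l, hl, hl2⟩ := exists_unit_form hv₂0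
  set a : γ → MvPolynomial σ ℂ := fun b => C (a₀ b) * l ^ (M - wt b) with ha
  have hlt : ∀ (v : σ → ℂ) (t : ℂ), eval (t • v) l = t * eval v l := by
    intro v t
    rw [eval_smul_of_isHomogeneous hl, pow_one]
  have hae : ∀ v b, rowEval v a b = a₀ b * eval v l ^ (M - wt b) := by
    intro v b
    rw [rowEval_apply, ha, map_mul, eval_C, map_pow]
  -- the second locus
  have hZ₂ := isLocus_le (Y := {v | ∀ g ∈ K, eval v g = 0}) hF hg a (by
    intro v hvY hv hva t ht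
    refine ⟨hYt v hvY t, fun h hh => ?_⟩
    have h1 := hsc (t • v) (hYt v hvY t) (smul_ne_zero ht hv) t⁻¹ (inv_ne_zero ht) h hh
    rw [smul_smul, inv_mul_cancel₀ ht, one_smul] at h1
    have h2 := hva _ h1
    have h3 : rowEval (t • v) a ⬝ᵥ h = t ^ M * (rowEval v a ⬝ᵥ fun b => t⁻¹ ^ wt b * h b) := by
      simp only [dotProduct, Finset.mul_sum]
      refine Finset.sum_congr rfl (fun b _ => ?_)
      rw [hae, hae, hlt, mul_pow]
      have h4 : t ^ M = t ^ (M - wt b) * t ^ wt b := by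
        rw [← pow_add, Nat.sub_add_cancel (hwt b)]
      rw [h4, inv_pow]
      field_simp
    rw [h3, h2, mul_zero])
  -- the first locus
  have hC : ∀ v, rowEval v (fun b => (C (α b) : MvPolynomial σ ℂ)) = α := by
    intro v; funext b; rw [rowEval_apply, eval_C]
  have hZ₁ := isLocus_mem (Y := {v | ∀ g ∈ K, eval v g = 0}) hF hg (fun b => C (α b)) (by
    intro v hvY hv hva t ht
    refine ⟨hYt v hvY t, ?_⟩
    rw [hC] at hva ⊢
    have h1 := hsc v hvY hv t ht α hva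
    have h2 : (fun b => t ^ wt b * α b) = t ^ M • α := by
      funext b
      rw [Pi.smul_apply, smul_eq_mul]
      by_cases hb : α b = 0
      · rw [hb, mul_zero, mul_zero]
      · rw [hα b hb]
    rw [h2] at h1
    exact (Submodule.smul_mem_iff _ (pow_ne_zero M ht)).mp h1)
  have hgγ : g ≤ Fintype.card γ := by
    rw [← hg v₁ ⟨hv₁, hv₁0⟩, ← Module.finrank_fintype_fun_eq_card (R := ℂ)]
    exact Submodule.finrank_le _
  obtain ⟨v, hvZ₁, hvZ₂⟩ := h.meet hZ₁ hZ₂ (by omega)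
    ⟨v₁, ⟨hv₁, hv₁0⟩, by rw [hC]; exact h₁⟩
    ⟨v₂, ⟨hv₂, hv₂0⟩, fun h hh => by
      have h1 : rowEval v₂ a = a₀ := by
        funext b
        rw [hae, hl2, one_pow, mul_one]
      rw [h1, ← hfa]
      exact hfH hh⟩
  have h1 : rowEval v a ⬝ᵥ α = 0 := by
    apply hvZ₂.2
    have h2 := hvZ₁.2
    rwa [hC] at h2
  have h2 : rowEval v a ⬝ᵥ α = a₀ ⬝ᵥ α := by
    refine Finset.sum_congr rfl (fun b _ => ?_)
    by_cases hb : α b = 0
    · rw [hb, mul_zero, mul_zero]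
    · rw [hae, hα b hb, Nat.sub_self, pow_zero, mul_one]
  rw [h2, ← hfa] at h1
  exact hf h1

end CapT

end Pool.Agent.Hartshorne
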