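import Mathlib
import Pool.Agent.HartN.LocusK

/-!
Constancy of the filtration of the gradient space at the vertex of a pencil of lines
parametrised by an irreducible cone.
-/

namespace Pool.Agent.Hartshorne

open MvPolynomial

set_option linter.unusedSectionVars false

section N5b
variable {ρ : Type*} [Fintype ρ] [DecidableEq ρ] {c d D n : ℕ} {I : Ideal (MvPolynomial ρ ℂ)}
  {x : ρ → ℂ} {u : Fin n → (ρ → ℂ)} {F : Fin c → MvPolynomial ρ ℂ}
  {K : Ideal (MvPolynomial (Fin n) ℂ)} {m : ℕ}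

lemma Vertex.finrank_KM_addK (hP : Vertex I x c d F) {v : Fin n → ℂ}
    (hv : GoodLine I x u c D v) {s : ℕ}
    (htop : ∀ e, s ≤ e → Wsp (El I x u v) e = gradSpan I x) (l : ℕ) :
    Module.finrank ℂ (KM (El I x u v) (s + l)) =
      Module.finrank ℂ (KM (El I x u v) s) + l * c := by
  obtain ⟨T, hT⟩ := hP.exists_T
  have hT' : ∀ w ∈ El I x u v (pt 0), (∀ l, w (T l) = 0) → w = 0 := by
    rw [El_pt_zero]; exact hT
  rw [finrank_KM (isBundle_El I x u hv) T hT', finrank_KM (isBundle_El I x u hv) T hT',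
    Finset.sum_range_add]
  congr 1
  rw [Finset.sum_congr rfl (fun j _ => by
    rw [htop (s + j) (Nat.le_add_right s j), hP.fr])]
  simp

/-- The dimension of the section spaces is constant. -/
theorem KPen.finrank_KM_const (h : KPen I x u c d D F K m) (s : ℕ)
    (hws : ∀ v ≠ 0, (∀ g ∈ K, eval v g = 0) → ∀ e, s ≤ e →
      Wsp (El I x u v) e = gradSpan I x)
    {v₁ v₂ : Fin n → ℂ} (hv₁0 : v₁ ≠ 0) (hv₁ : ∀ g ∈ K, eval v₁ g = 0)
    (hv₂0 : v₂ ≠ 0) (hv₂ : ∀ g ∈ K, eval v₂ g = 0) :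
    Module.finrank ℂ (KM (El I x u v₁) s) =
      Module.finrank ℂ (KM (El I x u v₂) s) := by
  refine const_of_locallyK h.kloc.hK (fun v => Module.finrank ℂ (KM (El I x u v) s))
    ?_ hv₁0 hv₁ hv₂0 hv₂
  intro v₀ hv₀0 hv₀
  have hg₀ := h.good v₀ hv₀0 hv₀
  obtain ⟨N, hN⟩ := KM_lsc I x u h.hD hg₀
  obtain ⟨Δ₁, hΔ₁, h₁⟩ := hN (s + N) (Nat.le_add_left _ _)
  obtain ⟨Δ₂, hΔ₂, h₂⟩ := solS_usc (famA I x u c D (s + N)) v₀
  refine ⟨Δ₁ * Δ₂, by rw [map_mul]; exact mul_ne_zero hΔ₁ hΔ₂, ?_⟩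
  intro v hv0 hv hΔ
  rw [map_mul] at hΔ
  have hg := h.good v hv0 hv
  have h3 := h₁ v hg (left_ne_zero_of_mul hΔ)
  have h4 := h₂ v (right_ne_zero_of_mul hΔ)
  rw [solS_famA I x u _ hg, solS_famA I x u _ hg₀] at h4
  have h5 := h.vertex.finrank_KM_addK hg (hws v hv0 hv) N
  have h6 := h.vertex.finrank_KM_addK hg₀ (hws v₀ hv₀0 hv₀) N
  show Module.finrank ℂ (KM (El I x u v) s) = Module.finrank ℂ (KM (El I x u v₀) s)
  omega

/-- The filtration of the gradient space at the vertex is constant. -/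
theorem KPen.Wsp_const (h : KPen I x u c d D F K m) (s : ℕ)
    (hw0 : ∀ v ≠ 0, (∀ g ∈ K, eval v g = 0) → Wsp (El I x u v) 0 = ⊥)
    (hws : ∀ v ≠ 0, (∀ g ∈ K, eval v g = 0) → ∀ e, s + 1 ≤ e →
      Wsp (El I x u v) e = gradSpan I x)
    (hcard : 2 * m + c * s < n + c)
    {v₁ v₂ : Fin n → ℂ} (hv₁0 : v₁ ≠ 0) (hv₁ : ∀ g ∈ K, eval v₁ g = 0)
    (hv₂0 : v₂ ≠ 0) (hv₂ : ∀ g ∈ K, eval v₂ g = 0) (e : ℕ) :
    Wsp (El I x u v₁) e = Wsp (El I x u v₂) e := by
  obtain ⟨T, hT⟩ := h.vertex.exists_T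
  have hT' : ∀ v, ∀ w ∈ El I x u v (pt 0), (∀ l, w (T l) = 0) → w = 0 := by
    intro v
    rw [El_pt_zero]; exact hT
  induction e using Nat.strong_induction_on generalizing v₁ v₂ with
  | _ e ih =>
  rcases Nat.eq_zero_or_pos e with rfl | hepos
  · rw [hw0 v₁ hv₁0 hv₁, hw0 v₂ hv₂0 hv₂]
  rcases Nat.lt_or_ge e (s + 1) with hlt | hge
  swap
  · rw [hws v₁ hv₁0 hv₁ e hge, hws v₂ hv₂0 hv₂ e hge]
  have key : ∀ {v₁ v₂ : Fin n → ℂ} (hv₁0 : v₁ ≠ 0) (hv₁ : ∀ g ∈ K, eval v₁ g = 0)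
      (hv₂0 : v₂ ≠ 0) (hv₂ : ∀ g ∈ K, eval v₂ g = 0),
      Wsp (El I x u v₁) e ≤ Wsp (El I x u v₂) e := by
    intro v₁ v₂ hv₁0 hv₁ hv₂0 hv₂ w hw
    have hb₁ := isBundle_El I x u (h.good _ hv₁0 hv₁)
    have hb₂ := isBundle_El I x u (h.good _ hv₂0 hv₂)
    have hm : s + 1 - e ≤ s + 1 := Nat.sub_le _ _
    have hF : FrameProp {v | v ∈ {v : Fin n → ℂ | ∀ g ∈ K, eval v g = 0} ∧ v ≠ 0}
        (fun v => Hm (El I x u v) T (s + 1) (s + 1 - e) hm) := by
      have h1 := frame_of_eqs {v | v ∈ {v : Fin n → ℂ | ∀ g ∈ K, eval v g = 0} ∧ v ≠ 0}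
        (famA I x u c D (s + 1)) (Module.finrank ℂ (KM (El I x u v₁) (s + 1))) (by
          rintro v ⟨hv, hv0⟩
          rw [solS_famA I x u _ (h.good v hv0 hv)]
          exact h.finrank_KM_const (s + 1) hws hv0 hv hv₁0 hv₁)
      have h2 := h1.comap_coord (fun p : Fin (s + 1 - e) × Fin c => (Fin.castLE hm p.1, T p.2))
      intro v₀ hv₀ q hh
      obtain ⟨Δ, k, hΔ, hk, hkS⟩ := h2 v₀ hv₀ q (by
        beta_reduce
        rw [solS_famA I x u _ (h.good v₀ hv₀.2 hv₀.1)]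
        exact hh)
      refine ⟨Δ, k, hΔ, hk, ?_⟩
      intro v hv hvΔ
      have h3 := hkS v hv hvΔ
      beta_reduce at h3
      rw [solS_famA I x u _ (h.good v hv.2 hv.1)] at h3
      exact h3
    have hsum : ∀ v : Fin n → ℂ, (∀ g ∈ K, eval v g = 0) → v ≠ 0 →
        Module.finrank ℂ (Hm (El I x u v) T (s + 1) (s + 1 - e) hm) +
          ∑ j ∈ Finset.range e, Module.finrank ℂ (Wsp (El I x u v) j) =
        Module.finrank ℂ (KM (El I x u v) (s + 1)) := by
      intro v hv hv0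
      have hb := isBundle_El I x u (h.good _ hv0 hv)
      rw [finrank_KM hb T (hT' v), finrank_Hm T hb (hT' v)]
      have h1 : ∑ j ∈ Finset.range (s + 1), Module.finrank ℂ (Wsp (El I x u v) j) =
          ∑ j ∈ Finset.range (e + (s + 1 - e)), Module.finrank ℂ (Wsp (El I x u v) j) := by
        rw [show e + (s + 1 - e) = s + 1 by omega]
      rw [h1, Finset.sum_range_add, add_comm]
      congr 1
      rw [← Finset.sum_range_reflect]
      refine Finset.sum_congr rfl (fun j hj => ?_)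
      rw [Finset.mem_range] at hj
      rw [show s + 1 - 1 - (s + 1 - e - 1 - j) = e + j by omega]
    have hg : ∀ v ∈ {v | v ∈ {v : Fin n → ℂ | ∀ g ∈ K, eval v g = 0} ∧ v ≠ 0},
        Module.finrank ℂ (Hm (El I x u v) T (s + 1) (s + 1 - e) hm) =
        Module.finrank ℂ (Hm (El I x u v₁) T (s + 1) (s + 1 - e) hm) := by
      rintro v ⟨hv, hv0⟩
      have h1 := hsum v hv hv0
      have h2 := hsum v₁ hv₁ hv₁0
      have h3 := h.finrank_KM_const (s + 1) hws hv0 hv hv₁0 hv₁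
      have h4 : ∑ j ∈ Finset.range e, Module.finrank ℂ (Wsp (El I x u v) j) =
          ∑ j ∈ Finset.range e, Module.finrank ℂ (Wsp (El I x u v₁) j) := by
        refine Finset.sum_congr rfl (fun j hj => ?_)
        rw [ih j (Finset.mem_range.mp hj) hv0 hv hv₁0 hv₁]
      omega
    set α : Fin (s + 1 - e) × Fin c → ℂ := fun p =>
      if (p.1 : ℕ) = s + 1 - e - 1 then w (T p.2) else 0 with hα
    have hα₁ : α ∈ Hm (El I x u v₁) T (s + 1) (s + 1 - e) hm := by
      have h1 : s + 1 - e - 1 < s + 1 := by omega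
      obtain ⟨q, hq, hq0, hqw⟩ := KM_of_Wsp (E := El I x u v₁) (n := s + 1)
        (m := s + 1 - e - 1) h1 (w := w)
        (by rw [show s + 1 - 1 - (s + 1 - e - 1) = e by omega]; exact hw)
      refine ⟨q, hq, ?_⟩
      funext p
      obtain ⟨j, l⟩ := p
      show q (Fin.castLE hm j, T l) = α (j, l)
      rw [hα]
      simp only
      split_ifs with hj
      · rw [← hqw]
        congr 2
        exact Fin.ext hj
      · apply hq0
        have := j.2
        show (j : ℕ) < s + 1 - e - 1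
        omega
    have hα₂ : α ∈ Hm (El I x u v₂) T (s + 1) (s + 1 - e) hm := by
      refine h.kloc.constancy hF hg (fun p => (p.1 : ℕ)) (s + 1 - e - 1) ?_ ?_ ?_ α ?_
        hv₁ hv₁0 hv₂ hv₂0 hα₁
      · intro p
        have := p.1.2
        show (p.1 : ℕ) ≤ s + 1 - e - 1
        omega
      · rintro v hv hv0 t ht _ ⟨q, hq, rfl⟩
        exact ⟨_, KM_smul I x u (s + 1) ht hq, rfl⟩
      · simp only [Fintype.card_prod, Fintype.card_fin]
        have h1 : (s + 1 - e) * c ≤ c * s := by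
          rw [mul_comm]
          exact Nat.mul_le_mul_left _ (by omega)
        omega
      · intro p hp
        by_contra h1
        apply hp
        rw [hα]
        exact if_neg h1
    obtain ⟨q, hq, hqα⟩ := hα₂
    have hval : ∀ (j : Fin (s + 1 - e)) (l : Fin c), q (Fin.castLE hm j, T l) = α (j, l) :=
      fun j l => congrFun hqα (j, l)
    have h1 : s + 1 - e - 1 < s + 1 := by omega
    have hq0 : ∀ (j : Fin (s + 1)) b, (j : ℕ) < s + 1 - e - 1 → q (j, b) = 0 := by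
      apply KM_vanish T hb₂ (hT' v₂) (le_of_lt h1) hq
      intro j l hj
      have h2 := hval ⟨j, by omega⟩ l
      rw [hα] at h2
      simp only at h2
      rw [if_neg (by omega)] at h2
      rw [← h2]
      rfl
    have h3 := KM_lead hb₂ h1 hq hq0
    rw [show s + 1 - 1 - (s + 1 - e - 1) = e by omega] at h3
    have h4 : (fun b => q (⟨s + 1 - e - 1, h1⟩, b)) - w = 0 := by
      apply hT
      · apply Submodule.sub_mem
        · rw [← El_pt_zero I x u v₂]
          exact Wsp_le _ _ h3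
        · rw [← El_pt_zero I x u v₁]
          exact Wsp_le _ _ hw
      · intro l
        have h5 := hval ⟨s + 1 - e - 1, by omega⟩ l
        rw [hα] at h5
        simp only [if_true] at h5
        rw [Pi.sub_apply, sub_eq_zero, ← h5]
        rfl
    rw [← sub_eq_zero.mp h4]
    exact h3
  exact le_antisymm (key hv₁0 hv₁ hv₂0 hv₂) (key hv₂0 hv₂ hv₁0 hv₁)

end N5b

end Pool.Agent.Hartshorne
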