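import Mathlib
import Pool.Agent.HartN.Defs
import Pool.Agent.Hartshorne.Cone

/-!
One line with an adapted frame: the adapted coefficient forms have independent gradients, they
are local equations of the cone of lines, and the second fundamental form is seen by the
sections of degree zero.
-/

namespace Pool.Agent.Hartshorne

open MvPolynomial

set_option linter.unusedSectionVars false

section LineS

variable {ρ : Type*} [Fintype ρ] [DecidableEq ρ] {c d D n : ℕ} {I : Ideal (MvPolynomial ρ ℂ)}
  {x : ρ → ℂ} {u : Fin n → (ρ → ℂ)} {F : Fin c → MvPolynomial ρ ℂ} {f : Fin c → ℕ}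
  {v : Fin n → ℂ}

lemma LineS.van (h : LineS I x u c d D F f v) :
    ∀ z, ∀ g ∈ I, eval (comb (pl x u v) z) g = 0 :=
  vanish_on I h.hI h.hdim (pl x u v) (pt 0) (by rw [pl, comb_ln_one]; exact h.hx) F
    (fun i => (h.hF i).1) (by rw [pl, comb_ln_one]; exact h.hli) h.hv

lemma LineS.goodLine (h : LineS I x u c d D F f v) : GoodLine I x u c D v := by
  intro z hz
  exact h.good _ (ne_zero_of_li_cons h.hbas h.hv0 hz) (h.van z)

theorem LineS.exists_data (h : LineS I x u c d D F f v) :
    ∃ ψ a, LocData I x u c d D F f v ψ a ∧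
      ∀ z ≠ 0, LinearIndependent ℂ (fun i => rowEval z (ψ i)) := by
  classical
  have hgl := h.goodLine
  have hb := isBundle_El I x u hgl
  choose ψ hψ1 hψ2 hψ3 using fun i => mem_Wsp.mp (h.ad1 i)
  have hψli := li_of_adapted hb (fun i => grad x (F i)) f h.hli h.ad2 ψ hψ1 hψ2 hψ3
  have hgen : ∀ i, ∃ a : Fin c → MvPolynomial (Fin 2) ℂ,
      ∑ i', a i' • ψ i' = gRow (pl x u v) (F i) := by
    intro i
    refine (Submodule.mem_span_range_iff_exists_fun _).mp (mem_span_of_li hb ψ hψ1 hψ2
      (fun z hz => hψli z hz) ?_)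
    intro z hz
    rw [rowEval_gRow]
    exact grad_mem_gradSpan (h.hF i).1 _
  choose a ha using hgen
  have ha' : ∀ z i, grad (comb (pl x u v) z) (F i) = ∑ i', eval z (a i i') • rowEval z (ψ i') := by
    intro z i
    rw [← rowEval_gRow, ← ha i, rowEval_sum]
    exact Finset.sum_congr rfl (fun i' _ => rowEval_smul _ _ _)
  refine ⟨ψ, a, ⟨h.hI, h.hhom, h.hdim, h.hD, h.hx, h.hF, h.hli, h.van, hgl, hψ1,
    fun z hz i => hψ2 i z hz, ha', ?_⟩, fun z hz => hψli z hz⟩
  intro i i'
  have h1 := ha' (pt 0) i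
  rw [pl, comb_ln_one] at h1
  simp only [hψ3] at h1
  have h2 : ∑ i', (eval (pt 0) (a i i') - if i = i' then 1 else 0) • grad x (F i') = 0 := by
    simp only [sub_smul, Finset.sum_sub_distrib, ite_smul, one_smul, zero_smul]
    rw [Finset.sum_ite_eq, if_pos (Finset.mem_univ _), ← h1, sub_self]
  exact sub_eq_zero.mp (Fintype.linearIndependent_iff.mp h.hli _ h2 i')

/-- Coefficients of a splitting along a line of the cone. -/
theorem LineS.exists_theta (h : LineS I x u c d D F f v)
    {ψ : Fin c → ρ → MvPolynomial (Fin 2) ℂ} {a : Fin c → Fin c → MvPolynomial (Fin 2) ℂ}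
    (hψ : LocData I x u c d D F f v ψ a)
    (hψli : ∀ z ≠ 0, LinearIndependent ℂ (fun i => rowEval z (ψ i))) :
    ∃ θ : (Σ i : Fin c, Fin (f i + 1)) → (Fin n → ℂ), LinearIndependent ℂ θ ∧
      (∀ z i, ust u (rowEval z (ψ i)) =
        ∑ l : Fin (f i + 1), (z 0 ^ (f i - (l : ℕ)) * z 1 ^ (l : ℕ)) • θ ⟨i, l⟩) ∧
      ∀ i j, grad v (cf x u (j + 1) (F i)) = ∑ q : (Σ i : Fin c, Fin (f i + 1)),
        (if (q.2 : ℕ) ≤ j then (deh (a i q.1)).coeff (j - (q.2 : ℕ)) else 0) • θ q := by
  classical
  have hex : ∀ i, ∃ q : Fin (f i + 1) × ρ → ℂ, arr (f i + 1) q = ψ i := fun i =>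
    exists_arr (Nat.succ_pos _) (by rw [Nat.add_sub_cancel]; exact hψ.hψ i)
  choose q hq using hex
  have hrow : ∀ z i b, rowEval z (ψ i) b = ∑ l : Fin (f i + 1),
      z 0 ^ (f i - (l : ℕ)) * z 1 ^ (l : ℕ) * q i (l, b) := by
    intro z i b
    rw [← hq i, rowEval_arr]
    refine Finset.sum_congr rfl (fun l _ => ?_)
    rw [Nat.add_sub_cancel]
  set θ : (Σ i : Fin c, Fin (f i + 1)) → (Fin n → ℂ) := fun p => ust u (fun b => q p.1 (p.2, b))
    with hθ
  have hust : ∀ z i, ust u (rowEval z (ψ i)) =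
        ∑ l : Fin (f i + 1), (z 0 ^ (f i - (l : ℕ)) * z 1 ^ (l : ℕ)) • θ ⟨i, l⟩ := by
    intro z i
    have h1 : rowEval z (ψ i) = ∑ l : Fin (f i + 1), (z 0 ^ (f i - (l : ℕ)) * z 1 ^ (l : ℕ)) •
        (fun b => q i (l, b)) := by
      funext b
      rw [hrow, Finset.sum_apply]
      rfl
    rw [h1, map_sum]
    exact Finset.sum_congr rfl (fun l _ => map_smul _ _ _)
  refine ⟨θ, ?_, hust, ?_⟩
  · -- independence
    have hqx : ∀ i (l : Fin (f i + 1)), (fun b => q i (l, b)) ⬝ᵥ x = 0 := by
      intro i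
      have h1 := poly_coeff_zero (fun l : Fin (f i + 1) => (fun b => q i (l, b)) ⬝ᵥ x) (by
        intro t
        have hpt : (pt t : Fin 2 → ℂ) ≠ 0 := by
          intro h1
          exact one_ne_zero (congrFun h1 0)
        have h2 : rowEval (pt t) (ψ i) ⬝ᵥ x = 0 := by
          obtain ⟨g, hg, -, hgr⟩ := exists_grad_eq (hψ.good _ hpt) (hψ.hψE _ hpt i)
          rw [← hgr]
          exact grad_dot_line (fun z => hψ.van z g hg) _
        rw [← h2, dotProduct]
        simp only [hrow, dotProduct, Finset.mul_sum, Finset.sum_mul]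
        rw [Finset.sum_comm]
        refine Finset.sum_congr rfl (fun b _ => Finset.sum_congr rfl (fun l _ => ?_))
        simp [pt]
        ring)
      intro l
      exact congrFun h1 l
    rw [Fintype.linearIndependent_iff]
    intro μ hμ
    have hlam := coeff_li f q (by
      intro z hz
      simp only [hq]
      exact hψli z hz) (by
      intro a' ha'
      obtain ⟨b, hb⟩ := h.free v h.hv a' (by
        intro i
        have h1 := hψ.ha (pt 0) i
        rw [pl, comb_ln_one] at h1
        rw [h1]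
        simp only [hψ.ha1, ite_smul, one_smul, zero_smul]
        rw [Finset.sum_ite_eq, if_pos (Finset.mem_univ _), ← hq i]
        exact ha' i)
      refine ⟨b, fun z i => ?_⟩
      by_cases hz : z = 0
      · rw [hz]
        simp
      · rw [hq i]
        obtain ⟨g, hg, -, hgr⟩ := exists_grad_eq (hψ.good z hz) (hψ.hψE z hz i)
        rw [← hgr]
        exact hb g hg z) (fun i l => μ ⟨i, l⟩) (by
      have h1 : (fun b => ∑ i, ∑ j : Fin (f i + 1), μ ⟨i, j⟩ * q i (j, b)) = 0 := by
        apply eq_zero_of_dot h.hbas h.hn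
        · rw [dotProduct]
          simp only [Finset.sum_mul]
          rw [Finset.sum_comm]
          refine Finset.sum_eq_zero (fun i _ => ?_)
          rw [Finset.sum_comm]
          refine Finset.sum_eq_zero (fun l _ => ?_)
          have h2 := hqx i l
          rw [dotProduct] at h2
          simp only [mul_assoc]
          rw [← Finset.mul_sum, h2, mul_zero]
        · have h2 : (fun b => ∑ i, ∑ j : Fin (f i + 1), μ ⟨i, j⟩ * q i (j, b)) =
              ∑ p : (Σ i : Fin c, Fin (f i + 1)), μ p • (fun b => q p.1 (p.2, b)) := by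
            funext b
            rw [Finset.sum_apply, Fintype.sum_sigma]
            rfl
          rw [h2, map_sum, ← hμ]
          exact Finset.sum_congr rfl (fun p _ => map_smul _ _ _)
      intro b
      exact congrFun h1 b)
    rintro ⟨i, l⟩
    exact congrFun (congrFun hlam i) l
  · -- the relation
    intro i j
    funext k
    have hpoly : ∑ j ∈ Finset.range d, Polynomial.C (grad v (cf x u (j + 1) (F i)) k) *
        Polynomial.X ^ j = ∑ p : (Σ i : Fin c, Fin (f i + 1)),
          deh (a i p.1) * (Polynomial.C (θ p k) * Polynomial.X ^ (p.2 : ℕ)) := by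
      apply Polynomial.funext
      intro t
      have h1 : ust u (grad (comb (pl x u v) (pt t)) (F i)) k =
          ∑ j ∈ Finset.range d, t ^ j * grad v (cf x u (j + 1) (F i)) k := by
        rw [ust_apply]
        have h2 : ∀ b, grad (comb (pl x u v) (pt t)) (F i) b = ∑ j ∈ Finset.range d,
            t ^ j * eval v (cf x u j (pderiv b (F i))) := by
          intro b
          rw [grad_apply, pl, eval_line x u ((h.hF i).2.pderiv), Nat.sub_add_cancel h.hd]
          refine Finset.sum_congr rfl (fun j _ => ?_)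
          simp [pt]
        simp only [h2, grad_cf, Finset.mul_sum]
        rw [Finset.sum_comm]
        refine Finset.sum_congr rfl (fun j _ => Finset.sum_congr rfl (fun b _ => by ring))
      have h3 : ust u (grad (comb (pl x u v) (pt t)) (F i)) k =
          ∑ i', eval (pt t) (a i i') * ∑ l : Fin (f i' + 1), t ^ (l : ℕ) * θ ⟨i', l⟩ k := by
        rw [hψ.ha, map_sum, Finset.sum_apply]
        refine Finset.sum_congr rfl (fun i' _ => ?_)
        rw [map_smul, Pi.smul_apply, smul_eq_mul, hust, Finset.sum_apply]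
        congr 1
        refine Finset.sum_congr rfl (fun l _ => ?_)
        rw [Pi.smul_apply, smul_eq_mul]
        simp [pt]
      rw [Polynomial.eval_finsetSum, Polynomial.eval_finsetSum, Fintype.sum_sigma]
      have h4 : ∑ j ∈ Finset.range d, Polynomial.eval t (Polynomial.C
          (grad v (cf x u (j + 1) (F i)) k) * Polynomial.X ^ j) =
          ∑ j ∈ Finset.range d, t ^ j * grad v (cf x u (j + 1) (F i)) k := by
        refine Finset.sum_congr rfl (fun j _ => ?_)
        rw [Polynomial.eval_mul, Polynomial.eval_C, Polynomial.eval_pow, Polynomial.eval_X,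
          mul_comm]
      rw [h4, ← h1, h3]
      refine Finset.sum_congr rfl (fun i' _ => ?_)
      rw [Finset.mul_sum]
      refine Finset.sum_congr rfl (fun l _ => ?_)
      rw [Polynomial.eval_mul, Polynomial.eval_mul, Polynomial.eval_C, Polynomial.eval_pow,
        Polynomial.eval_X, eval_deh]
      ring
    have h5 := congrArg (fun P => Polynomial.coeff P j) hpoly
    simp only [Polynomial.finsetSum_coeff, Polynomial.coeff_C_mul_X_pow] at h5
    rw [Finset.sum_ite_eq (Finset.range d) j] at h5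
    rw [Finset.sum_apply]
    have h6 : grad v (cf x u (j + 1) (F i)) k =
        if j ∈ Finset.range d then grad v (cf x u (j + 1) (F i)) k else 0 := by
      split_ifs with hj
      · rfl
      · rw [Finset.mem_range, not_lt] at hj
        have h7 : cf x u (j + 1) (F i) = 0 := by
          rw [cf]
          apply homogeneousComponent_eq_zero
          have h2 := totalDegree_aff_le x u (F i)
          have h3 := (h.hF i).2.totalDegree_le
          omega
        rw [h7, map_zero]
        rfl
    rw [h6, h5]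
    refine Finset.sum_congr rfl (fun p _ => ?_)
    rw [← mul_assoc, mul_comm (deh (a i p.1)), mul_assoc, Polynomial.coeff_C_mul,
      Polynomial.coeff_mul_X_pow', Pi.smul_apply, smul_eq_mul]
    split_ifs
    · ring
    · ring


lemma LineS.sig_ext {p q : (Σ i : Fin c, Fin (f i + 1))} (h1 : p.1 = q.1)
    (h2 : (p.2 : ℕ) = (q.2 : ℕ)) : p = q := by
  obtain ⟨i, j⟩ := p
  obtain ⟨i', j'⟩ := q
  simp only at h1 h2
  subst h1
  have h3 : j = j' := Fin.ext h2
  rw [h3]

/-- The adapted coefficient forms have independent gradients. -/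
theorem LineS.li (h : LineS I x u c d D F f v) :
    LinearIndependent ℂ (fun p => grad v (yF x u F f p)) := by
  classical
  obtain ⟨ψ, a, hψ, hψli⟩ := h.exists_data
  obtain ⟨θ, hθ, hθψ, hθF⟩ := h.exists_theta hψ hψli
  have hA : ∀ i i', (deh (a i i')).coeff 0 = if i = i' then 1 else 0 := by
    intro i i'
    rw [Polynomial.coeff_zero_eq_eval_zero, eval_deh, hψ.ha1]
  set M : (Σ i : Fin c, Fin (f i + 1)) → (Σ i : Fin c, Fin (f i + 1)) → ℂ := fun p q =>
    if (q.2 : ℕ) ≤ (p.2 : ℕ) then (deh (a p.1 q.1)).coeff ((p.2 : ℕ) - (q.2 : ℕ)) else 0 with hM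
  have hM1 : ∀ p, M p p = 1 := by
    intro p
    simp only [hM]
    rw [if_pos le_rfl, Nat.sub_self, hA, if_pos rfl]
  have hM2 : ∀ p q, q ≠ p → (p.2 : ℕ) ≤ (q.2 : ℕ) → M p q = 0 := by
    intro p q hqp hle
    simp only [hM]
    split_ifs with h1
    · have h2 : (p.2 : ℕ) = (q.2 : ℕ) := le_antisymm hle h1
      rw [h2, Nat.sub_self, hA, if_neg]
      intro h3
      exact hqp (LineS.sig_ext h3 h2).symm
    · rfl
  have hy : ∀ p, grad v (yF x u F f p) = ∑ q, M p q • θ q := by
    intro p
    rw [yF, hθF]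
  exact li_of_level (fun p => (p.2 : ℕ)) θ hθ M (fun p => by rw [hM1]; exact one_ne_zero) hM2
    _ hy

/-- The adapted coefficient forms are local equations of the cone of lines. -/
theorem LineS.loc_eq (h : LineS I x u c d D F f v) :
    ∃ q, eval v q ≠ 0 ∧ ∀ g ∈ allF x u F, q * g ∈ Ideal.span (Set.range (yF x u F f)) := by
  obtain ⟨ψ, a, hψ, -⟩ := h.exists_data
  obtain ⟨q, hq, hqm⟩ := hψ.loc_eq
  refine ⟨q, hq, fun g hg => ?_⟩
  refine Submodule.span_induction
    (p := fun g _ => q * g ∈ Ideal.span (Set.range (yF x u F f))) ?_ ?_ ?_ ?_ hg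
  · rintro _ ⟨p, rfl⟩
    exact hqm p.1 p.2
  · rw [mul_zero]
    exact Ideal.zero_mem _
  · intro b b' _ _ hb hb'
    rw [mul_add]
    exact Ideal.add_mem _ hb hb'
  · intro r b _ hb
    rw [smul_eq_mul, mul_left_comm]
    exact Ideal.mul_mem_left _ _ hb

lemma cf_sum_C (j : ℕ) (μ : Fin c → ℂ) :
    cf x u j (∑ i, C (μ i) * F i) = ∑ i, μ i • cf x u j (F i) := by
  rw [cf, map_sum, map_sum]
  refine Finset.sum_congr rfl (fun i _ => ?_)
  rw [← smul_eq_C_mul, map_smul, map_smul, cf]

/-- The second fundamental form and the sections of degree zero. -/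
theorem LineS.w0_iff (h : LineS I x u c d D F f v) (μ : Fin c → ℂ) :
    grad v (cf x u 2 (∑ i, C (μ i) * F i)) ∈
      Submodule.span ℂ (Set.range fun i => grad v (cf x u 1 (F i))) ↔
      ∀ i, 0 < f i → μ i = 0 := by
  classical
  obtain ⟨ψ, a, hψ, hψli⟩ := h.exists_data
  obtain ⟨θ, hθ, hθψ, hθF⟩ := h.exists_theta hψ hψli
  have hA : ∀ i i', (deh (a i i')).coeff 0 = if i = i' then 1 else 0 := by
    intro i i'
    rw [Polynomial.coeff_zero_eq_eval_zero, eval_deh, hψ.ha1]
  have h1 : ∀ i, grad v (cf x u 1 (F i)) = θ ⟨i, 0⟩ := by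
    intro i
    have h2 := hθF i 0
    rw [zero_add] at h2
    rw [h2, Finset.sum_eq_single (⟨i, 0⟩ : (Σ i : Fin c, Fin (f i + 1)))]
    · rw [if_pos (by simp), Nat.zero_sub, hA, if_pos rfl, one_smul]
    · intro q _ hq
      split_ifs with h3
      · have h4 : (q.2 : ℕ) = 0 := Nat.le_zero.mp h3
        rw [h4, Nat.sub_self, hA, if_neg, zero_smul]
        intro h5
        apply hq
        exact LineS.sig_ext h5.symm (by rw [h4]; rfl)
      · rw [zero_smul]
    · intro h; exact absurd (Finset.mem_univ _) h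
  set R : (Σ i : Fin c, Fin (f i + 1)) → ℂ := fun q =>
    ∑ i, μ i * (if (q.2 : ℕ) ≤ 1 then (deh (a i q.1)).coeff (1 - (q.2 : ℕ)) else 0) with hR
  have h2 : grad v (cf x u 2 (∑ i, C (μ i) * F i)) = ∑ q, R q • θ q := by
    rw [cf_sum_C, map_sum]
    have h3 : ∀ i, grad v (μ i • cf x u 2 (F i)) = ∑ q : (Σ i : Fin c, Fin (f i + 1)),
        (μ i * (if (q.2 : ℕ) ≤ 1 then (deh (a i q.1)).coeff (1 - (q.2 : ℕ)) else 0)) • θ q := by
      intro i
      rw [map_smul, hθF i 1, Finset.smul_sum]
      exact Finset.sum_congr rfl (fun q _ => smul_smul _ _ _)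
    rw [Finset.sum_congr rfl (fun i _ => h3 i), Finset.sum_comm]
    refine Finset.sum_congr rfl (fun q _ => ?_)
    rw [hR, Finset.sum_smul]
  have hRone : ∀ q : (Σ i : Fin c, Fin (f i + 1)), (q.2 : ℕ) = 1 → R q = μ q.1 := by
    intro q hq
    simp only [hR]
    rw [Finset.sum_eq_single q.1]
    · rw [hq, if_pos le_rfl, Nat.sub_self, hA, if_pos rfl, mul_one]
    · intro i _ hi
      rw [hq, if_pos le_rfl, Nat.sub_self, hA, if_neg hi, mul_zero]
    · intro h; exact absurd (Finset.mem_univ _) h
  have hRbig : ∀ q : (Σ i : Fin c, Fin (f i + 1)), 1 < (q.2 : ℕ) → R q = 0 := by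
    intro q hq
    simp only [hR]
    refine Finset.sum_eq_zero (fun i _ => ?_)
    rw [if_neg (by omega), mul_zero]
  constructor
  · intro hmem i hi
    obtain ⟨b, hb⟩ := (Submodule.mem_span_range_iff_exists_fun ℂ).mp hmem
    have h3 : ∑ q : (Σ i : Fin c, Fin (f i + 1)),
        (R q - (if (q.2 : ℕ) = 0 then b q.1 else 0)) • θ q = 0 := by
      simp only [sub_smul, Finset.sum_sub_distrib]
      rw [← h2, sub_eq_zero, ← hb, Fintype.sum_sigma]
      refine Finset.sum_congr rfl (fun i' _ => ?_)
      rw [h1, Finset.sum_eq_single (0 : Fin (f i' + 1))]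
      · simp
      · intro l _ hl
        have h4 : (l : ℕ) ≠ 0 := fun h5 => hl (Fin.ext h5)
        rw [if_neg h4, zero_smul]
      · intro h; exact absurd (Finset.mem_univ _) h
    have h4 := Fintype.linearIndependent_iff.mp hθ _ h3 ⟨i, ⟨1, by omega⟩⟩
    simp only at h4
    rw [if_neg one_ne_zero, sub_zero, hRone _ rfl] at h4
    exact h4
  · intro hμ
    rw [h2]
    refine Submodule.sum_mem _ (fun q _ => ?_)
    rcases Nat.lt_trichotomy (q.2 : ℕ) 1 with hq | hq | hq
    · have hq0 : (q.2 : ℕ) = 0 := by omega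
      refine Submodule.smul_mem _ _ (Submodule.subset_span ⟨q.1, ?_⟩)
      simp only
      rw [h1]
      congr 1
      exact LineS.sig_ext rfl (by rw [hq0]; rfl)
    · have h5 := q.2.2
      rw [hRone q hq, hμ q.1 (by omega), zero_smul]
      exact Submodule.zero_mem _
    · rw [hRbig q hq, zero_smul]
      exact Submodule.zero_mem _

lemma LineS.mem_w0 (h : LineS I x u c d D F f v) (μ : Fin c → ℂ) (hμ : ∀ i, 0 < f i → μ i = 0) :
    grad x (∑ i, C (μ i) * F i) ∈ Wsp (El I x u v) 0 := by
  rw [map_sum]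
  refine Submodule.sum_mem _ (fun i _ => ?_)
  rw [← smul_eq_C_mul, map_smul]
  rcases Nat.eq_zero_or_pos (f i) with h0 | h0
  · have h1 := h.ad1 i
    rw [h0] at h1
    exact Submodule.smul_mem _ _ h1
  · rw [hμ i h0, zero_smul]
    exact Submodule.zero_mem _

end LineS

end Pool.Agent.Hartshorne
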