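import Mathlib
import Pool.Agent.HartN.LineS
import Pool.Agent.Hartshorne.BuildZ

/-!
Components of the cone of lines through a point.
-/

namespace Pool.Agent.Hartshorne

open MvPolynomial

set_option linter.unusedSectionVars false

section N3

variable {ρ : Type*} [Fintype ρ] [DecidableEq ρ] {c d D n : ℕ} {I : Ideal (MvPolynomial ρ ℂ)}
  {x : ρ → ℂ} {u : Fin n → (ρ → ℂ)} {F : Fin c → MvPolynomial ρ ℂ} {f : Fin c → ℕ}
  {v : Fin n → ℂ} {K : Ideal (MvPolynomial (Fin n) ℂ)} {m : ℕ}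

private lemma PtS.x_ne_zero (h : PtS I x u c d D F) : x ≠ 0 := by
  have h1 := h.hbas.ne_zero 0
  rwa [Fin.cons_zero] at h1

private lemma PtS.fr (h : PtS I x u c d D F) : Module.finrank ℂ (gradSpan I x) = c :=
  (h.good x h.x_ne_zero h.hx).2

private lemma PtS.vertex (h : PtS I x u c d D F) : Vertex I x c d F :=
  ⟨h.hd, h.hF, h.hli, h.fr⟩

private lemma PtS.van (h : PtS I x u c d D F) {v : Fin n → ℂ}
    (hv : ∀ i z, eval (comb (pl x u v) z) (F i) = 0) :
    ∀ z, ∀ g ∈ I, eval (comb (pl x u v) z) g = 0 :=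
  vanish_on I h.hI h.hdim (pl x u v) (pt 0) (by rw [pl, comb_ln_one]; exact h.hx) F
    (fun i => (h.hF i).1) (by rw [pl, comb_ln_one]; exact h.hli) hv

private lemma PtS.goodLine (h : PtS I x u c d D F) {v : Fin n → ℂ} (hv0 : v ≠ 0)
    (hv : ∀ i z, eval (comb (pl x u v) z) (F i) = 0) : GoodLine I x u c D v := by
  intro z hz
  exact h.good _ (ne_zero_of_li_cons h.hbas hv0 hz) (h.van hv z)

/-- The lines through the point, in terms of coefficient forms. -/
lemma PtS.cone_iff (h : PtS I x u c d D F) (v : Fin n → ℂ) :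
    (∀ i z, eval (comb (pl x u v) z) (F i) = 0) ↔ ∀ g ∈ allF x u F, eval v g = 0 := by
  constructor
  · intro hv g hg
    have hle : allF x u F ≤ RingHom.ker (eval v) := by
      rw [allF, Ideal.span_le]
      rintro _ ⟨⟨i, j⟩, rfl⟩
      rw [SetLike.mem_coe, RingHom.mem_ker]
      show eval v (cf x u j (F i)) = 0
      rcases Nat.eq_zero_or_pos j with rfl | hj
      · rw [cf, homogeneousComponent_zero, eval_C, ← eval_zero_eq_coeff, eval_aff, map_zero,
          add_zero]
        exact h.hx _ (h.hF i).1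
      · by_cases hjd : j ≤ d
        · have h1 := (pencil_iff x u (h.hF i).2 (h.hx _ (h.hF i).1) v).mpr (hv i)
            ⟨j - 1, by omega⟩
          have h2 : ((⟨j - 1, by omega⟩ : Fin d) : ℕ) + 1 = j := by
            show j - 1 + 1 = j
            omega
          rwa [h2] at h1
        · rw [cf, homogeneousComponent_eq_zero, map_zero]
          have h1 := totalDegree_aff_le x u (F i)
          have h2 := (h.hF i).2.totalDegree_le
          omega
    exact hle hg
  · intro hv i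
    exact (pencil_iff x u (h.hF i).2 (h.hx _ (h.hF i).1) v).mp
      (fun j => hv _ (cf_mem_allF x u F i _))

private lemma PtS.hgen (h : PtS I x u c d D F) :
    ∀ g ∈ I, ∃ q, eval x q ≠ 0 ∧ q * g ∈ Ideal.span (Set.range F) :=
  (point_case I h.hI x h.hx c F (fun i => (h.hF i).1) h.hli).2 h.hdim

private lemma PtS.allF_le {F' : Fin c → MvPolynomial ρ ℂ} (h : PtS I x u c d D F)
    (h' : PtS I x u c d D F') : allF x u F' ≤ allF x u F := by
  rw [allF, Ideal.span_le]
  rintro _ ⟨⟨i, j⟩, rfl⟩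
  exact allF_HI x u F _ (aff_mem_allF x u F (h.hgen _ (h'.hF i).1)) j

/-- All frames give the same ideal of the cone of lines. -/
lemma PtS.allF_eq {F' : Fin c → MvPolynomial ρ ℂ} (h : PtS I x u c d D F)
    (h' : PtS I x u c d D F') : allF x u F' = allF x u F :=
  le_antisymm (h.allF_le h') (h'.allF_le h)

/-- Adapted frames exist at each line. -/
theorem PtS.exists_line (h : PtS I x u c d D F) (hv0 : v ≠ 0)
    (hv : ∀ i z, eval (comb (pl x u v) z) (F i) = 0) :
    ∃ (A : Fin c → Fin c → ℂ) (f : Fin c → ℕ),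
      LineS I x u c d D (fun i => ∑ j, C (A i j) * F j) f v := by
  classical
  have hgl := h.goodLine hv0 hv
  obtain ⟨w, f, hwli, hwW, hwspan⟩ := exists_adapted (isBundle_El I x u hgl)
  have hwg : ∀ i, w i ∈ Submodule.span ℂ (Set.range fun i => grad x (F i)) := by
    intro i
    rw [h.vertex.span_eq, ← El_pt_zero I x u v]
    exact Wsp_le _ _ (hwW i)
  choose A hA using fun i => (Submodule.mem_span_range_iff_exists_fun _).mp (hwg i)
  have hFI : ∀ i, (∑ j, C (A i j) * F j) ∈ I ∧ (∑ j, C (A i j) * F j).IsHomogeneous d := by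
    intro i
    refine ⟨Ideal.sum_mem _ (fun j _ => Ideal.mul_mem_left _ _ (h.hF j).1), ?_⟩
    refine IsHomogeneous.sum _ _ _ (fun j _ => ?_)
    exact (h.hF j).2.C_mul _
  have hFg : ∀ i, grad x (∑ j, C (A i j) * F j) = w i := by
    intro i
    rw [grad_sum_C, hA]
  have hli : LinearIndependent ℂ (fun i => grad x (∑ j, C (A i j) * F j)) := by
    have h1 : (fun i => grad x (∑ j, C (A i j) * F j)) = w := funext hFg
    rw [h1]
    exact hwli
  have hback : ∀ v : Fin n → ℂ, (∀ i z, eval (comb (pl x u v) z) (∑ j, C (A i j) * F j) = 0) →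
      ∀ z, ∀ g ∈ I, eval (comb (pl x u v) z) g = 0 := by
    intro v hv
    exact vanish_on I h.hI h.hdim (pl x u v) (pt 0) (by rw [pl, comb_ln_one]; exact h.hx)
      (fun i => ∑ j, C (A i j) * F j) (fun i => (hFI i).1)
      (by rw [pl, comb_ln_one]; exact hli) hv
  have hspan : ∀ j, grad x (F j) ∈ Submodule.span ℂ (Set.range w) := by
    intro j
    rw [span_eq_of_li h.fr w hwli (fun i => by
      rw [← El_pt_zero I x u v]
      exact Wsp_le _ _ (hwW i))]
    exact grad_mem_gradSpan (h.hF j).1 x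
  refine ⟨A, f, ?_⟩
  refine
    { hI := h.hI
      hhom := h.hhom
      hdim := h.hdim
      hD := h.hD
      hd := h.hd
      hx := h.hx
      hF := hFI
      hli := hli
      good := h.good
      hbas := h.hbas
      hn := h.hn
      free := ?_
      hv0 := hv0
      hv := ?_
      ad1 := ?_
      ad2 := ?_ }
  · intro v' hv' a ha
    refine h.free v' (fun i z => hback v' hv' z _ (h.hF i).1) a (fun j => ?_)
    obtain ⟨t, ht⟩ := (Submodule.mem_span_range_iff_exists_fun _).mp (hspan j)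
    rw [← ht, sum_dotProduct]
    refine Finset.sum_eq_zero (fun i _ => ?_)
    rw [smul_dotProduct, ← hFg, ha i, smul_zero]
  · intro i z
    exact h.van hv z _ (hFI i).1
  · intro i
    rw [hFg]
    exact hwW i
  · intro e y hy
    obtain ⟨a, ha, hay⟩ := hwspan e y hy
    refine ⟨a, ha, ?_⟩
    rw [hay]
    exact Finset.sum_congr rfl (fun i _ => by rw [hFg])

private lemma le_of_natCast_add_le {x : WithBot ℕ∞} {n a b : ℕ}
    (h1 : x + (a : WithBot ℕ∞) ≤ (n : WithBot ℕ∞))
    (h2 : (n : WithBot ℕ∞) ≤ x + (b : WithBot ℕ∞)) : a ≤ b := by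
  induction x using WithBot.recBotCoe with
  | bot =>
    rw [WithBot.bot_add, le_bot_iff] at h2
    exact absurd h2 (WithBot.natCast_ne_bot _)
  | coe x =>
    induction x using ENat.recTopCoe with
    | top =>
      have h3 : ((⊤ : ℕ∞) : WithBot ℕ∞) + (a : WithBot ℕ∞) = ((⊤ : ℕ∞) : WithBot ℕ∞) := by
        have h4 : ((⊤ : ℕ∞) : WithBot ℕ∞) + (((a : ℕ) : ℕ∞) : WithBot ℕ∞) =
          (((⊤ : ℕ∞) + ((a : ℕ) : ℕ∞) : ℕ∞) : WithBot ℕ∞) := rfl
        rw [top_add] at h4
        exact h4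
      rw [h3] at h1
      have h5 : (⊤ : ℕ∞) ≤ ((n : ℕ) : ℕ∞) := by exact_mod_cast h1
      exact absurd (top_le_iff.mp h5) (ENat.natCast_ne_top n)
    | coe x =>
      have h3 : ((x + a : ℕ) : WithBot ℕ∞) ≤ ((n : ℕ) : WithBot ℕ∞) := by
        push_cast
        exact h1
      have h4 : ((n : ℕ) : WithBot ℕ∞) ≤ ((x + b : ℕ) : WithBot ℕ∞) := by
        push_cast
        exact h2
      have h5 : x + a ≤ n := by exact_mod_cast h3
      have h6 : n ≤ x + b := by exact_mod_cast h4
      omega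

/-- Components of the cone of lines. -/
theorem PtS.exists_comp (h : PtS I x u c d D F) (K' : Ideal (MvPolynomial (Fin n) ℂ))
    (hK' : K'.IsPrime) (hKa : allF x u F ≤ K') (m' : ℕ)
    (hdim : (n : WithBot ℕ∞) ≤ ringKrullDim (MvPolynomial (Fin n) ℂ ⧸ K') +
      (m' : WithBot ℕ∞)) (hm' : m' < n) :
    ∃ K m, m ≤ m' ∧ CompS I x u c d D F K m ∧ ∃ v ≠ 0, ∀ g ∈ K, eval v g = 0 := by
  classical
  obtain ⟨K, hKmin, hKK'⟩ := Ideal.exists_minimalPrimes_le hKa
  have hKp : K.IsPrime := hKmin.1.1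
  have hKa' : allF x u F ≤ K := hKmin.1.2
  have hminP : ∀ P : Ideal (MvPolynomial (Fin n) ℂ), P.IsPrime → allF x u F ≤ P → P ≤ K →
      P = K := fun P hP h1 h2 => le_antisymm h2 (hKmin.2 ⟨hP, h1⟩ h2)
  have hcore : hcore K = K := by
    apply hminP _ (hcore_isPrime hKp) _ (hcore_le K)
    intro g hg
    rw [mem_hcore]
    exact fun e => hKa' (allF_HI x u F g hg e)
  have hKh : HI K := by
    intro g hg e
    rw [← hcore] at hg ⊢
    exact hcore_hom K g hg e
  have hdimK : (n : WithBot ℕ∞) ≤ ringKrullDim (MvPolynomial (Fin n) ℂ ⧸ K) +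
      (m' : WithBot ℕ∞) := by
    refine hdim.trans (add_le_add_left ?_ _)
    exact ringKrullDim_le_of_surjective (Ideal.Quotient.factor hKK')
      (Ideal.Quotient.factor_surjective hKK')
  have key : ∀ (F' : Fin c → MvPolynomial ρ ℂ) (f : Fin c → ℕ) (v : Fin n → ℂ),
      LineS I x u c d D F' f v → (∀ g ∈ K, eval v g = 0) →
      (n : WithBot ℕ∞) ≤ ringKrullDim (MvPolynomial (Fin n) ℂ ⧸ K) +
        ((∑ i, (f i + 1) : ℕ) : WithBot ℕ∞) ∧
      ringKrullDim (MvPolynomial (Fin n) ℂ ⧸ K) +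
        ((∑ i, (f i + 1) : ℕ) : WithBot ℕ∞) ≤ (n : WithBot ℕ∞) ∧
      ∀ g ∈ K, ∃ q, eval v q ≠ 0 ∧ q * g ∈ Ideal.span (Set.range (yF x u F' f)) := by
    intro F' f v hL hvK
    have hcard : Fintype.card (Σ i : Fin c, Fin (f i + 1)) = ∑ i, (f i + 1) := by
      rw [Fintype.card_sigma]
      exact Finset.sum_congr rfl (fun i _ => Fintype.card_fin _)
    have hFF : allF x u F' = allF x u F := h.allF_eq hL.toPtS
    have hyK : ∀ p, yF x u F' f p ∈ K := by
      intro p
      apply hKa'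
      rw [← hFF]
      exact cf_mem_allF x u F' p.1 _
    have hsK : Ideal.span (Set.range (yF x u F' f)) ≤ K := by
      rw [Ideal.span_le]
      rintro _ ⟨p, rfl⟩
      exact hyK p
    obtain ⟨P, hP, hyP, hPv, hdP⟩ := exists_prime_at (yF x u F' f) v (fun p => hvK _ (hyK p))
    have hsP : Ideal.span (Set.range (yF x u F' f)) ≤ P := by
      rw [Ideal.span_le]
      rintro _ ⟨p, rfl⟩
      exact hyP p
    have hpc := point_case' P hP v hPv (yF x u F' f) hyP hL.li
    obtain ⟨q, hq, hqm⟩ := hL.loc_eq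
    have haP : allF x u F ≤ P := by
      intro g hg
      rw [← hFF] at hg
      exact (hP.mem_or_mem (hsP (hqm g hg))).resolve_left (fun h1 => hq (hPv _ h1))
    have hPK : P ≤ K := by
      intro g hg
      obtain ⟨w, hw, hwm⟩ := hpc.2 hdP g hg
      exact (hKp.mem_or_mem (hsK hwm)).resolve_left (fun h1 => hw (hvK _ h1))
    have hPeq := hminP P hP haP hPK
    subst hPeq
    rw [Fintype.card_fin, hcard] at hdP
    have h1 := hpc.1
    rw [Fintype.card_fin, hcard] at h1
    refine ⟨hdP, h1, hpc.2 ?_⟩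
    rw [Fintype.card_fin, hcard]
    exact hdP
  -- a point of the component
  obtain ⟨v₀, hv₀, hv₀K⟩ : ∃ v : Fin n → ℂ, v ≠ 0 ∧ ∀ g ∈ K, eval v g = 0 := by
    by_contra hcon
    push Not at hcon
    have h1 := dim_le_of_no_zero (r := 0) (0 : (Fin n → ℂ) →ₗ[ℂ] (Fin 0 → ℂ)) K hKh (by
      intro p _ hp
      by_contra hp0
      obtain ⟨g, hg, hg0⟩ := hcon p hp0
      exact hg0 (hp g hg))
    have h2 : (n : WithBot ℕ∞) ≤ ((0 : ℕ) : WithBot ℕ∞) + (m' : WithBot ℕ∞) :=
      hdimK.trans (add_le_add_left h1 _)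
    have h3 : n ≤ 0 + m' := by exact_mod_cast h2
    omega
  obtain ⟨A, f₀, hL₀⟩ := h.exists_line hv₀ ((h.cone_iff v₀).mpr (fun g hg => hv₀K g (hKa' hg)))
  have hk₀ := key _ _ _ hL₀ hv₀K
  refine ⟨K, ∑ i, (f₀ i + 1), le_of_natCast_add_le hk₀.2.1 hdimK, ?_, v₀, hv₀, hv₀K⟩
  refine { toPtS := h, hK := hKp, hKh := hKh, hKa := hKa', loc := ?_ }
  intro F' f v hL hvK
  have hk := key _ _ _ hL hvK
  exact ⟨le_antisymm (le_of_natCast_add_le hk.2.1 hk₀.1) (le_of_natCast_add_le hk₀.2.1 hk.1),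
    hk.2.2⟩

/-- The linear forms have independent gradients. -/
private lemma PtS.li_cf_one (h : PtS I x u c d D F) :
    LinearIndependent ℂ (fun i => grad 0 (cf x u 1 (F i))) := by
  have hg : ∀ i, grad 0 (cf x u 1 (F i)) = ust u (grad x (F i)) := by
    intro i
    funext k
    rw [show (1 : ℕ) = 0 + 1 from rfl, grad_cf, ust_apply]
    refine Finset.sum_congr rfl (fun b _ => ?_)
    congr 1
    rw [cf, homogeneousComponent_zero, eval_C, ← eval_zero_eq_coeff, eval_aff, map_zero,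
      add_zero, grad_apply]
  rw [Fintype.linearIndependent_iff]
  intro μ hμ
  simp only [hg] at hμ
  have h1 : ust u (∑ i, μ i • grad x (F i)) = 0 := by
    rw [map_sum, ← hμ]
    exact Finset.sum_congr rfl (fun i _ => map_smul _ _ _)
  have h2 : (∑ i, μ i • grad x (F i)) ⬝ᵥ x = 0 := by
    rw [sum_dotProduct]
    refine Finset.sum_eq_zero (fun i _ => ?_)
    rw [smul_dotProduct]
    have h3 := grad_dot_line (x := x) (w := (0 : ρ → ℂ)) (g := F i) (by
      intro z
      rw [comb_ln, smul_zero, add_zero, eval_smul_of_isHomogeneous (h.hF i).2,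
        h.hx _ (h.hF i).1, mul_zero]) (pt 0)
    rw [comb_ln_one] at h3
    rw [h3, smul_zero]
  exact Fintype.linearIndependent_iff.mp h.hli μ (eq_zero_of_dot h.hbas h.hn h2 h1)

/-- A component gives a pencil. -/
theorem CompS.kpen (h : CompS I x u c d D F K m) : KPen I x u c d D F K m := by
  classical
  have hline : ∀ v : Fin n → ℂ, (∀ g ∈ K, eval v g = 0) →
      ∀ i z, eval (comb (pl x u v) z) (F i) = 0 := fun v hvK =>
    (h.toPtS.cone_iff v).mpr (fun g hg => hvK g (h.hKa hg))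
  refine ⟨⟨h.hK, h.hKh, ?_, ?_⟩, h.toPtS.vertex, h.hD, ?_⟩
  · intro v hv0 hvK
    obtain ⟨A, f, hL⟩ := h.toPtS.exists_line hv0 (hline v hvK)
    obtain ⟨hm, hloc⟩ := h.loc _ _ _ hL hvK
    have hcard : Fintype.card (Σ i : Fin c, Fin (f i + 1)) = m := by
      rw [Fintype.card_sigma, ← hm]
      exact Finset.sum_congr rfl (fun i _ => Fintype.card_fin _)
    let e := Fintype.equivFinOfCardEq hcard
    refine ⟨fun k => yF x u (fun i => ∑ j, C (A i j) * F j) f (e.symm k), fun k => ?_,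
      fun g hg => ?_⟩
    · apply h.hKa
      rw [← h.toPtS.allF_eq hL.toPtS]
      exact cf_mem_allF x u (fun i => ∑ j, C (A i j) * F j) (e.symm k).1 _
    · obtain ⟨q, hq, hm⟩ := hloc g hg
      refine ⟨q, hq, ?_⟩
      have h1 : Set.range (fun k => yF x u (fun i => ∑ j, C (A i j) * F j) f (e.symm k)) =
          Set.range (yF x u (fun i => ∑ j, C (A i j) * F j) f) :=
        e.symm.surjective.range_comp (yF x u (fun i => ∑ j, C (A i j) * F j) f)
      rw [h1]
      exact hm
  · exact ⟨fun i => cf x u 1 (F i), fun i => ⟨h.hKa (cf_mem_allF x u F i 1),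
      cf_isHomogeneous x u 1 _⟩, h.toPtS.li_cf_one⟩
  · intro v hv0 hvK
    exact h.toPtS.goodLine hv0 (hline v hvK)

end N3

end Pool.Agent.Hartshorne
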