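import Mathlib
import Pool.Agent.HartN.CompS
import Pool.Agent.HartN.LocusK

/-!
Global equations of the cone of lines.
-/

namespace Pool.Agent.Hartshorne

open MvPolynomial

set_option linter.unusedSectionVars false

section N6

variable {ρ : Type*} [Fintype ρ] [DecidableEq ρ] {c d D n : ℕ} {I : Ideal (MvPolynomial ρ ℂ)}
  {x : ρ → ℂ} {u : Fin n → (ρ → ℂ)} {F : Fin c → MvPolynomial ρ ℂ}
  {K : Ideal (MvPolynomial (Fin n) ℂ)} {m : ℕ}

/-- The gradient of a linear form does not depend on the point. -/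
lemma grad_const_of_linear {σ : Type*} {l : MvPolynomial σ ℂ} (hl : l.IsHomogeneous 1)
    (p q : σ → ℂ) : grad p l = grad q l := by
  funext j
  rw [grad_apply, grad_apply]
  have h0 : (pderiv j l).IsHomogeneous 0 := hl.pderiv
  have h1 := eval_smul_of_isHomogeneous h0 0 p
  have h2 := eval_smul_of_isHomogeneous h0 0 q
  rw [zero_smul, pow_zero, one_mul] at h1 h2
  rw [← h1, ← h2]

/-- A frame adapted to one line of the component is adapted to all of them. -/
lemma CompS.line_all (h : CompS I x u c d D F K m)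
    (hW : ∀ v₁ ≠ 0, (∀ g ∈ K, eval v₁ g = 0) → ∀ v₂ ≠ 0, (∀ g ∈ K, eval v₂ g = 0) →
      ∀ e, Wsp (El I x u v₁) e = Wsp (El I x u v₂) e)
    {F' : Fin c → MvPolynomial ρ ℂ} {f : Fin c → ℕ} {v₀ w : Fin n → ℂ}
    (hL : LineS I x u c d D F' f v₀) (hv₀ : ∀ g ∈ K, eval v₀ g = 0) (hw0 : w ≠ 0)
    (hw : ∀ g ∈ K, eval w g = 0) : LineS I x u c d D F' f w where
  toPtS := hL.toPtS
  hv0 := hw0
  hv := by
    rw [hL.toPtS.cone_iff w, h.toPtS.allF_eq hL.toPtS]
    exact fun g hg => hw g (h.hKa hg)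
  ad1 := by
    intro i
    rw [hW w hw0 hw v₀ hL.hv0 hv₀ (f i)]
    exact hL.ad1 i
  ad2 := by
    intro e y hy
    rw [hW w hw0 hw v₀ hL.hv0 hv₀ e] at hy
    exact hL.ad2 e y hy

/-- All lines through the point belong to the component, and there is a global adapted frame. -/
theorem CompS.coneS (h : CompS I x u c d D F K m)
    (hW : ∀ v₁ ≠ 0, (∀ g ∈ K, eval v₁ g = 0) → ∀ v₂ ≠ 0, (∀ g ∈ K, eval v₂ g = 0) →
      ∀ e, Wsp (El I x u v₁) e = Wsp (El I x u v₂) e)
    (hcard : 2 * m < n + c) (hex : ∃ v ≠ 0, ∀ g ∈ K, eval v g = 0) :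
    ∃ (F' : Fin c → MvPolynomial ρ ℂ) (f : Fin c → ℕ), ∑ i, (f i + 1) = m ∧
      ConeS I x u c d D F' f ∧
      ∃ v₀ : Fin n → ℂ, v₀ ≠ 0 ∧ (∀ g ∈ K, eval v₀ g = 0) ∧
        ∀ i z, eval (comb (pl x u v₀) z) (F' i) = 0 := by
  classical
  obtain ⟨v₀, hv₀0, hv₀⟩ := hex
  have hline : ∀ i z, eval (comb (pl x u v₀) z) (F i) = 0 := by
    rw [h.toPtS.cone_iff v₀]
    exact fun g hg => hv₀ g (h.hKa hg)
  obtain ⟨A, f, hL⟩ := h.toPtS.exists_line hv₀0 hline
  generalize (fun i => ∑ j, C (A i j) * F j) = F' at hL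
  have hall : allF x u F' = allF x u F := h.toPtS.allF_eq hL.toPtS
  have hyK : ∀ p, yF x u F' f p ∈ K := by
    intro p
    apply h.hKa
    rw [← hall]
    exact yF_mem_allF p
  obtain ⟨hm, hloc₀⟩ := h.loc F' f v₀ hL hv₀
  have hcardκ : Fintype.card (Σ i : Fin c, Fin (f i + 1)) = m := by
    rw [Fintype.card_sigma, ← hm]
    exact Finset.sum_congr rfl fun i _ => Fintype.card_fin _
  -- the dimension of K
  have hKdim : ((Fintype.card (Fin n) : ℕ) : WithBot ℕ∞) ≤
      ringKrullDim (MvPolynomial (Fin n) ℂ ⧸ K) + ((m : ℕ) : WithBot ℕ∞) := by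
    obtain ⟨Q, hQ, hyQ, hQv, hQd⟩ := exists_prime_at (yF x u F' f) v₀ (fun p => hv₀ _ (hyK p))
    rw [hcardκ] at hQd
    have hKQ : K ≤ Q := by
      intro g hg
      obtain ⟨q, hq, hqg⟩ := hloc₀ g hg
      have h1 : q * g ∈ Q := by
        refine (Ideal.span_le.mpr ?_) hqg
        rintro _ ⟨p, rfl⟩
        exact hyQ p
      exact (hQ.mem_or_mem h1).resolve_left (fun h2 => hq (hQv q h2))
    refine hQd.trans (add_le_add_left ?_ _)
    exact ringKrullDim_le_of_surjective (Ideal.Quotient.factor hKQ)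
      (Ideal.Quotient.factor_surjective hKQ)
  -- the linear forms
  have hyhom : ∀ p, (yF x u F' f p).IsHomogeneous ((p.2 : ℕ) + 1) := fun p =>
    cf_isHomogeneous x u _ _
  have hl : ∀ i, (cf x u 1 (F' i)).IsHomogeneous 1 := fun i => cf_isHomogeneous x u _ _
  have hlli : LinearIndependent ℂ (fun i => grad 0 (cf x u 1 (F' i))) := by
    have h1 := hL.li.comp (fun i : Fin c => (⟨i, 0⟩ : Σ i : Fin c, Fin (f i + 1))) (by
      intro i j hij
      exact (Sigma.mk.inj_iff.mp hij).1)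
    have h2 : (fun i => grad 0 (cf x u 1 (F' i))) =
        (fun p => grad v₀ (yF x u F' f p)) ∘
          (fun i : Fin c => (⟨i, 0⟩ : Σ i : Fin c, Fin (f i + 1))) := by
      funext i
      exact grad_const_of_linear (hl i) _ _
    rw [h2]
    exact h1
  -- the zero set of the adapted forms
  have hcover : ∀ w : Fin n → ℂ, (∀ p, eval w (yF x u F' f p) = 0) → ∀ g ∈ K, eval w g = 0 := by
    intro w hw
    obtain ⟨Q, hQ, hyQ, hQv, hQd⟩ := exists_prime_at (yF x u F' f) w hw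
    rw [hcardκ] at hQd
    have hPd : ((Fintype.card (Fin n) : ℕ) : WithBot ℕ∞) ≤
        ringKrullDim (MvPolynomial (Fin n) ℂ ⧸ hcore Q) + ((m : ℕ) : WithBot ℕ∞) := by
      refine hQd.trans (add_le_add_left ?_ _)
      exact ringKrullDim_le_of_surjective (Ideal.Quotient.factor (hcore_le Q))
        (Ideal.Quotient.factor_surjective (hcore_le Q))
    have hyP : ∀ p, yF x u F' f p ∈ hcore Q := fun p => mem_hcore_of_homog (hyhom p) (hyQ p)
    obtain ⟨w', hw'0, hw'P, hw'K⟩ := capT (hcore_isPrime hQ) h.hK (hcore_hom Q) h.hKh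
      (fun i => cf x u 1 (F' i)) hl hlli (fun i => hyP ⟨i, 0⟩) (fun i => hyK ⟨i, 0⟩)
      hPd hKdim (by rw [Fintype.card_fin]; omega)
    have hL' := h.line_all hW hL hv₀ hw'0 hw'K
    obtain ⟨-, hloc'⟩ := h.loc F' f w' hL' hw'K
    intro g hg
    obtain ⟨q, hq, hqg⟩ := hloc' g hg
    have h1 : q * g ∈ hcore Q := by
      refine (Ideal.span_le.mpr ?_) hqg
      rintro _ ⟨p, rfl⟩
      exact hyP p
    have h2 : g ∈ hcore Q :=
      ((hcore_isPrime hQ).mem_or_mem h1).resolve_left (fun h2 => hq (hw'P q h2))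
    exact hQv g (hcore_le Q h2)
  have hVK : ∀ v : Fin n → ℂ, (∀ i z, eval (comb (pl x u v) z) (F' i) = 0) →
      ∀ g ∈ K, eval v g = 0 := by
    intro v hv
    rw [hL.toPtS.cone_iff v] at hv
    exact hcover v fun p => hv _ (yF_mem_allF p)
  have hP := hL.toPtS
  refine ⟨F', f, hm, ?_, v₀, hv₀0, hv₀, hL.hv⟩
  exact {
    hI := hP.hI
    hhom := hP.hhom
    hdim := hP.hdim
    hD := hP.hD
    hd := hP.hd
    hx := hP.hx
    hF := hP.hF
    hli := hP.hli
    good := hP.good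
    hbas := hP.hbas
    hn := hP.hn
    ad1 := fun v hv0 hv => (h.line_all hW hL hv₀ hv0 (hVK v hv)).ad1
    ad2 := fun v hv0 hv => (h.line_all hW hL hv₀ hv0 (hVK v hv)).ad2
    free := hP.free }

end N6

end Pool.Agent.Hartshorne
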