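import Mathlib
import Pool.Agent.HartN.CompS

/-!
Lines through a general point: the cone of directions, freeness, suitable points.
-/

namespace Pool.Agent.Hartshorne

open MvPolynomial

set_option linter.unusedSectionVars false

section PrimeOver

variable {R : Type*} [CommRing R]

/-- A prime over an ideal computing the dimension of the quotient. -/
lemma exists_prime_over (J : Ideal R) {a b : ℕ}
    (h : ((a : ℕ) : WithBot ℕ∞) ≤ ringKrullDim (R ⧸ J) + ((b : ℕ) : WithBot ℕ∞)) :
    ∃ Q : Ideal R, Q.IsPrime ∧ J ≤ Q ∧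
      ((a : ℕ) : WithBot ℕ∞) ≤ ringKrullDim (R ⧸ Q) + ((b : ℕ) : WithBot ℕ∞) := by
  have h1 : ((a - b : ℕ) : WithBot ℕ∞) ≤ ringKrullDim (R ⧸ J) := by
    rcases le_total b a with hab | hab
    · apply dim_cancel (b := b)
      rwa [Nat.sub_add_cancel hab]
    · rw [Nat.sub_eq_zero_of_le hab]
      have hne : ringKrullDim (R ⧸ J) ≠ ⊥ := by
        intro h0
        rw [h0, WithBot.bot_add, le_bot_iff] at h
        exact WithBot.natCast_ne_bot _ h
      rw [Nat.cast_zero]
      have h2 : Nontrivial (R ⧸ J) := by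
        by_contra hno
        rw [not_nontrivial_iff_subsingleton] at hno
        exact hne ringKrullDim_eq_bot_of_subsingleton
      exact ringKrullDim_nonneg_of_nontrivial
  have h1' : ((a - b : ℕ) : WithBot ℕ∞) ≤ Order.krullDim (PrimeSpectrum (R ⧸ J)) := h1
  obtain ⟨l, hl⟩ := Order.le_krullDim_iff.mp h1'
  set Q := (RelSeries.head l).asIdeal with hQ
  have hQp : Q.IsPrime := (RelSeries.head l).isPrime
  refine ⟨Q.comap (Ideal.Quotient.mk J), Ideal.comap_isPrime _ _, ?_, ?_⟩
  · intro i hi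
    rw [Ideal.mem_comap]
    have h2 : Ideal.Quotient.mk J i = 0 := Ideal.Quotient.eq_zero_iff_mem.mpr hi
    rw [h2]
    exact Q.zero_mem
  · have h2 : ((l.length : ℕ) : WithBot ℕ∞) ≤ ringKrullDim ((R ⧸ J) ⧸ Q) := by
      rw [ringKrullDim_quotient]
      have h3 : ∀ i, l i ∈ PrimeSpectrum.zeroLocus (Q : Set (R ⧸ J)) := by
        intro i
        rw [PrimeSpectrum.mem_zeroLocus]
        exact LTSeries.head_le l i
      let l' : LTSeries (PrimeSpectrum.zeroLocus (Q : Set (R ⧸ J))) :=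
        { length := l.length
          toFun := fun i => ⟨l i, h3 i⟩
          step := fun i => l.step i }
      exact le_iSup (fun l : LTSeries (PrimeSpectrum.zeroLocus
        (Q : Set (R ⧸ J))) => ((l.length : ℕ∞) : WithBot ℕ∞)) l'
    have h3 : ringKrullDim ((R ⧸ J) ⧸ Q) ≤
        ringKrullDim (R ⧸ Q.comap (Ideal.Quotient.mk J)) := by
      refine ringKrullDim_le_of_surjective
        (Ideal.quotientMap Q (Ideal.Quotient.mk J) le_rfl) ?_
      exact Ideal.quotientMap_surjective Ideal.Quotient.mk_surjective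
    rw [hl] at h2
    have h6 : ((a : ℕ) : WithBot ℕ∞) ≤ ((a - b + b : ℕ) : WithBot ℕ∞) := by
      have h7 : a ≤ a - b + b := by omega
      exact_mod_cast h7
    refine h6.trans ?_
    rw [Nat.cast_add]
    exact add_le_add_left (h2.trans h3) _

end PrimeOver

section Hyp

variable {ρ : Type} [Fintype ρ] [DecidableEq ρ] {c d D n : ℕ} {I : Ideal (MvPolynomial ρ ℂ)}
  {x : ρ → ℂ} {u : Fin n → (ρ → ℂ)} {F : Fin c → MvPolynomial ρ ℂ}

/-- The ideal of the union of the lines of the variety through a point. -/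
noncomputable def coneI (I : Ideal (MvPolynomial ρ ℂ)) (x : ρ → ℂ) : Ideal (MvPolynomial ρ ℂ) :=
  vanishingIdeal ℂ {q | ∀ s t : ℂ, ∀ h ∈ I, eval (s • x + t • q) h = 0}

lemma mem_coneI {f : MvPolynomial ρ ℂ} : f ∈ coneI I x ↔
    ∀ q : ρ → ℂ, (∀ s t : ℂ, ∀ h ∈ I, eval (s • x + t • q) h = 0) → eval q f = 0 := by
  rw [coneI, mem_vanishingIdeal_iff]
  refine forall_congr' (fun q => ?_)
  rw [Set.mem_ofPred_eq, aeval_eq_eval]

/-- From the dimension of the union of the lines to the cone of directions. -/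
theorem PtS.exists_prime_dir (h : PtS I x u c d D F) (r : ℕ)
    (hdim : ((Fintype.card ρ : ℕ) : WithBot ℕ∞) ≤
      ringKrullDim (MvPolynomial ρ ℂ ⧸ coneI I x) + ((c + r : ℕ) : WithBot ℕ∞)) :
    ∃ K' : Ideal (MvPolynomial (Fin n) ℂ), K'.IsPrime ∧ allF x u F ≤ K' ∧
      (n : WithBot ℕ∞) ≤ ringKrullDim (MvPolynomial (Fin n) ℂ ⧸ K') +
        ((c + r : ℕ) : WithBot ℕ∞) := by
  obtain ⟨π, ξ, hπ⟩ := exists_projS h.hbas h.hn
  obtain ⟨Q, hQ, hJQ, hQd⟩ := exists_prime_over _ hdim
  refine ⟨Q.comap (lsub π).toRingHom, Ideal.comap_isPrime _ _, ?_, ?_⟩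
  · rw [allF, Ideal.span_le]
    rintro _ ⟨⟨i, j⟩, rfl⟩
    show lsub π (cf x u j (F i)) ∈ Q
    apply hJQ
    rw [mem_coneI]
    intro q hq
    rw [eval_lsub]
    refine eval_hc_of_line (fun t _ => ?_) j
    rw [eval_aff, map_smul]
    have h1 : comb u (π q) = q - ξ q • x := by
      rw [eq_sub_iff_add_eq, add_comm]
      exact (hπ.dec q).symm
    have h2 : x + t • comb u (π q) = (1 - t * ξ q) • x + t • q := by
      rw [h1, smul_sub, smul_smul, sub_smul, one_smul]
      abel
    rw [h2]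
    exact hq _ _ _ (h.hF i).1
  · -- the dimension
    set K' := Q.comap (lsub π).toRingHom with hK'
    obtain ⟨ξp, hξp⟩ : ∃ p : MvPolynomial ρ ℂ, p = ∑ b, C (ξ (Pi.single b 1)) * X b := ⟨_, rfl⟩
    have hξe : ∀ q, eval q ξp = ξ q := by
      intro q
      rw [hξp, map_sum, LinearMap.pi_apply_eq_sum_univ ξ q]
      refine Finset.sum_congr rfl (fun b _ => ?_)
      rw [map_mul, eval_C, eval_X, smul_eq_mul, mul_comm]
      have h2 : (Pi.single b 1 : ρ → ℂ) = fun j => if b = j then 1 else 0 := by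
        funext j
        by_cases hj : b = j
        · subst hj; rw [Pi.single_eq_same, if_pos rfl]
        · rw [Pi.single_eq_of_ne (Ne.symm hj), if_neg hj]
      rw [h2]
    have hX : ∀ b, (X b : MvPolynomial ρ ℂ) =
        C (x b) * ξp + ∑ k, C (u k b) * lsub π (X k) := by
      intro b
      apply MvPolynomial.funext
      intro q
      rw [eval_X, map_add, map_mul, eval_C, hξe, map_sum]
      have h1 := congrFun (hπ.dec q) b
      rw [comb_apply, Pi.add_apply, Pi.smul_apply, smul_eq_mul, Finset.sum_apply] at h1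
      rw [mul_comm (x b)]
      refine h1.trans ?_
      rw [add_right_inj]
      refine Finset.sum_congr rfl (fun k _ => ?_)
      rw [map_mul, eval_C, eval_lsub, eval_X, Pi.smul_apply, smul_eq_mul, mul_comm]
    let φ₀ : MvPolynomial (Fin n) ℂ ⧸ K' →+* MvPolynomial ρ ℂ ⧸ Q :=
      Ideal.quotientMap Q (lsub π).toRingHom le_rfl
    have hφ₀ : ∀ g, φ₀ (Ideal.Quotient.mk K' g) = Ideal.Quotient.mk Q (lsub π g) :=
      fun g => rfl
    let φ : Polynomial (MvPolynomial (Fin n) ℂ ⧸ K') →+* MvPolynomial ρ ℂ ⧸ Q :=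
      Polynomial.eval₂RingHom φ₀ (Ideal.Quotient.mk Q ξp)
    have hφC : ∀ g, φ (Polynomial.C (Ideal.Quotient.mk K' g)) =
        Ideal.Quotient.mk Q (lsub π g) := by
      intro g
      show Polynomial.eval₂ φ₀ (Ideal.Quotient.mk Q ξp) _ = _
      rw [Polynomial.eval₂_C]
      exact hφ₀ g
    have hφX : φ Polynomial.X = Ideal.Quotient.mk Q ξp := by
      show Polynomial.eval₂ φ₀ (Ideal.Quotient.mk Q ξp) _ = _
      rw [Polynomial.eval₂_X]
    have hC : ∀ a : ℂ, Ideal.Quotient.mk Q (C a) ∈ φ.range := by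
      intro a
      refine ⟨Polynomial.C (Ideal.Quotient.mk K' (C a)), ?_⟩
      rw [hφC]
      have h1 : lsub π (C a) = C a := (lsub π).commutes a
      rw [h1]
    have hsurj : Function.Surjective φ := by
      intro y
      obtain ⟨p, rfl⟩ := Ideal.Quotient.mk_surjective y
      have h1 : Ideal.Quotient.mk Q p ∈ φ.range := by
        induction p using MvPolynomial.induction_on with
        | C a => exact hC a
        | add p q hp hq =>
          rw [map_add]
          exact φ.range.add_mem hp hq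
        | mul_X p b hp =>
          rw [map_mul]
          refine φ.range.mul_mem hp ?_
          rw [hX b, map_add, map_mul, map_sum]
          refine φ.range.add_mem (φ.range.mul_mem (hC _) ⟨_, hφX⟩)
            (φ.range.sum_mem (fun k _ => ?_))
          rw [map_mul]
          exact φ.range.mul_mem (hC _) ⟨_, hφC (X k)⟩
      exact h1
    have h1 : ringKrullDim (MvPolynomial ρ ℂ ⧸ Q) ≤
        ringKrullDim (Polynomial (MvPolynomial (Fin n) ℂ ⧸ K')) :=
      ringKrullDim_le_of_surjective φ hsurj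
    rw [Polynomial.ringKrullDim_of_isNoetherianRing] at h1
    apply dim_cancel (b := 1)
    rw [h.hn]
    refine (hQd.trans (add_le_add_left h1 _)).trans ?_
    rw [Nat.cast_one, add_right_comm]

/-- Lines through the points of a non-empty open set are free. -/
theorem exists_free_open (I : Ideal (MvPolynomial ρ ℂ)) (hI : I.IsPrime)
    (F : Fin c → MvPolynomial ρ ℂ) (hF : ∀ i, F i ∈ I) {p₀ : ρ → ℂ}
    (hp₀ : ∀ h ∈ I, eval p₀ h = 0) (hli : LinearIndependent ℂ (fun i => grad p₀ (F i)))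
    (hdim : ((Fintype.card ρ : ℕ) : WithBot ℕ∞) ≤
      ringKrullDim (MvPolynomial ρ ℂ ⧸ I) + (c : WithBot ℕ∞)) :
    ∃ Δ : MvPolynomial ρ ℂ, Δ ∉ I ∧ ∀ x : ρ → ℂ, (∀ h ∈ I, eval x h = 0) → eval x Δ ≠ 0 →
      LinearIndependent ℂ (fun i => grad x (F i)) ∧
      ∀ w : ρ → ℂ, (∀ z : Fin 2 → ℂ, ∀ h ∈ I, eval (z 0 • x + z 1 • w) h = 0) →
        ∀ a : ρ → ℂ, (∀ i, grad x (F i) ⬝ᵥ a = 0) → ∃ b : ρ → ℂ, ∀ h ∈ I, ∀ z : Fin 2 → ℂ,
          grad (z 0 • x + z 1 • w) h ⬝ᵥ (z 0 • a + z 1 • b) = 0 := by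
  obtain ⟨T, hT⟩ := exists_minor _ hli
  set M : Matrix (Fin c) (Fin c) (MvPolynomial ρ ℂ) :=
    Matrix.of fun i l => pderiv (T l) (F i) with hM
  have hΔp : eval p₀ M.det ≠ 0 := by
    rw [eval_det]
    have h1 : (Matrix.of fun i l => eval p₀ (M i l)) =
        Matrix.of fun i l => grad p₀ (F i) (T l) := by
      ext i l
      rw [Matrix.of_apply, Matrix.of_apply, grad_apply, hM, Matrix.of_apply]
    rw [h1]
    exact hT
  have hΔI : M.det ∉ I := fun h => hΔp (hp₀ _ h)
  -- the vector fields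
  set V : ρ → ρ → MvPolynomial ρ ℂ := fun j b => M.det * (if j = b then 1 else 0) -
    ∑ l, if T l = b then ∑ k, M.adjugate l k * pderiv j (F k) else 0 with hV
  have hVF : ∀ j i, ∑ b, V j b * pderiv b (F i) = 0 := by
    intro j i
    have h1 : ∑ b, V j b * pderiv b (F i) = M.det * pderiv j (F i) -
        ∑ l, (∑ k, M.adjugate l k * pderiv j (F k)) * pderiv (T l) (F i) := by
      simp only [hV, sub_mul, Finset.sum_sub_distrib]
      refine congrArg₂ (· - ·) ?_ ?_
      · rw [Finset.sum_eq_single j]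
        · rw [if_pos rfl, mul_one]
        · intro b _ hb
          rw [if_neg (fun h => hb h.symm), mul_zero, zero_mul]
        · intro h; exact absurd (Finset.mem_univ _) h
      · simp only [Finset.sum_mul]
        rw [Finset.sum_comm]
        refine Finset.sum_congr rfl (fun l _ => ?_)
        rw [Finset.sum_eq_single (T l)]
        · rw [if_pos rfl, Finset.sum_mul]
        · intro b _ hb
          rw [if_neg (fun h => hb h.symm), zero_mul]
        · intro h; exact absurd (Finset.mem_univ _) h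
    rw [h1, sub_eq_zero]
    have h2 : ∀ k, ∑ l, pderiv (T l) (F i) * M.adjugate l k = if i = k then M.det else 0 := by
      intro k
      have h3 := congrFun (congrFun (Matrix.mul_adjugate M) i) k
      rw [Matrix.mul_apply, Matrix.smul_apply, Matrix.one_apply, smul_eq_mul] at h3
      have h4 : ∀ l, M i l = pderiv (T l) (F i) := fun l => rfl
      simp only [h4] at h3
      rw [h3]
      split_ifs
      · rw [mul_one]
      · rw [mul_zero]
    simp only [Finset.sum_mul]
    rw [Finset.sum_comm]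
    have h5 : ∀ k, ∑ l, M.adjugate l k * pderiv j (F k) * pderiv (T l) (F i) =
        if i = k then M.det * pderiv j (F k) else 0 := by
      intro k
      have h6 : ∑ l, M.adjugate l k * pderiv j (F k) * pderiv (T l) (F i) =
          (∑ l, pderiv (T l) (F i) * M.adjugate l k) * pderiv j (F k) := by
        rw [Finset.sum_mul]
        refine Finset.sum_congr rfl (fun l _ => by ring)
      rw [h6, h2, ite_mul, zero_mul]
    rw [Finset.sum_congr rfl (fun k _ => h5 k), Finset.sum_ite_eq, if_pos (Finset.mem_univ _)]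
  have hVI : ∀ j, ∀ h ∈ I, ∑ b, V j b * pderiv b h ∈ I := by
    intro j h hh
    obtain ⟨u, hu, hmem⟩ := (point_case I hI p₀ hp₀ c F hF hli).2 hdim h hh
    obtain ⟨g, hg⟩ := (Submodule.mem_span_range_iff_exists_fun _).mp hmem
    have huI : u ∉ I := fun h => hu (hp₀ _ h)
    have h1 : ∑ b, V j b * pderiv b (u * h) = ∑ i, (∑ b, V j b * pderiv b (g i)) * F i := by
      rw [← hg]
      simp only [smul_eq_mul, map_sum, pderiv_mul, Finset.mul_sum, Finset.sum_mul]
      rw [Finset.sum_comm]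
      refine Finset.sum_congr rfl (fun i _ => ?_)
      have h2 : ∑ b, V j b * (pderiv b (g i) * F i + g i * pderiv b (F i)) =
          (∑ b, V j b * pderiv b (g i) * F i) + g i * ∑ b, V j b * pderiv b (F i) := by
        rw [Finset.mul_sum, ← Finset.sum_add_distrib]
        refine Finset.sum_congr rfl (fun b _ => by ring)
      rw [h2, hVF, mul_zero, add_zero]
    have h2 : ∑ b, V j b * pderiv b (u * h) = (∑ b, V j b * pderiv b u) * h +
        u * ∑ b, V j b * pderiv b h := by
      rw [Finset.mul_sum, Finset.sum_mul, ← Finset.sum_add_distrib]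
      refine Finset.sum_congr rfl (fun b _ => ?_)
      rw [pderiv_mul]
      ring
    have h3 : u * ∑ b, V j b * pderiv b h ∈ I := by
      have h4 : u * ∑ b, V j b * pderiv b h = (∑ i, (∑ b, V j b * pderiv b (g i)) * F i) -
          (∑ b, V j b * pderiv b u) * h := by
        rw [← h1, h2]; ring
      rw [h4]
      exact Ideal.sub_mem _ (Ideal.sum_mem _ (fun i _ => Ideal.mul_mem_left _ _ (hF i)))
        (Ideal.mul_mem_left _ _ hh)
    exact (hI.mem_or_mem h3).resolve_left huI
  -- bad sets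
  have hbad : ∀ j, ∃ g, g ∉ I ∧ ∀ q : ρ ⊕ ρ → ℂ,
      (∀ z : Fin 2 → ℂ, ∀ h ∈ I, eval (z 0 • pl1 q + z 1 • pl2 q) h = 0) →
      eval (pl1 q) g ≠ 0 → ∃ b : ρ → ℂ, ∀ h ∈ I, ∀ z : Fin 2 → ℂ,
        grad (z 0 • pl1 q + z 1 • pl2 q) h ⬝ᵥ
          (z 0 • rowEval (pl1 q) (V j) + z 1 • b) = 0 := by
    intro j
    by_contra hno
    push Not at hno
    obtain ⟨q, hq, b, hb⟩ := free_generic I hI (V j) (hVI j)
      {q | (∀ z : Fin 2 → ℂ, ∀ h ∈ I, eval (z 0 • pl1 q + z 1 • pl2 q) h = 0) ∧
        ¬ ∃ b : ρ → ℂ, ∀ h ∈ I, ∀ z : Fin 2 → ℂ,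
        grad (z 0 • pl1 q + z 1 • pl2 q) h ⬝ᵥ
          (z 0 • rowEval (pl1 q) (V j) + z 1 • b) = 0} (fun q hq => hq.1) (by
      intro g hg
      by_contra hgI
      obtain ⟨q, hq1, hq2, hq3⟩ := hno g hgI
      apply hq2
      apply hg q
      refine ⟨hq1, ?_⟩
      rintro ⟨b, hb⟩
      obtain ⟨h, hh, z, hz⟩ := hq3 b
      exact hz (hb h hh z))
    exact hq.2 ⟨b, hb⟩
  choose g hgI hg using hbad
  refine ⟨M.det * ∏ j, g j, ?_, ?_⟩
  · intro h1
    rcases hI.mem_or_mem h1 with h2 | h2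
    · exact hΔI h2
    · obtain ⟨j, -, hj⟩ := (hI.prod_mem_iff).mp h2
      exact hgI j hj
  intro x hx hxne
  rw [map_mul, map_prod] at hxne
  have hx2 := left_ne_zero_of_mul hxne
  have hx3 := Finset.prod_ne_zero_iff.mp (right_ne_zero_of_mul hxne)
  refine ⟨?_, ?_⟩
  · have h1 := rowEval_li_of_det x (fun i b => pderiv b (F i)) T hx2
    have h2 : ∀ i, rowEval x (fun b => pderiv b (F i)) = grad x (F i) := by
      intro i
      funext b
      rw [grad_apply]
      rfl
    simp only [h2] at h1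
    exact h1
  · intro w hw a ha
    have h1 : ∀ j, ∃ b : ρ → ℂ, ∀ h ∈ I, ∀ z : Fin 2 → ℂ,
        grad (z 0 • x + z 1 • w) h ⬝ᵥ (z 0 • rowEval x (V j) + z 1 • b) = 0 := by
      intro j
      exact hg j (Sum.elim x w) hw (hx3 j (Finset.mem_univ _))
    choose b hb using h1
    have h2 : eval x M.det • a = ∑ j, a j • rowEval x (V j) := by
      funext b'
      rw [Pi.smul_apply, Finset.sum_apply, smul_eq_mul]
      have h3 : ∀ j, (a j • rowEval x (V j)) b' = a j * (eval x M.det * (if j = b' then 1 else 0)) -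
          ∑ l, if T l = b' then ∑ k, eval x (M.adjugate l k) *
            (a j * grad x (F k) j) else 0 := by
        intro j
        rw [Pi.smul_apply, smul_eq_mul, rowEval_apply]
        simp only [hV, map_sub, map_mul, map_sum, mul_sub, Finset.mul_sum]
        refine congrArg₂ (· - ·) ?_ ?_
        · split_ifs <;> simp
        · refine Finset.sum_congr rfl (fun l _ => ?_)
          split_ifs
          · rw [map_sum, Finset.mul_sum]
            refine Finset.sum_congr rfl (fun k _ => ?_)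
            rw [map_mul, grad_apply]
            ring
          · rw [map_zero, mul_zero]
      rw [Finset.sum_congr rfl (fun j _ => h3 j), Finset.sum_sub_distrib]
      have h4 : ∑ j, a j * (eval x M.det * (if j = b' then 1 else 0)) = eval x M.det * a b' := by
        rw [Finset.sum_eq_single b']
        · rw [if_pos rfl]; ring
        · intro j _ hj
          rw [if_neg hj]; ring
        · intro h; exact absurd (Finset.mem_univ _) h
      have h5 : ∑ j, ∑ l, (if T l = b' then ∑ k, eval x (M.adjugate l k) *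
            (a j * grad x (F k) j) else 0) = 0 := by
        rw [Finset.sum_comm]
        refine Finset.sum_eq_zero (fun l _ => ?_)
        split_ifs
        · rw [Finset.sum_comm]
          refine Finset.sum_eq_zero (fun k _ => ?_)
          rw [← Finset.mul_sum]
          have h6 : ∑ j, a j * grad x (F k) j = grad x (F k) ⬝ᵥ a := by
            rw [dotProduct]
            exact Finset.sum_congr rfl (fun j _ => mul_comm _ _)
          rw [h6, ha k, mul_zero]
        · exact Finset.sum_const_zero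
      rw [h4, h5, sub_zero]
    refine ⟨(eval x M.det)⁻¹ • ∑ j, a j • b j, ?_⟩
    intro h hh z
    set D := eval x M.det with hD
    have h3 : D • (z 0 • a + z 1 • (D⁻¹ • ∑ j, a j • b j) : ρ → ℂ) =
        ∑ j, a j • (z 0 • rowEval x (V j) + z 1 • b j) := by
      have h4 : D • (z 0 • a + z 1 • (D⁻¹ • ∑ j, a j • b j) : ρ → ℂ) =
          z 0 • (D • a) + z 1 • ∑ j, a j • b j := by
        rw [smul_add, smul_comm D (z 0) a, smul_comm D (z 1), smul_smul D D⁻¹,
          mul_inv_cancel₀ hx2, one_smul]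
      rw [h4, h2, Finset.smul_sum, Finset.smul_sum, ← Finset.sum_add_distrib]
      refine Finset.sum_congr rfl (fun j _ => ?_)
      rw [smul_add, smul_comm (z 0), smul_comm (z 1)]
    have h4 : D * (grad (z 0 • x + z 1 • w) h ⬝ᵥ
        (z 0 • a + z 1 • (D⁻¹ • ∑ j, a j • b j))) = 0 := by
      rw [← smul_eq_mul, ← dotProduct_smul, h3, dotProduct_sum]
      exact Finset.sum_eq_zero (fun j _ => by rw [dotProduct_smul, hb j h hh z, smul_zero])
    exact (mul_eq_zero.mp h4).resolve_left hx2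

/-- A suitable point and coordinates. -/
theorem exists_ptS (I : Ideal (MvPolynomial ρ ℂ)) (hI : I.IsPrime) (hhom : HI I)
    (hdim : ((Fintype.card ρ : ℕ) : WithBot ℕ∞) ≤
      ringKrullDim (MvPolynomial ρ ℂ ⧸ I) + (c : WithBot ℕ∞))
    (hsm : ∀ p : ρ → ℂ, p ≠ 0 → (∀ h ∈ I, eval p h = 0) →
      ∃ q : Fin c → MvPolynomial ρ ℂ, (∀ k, q k ∈ I) ∧
        LinearIndependent ℂ (fun k => fun j => eval p (pderiv j (q k))))
    (hne : ∃ p : ρ → ℂ, p ≠ 0 ∧ ∀ h ∈ I, eval p h = 0)
    (P : (ρ → ℂ) → Prop)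
    (hP : ∀ g ∉ I, ∃ x, (∀ h ∈ I, eval x h = 0) ∧ eval x g ≠ 0 ∧ P x) :
    ∃ (n : ℕ) (x : ρ → ℂ) (u : Fin n → (ρ → ℂ)) (d D : ℕ) (F : Fin c → MvPolynomial ρ ℂ),
      PtS I x u c d D F ∧ P x := by
  obtain ⟨D, hS⟩ := exists_setup (c := c) (⊤ : Submodule ℂ (ρ → ℂ)) I hI hhom hdim
    (fun p _ hp0 hp => hsm p hp0 hp)
  obtain ⟨p₀, hp₀0, hp₀⟩ := hne
  obtain ⟨F, hF, hli⟩ := (hS.good p₀ Submodule.mem_top hp₀0 hp₀).1
  obtain ⟨Δ, hΔ, hfree⟩ := exists_free_open I hI F (fun i => (hF i).1) hp₀ hli hdim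
  obtain ⟨i₀, hi₀⟩ : ∃ i, p₀ i ≠ 0 := by
    by_contra hno
    push Not at hno
    exact hp₀0 (funext hno)
  have hXI : (X i₀ : MvPolynomial ρ ℂ) ∉ I := by
    intro h1
    have h2 := hp₀ _ h1
    rw [eval_X] at h2
    exact hi₀ h2
  obtain ⟨x, hx, hxne, hPx⟩ := hP (Δ * X i₀) (fun h1 => by
    rcases hI.mem_or_mem h1 with h2 | h2
    · exact hΔ h2
    · exact hXI h2)
  rw [map_mul] at hxne
  have hxΔ := left_ne_zero_of_mul hxne
  have hxX := right_ne_zero_of_mul hxne
  have hx0 : x ≠ 0 := by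
    rintro rfl
    apply hxX
    rw [eval_X]
    rfl
  obtain ⟨hxli, hxf⟩ := hfree x hx hxΔ
  have hcard : 0 < Fintype.card ρ := Fintype.card_pos_iff.mpr ⟨i₀⟩
  obtain ⟨n, hn⟩ : ∃ n, n + 1 = Fintype.card ρ := ⟨Fintype.card ρ - 1, by omega⟩
  obtain ⟨u, -, hbas, -⟩ := exists_basis_cons (⊤ : Submodule ℂ (ρ → ℂ)) (x := x)
    Submodule.mem_top hx0 (n := n) (by
      rw [finrank_top, Module.finrank_fintype_fun_eq_card, hn])
  refine ⟨n, x, u, D, D, F, ?_, hPx⟩
  refine
    { hI := hI
      hhom := hhom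
      hdim := hdim
      hD := hS.hD
      hd := hS.hD
      hx := hx
      hF := hF
      hli := hxli
      good := fun p hp0 hp => hS.good p Submodule.mem_top hp0 hp
      hbas := hbas
      hn := hn
      free := ?_ }
  intro v hv a ha
  have hvan := vanish_on I hI hdim (pl x u v) (pt 0) (by rw [pl, comb_ln_one]; exact hx) F
    (fun i => (hF i).1) (by rw [pl, comb_ln_one]; exact hxli) hv
  obtain ⟨b, hb⟩ := hxf (comb u v) (fun z h hh => by
    rw [← comb_pl]
    exact hvan z h hh) a ha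
  refine ⟨b, fun h hh z => ?_⟩
  rw [comb_pl]
  exact hb h hh z

end Hyp

end Pool.Agent.Hartshorne
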