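import Mathlib
import Pool.Agent.Hartshorne.FinalZ

/-!
The equations of a variety from the cone of lines through a general point: no frame of small
degree is needed.
-/

namespace Pool.Agent.Hartshorne

open MvPolynomial

set_option linter.unusedSectionVars false

section Stab

/-- A decreasing sequence of affine subspaces of a finite dimensional space. -/
lemma exists_mem_all {V : Type*} [AddCommGroup V] [Module ℂ V] (S₀ : Submodule ℂ V)
    [Module.Finite ℂ S₀] (D : ℕ → Submodule ℂ V) (hD : ∀ k, D k ≤ S₀)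
    (hDa : ∀ k l, k ≤ l → D l ≤ D k) (A : ℕ → Set V) (hA : ∀ k, (A k).Nonempty)
    (hAa : ∀ k l, k ≤ l → A l ⊆ A k) (hsub : ∀ k, ∀ a ∈ A k, ∀ b ∈ A k, a - b ∈ D k)
    (hadd : ∀ k, ∀ a ∈ A k, ∀ b ∈ D k, a + b ∈ A k) : ∃ a, ∀ k, a ∈ A k := by
  let fD : ℕ →o (Submodule ℂ S₀)ᵒᵈ :=
    ⟨fun k => OrderDual.toDual ((D k).comap S₀.subtype), fun k l hkl =>
      OrderDual.toDual_le_toDual.mpr (Submodule.comap_mono (hDa k l hkl))⟩
  obtain ⟨k₀, hk₀⟩ := IsArtinian.monotone_stabilizes fD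
  have hst : ∀ k, k₀ ≤ k → D k₀ ≤ D k := by
    intro k hk v hv
    have h1 : (D k₀).comap S₀.subtype = (D k).comap S₀.subtype :=
      congrArg OrderDual.ofDual (hk₀ k hk)
    have h2 : (⟨v, hD _ hv⟩ : S₀) ∈ (D k₀).comap S₀.subtype := hv
    rw [h1] at h2
    exact h2
  obtain ⟨a, ha⟩ := hA k₀
  refine ⟨a, fun k => ?_⟩
  rcases Nat.le_total k k₀ with hk | hk
  · exact hAa k k₀ hk ha
  · obtain ⟨b, hb⟩ := hA k
    have h1 := hst k hk (hsub k₀ a ha b (hAa k₀ k hk hb))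
    have h2 := hadd k b hb _ h1
    rwa [add_sub_cancel] at h2

end Stab

section Krull

variable {ρ : Type*} [Fintype ρ] [DecidableEq ρ]

lemma ordPt_mono {J : Ideal (MvPolynomial ρ ℂ)} {M M' : ℕ} (hM : M ≤ M') {p : ρ → ℂ}
    {g : MvPolynomial ρ ℂ} (h : OrdPt J M' p g) : OrdPt J M p g := by
  obtain ⟨w, a, hw, ha, hlow⟩ := h
  exact ⟨w, a, hw, ha, fun j hj => hlow j (lt_of_lt_of_le hj hM)⟩

/-- Krull's intersection theorem at a point. -/
lemma mem_of_ordPt {J : Ideal (MvPolynomial ρ ℂ)} (hJ : J.IsPrime) {p : ρ → ℂ}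
    (hp : ∀ h ∈ J, eval p h = 0) {g : MvPolynomial ρ ℂ} (h : ∀ k, OrdPt J k p g) : g ∈ J := by
  have hTT' : ∀ f : MvPolynomial ρ ℂ, trans (-p) (trans p f) = f := by
    intro f; rw [trans_trans, neg_add_cancel, trans_zero]
  set J' := J.comap (trans (-p)).toRingHom with hJ'
  have hmem : ∀ f, f ∈ J' ↔ trans (-p) f ∈ J := fun f => Iff.rfl
  have hwc0 : ∀ f : MvPolynomial ρ ℂ, weightedHomogeneousComponent (1 : ρ → ℕ) 0 f =
      C (eval 0 f) := wc_zero_C
  have h1 : trans p g ∈ satIdeal (1 : ρ → ℕ) J' := by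
    refine mem_satIdeal_of_forall (v := (1 : ρ → ℕ)) (fun _ => le_rfl) J' (trans p g)
      (fun k => ?_)
    obtain ⟨w, a, hw, ha, hlow⟩ := h k
    refine ⟨trans p w, ?_, trans p a, ?_, ?_⟩
    · rw [hwc0, eval_trans, zero_add]
      intro h0
      exact hw (C_injective _ _ (h0.trans C_0.symm))
    · rw [hmem, hTT']; exact ha
    · rw [← map_mul, ← map_sub]; exact hlow
  obtain ⟨w, hw, hwm⟩ := h1
  rw [hwc0] at hw
  have hw' : eval 0 w ≠ 0 := by
    intro h0
    apply hw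
    rw [h0, C_0]
  rw [hmem, map_mul, hTT'] at hwm
  rcases hJ.mem_or_mem hwm with h2 | h2
  · exfalso
    apply hw'
    have h3 := hp _ h2
    rwa [eval_trans, add_neg_cancel] at h3
  · exact h2

end Krull

section LiftAll

variable {ρ κ' : Type*} [Fintype ρ] [DecidableEq ρ] [Fintype κ'] {c : ℕ}
  {I : Ideal (MvPolynomial ρ ℂ)} {Y' : κ' → MvPolynomial ρ ℂ}
  {e' : κ' → ℕ} {Yl : Fin c → MvPolynomial ρ ℂ} {el : Fin c → ℕ} {Z : Set (ρ → ℂ)}

/-- Lifting to all orders at a point. -/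
theorem ZS.lift_all (hS : ZS I Y' e' Yl el Z) (i : Fin c) {p : ρ → ℂ} (hp : p ∈ Z) :
    ∃ g, g.IsHomogeneous (el i) ∧ Yl i - g ∈ jFst Y' ∧
      ∀ k, ∃ w, eval p w ≠ 0 ∧ w * g ∈ I ⊔ jAll Y' Yl ^ (k + 1) := by
  have hfin : Module.Finite ℂ (homogeneousSubmodule ρ ℂ (el i)) :=
    Module.Finite.iff_fg.mpr (homogeneousSubmodule_fg ρ ℂ (el i))
  have hmono : ∀ k l, k ≤ l → I ⊔ jAll Y' Yl ^ (l + 1) ≤ I ⊔ jAll Y' Yl ^ (k + 1) :=
    fun k l hkl => sup_le_sup_left (Ideal.pow_le_pow_right (Nat.succ_le_succ hkl)) _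
  let D : ℕ → Submodule ℂ (MvPolynomial ρ ℂ) := fun k =>
    { carrier := {g | g.IsHomogeneous (el i) ∧ g ∈ jFst Y' ∧
        ∃ w, eval p w ≠ 0 ∧ w * g ∈ I ⊔ jAll Y' Yl ^ (k + 1)}
      zero_mem' := ⟨isHomogeneous_zero _ _ _, Ideal.zero_mem _, 1, by simp, by simp⟩
      add_mem' := by
        rintro a b ⟨ha, ha', w, hw, hwa⟩ ⟨hb, hb', w', hw', hwb⟩
        refine ⟨ha.add hb, Ideal.add_mem _ ha' hb', w * w', ?_, ?_⟩
        · rw [map_mul]; exact mul_ne_zero hw hw'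
        · have h1 : w * w' * (a + b) = w' * (w * a) + w * (w' * b) := by ring
          rw [h1]
          exact Ideal.add_mem _ (Ideal.mul_mem_left _ _ hwa) (Ideal.mul_mem_left _ _ hwb)
      smul_mem' := by
        rintro t a ⟨ha, ha', w, hw, hwa⟩
        refine ⟨?_, ?_, w, hw, ?_⟩
        · rw [smul_eq_C_mul]; exact ha.C_mul _
        · rw [smul_eq_C_mul]; exact Ideal.mul_mem_left _ _ ha'
        · have h1 : w * (t • a) = C t * (w * a) := by rw [smul_eq_C_mul]; ring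
          rw [h1]
          exact Ideal.mul_mem_left _ _ hwa }
  have hDmem : ∀ k g, g ∈ D k ↔ g.IsHomogeneous (el i) ∧ g ∈ jFst Y' ∧
        ∃ w, eval p w ≠ 0 ∧ w * g ∈ I ⊔ jAll Y' Yl ^ (k + 1) := fun k g => Iff.rfl
  obtain ⟨g, hg⟩ := exists_mem_all (homogeneousSubmodule ρ ℂ (el i)) D (by
      intro k g hg
      rw [mem_homogeneousSubmodule]
      exact hg.1) (by
      rintro k l hkl g ⟨h1, h2, w, hw, h3⟩
      exact ⟨h1, h2, w, hw, hmono k l hkl h3⟩)
    (fun k => {g | g.IsHomogeneous (el i) ∧ Yl i - g ∈ jFst Y' ∧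
      ∃ w, eval p w ≠ 0 ∧ w * g ∈ I ⊔ jAll Y' Yl ^ (k + 1)}) (by
      intro k
      obtain ⟨g, h1, h2, h3⟩ := hS.lift i k
      exact ⟨g, h1, h2, h3 p hp⟩) (by
      rintro k l hkl g ⟨h1, h2, w, hw, h3⟩
      exact ⟨h1, h2, w, hw, hmono k l hkl h3⟩) (by
      rintro k a ⟨ha, ha', w, hw, hwa⟩ b ⟨hb, hb', w', hw', hwb⟩
      rw [hDmem]
      refine ⟨ha.sub hb, ?_, w * w', ?_, ?_⟩
      · have h1 : a - b = (Yl i - b) - (Yl i - a) := by ring
        rw [h1]
        exact Ideal.sub_mem _ hb' ha'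
      · rw [map_mul]; exact mul_ne_zero hw hw'
      · have h1 : w * w' * (a - b) = w' * (w * a) - w * (w' * b) := by ring
        rw [h1]
        exact Ideal.sub_mem _ (Ideal.mul_mem_left _ _ hwa) (Ideal.mul_mem_left _ _ hwb)) (by
      rintro k a ⟨ha, ha', w, hw, hwa⟩ b ⟨hb, hb', w', hw', hwb⟩
      refine ⟨ha.add hb, ?_, w * w', ?_, ?_⟩
      · have h1 : Yl i - (a + b) = (Yl i - a) - b := by ring
        rw [h1]
        exact Ideal.sub_mem _ ha' hb'
      · rw [map_mul]; exact mul_ne_zero hw hw'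
      · have h1 : w * w' * (a + b) = w' * (w * a) + w * (w' * b) := by ring
        rw [h1]
        exact Ideal.add_mem _ (Ideal.mul_mem_left _ _ hwa) (Ideal.mul_mem_left _ _ hwb))
  exact ⟨g, (hg 0).1, (hg 0).2.1, fun k => (hg k).2.2⟩

end LiftAll

section MainK

variable {ρ : Type*} [Fintype ρ] [DecidableEq ρ] {c d D n : ℕ}
  {I : Ideal (MvPolynomial ρ ℂ)} {x : ρ → ℂ} {u : Fin n → (ρ → ℂ)}
  {F : Fin c → MvPolynomial ρ ℂ} {f : Fin c → ℕ}

/-- **The equations**, without a frame of small degree. -/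
theorem ConeS.main' (h : ConeS I x u c d D F f) (hc : 0 < c)
    (hcard : 2 * ∑ i, (f i + 1) < n)
    (hne : ∃ v₀ : Fin n → ℂ, v₀ ≠ 0 ∧ ∀ i z, eval (comb (pl x u v₀) z) (F i) = 0) :
    ∃ G : Fin c → MvPolynomial ρ ℂ, (∀ i, (G i).IsHomogeneous (f i + 1)) ∧
      Ideal.span (Set.range G) = I := by
  classical
  obtain ⟨π, ξ, hπ⟩ := exists_projS h.hbas h.hn
  have hS := h.zs hπ hc hcard hne
  obtain ⟨v₁, hv₁0, hv₁⟩ := hne
  have hp₁ : comb u v₁ ∈ zSet x u F f π := by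
    have h1 := (h.cone_iff v₁).mp hv₁
    refine ⟨?_, ?_⟩
    · rw [hπ.πu]; exact fun q => h1 q.1 _
    · rw [hπ.πu]; exact hv₁0
  have hlift : ∀ i, ∃ g, g.IsHomogeneous (f i + 1) ∧ zL x u F f π i - g ∈ jFst (zF x u F f π) ∧
      ∀ k, ∃ w, eval (comb u v₁) w ≠ 0 ∧
        w * g ∈ I ⊔ jAll (zF x u F f π) (zL x u F f π) ^ (k + 1) :=
    fun i => hS.lift_all i hp₁
  choose G hGh hGm hGl using hlift
  have hJ : ∀ p ∈ zSet x u F f π, ∀ g ∈ jAll (zF x u F f π) (zL x u F f π), eval p g = 0 := by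
    intro p hp g hg
    have h1 : jAll (zF x u F f π) (zL x u F f π) ≤ RingHom.ker (eval p) := by
      rw [jAll, Ideal.span_le]
      rintro _ ⟨k, rfl⟩
      rw [SetLike.mem_coe, RingHom.mem_ker]
      exact hS.zY p hp k
    exact h1 hg
  have hcardS : Fintype.card (Σ i : Fin c, Fin (f i + 1)) = ∑ i, (f i + 1) := by
    rw [Fintype.card_sigma]
    exact Finset.sum_congr rfl (fun i _ => Fintype.card_fin _)
  have hy0 : ∀ q, eval 0 (yF x u F f q) = 0 := fun q => eval_zero_hc_succ _ _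
  have hu0 : ∀ (q : ρ → ℂ) (j : ℕ) (g : MvPolynomial ρ ℂ),
      eval 0 (lsub (comb u) (homogeneousComponent (j + 1) (trans q g))) = 0 := by
    intro q j g
    rw [eval_lsub, map_zero]
    exact eval_zero_hc_succ _ _
  have hzmem : ∀ v : Fin n → ℂ, v ≠ 0 → (∀ q, eval v (yF x u F f q) = 0) →
      comb u v ∈ zSet x u F f π := by
    intro v hv0 hv
    refine ⟨?_, ?_⟩
    · rw [hπ.πu]; exact hv
    · rw [hπ.πu]; exact hv0
  have hGI : ∀ i, G i ∈ I := by
    intro i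
    refine mem_of_ordPt h.hI (p := comb u v₁) (hS.cone _ (hS.zY _ hp₁)) (fun k => ?_)
    refine ordPt_mono ?_ (ordPt_of_loc (hJ _ hp₁) (hGl i k))
    exact Nat.le_succ k
  -- the gradients
  have hGli : ∀ p ∈ zSet x u F f π, LinearIndependent ℂ (fun i => grad p (G i)) := by
    intro p hp
    have h1 := hS.hli p hp
    have h2 : (fun k => grad p (Sum.elim (zF x u F f π) (zL x u F f π) k)) =
        Sum.elim (fun k => grad p (zF x u F f π k)) (fun i => grad p (zL x u F f π i)) := by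
      funext k
      rcases k with k | k
      · rfl
      · rfl
    rw [h2] at h1
    refine li_of_sub h1 (fun i => ?_)
    have h3 := grad_mem_span (fun k => hS.zY p hp (Sum.inl k)) (hGm i)
    have h4 : grad p (zL x u F f π i) - grad p (G i) = grad p (zL x u F f π i - G i) := by
      funext j
      rw [Pi.sub_apply, grad_apply, grad_apply, grad_apply, map_sub, map_sub]
    rw [h4]
    exact h3
  -- the equations cut out the variety
  have hcut : ∀ q : ρ → ℂ, (∀ i, eval q (G i) = 0) → ∀ g ∈ I, eval q g = 0 := by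
    intro q hq
    obtain ⟨v, hv0, hv⟩ := exists_common_zero (ι := Fin n)
      (κ := (Σ i : Fin c, Fin (f i + 1)) ⊕ (Σ i : Fin c, Fin (f i + 1)))
      (Sum.elim (yF x u F f) (fun j => lsub (comb u)
        (homogeneousComponent ((j.2 : ℕ) + 1) (trans q (G j.1))))) (by
        rintro (k | k)
        · exact hy0 k
        · exact hu0 _ _ _) (by
        rw [Fintype.card_sum, hcardS, Fintype.card_fin]
        omega)
    have hw := hzmem v hv0 (fun k => hv (Sum.inl k))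
    have hwI : ∀ g ∈ I, eval (comb u v) g = 0 := hS.cone _ (hS.zY _ hw)
    have h2 : ∀ z, ∀ g ∈ I, eval (comb (ln q (comb u v)) z) g = 0 := by
      refine vanish_on I h.hI h.hdim (ln q (comb u v)) ![0, 1] ?_ G hGI ?_ ?_
      · rw [comb_ln_right]; exact hwI
      · rw [comb_ln_right]; exact hGli _ hw
      · intro i z
        refine line_of_taylor (hGh i) (hq i) (fun j => ?_) z
        have h1 := hv (Sum.inr ⟨i, j⟩)
        rw [Sum.elim_inr, eval_lsub] at h1
        exact h1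
    have h3 := h2 (pt 0)
    rwa [comb_ln_one] at h3
  -- conclusion
  obtain ⟨v, hv0, hv⟩ := exists_common_zero (ι := Fin n) (yF x u F f) hy0 (by
    rw [hcardS, Fintype.card_fin]
    omega)
  have hw := hzmem v hv0 hv
  refine ⟨G, hGh, ?_⟩
  refine unmixed I h.hI h.hhom ?_ h.hdim G (fun i => f i + 1) hGh (fun i => Nat.succ_pos _) hGI
    hcut (x := comb u v) (hS.cone _ (hS.zY _ hw)) (hGli _ hw)
  have h1 : c ≤ ∑ i : Fin c, (f i + 1) := by
    have h2 : ∑ i : Fin c, 1 ≤ ∑ i : Fin c, (f i + 1) :=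
      Finset.sum_le_sum (fun i _ => Nat.le_add_left _ _)
    simpa using h2
  have h2 := h.hn
  omega

end MainK

end Pool.Agent.Hartshorne
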