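import Mathlib
import Pool.Agent.HartN.CompS
import Pool.Agent.HartN.Zak

/-!
No hyperplane is tangent along a line of a component of the cone of lines.
-/

namespace Pool.Agent.Hartshorne

open MvPolynomial

set_option linter.unusedSectionVars false

section PosAux

/-- A vector orthogonal to the annihilator of a space lies in the space. -/
lemma mem_of_dot_p4 {n : ℕ} (L : Submodule ℂ (Fin n → ℂ)) (w : Fin n → ℂ)
    (h : ∀ t : Fin n → ℂ, (∀ l ∈ L, t ⬝ᵥ l = 0) → t ⬝ᵥ w = 0) : w ∈ L := by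
  by_contra hw
  obtain ⟨φ, hφw, hφ⟩ := Submodule.exists_le_ker_of_notMem (p := L) hw
  have key : ∀ y : Fin n → ℂ, (fun k => φ (Pi.single k 1)) ⬝ᵥ y = φ y := by
    intro y
    conv_rhs => rw [pi_eq_sum_univ' y, map_sum]
    rw [dotProduct]
    refine Finset.sum_congr rfl (fun k _ => ?_)
    rw [map_smul, smul_eq_mul, mul_comm]
  apply hφw
  rw [← key]
  apply h
  intro l hl
  rw [key]
  exact hφ hl

variable {σ : Type*} [Fintype σ] [DecidableEq σ]

lemma ddir_mul_p4 (t : σ → ℂ) (f g : MvPolynomial σ ℂ) :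
    ddir t (f * g) = ddir t f * g + f * ddir t g := by
  simp only [ddir, pderiv_mul, Finset.sum_mul, Finset.mul_sum, ← Finset.sum_add_distrib]
  exact Finset.sum_congr rfl (fun b _ => by ring)

lemma ddir_sum_p4 {ι : Type*} (s : Finset ι) (t : σ → ℂ) (g : ι → MvPolynomial σ ℂ) :
    ddir t (∑ i ∈ s, g i) = ∑ i ∈ s, ddir t (g i) := by
  simp only [ddir, map_sum, Finset.mul_sum]
  rw [Finset.sum_comm]

lemma eval_ddir_dot_p4 (t : σ → ℂ) (g : MvPolynomial σ ℂ) (p : σ → ℂ) :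
    eval p (ddir t g) = t ⬝ᵥ grad p g := by
  rw [eval_ddir, dotProduct]
  simp only [grad_apply]

/-- The derivative of a function with given local equations. -/
lemma ddir_loc_p4 {κ : Type*} [Fintype κ] (t : σ → ℂ) (y b : κ → MvPolynomial σ ℂ)
    (U q : MvPolynomial σ ℂ) (hU : U * q = ∑ p, b p * y p)
    (J : Ideal (MvPolynomial σ ℂ)) (hy : ∀ p, y p ∈ J)
    (hb : ∀ p, b p ∈ J ∨ ddir t (y p) = 0) : (U * U) * ddir t q ∈ J := by
  have h1 : ddir t (U * q) = ∑ p, (ddir t (b p) * y p + b p * ddir t (y p)) := by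
    rw [hU, ddir_sum_p4]
    exact Finset.sum_congr rfl (fun p _ => ddir_mul_p4 _ _ _)
  have h2 : ddir t (U * q) ∈ J := by
    rw [h1]
    refine Ideal.sum_mem _ (fun p _ => Ideal.add_mem _ (Ideal.mul_mem_left _ _ (hy p)) ?_)
    rcases hb p with h3 | h3
    · exact Ideal.mul_mem_right _ _ h3
    · rw [h3, mul_zero]; exact J.zero_mem
  have h3 : U * q ∈ J := by
    rw [hU]
    exact Ideal.sum_mem _ (fun p _ => Ideal.mul_mem_left _ _ (hy p))
  have h4 : (U * U) * ddir t q = U * ddir t (U * q) - ddir t U * (U * q) := by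
    rw [ddir_mul_p4]; ring
  rw [h4]
  exact Ideal.sub_mem _ (Ideal.mul_mem_left _ _ h2) (Ideal.mul_mem_left _ _ h3)

lemma mem_of_Wsp_zero_p4 {τ : Type*} [Fintype τ] {E : (Fin 2 → ℂ) → Submodule ℂ (τ → ℂ)} {w : τ → ℂ}
    (hw : w ∈ Wsp E 0) {z : Fin 2 → ℂ} (hz : z ≠ 0) : w ∈ E z := by
  obtain ⟨r, hr, hrE, rfl⟩ := hw
  have h1 : rowEval (pt 0) r = rowEval z r := by
    funext b
    rw [rowEval_apply, rowEval_apply]
    have h2 : (r b).totalDegree = 0 := Nat.le_zero.mp (hr b).totalDegree_le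
    rw [totalDegree_eq_zero_iff_eq_C.mp h2, eval_C, eval_C]
  rw [h1]
  exact hrE z hz

lemma Wsp_mono_p4 {τ : Type*} [Fintype τ] {E : (Fin 2 → ℂ) → Submodule ℂ (τ → ℂ)} {e e' : ℕ}
    (h : e ≤ e') : Wsp E e ≤ Wsp E e' := by
  rintro _ ⟨r, hr, hrE, rfl⟩
  refine ⟨(X 0 ^ (e' - e) : MvPolynomial (Fin 2) ℂ) • r, ?_, hrE.smul _, ?_⟩
  · have h1 := HomRow.smul ((isHomogeneous_X ℂ (0 : Fin 2)).pow (e' - e)) hr
    rwa [one_mul, Nat.sub_add_cancel h] at h1
  · rw [rowEval_smul]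
    simp [pt]

end PosAux

section PosAux2

variable {ρ : Type*} [Fintype ρ] [DecidableEq ρ] {c d D n : ℕ} {I : Ideal (MvPolynomial ρ ℂ)}
  {x : ρ → ℂ} {u : Fin n → (ρ → ℂ)} {F : Fin c → MvPolynomial ρ ℂ}

lemma grad_cf_one_p4 (x : ρ → ℂ) (u : Fin n → (ρ → ℂ)) (v : Fin n → ℂ) (g : MvPolynomial ρ ℂ) :
    grad v (cf x u 1 g) = ust u (grad x g) := by
  funext k
  rw [show (1 : ℕ) = 0 + 1 from rfl, grad_cf, ust_apply]
  refine Finset.sum_congr rfl (fun b _ => ?_)
  rw [cf, homogeneousComponent_zero, eval_C, ← eval_zero_eq_coeff, eval_aff, map_zero, add_zero,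
    grad_apply]

lemma cf_comb_p4 (j : ℕ) (a : Fin c → ℂ) (F : Fin c → MvPolynomial ρ ℂ) :
    cf x u j (∑ i, C (a i) * F i) = ∑ i, C (a i) * cf x u j (F i) := by
  rw [cf, map_sum, map_sum]
  refine Finset.sum_congr rfl (fun i _ => ?_)
  rw [← smul_eq_C_mul, map_smul, map_smul, smul_eq_C_mul, cf]

lemma grad_comb_p4 (p : ρ → ℂ) (a : Fin c → ℂ) (F : Fin c → MvPolynomial ρ ℂ) :
    grad p (∑ i, C (a i) * F i) = ∑ i, a i • grad p (F i) := by
  rw [map_sum]
  refine Finset.sum_congr rfl (fun i _ => ?_)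
  rw [← smul_eq_C_mul, map_smul]

lemma PtS.x_ne_p4 (h : PtS I x u c d D F) : x ≠ 0 := by
  have h1 := h.hbas.ne_zero 0
  rwa [Fin.cons_zero] at h1

lemma PtS.vertex_p4 (h : PtS I x u c d D F) : Vertex I x c d F :=
  ⟨h.hd, h.hF, h.hli, (h.good x h.x_ne_p4 h.hx).2⟩

lemma PtS.van_p4 (h : PtS I x u c d D F) {v : Fin n → ℂ}
    (hv : ∀ i z, eval (comb (pl x u v) z) (F i) = 0) :
    ∀ z, ∀ g ∈ I, eval (comb (pl x u v) z) g = 0 :=
  vanish_on I h.hI h.hdim (pl x u v) (pt 0) (by rw [pl, comb_ln_one]; exact h.hx) F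
    (fun i => (h.hF i).1) (by rw [pl, comb_ln_one]; exact h.hli) hv

/-- The span of the gradients of the linear coefficient forms. -/
lemma PtS.span_one_p4 (h : PtS I x u c d D F) (v : Fin n → ℂ) :
    Submodule.span ℂ (Set.range fun i => grad v (cf x u 1 (F i))) =
      (gradSpan I x).map (ust u) := by
  rw [← h.vertex_p4.span_eq, Submodule.map_span, ← Set.range_comp]
  congr 1
  ext w
  constructor
  · rintro ⟨i, rfl⟩
    exact ⟨i, (grad_cf_one_p4 x u v (F i)).symm⟩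
  · rintro ⟨i, rfl⟩
    exact ⟨i, grad_cf_one_p4 x u v (F i)⟩

/-- Two frames span the same space of forms. -/
lemma PtS.frame_change_p4 (h : PtS I x u c d D F) (A : Fin c → Fin c → ℂ)
    (h' : PtS I x u c d D (fun i => ∑ j, C (A i j) * F j)) (g : Fin c → ℂ) :
    ∃ μ : Fin c → ℂ, ∑ j, C (g j) * F j = ∑ i, C (μ i) * (∑ j, C (A i j) * F j) := by
  have h1 : grad x (∑ j, C (g j) * F j) ∈ gradSpan I x :=
    grad_mem_gradSpan (Ideal.sum_mem _ (fun j _ => Ideal.mul_mem_left _ _ (h.hF j).1)) x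
  rw [← h'.vertex_p4.span_eq] at h1
  obtain ⟨μ, hμ⟩ := (Submodule.mem_span_range_iff_exists_fun _).mp h1
  refine ⟨μ, ?_⟩
  have h2 : ∑ i, C (μ i) * (∑ j, C (A i j) * F j) = ∑ j, C (∑ i, μ i * A i j) * F j := by
    simp only [Finset.mul_sum, map_sum, map_mul, Finset.sum_mul]
    rw [Finset.sum_comm]
    exact Finset.sum_congr rfl (fun j _ => Finset.sum_congr rfl (fun i _ => by ring))
  have h3 : ∑ j, (g j - ∑ i, μ i * A i j) • grad x (F j) = 0 := by
    simp only [sub_smul, Finset.sum_sub_distrib]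
    rw [← grad_comb_p4, ← grad_comb_p4, ← h2, grad_comb_p4 x μ, ← hμ, sub_self]
  have h4 := Fintype.linearIndependent_iff.mp h.hli _ h3
  rw [h2]
  refine Finset.sum_congr rfl (fun j _ => ?_)
  rw [sub_eq_zero.mp (h4 j)]

end PosAux2

section N4

variable {ρ : Type} [Fintype ρ] [DecidableEq ρ] {c d D n : ℕ} {I : Ideal (MvPolynomial ρ ℂ)}
  {x : ρ → ℂ} {u : Fin n → (ρ → ℂ)} {F : Fin c → MvPolynomial ρ ℂ} {f : Fin c → ℕ}
  {v : Fin n → ℂ} {K : Ideal (MvPolynomial (Fin n) ℂ)} {m : ℕ}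

/-- No hyperplane is tangent along a line of a component of the cone. -/
theorem CompS.w0 (h : CompS I x u c d D F K m)
    (hnd : ∀ H : ρ → ℂ, H ≠ 0 → ∃ p, (∀ h ∈ I, eval p h = 0) ∧ H ⬝ᵥ p ≠ 0)
    (hcard : 2 * m ≤ n) (hv0 : v ≠ 0) (hvK : ∀ g ∈ K, eval v g = 0) :
    Wsp (El I x u v) 0 = ⊥ := by
  classical
  by_contra hne
  obtain ⟨H, hH, hH0⟩ := (Submodule.ne_bot_iff _).mp hne
  have hP : PtS I x u c d D F := h.toPtS
  have hcone : ∀ w : Fin n → ℂ, (∀ g ∈ K, eval w g = 0) →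
      ∀ i z, eval (comb (pl x u w) z) (F i) = 0 :=
    fun w hw => (hP.cone_iff w).mpr (fun g hg => hw g (h.hKa hg))
  obtain ⟨A, f, hL⟩ := hP.exists_line hv0 (hcone v hvK)
  obtain ⟨a, ha0, haH⟩ := hL.ad2 0 H hH
  obtain ⟨F₁, hF₁⟩ : ∃ F₁ : Fin c → MvPolynomial ρ ℂ, F₁ = fun i => ∑ j, C (A i j) * F j :=
    ⟨_, rfl⟩
  rw [← hF₁] at hL
  obtain ⟨G, hG⟩ : ∃ G : MvPolynomial ρ ℂ, G = ∑ i, C (a i) * F₁ i := ⟨_, rfl⟩
  obtain ⟨q, hq⟩ : ∃ q : MvPolynomial (Fin n) ℂ, q = cf x u 2 G := ⟨_, rfl⟩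
  obtain ⟨L, hLdef⟩ : ∃ L : Submodule ℂ (Fin n → ℂ), L = (gradSpan I x).map (ust u) := ⟨_, rfl⟩
  have hP₁ : PtS I x u c d D F₁ := hL.toPtS
  have hGH : H = grad x G := by
    rw [hG, grad_comb_p4, haH, hF₁]
  have hqhom : q.IsHomogeneous 2 := by rw [hq]; exact cf_isHomogeneous x u _ _
  have hqall : q ∈ allF x u F₁ := by
    rw [hq, hG, cf_comb_p4]
    exact Ideal.sum_mem _ (fun i _ => Ideal.mul_mem_left _ _ (cf_mem_allF x u F₁ i 2))
  have hqK : q ∈ K := h.hKa (by rw [← hP.allF_eq hP₁]; exact hqall)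
  have hgv : grad v q ∈ L := by
    rw [hLdef, ← hP₁.span_one_p4 v, hq, hG]
    exact (hL.w0_iff a).mpr ha0
  -- the point of evaluation and the projection
  obtain ⟨π, ξ, hπ⟩ := exists_projS hP.hbas hP.hn
  -- the local equations
  obtain ⟨hsum, hKloc⟩ := h.loc F₁ f v hL hvK
  obtain ⟨U, hU0, hUq⟩ := hKloc q hqK
  obtain ⟨b, hb⟩ := (Submodule.mem_span_range_iff_exists_fun _).mp hUq
  have hb' : U * q = ∑ p, b p * yF x u F₁ f p := by
    rw [← hb]
    rfl
  have hyv : ∀ p, eval v (yF x u F₁ f p) = 0 := fun p =>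
    hvK _ (h.hKa (by rw [← hP.allF_eq hP₁]; exact yF_mem_allF p))
  -- the coefficients of positive level vanish
  have hbv : ∀ p, 0 < (p.2 : ℕ) → eval v (b p) = 0 := by
    have h1 : ∑ p, eval v (b p) • grad v (yF x u F₁ f p) = eval v U • grad v q := by
      have h2 := congrArg (grad v) hb'
      rw [grad_mul, hvK q hqK, zero_smul, add_zero, map_sum] at h2
      rw [h2]
      refine Finset.sum_congr rfl (fun p _ => ?_)
      rw [grad_mul, hyv, zero_smul, add_zero]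
    have h3 : grad v q ∈ Submodule.span ℂ (Set.range fun i => grad v (cf x u 1 (F₁ i))) := by
      rw [hP₁.span_one_p4 v, ← hLdef]; exact hgv
    obtain ⟨μ, hμ⟩ := (Submodule.mem_span_range_iff_exists_fun _).mp h3
    have h4 : ∑ p : (Σ i : Fin c, Fin (f i + 1)), (if (p.2 : ℕ) = 0 then μ p.1 else 0) •
        grad v (yF x u F₁ f p) = grad v q := by
      rw [← hμ, Fintype.sum_sigma]
      refine Finset.sum_congr rfl (fun i _ => ?_)
      rw [Finset.sum_eq_single (0 : Fin (f i + 1))]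
      · rw [Fin.val_zero, if_pos rfl]
        rfl
      · intro l _ hl
        rw [if_neg, zero_smul]
        intro h5
        exact hl (Fin.ext h5)
      · intro h5; exact absurd (Finset.mem_univ _) h5
    have h5 : ∑ p : (Σ i : Fin c, Fin (f i + 1)), (eval v (b p) -
        eval v U * (if (p.2 : ℕ) = 0 then μ p.1 else 0)) • grad v (yF x u F₁ f p) = 0 := by
      simp only [sub_smul, Finset.sum_sub_distrib, mul_smul]
      rw [← Finset.smul_sum, h4, h1, sub_self]
    intro p hp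
    have h6 := Fintype.linearIndependent_iff.mp hL.li _ h5 p
    rw [if_neg (by omega), mul_zero, sub_zero] at h6
    exact h6
  -- the equations upstairs
  set κ := (Σ i : Fin c, Fin (f i + 1)) ⊕
    {p : (Σ i : Fin c, Fin (f i + 1)) // 0 < (p.2 : ℕ)} with hκ
  set e₀ : κ → MvPolynomial (Fin n) ℂ :=
    Sum.elim (fun p => yF x u F₁ f p) (fun p => b p.1) with he₀
  set e : κ → MvPolynomial ρ ℂ := fun k => lsub π (e₀ k) with he
  have hmap : ∀ g, g ∈ Ideal.span (Set.range e₀) → lsub π g ∈ Ideal.span (Set.range e) := by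
    intro g hg
    have h1 := Ideal.mem_map_of_mem (lsub π) hg
    rwa [Ideal.map_span, ← Set.range_comp] at h1
  have hyJ : ∀ p, yF x u F₁ f p ∈ Ideal.span (Set.range e₀) := fun p =>
    Ideal.subset_span ⟨Sum.inl p, rfl⟩
  have hcardκ : Fintype.card κ + c = 2 * m := by
    have h1 : Fintype.card (Σ i : Fin c, Fin (f i + 1)) = m := by
      rw [Fintype.card_sigma]
      simp only [Fintype.card_fin]
      exact hsum
    have h2 : Fintype.card {p : (Σ i : Fin c, Fin (f i + 1)) // ¬ 0 < (p.2 : ℕ)} = c := by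
      have h3 : ({p : (Σ i : Fin c, Fin (f i + 1)) // ¬ 0 < (p.2 : ℕ)}) ≃ Fin c :=
        { toFun := fun p => p.1.1
          invFun := fun i => ⟨⟨i, 0⟩, by simp⟩
          left_inv := by
            rintro ⟨⟨i, l⟩, hl⟩
            have h4 : l = 0 := Fin.ext (by simpa using hl)
            subst h4
            rfl
          right_inv := fun i => rfl }
      rw [Fintype.card_congr h3, Fintype.card_fin]
    have h3 := Fintype.card_subtype_compl
      (fun p : (Σ i : Fin c, Fin (f i + 1)) => 0 < (p.2 : ℕ))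
    have h4 := Fintype.card_subtype_le
      (fun p : (Σ i : Fin c, Fin (f i + 1)) => 0 < (p.2 : ℕ))
    have h5 : Fintype.card κ = Fintype.card (Σ i : Fin c, Fin (f i + 1)) +
        Fintype.card {p : (Σ i : Fin c, Fin (f i + 1)) // 0 < (p.2 : ℕ)} := Fintype.card_sum
    rw [h2] at h3
    omega
  obtain ⟨p₀, hp₀, hHp₀⟩ := hnd H hH0
  have hp₀0 : p₀ ≠ 0 := by
    rintro rfl
    rw [dotProduct_zero] at hHp₀
    exact hHp₀ rfl
  obtain ⟨⟨g₀, hg₀, hg₀li⟩, -⟩ := hP.good p₀ hp₀0 hp₀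
  refine zak I hP.hI hP.hhom hP.hdim H
    ({h | ∃ g ∈ K, (∃ e, g.IsHomogeneous e) ∧ h = lsub π g} ∪
      {h | ∃ t : Fin n → ℂ, (∀ l ∈ L, t ⬝ᵥ l = 0) ∧ h = lsub π (ddir t q)})
    ?_ ?_ (comb u v) ?_ e ?_ ?_ p₀ hp₀ g₀ (fun k => (hg₀ k).1) hg₀li hHp₀ ?_
  · -- homogeneous
    rintro _ (⟨g, -, ⟨e, hge⟩, rfl⟩ | ⟨t, -, rfl⟩)
    · exact ⟨e, isHomogeneous_lsub _ _ _ hge⟩
    · exact ⟨_, isHomogeneous_lsub _ _ _ (ddir_isHomogeneous t hqhom)⟩
  · -- the zeros
    intro y hy0 hy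
    by_cases hw0 : π y = 0
    · have hyx : y = comb (pl x u v) ![ξ y, 0] := by
        rw [comb_pl]
        have h1 := hπ.dec y
        rw [hw0, map_zero, add_zero] at h1
        simpa using h1
      have hz : (![ξ y, 0] : Fin 2 → ℂ) ≠ 0 := by
        intro h1
        rw [h1, map_zero] at hyx
        exact hy0 hyx
      refine ⟨?_, ?_⟩
      · rw [hyx]
        exact hP.van_p4 (hcone v hvK) _
      · have h1 := mem_of_Wsp_zero_p4 hH hz
        rw [El, ← hyx] at h1
        exact h1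
    · have hwK : ∀ g ∈ K, eval (π y) g = 0 := by
        intro g hg
        rw [← sum_homogeneousComponent g, map_sum]
        refine Finset.sum_eq_zero (fun j _ => ?_)
        have h1 := hy (lsub π (homogeneousComponent j g))
          (Or.inl ⟨_, h.hKh g hg j, ⟨j, homogeneousComponent_isHomogeneous _ _⟩, rfl⟩)
        rwa [eval_lsub] at h1
      have hgw : grad (π y) q ∈ L := by
        apply mem_of_dot_p4
        intro t ht
        have h1 := hy (lsub π (ddir t q)) (Or.inr ⟨t, ht, rfl⟩)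
        rwa [eval_lsub, eval_ddir_dot_p4] at h1
      obtain ⟨A', f', hL'⟩ := hP.exists_line hw0 (hcone _ hwK)
      obtain ⟨μ, hμ⟩ := hP.frame_change_p4 A' hL'.toPtS (fun j => ∑ i, a i * A i j)
      have hGμ : G = ∑ i, C (μ i) * (∑ j, C (A' i j) * F j) := by
        rw [← hμ, hG, hF₁]
        simp only [Finset.mul_sum, map_sum, map_mul, Finset.sum_mul]
        rw [Finset.sum_comm]
        exact Finset.sum_congr rfl (fun j _ => Finset.sum_congr rfl (fun i _ => by ring))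
      rw [hLdef, ← hL'.toPtS.span_one_p4 (π y), hq, hGμ] at hgw
      have hμ0 := (hL'.w0_iff μ).mp hgw
      have hHw := hL'.mem_w0 μ hμ0
      rw [← hGμ, ← hGH] at hHw
      have hyx : y = comb (pl x u (π y)) ![ξ y, 1] := by
        rw [comb_pl]
        have h1 := hπ.dec y
        simpa using h1
      have hz : (![ξ y, 1] : Fin 2 → ℂ) ≠ 0 := by
        intro h1
        have h2 := congrFun h1 1
        simp at h2
      refine ⟨?_, ?_⟩
      · rw [hyx]
        exact hP.van_p4 (hcone _ hwK) _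
      · have h1 := mem_of_Wsp_zero_p4 hHw hz
        rw [El, ← hyx] at h1
        exact h1
  · -- the base point
    rintro _ (⟨g, hg, -, rfl⟩ | ⟨t, ht, rfl⟩)
    · rw [eval_lsub, hπ.πu]; exact hvK g hg
    · rw [eval_lsub, hπ.πu, eval_ddir_dot_p4]; exact ht _ hgv
  · -- the equations vanish at the base point
    rintro (p | p)
    · show eval (comb u v) (lsub π (yF x u F₁ f p)) = 0
      rw [eval_lsub, hπ.πu]; exact hyv p
    · show eval (comb u v) (lsub π (b p.1)) = 0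
      rw [eval_lsub, hπ.πu]; exact hbv p.1 p.2
  · -- local equations
    rintro _ (⟨g, hg, -, rfl⟩ | ⟨t, ht, rfl⟩)
    · obtain ⟨q', hq'0, hq'⟩ := hKloc g hg
      refine ⟨lsub π q', by rw [eval_lsub, hπ.πu]; exact hq'0, ?_⟩
      rw [← map_mul]
      apply hmap
      refine Ideal.span_mono ?_ hq'
      rintro _ ⟨p, rfl⟩
      exact ⟨Sum.inl p, rfl⟩
    · refine ⟨lsub π (U * U), ?_, ?_⟩
      · rw [eval_lsub, hπ.πu, map_mul]
        exact mul_ne_zero hU0 hU0
      · rw [← map_mul]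
        apply hmap
        refine ddir_loc_p4 t (yF x u F₁ f) b U q hb' _ hyJ ?_
        intro p
        rcases Nat.eq_zero_or_pos (p.2 : ℕ) with hp | hp
        · right
          apply MvPolynomial.funext
          intro w
          rw [eval_ddir_dot_p4, map_zero, yF, hp, zero_add]
          apply ht
          rw [hLdef, ← hP₁.span_one_p4 w]
          exact Submodule.subset_span ⟨p.1, rfl⟩
        · left
          exact Ideal.subset_span ⟨Sum.inr ⟨p, hp⟩, rfl⟩
  · have h1 := hP.hn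
    omega

/-- Hence the filtration ends early. -/
theorem CompS.wtop (h : CompS I x u c d D F K m)
    (hw0 : ∀ v ≠ 0, (∀ g ∈ K, eval v g = 0) → Wsp (El I x u v) 0 = ⊥)
    (hv0 : v ≠ 0) (hvK : ∀ g ∈ K, eval v g = 0) {e : ℕ} (he : m - 2 * c + 1 ≤ e) :
    2 * c ≤ m ∧ Wsp (El I x u v) e = gradSpan I x := by
  classical
  have hP : PtS I x u c d D F := h.toPtS
  obtain ⟨A, f, hL⟩ := hP.exists_line hv0
    ((hP.cone_iff v).mpr (fun g hg => hvK g (h.hKa hg)))
  have hf : ∀ i, 1 ≤ f i := by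
    intro i
    by_contra hfi
    have h1 := hL.ad1 i
    rw [show f i = 0 by omega, hw0 v hv0 hvK, Submodule.mem_bot] at h1
    exact hL.hli.ne_zero i h1
  obtain ⟨hsum, -⟩ := h.loc _ f v hL hvK
  have h2 : ∑ _i : Fin c, 2 = 2 * c := by
    rw [Finset.sum_const, Finset.card_univ, Fintype.card_fin, smul_eq_mul, mul_comm]
  have h3 : 2 * c ≤ m := by
    rw [← h2, ← hsum]
    exact Finset.sum_le_sum (fun i _ => by have := hf i; omega)
  refine ⟨h3, ?_⟩
  have hfe : ∀ i, f i ≤ e := by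
    intro i
    have h4 : ∑ j, (f j + 1) = (f i + 1) + ∑ j ∈ Finset.univ.erase i, (f j + 1) :=
      (Finset.add_sum_erase _ _ (Finset.mem_univ i)).symm
    have h5 : 2 * (c - 1) ≤ ∑ j ∈ Finset.univ.erase i, (f j + 1) := by
      have h6 : ∑ _j ∈ Finset.univ.erase i, 2 = 2 * (c - 1) := by
        rw [Finset.sum_const, Finset.card_erase_of_mem (Finset.mem_univ _), Finset.card_univ,
          Fintype.card_fin, smul_eq_mul, mul_comm]
      rw [← h6]
      exact Finset.sum_le_sum (fun j _ => by have := hf j; omega)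
    have h6 : 0 < c := i.pos
    omega
  apply le_antisymm
  · rw [← El_pt_zero I x u v]
    exact Wsp_le _ _
  · rw [← hL.toPtS.vertex_p4.span_eq, Submodule.span_le]
    rintro _ ⟨i, rfl⟩
    exact Wsp_mono_p4 (hfe i) (hL.ad1 i)

end N4

end Pool.Agent.Hartshorne
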