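import Mathlib
import Pool.Agent.HartN.Pos
import Pool.Agent.HartN.ConstK
import Pool.Agent.HartN.GlobK
import Pool.Agent.HartN.MainK
import Pool.Agent.HartN.Hyp

/-!
Hartshorne's conjecture for varieties covered by many lines.
-/

namespace Pool.Agent.Hartshorne

open MvPolynomial

set_option linter.unusedSectionVars false

section Final

variable {ρ : Type} [Fintype ρ] [DecidableEq ρ]

/-- **Hartshorne's conjecture for varieties covered by many lines.** -/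
theorem core_lines {c : ℕ} (r : ℕ) (hc : 0 < c)
    (hN : 2 * (c + r) + c * (r - c - 1) + 1 < Fintype.card ρ)
    (I : Ideal (MvPolynomial ρ ℂ)) (hI : I.IsPrime) (hhom : HI I)
    (hdim : ((Fintype.card ρ : ℕ) : WithBot ℕ∞) ≤
      ringKrullDim (MvPolynomial ρ ℂ ⧸ I) + (c : WithBot ℕ∞))
    (hsm : ∀ p : ρ → ℂ, p ≠ 0 → (∀ h ∈ I, eval p h = 0) →
      ∃ q : Fin c → MvPolynomial ρ ℂ, (∀ k, q k ∈ I) ∧
        LinearIndependent ℂ (fun k => fun j => eval p (pderiv j (q k))))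
    (hnd : ∀ l ∈ I, l.IsHomogeneous 1 → l = 0)
    (hlines : ∀ g ∉ I, ∃ x, (∀ h ∈ I, eval x h = 0) ∧ eval x g ≠ 0 ∧
      ((Fintype.card ρ : ℕ) : WithBot ℕ∞) ≤
        ringKrullDim (MvPolynomial ρ ℂ ⧸ coneI I x) + ((c + r : ℕ) : WithBot ℕ∞)) :
    ∃ (G : Fin c → MvPolynomial ρ ℂ) (e : Fin c → ℕ),
      (∀ k, 2 ≤ e k ∧ (G k).IsHomogeneous (e k)) ∧ ∑ k, (e k - 1) ≤ r ∧
      Ideal.span (Set.range G) = I := by
  classical
  have hne : ∃ p : ρ → ℂ, p ≠ 0 ∧ ∀ h ∈ I, eval p h = 0 := by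
    obtain ⟨p, -, hp0, hp⟩ := exists_zero (⊤ : Submodule ℂ (ρ → ℂ)) I hhom hdim (by
      rw [finrank_top, Module.finrank_fintype_fun_eq_card]
      omega)
    exact ⟨p, hp0, hp⟩
  obtain ⟨n, x, u, d, D, F, hP, hx⟩ := exists_ptS I hI hhom hdim hsm hne _ hlines
  have hcard := hP.hn
  obtain ⟨K', hK', hK'a, hK'd⟩ := hP.exists_prime_dir r hx
  obtain ⟨K, m, hm, hK, hex⟩ := hP.exists_comp K' hK' hK'a (c + r) hK'd (by omega)
  have hnd' : ∀ H : ρ → ℂ, H ≠ 0 → ∃ p, (∀ h ∈ I, eval p h = 0) ∧ H ⬝ᵥ p ≠ 0 := by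
    intro H hH
    by_contra hno
    push Not at hno
    have h1 : (∑ b, C (H b) * X b : MvPolynomial ρ ℂ) ∈ I := by
      refine mem_of_eval_zero hI (fun p hp => ?_)
      rw [map_sum, ← hno p hp, dotProduct]
      refine Finset.sum_congr rfl (fun b _ => ?_)
      rw [map_mul, eval_C, eval_X]
    have h2 := hnd _ h1 (IsHomogeneous.sum _ _ _ (fun b _ => isHomogeneous_C_mul_X _ _))
    apply hH
    funext b
    have h3 := congrArg (eval (Pi.single b 1)) h2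
    rw [map_sum, map_zero, Finset.sum_eq_single b] at h3
    · rwa [map_mul, eval_C, eval_X, Pi.single_eq_same, mul_one] at h3
    · intro b' _ hb'
      rw [map_mul, eval_C, eval_X, Pi.single_eq_of_ne hb', mul_zero]
    · intro h; exact absurd (Finset.mem_univ _) h
  have hw0 : ∀ v ≠ 0, (∀ g ∈ K, eval v g = 0) → Wsp (El I x u v) 0 = ⊥ := fun v hv0 hvK =>
    hK.w0 hnd' (by omega) hv0 hvK
  obtain ⟨v₁, hv₁0, hv₁⟩ := hex
  have hmc : 2 * c ≤ m := (hK.wtop hw0 hv₁0 hv₁ le_rfl).1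
  obtain ⟨s, hs⟩ : ∃ s, m = 2 * c + s := ⟨m - 2 * c, by omega⟩
  have hsr : s ≤ r - c := by omega
  have hcs : c * s ≤ c * (r - c - 1) + c := by
    rcases Nat.eq_zero_or_pos s with h0 | h0
    · rw [h0]; omega
    · have h1 : s ≤ (r - c - 1) + 1 := by omega
      calc c * s ≤ c * ((r - c - 1) + 1) := Nat.mul_le_mul_left _ h1
        _ = c * (r - c - 1) + c := by ring
  have hws : ∀ v ≠ 0, (∀ g ∈ K, eval v g = 0) → ∀ e, s + 1 ≤ e →
      Wsp (El I x u v) e = gradSpan I x := fun v hv0 hvK e he =>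
    (hK.wtop hw0 hv0 hvK (by omega)).2
  obtain ⟨F', f, hfm, hC, v₀, hv₀0, hv₀K, hv₀⟩ := hK.coneS (fun v₁ hv₁0 hv₁ v₂ hv₂0 hv₂ e =>
    hK.kpen.Wsp_const s hw0 hws (by omega) hv₁0 hv₁ hv₂0 hv₂ e) (by omega) ⟨v₁, hv₁0, hv₁⟩
  obtain ⟨G, hG, hGI⟩ := hC.main' hc (by omega) ⟨v₀, hv₀0, hv₀⟩
  have hf : ∀ i, 1 ≤ f i := by
    intro i
    by_contra hlt
    have hf0 : f i = 0 := by omega
    have h1 := hC.ad1 v₀ hv₀0 hv₀ i
    rw [hf0, hw0 v₀ hv₀0 hv₀K, Submodule.mem_bot] at h1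
    exact hC.hli.ne_zero i h1
  refine ⟨G, fun i => f i + 1, fun i => ⟨Nat.succ_le_succ (hf i), hG i⟩, ?_, hGI⟩
  have h1 : ∑ i, (f i + 1) = ∑ i, f i + c := by
    rw [Finset.sum_add_distrib]
    simp
  simp only [Nat.add_sub_cancel]
  omega

end Final

end Pool.Agent.Hartshorne
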