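import Mathlib
import Pool.Agent.Hartshorne.Locus

/-!
Dimension of the fibres of a projection of an affine variety.
-/

namespace Pool.Agent.Hartshorne

open MvPolynomial

set_option linter.unusedSectionVars false

section Fiber

variable {σ τ : Type} [Fintype σ] [Fintype τ] [DecidableEq σ] [DecidableEq τ]

/-- **Dimension of the fibres of a projection.** -/
theorem exists_fiber_prime {κ : Type} [Fintype κ] (P : Ideal (MvPolynomial (σ ⊕ τ) ℂ))
    (hP : P.IsPrime) (x : σ → ℂ) (w : τ → ℂ) (hxw : ∀ g ∈ P, eval (Sum.elim x w) g = 0)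
    (e : κ → MvPolynomial (σ ⊕ τ) ℂ) (he : ∀ k, e k ∈ P)
    (hloc : ∀ g ∈ P, ∃ U, eval (Sum.elim x w) U ≠ 0 ∧ U * g ∈ Ideal.span (Set.range e))
    (d : ℕ)
    (hd : ringKrullDim (MvPolynomial σ ℂ ⧸ P.comap (rename Sum.inl :
      MvPolynomial σ ℂ →ₐ[ℂ] MvPolynomial (σ ⊕ τ) ℂ)) ≤ (d : WithBot ℕ∞)) :
    ∃ Q : Ideal (MvPolynomial τ ℂ), Q.IsPrime ∧ (∀ g ∈ Q, eval w g = 0) ∧
      (∀ w' : τ → ℂ, (∀ g ∈ Q, eval w' g = 0) → ∀ g ∈ P, eval (Sum.elim x w') g = 0) ∧
      ((Fintype.card σ + Fintype.card τ : ℕ) : WithBot ℕ∞) ≤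
        ringKrullDim (MvPolynomial τ ℂ ⧸ Q) + ((Fintype.card κ + d : ℕ) : WithBot ℕ∞) := by
  classical
  set inl : MvPolynomial σ ℂ →ₐ[ℂ] MvPolynomial (σ ⊕ τ) ℂ := rename Sum.inl with hinl
  set inr : MvPolynomial τ ℂ →ₐ[ℂ] MvPolynomial (σ ⊕ τ) ℂ := rename Sum.inr with hinr
  have einl : ∀ (x : σ → ℂ) (w : τ → ℂ) g, eval (Sum.elim x w) (inl g) = eval x g := by
    intro x w g
    rw [hinl, eval_rename]
    rfl
  have einr : ∀ (x : σ → ℂ) (w : τ → ℂ) g, eval (Sum.elim x w) (inr g) = eval w g := by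
    intro x w g
    rw [hinr, eval_rename]
    rfl
  set J := P.comap inl with hJ
  have hJp : J.IsPrime := Ideal.comap_isPrime _ _
  set m : Ideal (MvPolynomial σ ℂ) := RingHom.ker (eval x) with hm
  have hmp : m.IsPrime := RingHom.ker_isPrime _
  have hJm : J ≤ m := by
    intro g hg
    have h1 := hxw _ hg
    rw [einl] at h1
    exact h1
  have hmq : (m.map (Ideal.Quotient.mk J)).IsPrime := Ideal.isPrime_map_quotientMk_of_isPrime hJm
  obtain ⟨s, hs, hsc⟩ := Ideal.exists_finset_card_eq_height_of_isNoetherianRing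
    (m.map (Ideal.Quotient.mk J))
  have hsd : s.card ≤ d := by
    have h1 := Ideal.height_le_ringKrullDim_of_isPrime (I := m.map (Ideal.Quotient.mk J))
    rw [← hsc] at h1
    have h2 := h1.trans hd
    exact_mod_cast h2
  have hmk : ∀ g, Ideal.Quotient.mk J g ∈ m.map (Ideal.Quotient.mk J) → g ∈ m := by
    intro g hg
    have h4 : g ∈ (m.map (Ideal.Quotient.mk J)).comap (Ideal.Quotient.mk J) := hg
    rw [Ideal.comap_map_of_surjective _ Ideal.Quotient.mk_surjective] at h4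
    have h5 : (Ideal.comap (Ideal.Quotient.mk J) ⊥) ≤ m := by
      intro y hy
      apply hJm
      rw [Ideal.mem_comap, Ideal.mem_bot] at hy
      exact Ideal.Quotient.eq_zero_iff_mem.mp hy
    exact (sup_le le_rfl h5) h4
  have hlift : ∀ a : MvPolynomial σ ℂ ⧸ J, ∃ g, Ideal.Quotient.mk J g = a :=
    fun a => Ideal.Quotient.mk_surjective a
  choose lift hlift using hlift
  obtain ⟨Q₂, hQ₂, heQ, hQx, hdim⟩ := exists_prime_at
    (Sum.elim e (fun a : {a // a ∈ s} => inl (lift a))) (Sum.elim x w) (by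
      rintro (k | a)
      · exact hxw _ (he k)
      · rw [Sum.elim_inr, einl]
        refine hmk _ ?_
        rw [hlift]
        exact hs.1.2 (Ideal.subset_span a.2))
  have hPQ : P ≤ Q₂ := by
    intro g hg
    obtain ⟨U, hU, hUg⟩ := hloc g hg
    have h1 : U * g ∈ Q₂ := by
      refine (Ideal.span_le.mpr ?_) hUg
      rintro _ ⟨k, rfl⟩
      exact heQ (Sum.inl k)
    exact (hQ₂.mem_or_mem h1).resolve_left (fun h2 => hU (hQx _ h2))
  set m₂ := Q₂.comap inl with hm₂
  have hm₂p : m₂.IsPrime := Ideal.comap_isPrime _ _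
  have hJm₂ : J ≤ m₂ := Ideal.comap_mono hPQ
  have hm₂m : m₂ ≤ m := by
    intro g hg
    have h1 := hQx _ hg
    rw [einl] at h1
    exact h1
  have hm₂q : (m₂.map (Ideal.Quotient.mk J)).IsPrime :=
    Ideal.isPrime_map_quotientMk_of_isPrime hJm₂
  have hmin : m.map (Ideal.Quotient.mk J) ≤ m₂.map (Ideal.Quotient.mk J) := by
    refine hs.2 ⟨hm₂q, ?_⟩ (Ideal.map_mono hm₂m)
    rw [Ideal.span_le]
    intro a ha
    rw [← hlift a]
    exact Ideal.mem_map_of_mem _ (heQ (Sum.inr ⟨a, ha⟩))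
  have hmm₂ : m ≤ m₂ := by
    intro g hg
    have h1 := hmin (Ideal.mem_map_of_mem _ hg)
    have h4 : g ∈ (m₂.map (Ideal.Quotient.mk J)).comap (Ideal.Quotient.mk J) := h1
    rw [Ideal.comap_map_of_surjective _ Ideal.Quotient.mk_surjective] at h4
    have h5 : (Ideal.comap (Ideal.Quotient.mk J) ⊥) ≤ m₂ := by
      intro y hy
      apply hJm₂
      rw [Ideal.mem_comap, Ideal.mem_bot] at hy
      exact Ideal.Quotient.eq_zero_iff_mem.mp hy
    exact (sup_le le_rfl h5) h4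
  have hX : ∀ i, X (Sum.inl i) - C (x i) ∈ Q₂ := by
    intro i
    have h1 : (X i - C (x i) : MvPolynomial σ ℂ) ∈ m := by
      rw [hm, RingHom.mem_ker, map_sub, eval_X, eval_C, sub_self]
    have h2 : inl (X i - C (x i)) ∈ Q₂ := hmm₂ h1
    rw [map_sub, hinl, rename_X, rename_C] at h2
    exact h2
  have hfst : ∀ q : σ ⊕ τ → ℂ, (∀ g ∈ Q₂, eval q g = 0) → ∀ i, q (Sum.inl i) = x i := by
    intro q hq i
    have h1 := hq _ (hX i)
    rw [map_sub, eval_X, eval_C, sub_eq_zero] at h1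
    exact h1
  -- evaluation of the first variables
  have hpart : ∀ g : MvPolynomial (σ ⊕ τ) ℂ,
      inr (aeval (Sum.elim (fun j => C (x j)) X : σ ⊕ τ → MvPolynomial τ ℂ) g) - g ∈ Q₂ := by
    intro g
    refine mem_of_eval_zero hQ₂ (fun q hq => ?_)
    have h1 : q = Sum.elim x (fun j => q (Sum.inr j)) := by
      funext i
      rcases i with i | i
      · exact hfst q hq i
      · rfl
    rw [map_sub, h1, einr, eval_partial_left, sub_self]
  refine ⟨Q₂.comap inr, Ideal.comap_isPrime _ _, ?_, ?_, ?_⟩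
  · intro g hg
    have h1 := hQx _ hg
    rwa [einr] at h1
  · intro w' hw' g hg
    have h1 : aeval (Sum.elim (fun j => C (x j)) X : σ ⊕ τ → MvPolynomial τ ℂ) g ∈
        Q₂.comap inr := by
      have h2 := Ideal.add_mem _ (hpart g) (hPQ hg)
      rw [sub_add_cancel] at h2
      exact h2
    have h2 := hw' _ h1
    rwa [eval_partial_left] at h2
  · rw [Fintype.card_sum, Fintype.card_sum, Fintype.card_coe] at hdim
    have h1 : ringKrullDim (MvPolynomial (σ ⊕ τ) ℂ ⧸ Q₂) ≤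
        ringKrullDim (MvPolynomial τ ℂ ⧸ Q₂.comap inr) := by
      refine ringKrullDim_le_of_surjective (Ideal.quotientMap Q₂ (inr : MvPolynomial τ ℂ →+*
        MvPolynomial (σ ⊕ τ) ℂ) le_rfl) ?_
      intro y
      obtain ⟨g, rfl⟩ := Ideal.Quotient.mk_surjective y
      refine ⟨Ideal.Quotient.mk _ (aeval (Sum.elim (fun j => C (x j)) X :
        σ ⊕ τ → MvPolynomial τ ℂ) g), ?_⟩
      rw [Ideal.quotientMap_mk]
      exact Ideal.Quotient.eq.mpr (hpart g)
    refine hdim.trans ?_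
    refine add_le_add h1 ?_
    exact_mod_cast Nat.add_le_add_left hsd _

end Fiber

end Pool.Agent.Hartshorne
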