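import Mathlib
import Pool.Agent.Hartshorne.Gen
import Pool.Agent.Hartshorne.Grad
import Pool.Agent.Hartshorne.RegSeq

/-!
Definitions: free lines, pairs, nonsingular cones, cones stable under a one-parameter group.
-/

namespace Pool.Agent.Hartshorne

open MvPolynomial

set_option linter.unusedSectionVars false

section Defs

variable {ρ : Type} [Fintype ρ] [DecidableEq ρ]

/-- The tangent space of the cone of a variety at a point. -/
def tanSp (I : Ideal (MvPolynomial ρ ℂ)) (p : ρ → ℂ) : Submodule ℂ (ρ → ℂ) where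
  carrier := {a | ∀ h ∈ I, grad p h ⬝ᵥ a = 0}
  zero_mem' := fun _ _ => dotProduct_zero _
  add_mem' := by
    intro a b ha hb h hh
    rw [dotProduct_add, ha h hh, hb h hh, add_zero]
  smul_mem' := by
    intro t a ha h hh
    rw [dotProduct_smul, ha h hh, smul_zero]

lemma mem_tanSp (I : Ideal (MvPolynomial ρ ℂ)) (p a : ρ → ℂ) :
    a ∈ tanSp I p ↔ ∀ h ∈ I, grad p h ⬝ᵥ a = 0 := Iff.rfl

/-- The line through two points lies in the variety. -/
def LineIn (I : Ideal (MvPolynomial ρ ℂ)) (x w : ρ → ℂ) : Prop :=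
  ∀ s t : ℂ, ∀ h ∈ I, eval (s • x + t • w) h = 0

/-- A free line. -/
def FreeLine (I : Ideal (MvPolynomial ρ ℂ)) (x w : ρ → ℂ) : Prop :=
  ∀ a ∈ tanSp I x, ∃ b : ρ → ℂ, ∀ s t : ℂ, s • a + t • b ∈ tanSp I (s • x + t • w)

/-- The intersection of the tangent spaces along a line. -/
def tanLine (I : Ideal (MvPolynomial ρ ℂ)) (x w : ρ → ℂ) : Submodule ℂ (ρ → ℂ) :=
  ⨅ s : ℂ, ⨅ t : ℂ, tanSp I (s • x + t • w)

lemma mem_tanLine (I : Ideal (MvPolynomial ρ ℂ)) (x w a : ρ → ℂ) :
    a ∈ tanLine I x w ↔ ∀ s t : ℂ, a ∈ tanSp I (s • x + t • w) := by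
  simp only [tanLine, Submodule.mem_iInf]

/-- The ideal of pairs of points which span a line of the variety. -/
noncomputable def pairI (I : Ideal (MvPolynomial ρ ℂ)) : Ideal (MvPolynomial (ρ ⊕ ρ) ℂ) :=
  Ideal.span {g | ∃ z : Fin 2 → ℂ, ∃ h ∈ I, g = lineA z h}

/-- A nonsingular cone of codimension `c`. -/
structure NsCone (I : Ideal (MvPolynomial ρ ℂ)) (c D : ℕ) : Prop where
  hI : I.IsPrime
  hhom : HI I
  hdim : ((Fintype.card ρ : ℕ) : WithBot ℕ∞) ≤
      ringKrullDim (MvPolynomial ρ ℂ ⧸ I) + (c : WithBot ℕ∞)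
  hD : 0 < D
  good : ∀ p ≠ 0, (∀ h ∈ I, eval p h = 0) → GoodPt I c D p

/-- A nonsingular nondegenerate cone, stable under a one-parameter group whose smallest
and largest weights are `0` and `A`. -/
structure TCone (I : Ideal (MvPolynomial ρ ℂ)) (c D : ℕ) (a : ρ → ℕ) (A : ℕ) : Prop
    extends NsCone I c D where
  hw : ∀ f ∈ I, ∀ e, weightedHomogeneousComponent a e f ∈ I
  hnd : ∀ l ∈ I, l.IsHomogeneous 1 → l = 0
  hA : 0 < A
  hle : ∀ b, a b ≤ A
  h0 : ∃ b, a b = 0
  hAA : ∃ b, a b = A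

/-- Coordinate projection. -/
def prS (S : ρ → Prop) [DecidablePred S] : (ρ → ℂ) →ₗ[ℂ] (ρ → ℂ) where
  toFun := fun q b => if S b then q b else 0
  map_add' := by
    intro p q; funext b
    by_cases h : S b
    · simp [h]
    · simp [h]
  map_smul' := by
    intro t q; funext b
    by_cases h : S b
    · simp [h]
    · simp [h]

lemma prS_apply (S : ρ → Prop) [DecidablePred S] (q : ρ → ℂ) (b : ρ) :
    prS S q b = if S b then q b else 0 := rfl

/-- Vectors supported in a set of coordinates. -/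
def supS (S : ρ → Prop) : Submodule ℂ (ρ → ℂ) where
  carrier := {q | ∀ b, ¬ S b → q b = 0}
  zero_mem' := fun _ _ => rfl
  add_mem' := by
    intro p q hp hq b hb
    rw [Pi.add_apply, hp b hb, hq b hb, add_zero]
  smul_mem' := by
    intro t q hq b hb
    rw [Pi.smul_apply, hq b hb, smul_zero]

lemma mem_supS (S : ρ → Prop) (q : ρ → ℂ) : q ∈ supS S ↔ ∀ b, ¬ S b → q b = 0 := Iff.rfl

/-- The ideal of the part of the variety in the space of weight `k`, for an extreme
weight `k`. -/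
noncomputable def extI (I : Ideal (MvPolynomial ρ ℂ)) (a : ρ → ℕ) (k : ℕ) :
    Ideal (MvPolynomial ρ ℂ) := I.comap (lsub (prS (fun b => a b = k)))

end Defs

end Pool.Agent.Hartshorne
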