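import Mathlib
import Pool.Agent.HartN.DefsT
import Pool.Agent.Hartshorne.Dep
import Pool.Agent.Hartshorne.Filt
import Pool.Agent.Hartshorne.LocEq

/-!
Local equations of the space of lines at a free line.
-/

namespace Pool.Agent.Hartshorne

open MvPolynomial

set_option linter.unusedSectionVars false

section LineU

variable {ρ : Type} [Fintype ρ] [DecidableEq ρ]

/-- The gradient of a polynomial along a line, as a function of the pair of points. -/
lemma grad_lineA (z : Fin 2 → ℂ) (q : ρ ⊕ ρ → ℂ) (h : MvPolynomial ρ ℂ) :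
    grad q (lineA z h) = Sum.elim (z 0 • grad (z 0 • pl1 q + z 1 • pl2 q) h)
      (z 1 • grad (z 0 • pl1 q + z 1 • pl2 q) h) := by
  funext j
  rw [grad_apply, deriv_algHom (pderiv j) (lineA z) h]
  rcases j with b | b
  · have h1 : ∀ i, lineA z (pderiv i h) • (pderiv (Sum.inl b) (lineA z (X i)) :
        MvPolynomial (ρ ⊕ ρ) ℂ) = if i = b then C (z 0) * lineA z (pderiv b h) else 0 := by
      intro i
      have h2 : lineA z (X i) = C (z 0) * X (Sum.inl i) + C (z 1) * X (Sum.inr i) := by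
        rw [lineA, aeval_X]
      rw [h2, map_add, pderiv_C_mul, pderiv_C_mul, pderiv_X_of_ne (by simp : (Sum.inr i : ρ ⊕ ρ) ≠
        Sum.inl b), mul_zero, add_zero]
      by_cases hib : i = b
      · subst hib
        rw [pderiv_X_self, if_pos rfl, mul_one, smul_eq_mul, mul_comm]
      · rw [pderiv_X_of_ne (by simpa using hib), if_neg hib, mul_zero, smul_zero]
    rw [Finset.sum_congr rfl (fun i _ => h1 i), Finset.sum_ite_eq' Finset.univ b,
      if_pos (Finset.mem_univ _), map_mul, eval_C, eval_lineA, Sum.elim_inl, Pi.smul_apply,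
      grad_apply, smul_eq_mul]
  · have h1 : ∀ i, lineA z (pderiv i h) • (pderiv (Sum.inr b) (lineA z (X i)) :
        MvPolynomial (ρ ⊕ ρ) ℂ) = if i = b then C (z 1) * lineA z (pderiv b h) else 0 := by
      intro i
      have h2 : lineA z (X i) = C (z 0) * X (Sum.inl i) + C (z 1) * X (Sum.inr i) := by
        rw [lineA, aeval_X]
      rw [h2, map_add, pderiv_C_mul, pderiv_C_mul, pderiv_X_of_ne (by simp : (Sum.inl i : ρ ⊕ ρ) ≠
        Sum.inr b), mul_zero, zero_add]
      by_cases hib : i = b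
      · subst hib
        rw [pderiv_X_self, if_pos rfl, mul_one, smul_eq_mul, mul_comm]
      · rw [pderiv_X_of_ne (by simpa using hib), if_neg hib, mul_zero, smul_zero]
    rw [Finset.sum_congr rfl (fun i _ => h1 i), Finset.sum_ite_eq' Finset.univ b,
      if_pos (Finset.mem_univ _), map_mul, eval_C, eval_lineA, Sum.elim_inr, Pi.smul_apply,
      grad_apply, smul_eq_mul]

/-- Substitution of a universal point of the line. -/
noncomputable def lineU :
    MvPolynomial ρ ℂ →ₐ[ℂ] MvPolynomial (ρ ⊕ ρ) (MvPolynomial (Fin 2) ℂ) :=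
  aeval (fun i => C (X 0) * X (Sum.inl i) + C (X 1) * X (Sum.inr i))

lemma map_lineU (z : Fin 2 → ℂ) (h : MvPolynomial ρ ℂ) :
    MvPolynomial.map (eval z) (lineU h) = lineA z h := by
  have h1 : (MvPolynomial.map (eval z)).comp ((lineU : MvPolynomial ρ ℂ →ₐ[ℂ]
      MvPolynomial (ρ ⊕ ρ) (MvPolynomial (Fin 2) ℂ)) :
      MvPolynomial ρ ℂ →+* MvPolynomial (ρ ⊕ ρ) (MvPolynomial (Fin 2) ℂ)) =
      ((lineA z : MvPolynomial ρ ℂ →ₐ[ℂ] MvPolynomial (ρ ⊕ ρ) ℂ) :
      MvPolynomial ρ ℂ →+* MvPolynomial (ρ ⊕ ρ) ℂ) := by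
    apply MvPolynomial.ringHom_ext
    · intro a
      have h2 : (lineU : MvPolynomial ρ ℂ →ₐ[ℂ]
          MvPolynomial (ρ ⊕ ρ) (MvPolynomial (Fin 2) ℂ)) (C a) = C (C a) := by
        rw [← algebraMap_eq, AlgHom.commutes]
        rfl
      have h3 : (lineA z : MvPolynomial ρ ℂ →ₐ[ℂ] MvPolynomial (ρ ⊕ ρ) ℂ) (C a) = C a := by
        rw [← algebraMap_eq, AlgHom.commutes]
        rfl
      rw [RingHom.comp_apply, RingHom.coe_coe, RingHom.coe_coe, h2, h3, map_C, eval_C]
    · intro i
      rw [RingHom.comp_apply, RingHom.coe_coe, RingHom.coe_coe, lineU, lineA, aeval_X, aeval_X,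
        map_add, map_mul, map_mul, map_C, map_C, map_X, map_X, eval_X, eval_X]
  exact RingHom.congr_fun h1 h

/-- The value of a functional along the line, as a binary form. -/
noncomputable def lamU (lam : MvPolynomial (ρ ⊕ ρ) ℂ →ₗ[ℂ] ℂ) (h : MvPolynomial ρ ℂ) :
    MvPolynomial (Fin 2) ℂ :=
  ∑ m ∈ (lineU h).support, coeff m (lineU h) * C (lam (monomial m 1))

lemma eval_lamU (lam : MvPolynomial (ρ ⊕ ρ) ℂ →ₗ[ℂ] ℂ) (h : MvPolynomial ρ ℂ)
    (z : Fin 2 → ℂ) : eval z (lamU lam h) = lam (lineA z h) := by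
  rw [← map_lineU, lamU]
  conv_rhs => rw [← support_sum_monomial_coeff (lineU h), map_sum, map_sum]
  rw [map_sum]
  refine Finset.sum_congr rfl (fun m _ => ?_)
  rw [map_monomial, map_mul, eval_C]
  have h1 : (monomial m (eval z (coeff m (lineU h))) : MvPolynomial (ρ ⊕ ρ) ℂ) =
      (eval z (coeff m (lineU h))) • monomial m 1 := by
    rw [smul_monomial, smul_eq_mul, mul_one]
  rw [h1, map_smul, smul_eq_mul]

/-- A binary form of degree `f + 1` with `f + 2` zeros vanishes. -/
lemma form_zero {δ : MvPolynomial (Fin 2) ℂ} {n : ℕ} (hδ : δ.IsHomogeneous n)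
    (h : ∀ l : ℕ, l < n + 1 → eval (pt (l : ℂ)) δ = 0) : δ = 0 := by
  have h1 : deh δ = 0 := by
    apply Polynomial.eq_zero_of_natDegree_lt_card_of_eval_eq_zero (deh δ)
      (f := fun l : Fin (n + 1) => ((l : ℕ) : ℂ))
    · intro a b hab
      apply Fin.ext
      have hab' : ((a : ℕ) : ℂ) = ((b : ℕ) : ℂ) := hab
      exact_mod_cast hab'
    · intro l
      rw [eval_deh]
      exact h l l.2
    · rw [Fintype.card_fin]
      exact Nat.lt_succ_of_le (natDegree_deh hδ)
  apply eq_zero_of_eval (X_ne_zero (0 : Fin 2) : (X 0 : MvPolynomial (Fin 2) ℂ) ≠ 0)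
  intro z hz
  rw [eval_X] at hz
  have h2 : z = z 0 • pt (z 1 / z 0) := by
    funext i
    rcases fin2_cases i with rfl | rfl
    · simp [pt]
    · simp [pt, mul_div_cancel₀ _ hz]
  rw [h2, eval_smul_of_isHomogeneous hδ, ← eval_deh, h1, Polynomial.eval_zero, mul_zero]

end LineU

section PairEq

variable {ρ : Type} [Fintype ρ] [DecidableEq ρ] {I : Ideal (MvPolynomial ρ ℂ)} {c D : ℕ}

theorem NsCone.lam_pair_zero (h : NsCone I c D) {x w : ρ → ℂ}
    (hli : LinearIndependent ℂ (ln x w)) (hline : LineIn I x w)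
    {f : Fin c → ℕ} {ψ : Fin c → ρ → MvPolynomial (Fin 2) ℂ}
    (hψ : ∀ i, HomRow (f i) (ψ i))
    (hψE : ∀ z ≠ 0, ∀ i, rowEval z (ψ i) ∈ gradSpan I (comb (ln x w) z))
    (hψs : ∀ z ≠ 0, Submodule.span ℂ (Set.range fun i => rowEval z (ψ i)) =
      gradSpan I (comb (ln x w) z))
    (G : Fin c → ℕ → MvPolynomial ρ ℂ)
    (hG : ∀ i l, G i l ∈ I ∧ grad (comb (ln x w) (pt (l : ℂ))) (G i l) =
      rowEval (pt (l : ℂ)) (ψ i))
    (lam : MvPolynomial (ρ ⊕ ρ) ℂ →ₗ[ℂ] ℂ)
    (hlam1 : ∀ g b, eval (Sum.elim x w) g = 0 → b ∈ pairI I → lam (g * b) = 0)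
    (hlam2 : ∀ i (l : ℕ), l < f i + 2 → lam (lineA (pt (l : ℂ)) (G i l)) = 0) :
    ∀ b ∈ pairI I, lam b = 0 := by
  classical
  have hI := h.hI
  have hvan : ∀ z, ∀ g ∈ I, eval (comb (ln x w) z) g = 0 := by
    intro z g hg
    rw [comb_ln]
    exact hline _ _ g hg
  have hgood : ∀ z ≠ 0, GoodPt I c D (comb (ln x w) z) := fun z hz =>
    h.good _ (comb_ne_zero hli hz) (hvan z)
  have hev : ∀ z g, eval (Sum.elim x w) (lineA z g) = eval (comb (ln x w) z) g := by
    intro z g
    rw [eval_lineA, comb_ln]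
    rfl
  have hmem : ∀ g ∈ I, ∀ z, lineA z g ∈ pairI I := fun g hg z =>
    Ideal.subset_span ⟨z, g, hg, rfl⟩
  -- multiplicativity
  have hmul : ∀ z g b, b ∈ I → lam (lineA z (g * b)) =
      eval (comb (ln x w) z) g * lam (lineA z b) := by
    intro z g b hb
    have h1 : lineA z (g * b) = (lineA z g - C (eval (comb (ln x w) z) g)) *
        lineA z b + (eval (comb (ln x w) z) g) • lineA z b := by
      rw [map_mul, smul_eq_C_mul]
      ring
    rw [h1, map_add, map_smul, smul_eq_mul, hlam1 _ _ _ (hmem b hb z), zero_add]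
    rw [map_sub, hev, eval_C, sub_self]
  -- gradients
  have hzero : ∀ z, z ≠ 0 → ∀ g ∈ I, grad (comb (ln x w) z) g = 0 →
      lam (lineA z g) = 0 := by
    intro z hz g hg hg0
    obtain ⟨⟨w', hw, hwli⟩, -⟩ := hgood z hz
    obtain ⟨q, hq, hqm⟩ := (point_case I hI (comb (ln x w) z) (hvan z) c w'
      (fun k => (hw k).1) hwli).2 h.hdim g hg
    obtain ⟨t, ht⟩ := (Submodule.mem_span_range_iff_exists_fun _).mp hqm
    have h1 : ∑ k, eval (comb (ln x w) z) (t k) • grad (comb (ln x w) z) (w' k) = 0 := by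
      have h2 := congrArg (grad (comb (ln x w) z)) ht
      rw [map_sum, grad_mul, hg0, smul_zero, zero_add, hvan z g hg, zero_smul] at h2
      rw [← h2]
      refine Finset.sum_congr rfl (fun k _ => ?_)
      rw [smul_eq_mul, grad_mul, hvan z (w' k) (hw k).1, zero_smul, add_zero]
    have h2 := Fintype.linearIndependent_iff.mp hwli _ h1
    have h3 : eval (comb (ln x w) z) q * lam (lineA z g) = 0 := by
      rw [← hmul z q g hg, ← ht, map_sum, map_sum]
      refine Finset.sum_eq_zero (fun k _ => ?_)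
      rw [smul_eq_mul, hmul z _ _ (hw k).1, h2 k, zero_mul]
    exact (mul_eq_zero.mp h3).resolve_left hq
  -- the sections
  have hex : ∀ z, z ≠ 0 → ∀ i, ∃ g ∈ I, g.IsHomogeneous D ∧
      grad (comb (ln x w) z) g = rowEval z (ψ i) := fun z hz i =>
    exists_grad_eq (hgood z hz) (hψE z hz i)
  set H : (Fin 2 → ℂ) → Fin c → MvPolynomial ρ ℂ := fun z i =>
    if hz : z ≠ 0 then (hex z hz i).choose else 0 with hH
  have hHI : ∀ z i, H z i ∈ I := by
    intro z i
    simp only [hH]
    split_ifs with hz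
    · exact (hex z hz i).choose_spec.1
    · exact I.zero_mem
  have hHD : ∀ z i, (H z i).IsHomogeneous D := by
    intro z i
    simp only [hH]
    split_ifs with hz
    · exact (hex z hz i).choose_spec.2.1
    · exact isHomogeneous_zero _ _ _
  have hHg : ∀ z, z ≠ 0 → ∀ i, grad (comb (ln x w) z) (H z i) = rowEval z (ψ i) := by
    intro z hz i
    simp only [hH]
    rw [dif_pos hz]
    exact (hex z hz i).choose_spec.2.2
  have hsub : ∀ g : MvPolynomial ρ ℂ, g ∈ I → ∀ t : ℂ, t • g ∈ I := by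
    intro g hg t
    rw [smul_eq_C_mul]
    exact Ideal.mul_mem_left _ _ hg
  -- Hartogs
  have hhart : ∀ i, ∃ δ : MvPolynomial (Fin 2) ℂ, ∀ z, z ≠ 0 →
      lam (lineA z (H z i)) = eval z δ := by
    intro i
    refine hartogs (by simp) _ ?_
    intro z₀ hz₀
    obtain ⟨⟨w', hw, hwli⟩, -⟩ := hgood z₀ hz₀
    obtain ⟨T, hT⟩ := exists_minor _ hwli
    set P : Fin c → ρ → MvPolynomial (Fin 2) ℂ := fun k => gRow (ln x w) (w' k) with hP
    refine ⟨∑ k, (Matrix.cramer (Matrix.of fun i l => P i (T l)).transpose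
      (fun l => ψ i (T l))) k * lamU lam (w' k), (Matrix.of fun i l => P i (T l)).det,
      ?_, ?_⟩
    · rw [eval_det]
      have h1 : (Matrix.of fun i l => eval z₀ (Matrix.of (fun i l => P i (T l)) i l)) =
          Matrix.of fun i l => grad (comb (ln x w) z₀) (w' i) (T l) := by
        ext i l
        rw [Matrix.of_apply, Matrix.of_apply, Matrix.of_apply, ← rowEval_gRow]
        rfl
      rw [h1]
      exact hT
    · intro z hz _
      have h1 : mm (fun k => rowEval z (P k)) T (rowEval z (ψ i)) = 0 := by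
        refine mm_of_mem (hgood z hz).2 _ (fun k => ?_) T (hψE z hz i)
        rw [hP]
        simp only [rowEval_gRow]
        exact grad_mem_gradSpan (hw k).1 _
      rw [← rowEval_minorMap, minorMap, rowEval_sub, rowEval_smul, rowEval_sum] at h1
      simp only [rowEval_smul] at h1
      have h2 : grad (comb (ln x w) z) (eval z (Matrix.of fun i l => P i (T l)).det • H z i -
          ∑ k, eval z ((Matrix.cramer (Matrix.of fun i l => P i (T l)).transpose
      (fun l => ψ i (T l))) k) • w' k) = 0 := by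
        rw [map_sub, map_smul, hHg z hz, map_sum, ← h1]
        congr 1
        refine Finset.sum_congr rfl (fun k _ => ?_)
        rw [map_smul, hP]
        simp only [rowEval_gRow]
      have h3 := hzero z hz _ (I.sub_mem (hsub _ (hHI z i) _)
        (Ideal.sum_mem _ (fun k _ => hsub _ (hw k).1 _))) h2
      rw [map_sub, map_smul, map_sum, map_sub, map_smul, map_sum, sub_eq_zero, smul_eq_mul] at h3
      rw [mul_comm, h3, map_sum]
      refine Finset.sum_congr rfl (fun k _ => ?_)
      rw [map_smul, map_smul, smul_eq_mul, map_mul, eval_lamU]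
  choose δ hδ using hhart
  -- homogeneity
  have hδh : ∀ i, (δ i).IsHomogeneous (f i + 1) := by
    intro i
    refine isHomogeneous_of_scaling (fun z hz t ht => ?_) 0
    have htz : t • z ≠ 0 := smul_ne_zero ht hz
    rw [← hδ i _ htz, ← hδ i z hz]
    have hcomb : comb (ln x w) (t • z) = t • comb (ln x w) z := map_smul _ _ _
    have h1 : grad (comb (ln x w) (t • z)) (t ^ (D - 1) • H (t • z) i - t ^ f i • H z i) =
        0 := by
      rw [map_sub, (grad (comb (ln x w) (t • z))).map_smul,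
        (grad (comb (ln x w) (t • z))).map_smul, hHg _ htz]
      have h2 : grad (comb (ln x w) (t • z)) (H z i) = t ^ (D - 1) • rowEval z (ψ i) := by
        rw [← hHg z hz i, hcomb]
        funext b
        rw [grad_apply, Pi.smul_apply, grad_apply, smul_eq_mul,
          eval_smul_of_isHomogeneous (hHD z i).pderiv]
      have h3 : rowEval (t • z) (ψ i) = t ^ f i • rowEval z (ψ i) := by
        funext b
        rw [rowEval_apply, Pi.smul_apply, rowEval_apply, smul_eq_mul,
          eval_smul_of_isHomogeneous (hψ i b)]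
      rw [h2, h3, smul_smul, smul_smul, mul_comm, sub_self]
    have h2 := hzero _ htz _ (I.sub_mem (hsub _ (hHI _ i) _) (hsub _ (hHI z i) _)) h1
    rw [map_sub, map_smul, map_smul, map_sub, map_smul, map_smul, smul_eq_mul, smul_eq_mul,
      sub_eq_zero] at h2
    have h3 : lam (lineA (t • z) (H z i)) = t ^ D * lam (lineA z (H z i)) := by
      have h4 : lineA (t • z) (H z i) = t ^ D • lineA z (H z i) := by
        apply MvPolynomial.funext
        intro v
        have h5 : (t • z) 0 • pl1 v + (t • z) 1 • pl2 v = t • (z 0 • pl1 v + z 1 • pl2 v) := by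
          rw [smul_add, smul_smul, smul_smul, Pi.smul_apply, Pi.smul_apply, smul_eq_mul,
            smul_eq_mul]
        rw [smul_eq_C_mul, map_mul, eval_C, eval_lineA, eval_lineA, h5,
          eval_smul_of_isHomogeneous (hHD z i)]
      rw [h4, map_smul, smul_eq_mul]
    rw [h3] at h2
    have hDpos := h.hD
    have h5 : t ^ (D - 1) * lam (lineA (t • z) (H (t • z) i)) =
        t ^ (D - 1) * (t ^ (f i + 1) * lam (lineA z (H z i))) := by
      rw [h2]
      have h6 : t ^ D = t ^ (D - 1) * t := by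
        rw [← pow_succ, Nat.sub_add_cancel hDpos]
      rw [h6]
      ring
    exact mul_left_cancel₀ (pow_ne_zero _ ht) h5
  -- vanishing
  have hδ0 : ∀ i, δ i = 0 := by
    intro i
    apply form_zero (hδh i)
    intro l hl
    have hpt : (pt (l : ℂ) : Fin 2 → ℂ) ≠ 0 := by
      intro h1
      exact one_ne_zero (congrFun h1 0)
    rw [← hδ i _ hpt]
    have h1 := hzero _ hpt (H (pt (l : ℂ)) i - G i l) (I.sub_mem (hHI _ i) (hG i l).1) (by
      rw [map_sub, hHg _ hpt, (hG i l).2, sub_self])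
    rw [map_sub, map_sub, hlam2 i l (by omega), sub_zero] at h1
    exact h1
  have hall : ∀ z, ∀ g ∈ I, lam (lineA z g) = 0 := by
    intro z g hg
    by_cases hz : z = 0
    · have h1 : lineA z g = 0 := by
        apply MvPolynomial.funext
        intro v
        rw [eval_lineA, map_zero, hz]
        have h2 := hvan 0 g hg
        rw [map_zero] at h2
        simpa using h2
      rw [h1, map_zero]
    · have h1 := grad_mem_gradSpan hg (comb (ln x w) z)
      rw [← hψs z hz] at h1
      obtain ⟨t, ht⟩ := (Submodule.mem_span_range_iff_exists_fun _).mp h1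
      have h2 := hzero z hz (g - ∑ i, t i • H z i) (I.sub_mem hg
        (Ideal.sum_mem _ (fun i _ => hsub _ (hHI z i) _))) (by
        rw [map_sub, map_sum, ← ht, sub_eq_zero]
        exact Finset.sum_congr rfl (fun i _ => by rw [map_smul, hHg z hz]))
      rw [map_sub, map_sum, map_sub, map_sum, sub_eq_zero] at h2
      rw [h2]
      refine Finset.sum_eq_zero (fun i _ => ?_)
      rw [map_smul, map_smul, hδ i z hz, hδ0, map_zero, smul_zero]
  intro b hb
  refine Submodule.span_induction (p := fun b _ => lam b = 0) ?_ ?_ ?_ ?_ hb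
  · rintro _ ⟨z, g, hg, rfl⟩
    exact hall z g hg
  · exact map_zero _
  · intro b b' _ _ hb hb'
    rw [map_add, hb, hb', add_zero]
  · intro g b hb hb0
    have h4 : g • b = (g - C (eval (Sum.elim x w) g)) * b + (eval (Sum.elim x w) g) • b := by
      rw [smul_eq_mul, smul_eq_C_mul]; ring
    rw [h4, map_add, hlam1 _ _ (by rw [map_sub, eval_C, sub_self]) hb, map_smul, hb0, smul_zero,
      add_zero]

lemma sum_dot_zero {ι τ : Type*} [Fintype ι] [Fintype τ] (t : ι → ℂ) (v : ι → (τ → ℂ))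
    (a : τ → ℂ) (h : ∀ i, v i ⬝ᵥ a = 0) : (∑ i, t i • v i) ⬝ᵥ a = 0 := by
  rw [sum_dotProduct]
  refine Finset.sum_eq_zero (fun i _ => ?_)
  rw [smul_dotProduct, h i, smul_zero]

/-- Local equations of the space of lines at a free line. -/
theorem NsCone.exists_pair_eqs (h : NsCone I c D) {x w : ρ → ℂ}
    (hli : LinearIndependent ℂ (ln x w)) (hline : LineIn I x w) (hfree : FreeLine I x w) :
    ∃ (M : ℕ) (e : Fin M → MvPolynomial (ρ ⊕ ρ) ℂ) (U : MvPolynomial (ρ ⊕ ρ) ℂ),
      M + Module.finrank ℂ (tanLine I x w) = c + Fintype.card ρ ∧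
      (∀ k, e k ∈ pairI I) ∧ eval (Sum.elim x w) U ≠ 0 ∧
      (∀ g ∈ pairI I, U * g ∈ Ideal.span (Set.range e)) ∧
      LinearIndependent ℂ (fun k => grad (Sum.elim x w) (e k)) := by
  classical
  have hvan : ∀ z, ∀ g ∈ I, eval (comb (ln x w) z) g = 0 := by
    intro z g hg
    rw [comb_ln]
    exact hline _ _ g hg
  have hgood : ∀ z ≠ 0, GoodPt I c D (comb (ln x w) z) := fun z hz =>
    h.good _ (comb_ne_zero hli hz) (hvan z)
  have hpt : ∀ t : ℂ, (pt t : Fin 2 → ℂ) ≠ 0 := by
    intro t h1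
    exact one_ne_zero (congrFun h1 0)
  obtain ⟨ψ, f, hψ, hψE', hψli, -⟩ := line_split (isBundle_g (ln x w) hgood)
  have hψE : ∀ z ≠ 0, ∀ i, rowEval z (ψ i) ∈ gradSpan I (comb (ln x w) z) :=
    fun z hz i => hψE' i z hz
  have hψs : ∀ z ≠ 0, Submodule.span ℂ (Set.range fun i => rowEval z (ψ i)) =
      gradSpan I (comb (ln x w) z) :=
    fun z hz => span_eq_of_li (hgood z hz).2 _ (hψli z hz) (hψE z hz)
  choose G hGI hGD hGg using fun i (l : ℕ) =>
    exists_grad_eq (hgood _ (hpt (l : ℂ))) (hψE _ (hpt (l : ℂ)) i)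
  -- coefficients of the rows
  have hex : ∀ i, ∃ q : Fin (f i + 1) × ρ → ℂ, arr (f i + 1) q = ψ i := fun i =>
    exists_arr (Nat.succ_pos _) (by rw [Nat.add_sub_cancel]; exact hψ i)
  choose q hq using hex
  have hrow : ∀ z i b, rowEval z (ψ i) b = ∑ l : Fin (f i + 1),
      z 0 ^ (f i - (l : ℕ)) * z 1 ^ (l : ℕ) * q i (l, b) := by
    intro z i b
    rw [← hq i, rowEval_arr]
    refine Finset.sum_congr rfl (fun l _ => ?_)
    rw [Nat.add_sub_cancel]
  have hrowpt : ∀ (t : ℂ) i b, rowEval (pt t) (ψ i) b = ∑ l : Fin (f i + 1),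
      t ^ (l : ℕ) * q i (l, b) := by
    intro t i b
    rw [hrow]
    refine Finset.sum_congr rfl (fun l _ => ?_)
    simp [pt]
  set θ : (Σ i : Fin c, Fin (f i + 1)) → (ρ → ℂ) := fun p b => q p.1 (p.2, b) with hθ
  have hθli : LinearIndependent ℂ θ := by
    rw [Fintype.linearIndependent_iff]
    intro μ hμ
    have hlam := coeff_li f q (by
      intro z hz
      simp only [hq]
      exact hψli z hz) (by
      intro a' ha'
      have ha2 : a' ∈ tanSp I x := by
        rw [mem_tanSp]
        intro g hg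
        have h1 : grad x g ∈ gradSpan I (comb (ln x w) (pt 0)) := by
          rw [comb_ln_one]; exact grad_mem_gradSpan hg x
        rw [← hψs _ pt_zero_ne] at h1
        obtain ⟨t, ht⟩ := (Submodule.mem_span_range_iff_exists_fun _).mp h1
        rw [← ht]
        refine sum_dot_zero t _ a' (fun i => ?_)
        rw [← hq i]
        exact ha' i
      obtain ⟨b, hb⟩ := hfree a' ha2
      refine ⟨b, fun z i => ?_⟩
      by_cases hz : z = 0
      · rw [hz]
        simp
      · rw [hq i]
        obtain ⟨g, hg, -, hgr⟩ := exists_grad_eq (hgood z hz) (hψE z hz i)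
        rw [← hgr, comb_ln]
        exact hb _ _ g hg) (fun i l => μ ⟨i, l⟩) (by
      intro b
      have h2 := congrFun hμ b
      rw [Finset.sum_apply, Fintype.sum_sigma] at h2
      exact h2)
    rintro ⟨i, l⟩
    exact congrFun (congrFun hlam i) l
  -- the intersection of the tangent spaces
  have hT0 : tanLine I x w = LinearMap.ker (Matrix.of θ).mulVecLin := by
    ext a
    have hker : a ∈ LinearMap.ker (Matrix.of θ).mulVecLin ↔ ∀ p, θ p ⬝ᵥ a = 0 := by
      rw [LinearMap.mem_ker, Matrix.mulVecLin_apply, funext_iff]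
      exact Iff.rfl
    rw [mem_tanLine, hker]
    constructor
    · rintro ha ⟨i, l⟩
      have h1 := poly_coeff_zero (fun l : Fin (f i + 1) => θ ⟨i, l⟩ ⬝ᵥ a) (by
        intro t
        have h2 : rowEval (pt t) (ψ i) ⬝ᵥ a = 0 := by
          obtain ⟨g, hg, -, hgr⟩ := exists_grad_eq (hgood _ (hpt t)) (hψE _ (hpt t) i)
          rw [← hgr, comb_ln]
          exact ha _ _ g hg
        rw [← h2, dotProduct]
        simp only [hrowpt, dotProduct, Finset.mul_sum, Finset.sum_mul]
        rw [Finset.sum_comm]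
        refine Finset.sum_congr rfl (fun b _ => Finset.sum_congr rfl (fun l _ => ?_))
        ring)
      exact congrFun h1 l
    · intro ha
      have hz : ∀ z : Fin 2 → ℂ, z ≠ 0 → ∀ g ∈ I, grad (comb (ln x w) z) g ⬝ᵥ a = 0 := by
        intro z hz g hg
        have h1 : ∀ i, rowEval z (ψ i) ⬝ᵥ a = 0 := by
          intro i
          have h2 : rowEval z (ψ i) = ∑ l : Fin (f i + 1),
              (z 0 ^ (f i - (l : ℕ)) * z 1 ^ (l : ℕ)) • θ ⟨i, l⟩ := by
            funext b
            rw [hrow, Finset.sum_apply]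
            rfl
          rw [h2]
          exact sum_dot_zero _ _ a (fun l => ha ⟨i, l⟩)
        have h2 := grad_mem_gradSpan hg (comb (ln x w) z)
        rw [← hψs z hz] at h2
        obtain ⟨t, ht⟩ := (Submodule.mem_span_range_iff_exists_fun _).mp h2
        rw [← ht]
        exact sum_dot_zero t _ a h1
      have hz' : ∀ z : Fin 2 → ℂ, ∀ g ∈ I, grad (comb (ln x w) z) g ⬝ᵥ a = 0 := by
        intro z g hg
        have hev : ∀ z : Fin 2 → ℂ, eval z (∑ b, gRow (ln x w) g b * C (a b)) =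
            grad (comb (ln x w) z) g ⬝ᵥ a := by
          intro z
          rw [map_sum, dotProduct]
          refine Finset.sum_congr rfl (fun b _ => ?_)
          rw [map_mul, eval_C, ← rowEval_gRow, rowEval_apply]
        have h1 : (∑ b, gRow (ln x w) g b * C (a b) : MvPolynomial (Fin 2) ℂ) = 0 := by
          apply eq_zero_of_eval (X_ne_zero (0 : Fin 2) : (X 0 : MvPolynomial (Fin 2) ℂ) ≠ 0)
          intro z' hz'
          rw [eval_X] at hz'
          rw [hev]
          apply hz _ _ g hg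
          rintro rfl
          exact hz' rfl
        rw [← hev, h1, map_zero]
      intro s t g hg
      have h1 := hz' ![s, t] g hg
      rw [comb_ln] at h1
      exact h1
  have hdimT : ∑ i, (f i + 1) + Module.finrank ℂ (tanLine I x w) = Fintype.card ρ := by
    have h1 : (Matrix.of θ).rank = Fintype.card (Σ i : Fin c, Fin (f i + 1)) := by
      have h2 : LinearIndependent ℂ (Matrix.of θ).row := hθli
      exact h2.rank_matrix
    have h2 := LinearMap.finrank_range_add_finrank_ker (Matrix.of θ).mulVecLin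
    rw [← hT0, Module.finrank_fintype_fun_eq_card] at h2
    rw [Matrix.rank, Fintype.card_sigma] at h1
    simp only [Fintype.card_fin] at h1
    rw [h1] at h2
    exact h2
  -- the equations
  set e' : (Σ i : Fin c, Fin (f i + 2)) → MvPolynomial (ρ ⊕ ρ) ℂ :=
    fun p => lineA (pt ((p.2 : ℕ) : ℂ)) (G p.1 p.2) with he'
  have he'I : ∀ p, e' p ∈ pairI I := fun p => Ideal.subset_span ⟨_, _, hGI _ _, rfl⟩
  have hgr1 : ∀ p b, grad (Sum.elim x w) (e' p) (Sum.inl b) = ∑ j : Fin (f p.1 + 1),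
      ((p.2 : ℕ) : ℂ) ^ (j : ℕ) * θ ⟨p.1, j⟩ b := by
    intro p b
    have h1 : grad ((pt ((p.2 : ℕ) : ℂ)) 0 • pl1 (Sum.elim x w) +
        (pt ((p.2 : ℕ) : ℂ)) 1 • pl2 (Sum.elim x w)) (G p.1 p.2) =
        rowEval (pt ((p.2 : ℕ) : ℂ)) (ψ p.1) := by
      rw [← hGg, comb_ln]
      rfl
    rw [he', grad_lineA, Sum.elim_inl, h1, Pi.smul_apply, hrowpt]
    simp [pt, hθ]
  have hgr2 : ∀ p b, grad (Sum.elim x w) (e' p) (Sum.inr b) = ∑ j : Fin (f p.1 + 1),
      ((p.2 : ℕ) : ℂ) ^ ((j : ℕ) + 1) * θ ⟨p.1, j⟩ b := by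
    intro p b
    have h1 : grad ((pt ((p.2 : ℕ) : ℂ)) 0 • pl1 (Sum.elim x w) +
        (pt ((p.2 : ℕ) : ℂ)) 1 • pl2 (Sum.elim x w)) (G p.1 p.2) =
        rowEval (pt ((p.2 : ℕ) : ℂ)) (ψ p.1) := by
      rw [← hGg, comb_ln]
      rfl
    rw [he', grad_lineA, Sum.elim_inr, h1, Pi.smul_apply, hrowpt]
    have h2 : (pt ((p.2 : ℕ) : ℂ) : Fin 2 → ℂ) 1 = ((p.2 : ℕ) : ℂ) := by simp [pt]
    rw [h2, smul_eq_mul, Finset.mul_sum]
    refine Finset.sum_congr rfl (fun j _ => ?_)
    rw [pow_succ]
    ring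
  have hli' : LinearIndependent ℂ (fun p => grad (Sum.elim x w) (e' p)) := by
    rw [Fintype.linearIndependent_iff]
    intro μ hμ
    have key : ∀ m : ℕ, (∀ b, ∑ p : (Σ i : Fin c, Fin (f i + 2)), μ p *
        ∑ j : Fin (f p.1 + 1), ((p.2 : ℕ) : ℂ) ^ ((j : ℕ) + m) * θ ⟨p.1, j⟩ b = 0) →
        ∀ (i : Fin c) (j : Fin (f i + 1)),
          ∑ l : Fin (f i + 2), μ ⟨i, l⟩ * ((l : ℕ) : ℂ) ^ ((j : ℕ) + m) = 0 := by
      intro m hm i j
      have h1 := (Fintype.linearIndependent_iff.mp hθli)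
        (fun p => ∑ l : Fin (f p.1 + 2), μ ⟨p.1, l⟩ * ((l : ℕ) : ℂ) ^ ((p.2 : ℕ) + m)) (by
          funext b
          rw [Finset.sum_apply, Pi.zero_apply, ← hm b, Fintype.sum_sigma, Fintype.sum_sigma]
          refine Finset.sum_congr rfl (fun i _ => ?_)
          simp only [Pi.smul_apply, smul_eq_mul, Finset.sum_mul, Finset.mul_sum]
          show (∑ j : Fin (f i + 1), ∑ l : Fin (f i + 2),
            μ ⟨i, l⟩ * ((l : ℕ) : ℂ) ^ ((j : ℕ) + m) * θ ⟨i, j⟩ b) = _
          rw [Finset.sum_comm]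
          refine Finset.sum_congr rfl (fun l _ => Finset.sum_congr rfl (fun j _ => ?_))
          ring) ⟨i, j⟩
      exact h1
    have hk0 := key 0 (by
      intro b
      have h1 := congrFun hμ (Sum.inl b)
      rw [Finset.sum_apply, Pi.zero_apply] at h1
      rw [← h1]
      refine Finset.sum_congr rfl (fun p _ => ?_)
      rw [Pi.smul_apply, smul_eq_mul, hgr1]
      rfl)
    have hk1 := key 1 (by
      intro b
      have h1 := congrFun hμ (Sum.inr b)
      rw [Finset.sum_apply, Pi.zero_apply] at h1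
      rw [← h1]
      refine Finset.sum_congr rfl (fun p _ => ?_)
      rw [Pi.smul_apply, smul_eq_mul, hgr2])
    rintro ⟨i, l⟩
    have hv := Matrix.eq_zero_of_forall_pow_sum_mul_pow_eq_zero
      (f := fun l : Fin (f i + 2) => ((l : ℕ) : ℂ)) (v := fun l => μ ⟨i, l⟩) (by
        intro a b hab
        apply Fin.ext
        have hab' : ((a : ℕ) : ℂ) = ((b : ℕ) : ℂ) := hab
        exact_mod_cast hab') (by
        intro j
        by_cases hj : (j : ℕ) < f i + 1
        · exact hk0 i ⟨j, hj⟩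
        · have h1 := hk1 i ⟨f i, Nat.lt_succ_self _⟩
          have h2 : (j : ℕ) = f i + 1 := by
            have := j.2
            omega
          rw [h2]
          exact h1)
    exact congrFun hv l
  -- Nakayama
  set N : Ideal (MvPolynomial (ρ ⊕ ρ) ℂ) := Ideal.span (Set.range e') with hN
  set m : Ideal (MvPolynomial (ρ ⊕ ρ) ℂ) := RingHom.ker (eval (Sum.elim x w)) with hm
  have hle : pairI I ≤ N ⊔ m • pairI I := by
    intro b hb
    by_contra hbn
    obtain ⟨lam, hlamb, hlam⟩ := Submodule.exists_le_ker_of_notMem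
      (p := (N ⊔ m • pairI I).restrictScalars ℂ) (v := b) hbn
    apply hlamb
    refine h.lam_pair_zero hli hline hψ hψE hψs G (fun i l => ⟨hGI i l, hGg i l⟩) lam ?_ ?_ b hb
    · intro g b hg hb
      exact hlam (Submodule.mem_sup_right (Submodule.smul_mem_smul hg hb))
    · intro i l hl
      exact hlam (Submodule.mem_sup_left (Ideal.subset_span ⟨⟨i, ⟨l, hl⟩⟩, rfl⟩))
  obtain ⟨r, hr, hr2⟩ := Submodule.exists_sub_one_mem_and_smul_le_of_fg_of_le_sup
    (IsNoetherian.noetherian (pairI I)) le_rfl hle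
  -- reindexing
  set φ := Fintype.equivFin (Σ i : Fin c, Fin (f i + 2)) with hφ
  refine ⟨Fintype.card (Σ i : Fin c, Fin (f i + 2)), fun k => e' (φ.symm k), r, ?_,
    fun k => he'I _, ?_, ?_, hli'.comp _ φ.symm.injective⟩
  · rw [← hdimT, Fintype.card_sigma]
    simp only [Fintype.card_fin]
    have h1 : ∑ i, (f i + 2) = ∑ i, (f i + 1) + c := by
      have h2 : ∀ i, f i + 2 = (f i + 1) + 1 := fun i => rfl
      simp only [h2]
      rw [Finset.sum_add_distrib (f := fun i => f i + 1), Finset.sum_const, Finset.card_univ,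
        Fintype.card_fin, smul_eq_mul, mul_one]
    rw [h1]
    ring
  · have h1 : eval (Sum.elim x w) (r - 1) = 0 := hr
    rw [map_sub, map_one, sub_eq_zero] at h1
    rw [h1]
    exact one_ne_zero
  · intro g hg
    have h1 : Set.range (fun k => e' (φ.symm k)) = Set.range e' := by
      have h2 := φ.symm.surjective.range_comp e'
      exact h2
    rw [h1]
    exact hr2 (Submodule.smul_mem_pointwise_smul _ r _ hg)

end PairEq

end Pool.Agent.Hartshorne
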