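import Mathlib
import Pool.Agent.HartN.Fiber
import Pool.Agent.HartN.Hyp
import Pool.Agent.HartN.PairEq

/-!
A free line gives lines through the points of a dense set.
-/

namespace Pool.Agent.Hartshorne

open MvPolynomial

set_option linter.unusedSectionVars false

section M3

variable {ρ : Type} [Fintype ρ] [DecidableEq ρ] {I : Ideal (MvPolynomial ρ ℂ)} {c D : ℕ}

/-- The dimension of a variety at a point is at most the dimension of its tangent space. -/
private lemma dim_le_tan_m3 (Q : Ideal (MvPolynomial ρ ℂ)) (hQ : Q.IsPrime) (w : ρ → ℂ)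
    (hw : ∀ g ∈ Q, eval w g = 0) (T : Submodule ℂ (ρ → ℂ))
    (hT : ∀ a : ρ → ℂ, (∀ g ∈ Q, grad w g ⬝ᵥ a = 0) → a ∈ T) :
    ringKrullDim (MvPolynomial ρ ℂ ⧸ Q) ≤ ((Module.finrank ℂ T : ℕ) : WithBot ℕ∞) := by
  classical
  obtain ⟨k, f, hf, hspan, hli⟩ : ∃ (k : ℕ) (f : Fin k → ρ → ℂ),
      (∀ i, f i ∈ {v : ρ → ℂ | ∃ g ∈ Q, v = grad w g}) ∧
      Submodule.span ℂ (Set.range f) = Submodule.span ℂ {v : ρ → ℂ | ∃ g ∈ Q, v = grad w g} ∧
      LinearIndependent ℂ f := ⟨_, Submodule.exists_fun_fin_finrank_span_eq ℂ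
    {v : ρ → ℂ | ∃ g ∈ Q, v = grad w g}⟩
  choose g hgQ hg using hf
  have hli' : LinearIndependent ℂ (fun i => grad w (g i)) := by
    have h1 : (fun i => grad w (g i)) = f := _root_.funext (fun i => (hg i).symm)
    rw [h1]
    exact hli
  have h1 := (point_case' Q hQ w hw g hgQ hli').1
  rw [Fintype.card_fin] at h1
  set M : Matrix (Fin k) ρ ℂ := Matrix.of f with hM
  have hrow : M.row = f := rfl
  have hrank : M.rank = k := by
    have h2 := LinearIndependent.rank_matrix (M := M) (by rw [hrow]; exact hli)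
    rwa [Fintype.card_fin] at h2
  have hker : LinearMap.ker M.mulVecLin ≤ T := by
    intro a ha
    apply hT
    intro q hq
    have h2 : grad w q ∈ Submodule.span ℂ (Set.range f) := by
      rw [hspan]
      exact Submodule.subset_span ⟨q, hq, rfl⟩
    have h3 : ∀ i, f i ⬝ᵥ a = 0 := by
      intro i
      have h4 := congrFun (LinearMap.mem_ker.mp ha) i
      rw [Matrix.mulVecLin_apply] at h4
      exact h4
    obtain ⟨b, hb⟩ := (Submodule.mem_span_range_iff_exists_fun ℂ).mp h2
    rw [← hb, sum_dotProduct]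
    refine Finset.sum_eq_zero (fun i _ => ?_)
    rw [smul_dotProduct, h3, smul_zero]
  have hrn := LinearMap.finrank_range_add_finrank_ker M.mulVecLin
  have hr2 : Module.finrank ℂ (LinearMap.range M.mulVecLin) = k := hrank
  rw [hr2, Module.finrank_fintype_fun_eq_card] at hrn
  have hfin := Submodule.finrank_mono hker
  have h5 : Fintype.card ρ ≤ k + Module.finrank ℂ T := by omega
  have h6 : ringKrullDim (MvPolynomial ρ ℂ ⧸ Q) + ((k : ℕ) : WithBot ℕ∞) ≤
      ((Module.finrank ℂ T : ℕ) : WithBot ℕ∞) + ((k : ℕ) : WithBot ℕ∞) := by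
    refine h1.trans ?_
    rw [← Nat.cast_add]
    exact_mod_cast (by omega : Fintype.card ρ ≤ Module.finrank ℂ T + k)
  generalize ringKrullDim (MvPolynomial ρ ℂ ⧸ Q) = y at h6
  induction y using WithBot.recBotCoe with
  | bot => exact bot_le
  | coe y =>
    induction y using ENat.recTopCoe with
    | top =>
      exfalso
      have h7 : ((⊤ : ℕ∞) : WithBot ℕ∞) + ((k : ℕ) : WithBot ℕ∞) = ((⊤ : ℕ∞) : WithBot ℕ∞) := by
        rfl
      rw [h7, ← Nat.cast_add] at h6
      have h8 : ((⊤ : ℕ∞) : WithBot ℕ∞) ≤ (((Module.finrank ℂ T + k : ℕ) : ℕ∞) : WithBot ℕ∞) := h6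
      rw [WithBot.coe_le_coe, top_le_iff] at h8
      exact ENat.natCast_ne_top _ h8
    | coe m =>
      have h7 : m + k ≤ Module.finrank ℂ T + k := by exact_mod_cast h6
      have h8 : m ≤ Module.finrank ℂ T := by omega
      exact WithBot.coe_le_coe.mpr (Nat.cast_le.mpr h8)

/-- Restriction to the points `z 0 • x + z 1 • w`. -/
private noncomputable def secA (x : ρ → ℂ) (z : Fin 2 → ℂ) :
    MvPolynomial ρ ℂ →ₐ[ℂ] MvPolynomial ρ ℂ :=
  aeval (fun i => C (z 0 * x i) + C (z 1) * X i)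

private lemma eval_secA (x : ρ → ℂ) (z : Fin 2 → ℂ) (w : ρ → ℂ) (h : MvPolynomial ρ ℂ) :
    eval w (secA x z h) = eval (z 0 • x + z 1 • w) h := by
  have h1 : (eval w).comp ((secA x z : MvPolynomial ρ ℂ →ₐ[ℂ] MvPolynomial ρ ℂ) :
      MvPolynomial ρ ℂ →+* MvPolynomial ρ ℂ) = eval (z 0 • x + z 1 • w) := by
    apply MvPolynomial.ringHom_ext
    · intro a
      simp [secA]
    · intro i
      simp [secA]
  exact RingHom.congr_fun h1 h

private lemma grad_secA (x : ρ → ℂ) (z : Fin 2 → ℂ) (w : ρ → ℂ) (h : MvPolynomial ρ ℂ) :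
    grad w (secA x z h) = z 1 • grad (z 0 • x + z 1 • w) h := by
  have key : ∀ j, pderiv j (secA x z h) = C (z 1) * secA x z (pderiv j h) := by
    intro j
    have h1 := deriv_algHom (pderiv j : Derivation ℂ (MvPolynomial ρ ℂ) (MvPolynomial ρ ℂ))
      (secA x z) h
    rw [h1, Finset.sum_eq_single j]
    · have h2 : pderiv j (secA x z (X j)) = C (z 1) := by
        rw [secA, aeval_X, map_add, pderiv_C, zero_add, pderiv_C_mul, pderiv_X_self, mul_one]
      rw [h2, smul_eq_mul, mul_comm]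
    · intro i _ hij
      have h2 : pderiv j (secA x z (X i)) = 0 := by
        rw [secA, aeval_X, map_add, pderiv_C, zero_add, pderiv_C_mul, pderiv_X_of_ne hij, mul_zero]
      rw [h2, smul_zero]
    · intro hj
      exact absurd (Finset.mem_univ _) hj
  funext j
  rw [grad_apply, key, map_mul, eval_C, eval_secA, Pi.smul_apply, grad_apply, smul_eq_mul]

/-- The tangent directions at `w` of a variety of points spanning with `x` lines of the
variety. -/
private lemma ann_le_tanLine {x w : ρ → ℂ} (Q : Ideal (MvPolynomial ρ ℂ)) (hQ : Q.IsPrime)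
    (hQI : ∀ w' : ρ → ℂ, (∀ g ∈ Q, eval w' g = 0) → LineIn I x w') (a : ρ → ℂ)
    (ha : ∀ g ∈ Q, grad w g ⬝ᵥ a = 0) : a ∈ tanLine I x w := by
  have h1 : ∀ z : Fin 2 → ℂ, z 1 ≠ 0 → ∀ h ∈ I, grad (z 0 • x + z 1 • w) h ⬝ᵥ a = 0 := by
    intro z hz h hh
    have h2 : secA x z h ∈ Q := by
      refine mem_of_eval_zero hQ (fun w' hw' => ?_)
      rw [eval_secA]
      exact hQI w' hw' _ _ h hh
    have h3 := ha _ h2
    rw [grad_secA, smul_dotProduct, smul_eq_mul] at h3
    exact (mul_eq_zero.mp h3).resolve_left hz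
  rw [mem_tanLine]
  intro s t
  rw [mem_tanSp]
  intro h hh
  by_cases ht : t = 0
  · -- closedness
    subst ht
    set p : Polynomial ℂ := ∑ b, Polynomial.C (a b) *
      (aeval (fun i => Polynomial.C (s * x i) + Polynomial.X * Polynomial.C (w i)) :
        MvPolynomial ρ ℂ →ₐ[ℂ] Polynomial ℂ) (pderiv b h) with hp
    have hev : ∀ t : ℂ, p.eval t = grad (s • x + t • w) h ⬝ᵥ a := by
      intro t
      have h4 : ∀ q : MvPolynomial ρ ℂ, Polynomial.eval t ((aeval (fun i => Polynomial.C (s * x i) +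
          Polynomial.X * Polynomial.C (w i)) : MvPolynomial ρ ℂ →ₐ[ℂ] Polynomial ℂ) q) =
          eval (s • x + t • w) q := by
        intro q
        have h5 : (Polynomial.evalRingHom t).comp
            ((aeval (fun i => Polynomial.C (s * x i) + Polynomial.X * Polynomial.C (w i)) :
            MvPolynomial ρ ℂ →ₐ[ℂ] Polynomial ℂ) : MvPolynomial ρ ℂ →+* Polynomial ℂ) =
            eval (s • x + t • w) := by
          apply MvPolynomial.ringHom_ext
          · intro a
            simp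
          · intro i
            simp
            ring
        exact RingHom.congr_fun h5 q
      rw [hp, Polynomial.eval_finsetSum, dotProduct]
      refine Finset.sum_congr rfl (fun b _ => ?_)
      rw [Polynomial.eval_mul, Polynomial.eval_C, h4, grad_apply, mul_comm]
    have hp0 : p = 0 := by
      apply Polynomial.eq_zero_of_infinite_isRoot
      refine Set.Infinite.mono (s := {t : ℂ | t ≠ 0}) ?_ ?_
      · intro t ht
        rw [Set.mem_ofPred_eq, Polynomial.IsRoot.def, hev]
        exact h1 ![s, t] ht h hh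
      · have h6 : {t : ℂ | t ≠ 0} = ({0} : Set ℂ)ᶜ := rfl
        rw [h6]
        exact (Set.finite_singleton _).infinite_compl
    rw [← hev, hp0, Polynomial.eval_zero]
  · exact h1 ![s, t] ht h hh

/-- A free line gives lines through the points of a dense set. -/
theorem NsCone.lines_of_free (h : NsCone I c D) (r : ℕ) {x w : ρ → ℂ}
    (hli : LinearIndependent ℂ (ln x w)) (hline : LineIn I x w) (hfree : FreeLine I x w)
    (hr : Fintype.card ρ ≤ Module.finrank ℂ (tanLine I x w) + (c + r)) :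
    ∀ g ∉ I, ∃ y, (∀ h ∈ I, eval y h = 0) ∧ eval y g ≠ 0 ∧
      ((Fintype.card ρ : ℕ) : WithBot ℕ∞) ≤
        ringKrullDim (MvPolynomial ρ ℂ ⧸ coneI I y) + ((c + r : ℕ) : WithBot ℕ∞) := by
  classical
  have hIp := h.hI
  set T₀ := Module.finrank ℂ (tanLine I x w) with hT₀
  obtain ⟨M, e, U, hM, heI, hU, hUe, heli⟩ := h.exists_pair_eqs hli hline hfree
  -- the point `(x, w)`
  set q₁ : ρ ⊕ ρ → ℂ := Sum.elim x w with hq₁
  have hpair : ∀ (q : ρ ⊕ ρ → ℂ), LineIn I (pl1 q) (pl2 q) → ∀ g ∈ pairI I, eval q g = 0 := by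
    intro q hq g hg
    have h1 : pairI I ≤ RingHom.ker (eval q) := by
      rw [pairI, Ideal.span_le]
      rintro _ ⟨z, h, hh, rfl⟩
      rw [SetLike.mem_coe, RingHom.mem_ker, eval_lineA]
      exact hq _ _ h hh
    exact h1 hg
  have heq₁ : ∀ k, eval q₁ (e k) = 0 := fun k => hpair q₁ hline _ (heI k)
  obtain ⟨P, hP, heP, hPq, hPdim⟩ := exists_prime_at e q₁ heq₁
  rw [Fintype.card_fin, Fintype.card_sum] at hPdim
  have hUP : U ∉ P := fun hh => hU (hPq _ hh)
  have hspanP : Ideal.span (Set.range e) ≤ P := by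
    rw [Ideal.span_le]
    rintro _ ⟨k, rfl⟩
    exact heP k
  have hpairP : pairI I ≤ P := fun g hg =>
    (hP.mem_or_mem (hspanP (hUe g hg))).resolve_left hUP
  have hlineP : ∀ q : ρ ⊕ ρ → ℂ, (∀ g ∈ P, eval q g = 0) → LineIn I (pl1 q) (pl2 q) := by
    intro q hq s t h hh
    have h1 : lineA ![s, t] h ∈ P := hpairP (Ideal.subset_span ⟨_, h, hh, rfl⟩)
    have h2 := hq _ h1
    rw [eval_lineA] at h2
    exact h2
  have hlocP : ∀ g ∈ P, ∃ u, eval q₁ u ≠ 0 ∧ u * g ∈ Ideal.span (Set.range e) := by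
    refine (point_case' P hP q₁ hPq e heP heli).2 ?_
    rw [Fintype.card_sum, Fintype.card_fin]
    exact hPdim
  -- one denominator for all elements
  obtain ⟨u, huP, hu⟩ : ∃ u, u ∉ P ∧ ∀ g ∈ P, u * g ∈ Ideal.span (Set.range e) := by
    obtain ⟨S, hS⟩ := (isNoetherianRing_iff_ideal_fg (MvPolynomial (ρ ⊕ ρ) ℂ)).mp
      inferInstance P
    have h1 : ∀ g : S, ∃ u, eval q₁ u ≠ 0 ∧ u * (g : MvPolynomial (ρ ⊕ ρ) ℂ) ∈
        Ideal.span (Set.range e) := fun g => hlocP g (by
      rw [← hS]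
      exact Ideal.subset_span g.2)
    choose v hv hve using h1
    refine ⟨∏ g, v g, ?_, ?_⟩
    · intro hmem
      have h2 := hPq _ hmem
      rw [map_prod] at h2
      exact (Finset.prod_ne_zero_iff.mpr (fun g _ => hv g)) h2
    · intro g hg
      rw [← hS] at hg
      refine Submodule.span_induction (p := fun g _ => (∏ g, v g) * g ∈
        Ideal.span (Set.range e)) ?_ ?_ ?_ ?_ hg
      · intro g hg
        have h2 : ∏ g, v g = (∏ g' ∈ Finset.univ.erase (⟨g, hg⟩ : S), v g') * v ⟨g, hg⟩ := by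
          rw [Finset.prod_erase_mul _ _ (Finset.mem_univ _)]
        rw [h2, mul_assoc]
        exact Ideal.mul_mem_left _ _ (hve ⟨g, hg⟩)
      · rw [mul_zero]
        exact Ideal.zero_mem _
      · intro a b _ _ ha hb
        rw [mul_add]
        exact Ideal.add_mem _ ha hb
      · intro a b _ hb
        rw [smul_eq_mul, mul_left_comm]
        exact Ideal.mul_mem_left _ _ hb
  set J := P.comap (rename Sum.inl : MvPolynomial ρ ℂ →ₐ[ℂ] MvPolynomial (ρ ⊕ ρ) ℂ) with hJ
  have hJp : J.IsPrime := Ideal.comap_isPrime _ _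
  have hIJ : I ≤ J := by
    intro g hg
    show rename Sum.inl g ∈ P
    refine mem_of_eval_zero hP (fun q hq => ?_)
    rw [eval_rename_inl]
    have h1 := hlineP q hq 1 0 g hg
    simpa using h1
  -- the dimension of `I`
  have hx0 : x ≠ 0 := by
    have h1 := hli.ne_zero 0
    exact h1
  have hxI : ∀ h ∈ I, eval x h = 0 := by
    intro g hg
    have h1 := hline 1 0 g hg
    simpa using h1
  obtain ⟨F, hF, hFli⟩ := (h.good x hx0 hxI).1
  have hcρ : c ≤ Fintype.card ρ := by
    have h1 := hFli.fintype_card_le_finrank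
    rwa [Fintype.card_fin, Module.finrank_fintype_fun_eq_card] at h1
  have hdimI := (point_case' I hIp x hxI F (fun i => (hF i).1) hFli).1
  rw [Fintype.card_fin] at hdimI
  have hub : ∀ {y : WithBot ℕ∞} {b m : ℕ}, y + ((b : ℕ) : WithBot ℕ∞) ≤ ((m : ℕ) : WithBot ℕ∞) →
      y ≤ ((m - b : ℕ) : WithBot ℕ∞) := by
    intro y b m hy
    induction y using WithBot.recBotCoe with
    | bot => exact bot_le
    | coe y =>
      induction y using ENat.recTopCoe with
      | top =>
        exfalso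
        have h7 : ((⊤ : ℕ∞) : WithBot ℕ∞) + ((b : ℕ) : WithBot ℕ∞) = ((⊤ : ℕ∞) : WithBot ℕ∞) := by
          rfl
        rw [h7] at hy
        have h8 : ((⊤ : ℕ∞) : WithBot ℕ∞) ≤ (((m : ℕ) : ℕ∞) : WithBot ℕ∞) := hy
        rw [WithBot.coe_le_coe, top_le_iff] at h8
        exact ENat.natCast_ne_top _ h8
      | coe k =>
        have h7 : k + b ≤ m := by exact_mod_cast hy
        have h8 : k ≤ m - b := by omega
        exact WithBot.coe_le_coe.mpr (Nat.cast_le.mpr h8)
  -- `J = I`
  have hJI : J = I := by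
    by_contra hne
    have hlt : I < J := lt_of_le_of_ne hIJ (fun h => hne h.symm)
    have h1 := ringKrullDim_quotient_succ_le_of_lt hlt
    have h2 : ringKrullDim (MvPolynomial ρ ℂ ⧸ J) + ((1 + c : ℕ) : WithBot ℕ∞) ≤
        ((Fintype.card ρ : ℕ) : WithBot ℕ∞) := by
      rw [Nat.cast_add, Nat.cast_one, ← add_assoc]
      exact (add_le_add_left h1 _).trans hdimI
    have h3 := hub h2
    obtain ⟨Q, hQ, hQw, hQP, hQdim⟩ := exists_fiber_prime P hP x w hPq e heP
      (fun g hg => hlocP g hg) _ h3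
    rw [Fintype.card_fin] at hQdim
    have h4 : ringKrullDim (MvPolynomial ρ ℂ ⧸ Q) ≤ ((T₀ : ℕ) : WithBot ℕ∞) := by
      refine dim_le_tan_m3 Q hQ w hQw _ (fun a ha => ?_)
      refine ann_le_tanLine Q hQ (fun w' hw' => ?_) a ha
      exact hlineP (Sum.elim x w') (hQP w' hw')
    have h5 : ((Fintype.card ρ + Fintype.card ρ : ℕ) : WithBot ℕ∞) ≤
        ((T₀ + (M + (Fintype.card ρ - (1 + c))) : ℕ) : WithBot ℕ∞) := by
      refine hQdim.trans ?_
      rw [Nat.cast_add T₀]
      exact add_le_add_left h4 _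
    have h6 : Fintype.card ρ + Fintype.card ρ ≤ T₀ + (M + (Fintype.card ρ - (1 + c))) := by
      exact_mod_cast h5
    have h7 : 1 + c ≤ Fintype.card ρ := by
      -- the dimension of the quotient by `J` is nonnegative
      have h8 : (0 : WithBot ℕ∞) ≤ ringKrullDim (MvPolynomial ρ ℂ ⧸ J) := by
        have : Nontrivial (MvPolynomial ρ ℂ ⧸ J) := Ideal.Quotient.nontrivial_iff.mpr hJp.ne_top
        exact ringKrullDim_nonneg_of_nontrivial
      have h9 : ((1 + c : ℕ) : WithBot ℕ∞) ≤ ((Fintype.card ρ : ℕ) : WithBot ℕ∞) := by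
        refine le_trans ?_ h2
        have h10 := add_le_add_left h8 (((1 + c : ℕ) : WithBot ℕ∞))
        rwa [zero_add] at h10
      exact_mod_cast h9
    omega
  -- the general point
  intro g hg
  have hgP : rename Sum.inl g ∉ P := by
    intro hmem
    apply hg
    rw [← hJI]
    exact hmem
  have hugP : u * rename Sum.inl g ∉ P := by
    intro hmem
    rcases hP.mem_or_mem hmem with h1 | h1
    · exact huP h1
    · exact hgP h1
  obtain ⟨q, hq, hqne⟩ : ∃ q : ρ ⊕ ρ → ℂ, (∀ g ∈ P, eval q g = 0) ∧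
      eval q (u * rename Sum.inl g) ≠ 0 := by
    by_contra hno
    push Not at hno
    exact hugP (mem_of_eval_zero hP hno)
  rw [map_mul, eval_rename_inl] at hqne
  have hqu : eval q u ≠ 0 := left_ne_zero_of_mul hqne
  have hqg : eval (pl1 q) g ≠ 0 := right_ne_zero_of_mul hqne
  have hqe : Sum.elim (pl1 q) (pl2 q) = q := by
    funext i
    rcases i with i | i
    · rfl
    · rfl
  refine ⟨pl1 q, ?_, hqg, ?_⟩
  · intro f hf
    have h1 := hlineP q hq 1 0 f hf
    simpa using h1
  · have hJdim : ringKrullDim (MvPolynomial ρ ℂ ⧸ J) ≤ ((Fintype.card ρ - c : ℕ) : WithBot ℕ∞) := by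
      rw [hJI]
      exact hub hdimI
    obtain ⟨Q, hQ, hQw, hQP, hQdim⟩ := exists_fiber_prime P hP (pl1 q) (pl2 q)
      (by rw [hqe]; exact hq) e heP (fun g hg => ⟨u, by rw [hqe]; exact hqu, hu g hg⟩) _ hJdim
    rw [Fintype.card_fin] at hQdim
    have h1 : coneI I (pl1 q) ≤ Q := by
      intro f hf
      refine mem_of_eval_zero hQ (fun w' hw' => ?_)
      have h2 : LineIn I (pl1 q) w' := hlineP (Sum.elim (pl1 q) w') (hQP w' hw')
      rw [coneI, mem_vanishingIdeal_iff] at hf
      have h3 := hf w' h2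
      rwa [aeval_eq_eval] at h3
    have h2 : ringKrullDim (MvPolynomial ρ ℂ ⧸ Q) ≤
        ringKrullDim (MvPolynomial ρ ℂ ⧸ coneI I (pl1 q)) :=
      ringKrullDim_le_of_surjective (Ideal.Quotient.factor h1)
        (Ideal.Quotient.factor_surjective h1)
    have h3 : ((T₀ + (M + (Fintype.card ρ - c)) : ℕ) : WithBot ℕ∞) ≤
        ringKrullDim (MvPolynomial ρ ℂ ⧸ coneI I (pl1 q)) +
          ((M + (Fintype.card ρ - c) : ℕ) : WithBot ℕ∞) := by
      have h4 : T₀ + (M + (Fintype.card ρ - c)) = Fintype.card ρ + Fintype.card ρ := by omega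
      rw [h4]
      exact hQdim.trans (add_le_add_left h2 _)
    have h4 := dim_cancel h3
    refine le_trans ?_ (add_le_add_left h4 _)
    rw [← Nat.cast_add]
    exact_mod_cast hr

end M3

end Pool.Agent.Hartshorne
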