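import Mathlib
import Pool.Agent.Hartshorne.Gen

/-!
Lines through a general point of a subvariety are free in the directions of the subvariety.
-/

namespace Pool.Agent.Hartshorne

open MvPolynomial

set_option linter.unusedSectionVars false

section T7

variable {ρ : Type} [Fintype ρ] [DecidableEq ρ]

/-- Generic smoothness, in the form needed here. -/
theorem free_generic_t7 (I J : Ideal (MvPolynomial ρ ℂ)) (hJ : J.IsPrime)
    (V : ρ → MvPolynomial ρ ℂ)
    (hV : ∀ h ∈ J, ∑ b, V b * pderiv b h ∈ J) (B : Set ((ρ ⊕ ρ) → ℂ))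
    (hBJ : ∀ q ∈ B, ∀ h ∈ J, eval (pl1 q) h = 0)
    (hB : ∀ q ∈ B, ∀ z : Fin 2 → ℂ, ∀ h ∈ I, eval (z 0 • pl1 q + z 1 • pl2 q) h = 0)
    (hdense : ∀ g, (∀ q ∈ B, eval (pl1 q) g = 0) → g ∈ J) :
    ∃ q ∈ B, ∃ b : ρ → ℂ, ∀ h ∈ I, ∀ z : Fin 2 → ℂ,
      grad (z 0 • pl1 q + z 1 • pl2 q) h ⬝ᵥ
        (z 0 • rowEval (pl1 q) V + z 1 • b) = 0 := by
  obtain ⟨B', hB', hP, hd⟩ := exists_prime_dense J hJ B hdense
  set P := vanI B' with hPdef
  have hmem : ∀ g, (rename Sum.inl g : MvPolynomial (ρ ⊕ ρ) ℂ) ∈ P ↔ g ∈ J := by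
    intro g
    constructor
    · intro h
      refine hd g (fun q hq => ?_)
      have h1 := h q hq
      rwa [eval_rename_inl] at h1
    · intro h q hq
      rw [eval_rename_inl]
      exact hBJ q (hB' hq) g h
  let A := MvPolynomial ρ ℂ ⧸ J
  let Bq := MvPolynomial (ρ ⊕ ρ) ℂ ⧸ P
  let K := FractionRing Bq
  have hA : IsDomain A := Ideal.Quotient.isDomain J
  have hBq : IsDomain Bq := Ideal.Quotient.isDomain P
  let ι₀ : A →ₐ[ℂ] Bq := Ideal.quotientMapₐ P (rename Sum.inl) (fun g hg => (hmem g).mpr hg)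
  let ι : A →ₐ[ℂ] K := (IsScalarTower.toAlgHom ℂ Bq K).comp ι₀
  let πB : MvPolynomial (ρ ⊕ ρ) ℂ →ₐ[ℂ] K :=
    (IsScalarTower.toAlgHom ℂ Bq K).comp (Ideal.Quotient.mkₐ ℂ P)
  have hπ0 : ∀ f, πB f = 0 ↔ f ∈ P := by
    intro f
    have h1 : πB f = algebraMap Bq K (Ideal.Quotient.mk P f) := rfl
    rw [h1, ← Ideal.Quotient.eq_zero_iff_mem]
    constructor
    · intro h
      exact IsFractionRing.injective Bq K (h.trans (map_zero _).symm)
    · intro h
      rw [h, map_zero]
  have hιπ : ∀ g : MvPolynomial ρ ℂ, ι (Ideal.Quotient.mk J g) = πB (rename Sum.inl g) :=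
    fun g => rfl
  let _ : Algebra A K := ι.toRingHom.toAlgebra
  have halg : ∀ g : MvPolynomial ρ ℂ, algebraMap A K (Ideal.Quotient.mk J g) =
      πB (rename Sum.inl g) := fun g => rfl
  have hst : IsScalarTower ℂ A K := IsScalarTower.of_algebraMap_eq (fun z => (ι.commutes z).symm)
  have hinj : Function.Injective (algebraMap A K) := by
    rw [injective_iff_map_eq_zero]
    intro a ha
    obtain ⟨g, rfl⟩ := Ideal.Quotient.mk_surjective a
    rw [halg, hπ0, hmem] at ha
    exact Ideal.Quotient.eq_zero_iff_mem.mpr ha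
  have hess1 : Algebra.EssFiniteType Bq K :=
    Algebra.EssFiniteType.of_isLocalization K (nonZeroDivisors Bq)
  have hess : Algebra.EssFiniteType ℂ K := Algebra.EssFiniteType.comp ℂ Bq K
  have hfs : Algebra.FormallySmooth A K := formallySmooth_of_injective hinj
  -- the derivation
  let D0 : Derivation ℂ (MvPolynomial ρ ℂ) (MvPolynomial ρ ℂ) := mkDerivation ℂ V
  have hD0 : ∀ h, D0 h = ∑ b, V b * pderiv b h := by
    intro h
    have h1 := deriv_algHom D0 (AlgHom.id ℂ _) h
    rw [AlgHom.id_apply] at h1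
    rw [h1]
    refine Finset.sum_congr rfl (fun b _ => ?_)
    rw [AlgHom.id_apply, AlgHom.id_apply, mkDerivation_X, smul_eq_mul, mul_comm]
  have hsurj : Function.Surjective (Ideal.Quotient.mkₐ ℂ J) := Ideal.Quotient.mkₐ_surjective ℂ J
  have hD0I : ∀ x, (Ideal.Quotient.mkₐ ℂ J) x = 0 → (Ideal.Quotient.mkₐ ℂ J) (D0 x) = 0 := by
    intro x hx
    rw [Ideal.Quotient.mkₐ_eq_mk, Ideal.Quotient.eq_zero_iff_mem] at hx ⊢
    rw [hD0]
    exact hV x hx
  let DA : Derivation ℂ A A := Derivation.liftOfSurjective hsurj hD0I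
  have hDA : ∀ g, DA (Ideal.Quotient.mk J g) = Ideal.Quotient.mk J (D0 g) := fun g =>
    Derivation.liftOfSurjective_apply hsurj hD0I g
  obtain ⟨D', hD'⟩ := exists_deriv_ext ((Algebra.linearMap A K).compDer DA)
  have hD'x : ∀ i, D' (πB (X (Sum.inl i))) = πB (rename Sum.inl (V i)) := by
    intro i
    have h1 : πB (X (Sum.inl i)) = algebraMap A K (Ideal.Quotient.mk J (X i)) := by
      rw [halg, rename_X]
    have h2 : ((Algebra.linearMap A K).compDer DA) (Ideal.Quotient.mk J (X i)) =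
        algebraMap A K (DA (Ideal.Quotient.mk J (X i))) := rfl
    rw [h1, hD', h2, hDA, halg]
    congr 2
    exact mkDerivation_X ℂ V i
  -- denominators
  obtain ⟨s, hs⟩ := IsLocalization.exist_integer_multiples_of_finite (nonZeroDivisors Bq)
    (fun i : ρ => D' (πB (X (Sum.inr i))))
  choose β hβ using hs
  obtain ⟨s', hs'⟩ := Ideal.Quotient.mk_surjective (s : Bq)
  have hβ'' : ∀ i, ∃ b' : MvPolynomial (ρ ⊕ ρ) ℂ, Ideal.Quotient.mk P b' = β i :=
    fun i => Ideal.Quotient.mk_surjective _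
  choose β' hβ' using hβ''
  have hs'P : s' ∉ P := by
    intro h
    have h1 : (s : Bq) = 0 := by rw [← hs', Ideal.Quotient.eq_zero_iff_mem]; exact h
    exact nonZeroDivisors.coe_ne_zero s h1
  have hβπ : ∀ i, πB (β' i) = πB s' * D' (πB (X (Sum.inr i))) := by
    intro i
    have h1 : πB (β' i) = algebraMap Bq K (β i) := by rw [← hβ' i]; rfl
    have h2 : πB s' = algebraMap Bq K (s : Bq) := by rw [← hs']; rfl
    rw [h1, h2, hβ i, Algebra.smul_def]
  -- the relation
  have hrel : ∀ h ∈ I, ∀ z : Fin 2 → ℂ, (∑ i, lineA z (pderiv i h) *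
      (C (z 0) * rename Sum.inl (V i) * s' + C (z 1) * β' i)) ∈ P := by
    intro h hh z
    rw [← hπ0]
    have h1 : πB (lineA z h) = 0 := by
      rw [hπ0]
      intro q hq
      rw [eval_lineA]
      exact hB q (hB' hq) z h hh
    have h2 := deriv_algHom D' (πB.comp (lineA z)) h
    rw [AlgHom.comp_apply, h1, map_zero] at h2
    have hC : ∀ a : ℂ, πB (C a) = algebraMap ℂ K a := by
      intro a
      rw [← algebraMap_eq]
      exact πB.commutes a
    have h3 : ∀ i, D' ((πB.comp (lineA z)) (X i)) =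
        algebraMap ℂ K (z 0) * πB (rename Sum.inl (V i)) +
          algebraMap ℂ K (z 1) * D' (πB (X (Sum.inr i))) := by
      intro i
      rw [AlgHom.comp_apply, lineA, aeval_X, map_add, map_mul, map_mul, hC, hC, map_add,
        ← Algebra.smul_def, ← Algebra.smul_def, Derivation.map_smul, Derivation.map_smul, hD'x,
        Algebra.smul_def, Algebra.smul_def]
    have h4 : πB (∑ i, lineA z (pderiv i h) *
        (C (z 0) * rename Sum.inl (V i) * s' + C (z 1) * β' i)) = πB s' *
        ∑ i, (πB.comp (lineA z)) (pderiv i h) • D' ((πB.comp (lineA z)) (X i)) := by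
      rw [map_sum, Finset.mul_sum]
      refine Finset.sum_congr rfl (fun i _ => ?_)
      rw [h3, map_mul, map_add, map_mul, map_mul, map_mul, hC, hC, hβπ, AlgHom.comp_apply,
        smul_eq_mul]
      exact ring_aux _ _ _ _ _ _
    rw [h4, ← h2, mul_zero]
  obtain ⟨q, hq, hqs⟩ : ∃ q ∈ B', eval q s' ≠ 0 := by
    by_contra hno
    push Not at hno
    exact hs'P hno
  refine ⟨q, hB' hq, fun i => eval q (β' i) / eval q s', ?_⟩
  intro h hh z
  have h1 := hrel h hh z q hq
  rw [map_sum] at h1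
  have h2 : grad (z 0 • pl1 q + z 1 • pl2 q) h ⬝ᵥ (z 0 • rowEval (pl1 q) V + z 1 •
      (fun i => eval q (β' i) / eval q s')) = (eval q s')⁻¹ * ∑ i, eval q (lineA z (pderiv i h) *
      (C (z 0) * rename Sum.inl (V i) * s' + C (z 1) * β' i)) := by
    rw [Finset.mul_sum, dotProduct]
    refine Finset.sum_congr rfl (fun i _ => ?_)
    rw [map_mul, map_add, map_mul, map_mul, map_mul, eval_lineA, eval_rename_inl, eval_C, eval_C,
      grad_apply, Pi.add_apply, Pi.smul_apply, Pi.smul_apply, rowEval_apply, smul_eq_mul,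
      smul_eq_mul]
    field_simp
  rw [h2, h1, mul_zero]

/-- Lines through the general points of a subvariety are free in the directions of the
subvariety. -/
theorem exists_free_open2 {c' : ℕ} (I J : Ideal (MvPolynomial ρ ℂ)) (hJ : J.IsPrime)
    (F : Fin c' → MvPolynomial ρ ℂ) (hF : ∀ i, F i ∈ J) {p₀ : ρ → ℂ}
    (hp₀ : ∀ h ∈ J, eval p₀ h = 0) (hli : LinearIndependent ℂ (fun i => grad p₀ (F i)))
    (hdim : ((Fintype.card ρ : ℕ) : WithBot ℕ∞) ≤
      ringKrullDim (MvPolynomial ρ ℂ ⧸ J) + (c' : WithBot ℕ∞)) :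
    ∃ Δ : MvPolynomial ρ ℂ, Δ ∉ J ∧ ∀ x : ρ → ℂ, (∀ h ∈ J, eval x h = 0) → eval x Δ ≠ 0 →
      LinearIndependent ℂ (fun i => grad x (F i)) ∧
      ∀ w : ρ → ℂ, (∀ z : Fin 2 → ℂ, ∀ h ∈ I, eval (z 0 • x + z 1 • w) h = 0) →
        ∀ a : ρ → ℂ, (∀ i, grad x (F i) ⬝ᵥ a = 0) → ∃ b : ρ → ℂ, ∀ h ∈ I, ∀ z : Fin 2 → ℂ,
          grad (z 0 • x + z 1 • w) h ⬝ᵥ (z 0 • a + z 1 • b) = 0 := by
  obtain ⟨T, hT⟩ := exists_minor _ hli
  set M : Matrix (Fin c') (Fin c') (MvPolynomial ρ ℂ) :=
    Matrix.of fun i l => pderiv (T l) (F i) with hM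
  have hΔp : eval p₀ M.det ≠ 0 := by
    rw [eval_det]
    have h1 : (Matrix.of fun i l => eval p₀ (M i l)) =
        Matrix.of fun i l => grad p₀ (F i) (T l) := by
      ext i l
      rw [Matrix.of_apply, Matrix.of_apply, grad_apply, hM, Matrix.of_apply]
    rw [h1]
    exact hT
  have hΔI : M.det ∉ J := fun h => hΔp (hp₀ _ h)
  -- the vector fields
  set V : ρ → ρ → MvPolynomial ρ ℂ := fun j b => M.det * (if j = b then 1 else 0) -
    ∑ l, if T l = b then ∑ k, M.adjugate l k * pderiv j (F k) else 0 with hV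
  have hVF : ∀ j i, ∑ b, V j b * pderiv b (F i) = 0 := by
    intro j i
    have h1 : ∑ b, V j b * pderiv b (F i) = M.det * pderiv j (F i) -
        ∑ l, (∑ k, M.adjugate l k * pderiv j (F k)) * pderiv (T l) (F i) := by
      simp only [hV, sub_mul, Finset.sum_sub_distrib]
      congr 1
      · rw [Finset.sum_eq_single j]
        · rw [if_pos rfl, mul_one]
        · intro b _ hb
          rw [if_neg (fun h => hb h.symm), mul_zero, zero_mul]
        · intro h; exact absurd (Finset.mem_univ _) h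
      · simp only [Finset.sum_mul]
        rw [Finset.sum_comm]
        refine Finset.sum_congr rfl (fun l _ => ?_)
        rw [Finset.sum_eq_single (T l)]
        · rw [if_pos rfl, Finset.sum_mul]
        · intro b _ hb
          rw [if_neg (fun h => hb h.symm), zero_mul]
        · intro h; exact absurd (Finset.mem_univ _) h
    rw [h1, sub_eq_zero]
    have h2 : ∀ k, ∑ l, pderiv (T l) (F i) * M.adjugate l k = if i = k then M.det else 0 := by
      intro k
      have h3 := congrFun (congrFun (Matrix.mul_adjugate M) i) k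
      rw [Matrix.mul_apply, Matrix.smul_apply, Matrix.one_apply, smul_eq_mul] at h3
      have h4 : ∀ l, M i l = pderiv (T l) (F i) := fun l => rfl
      simp only [h4] at h3
      rw [h3]
      split_ifs
      · rw [mul_one]
      · rw [mul_zero]
    simp only [Finset.sum_mul]
    rw [Finset.sum_comm]
    have h5 : ∀ k, ∑ l, M.adjugate l k * pderiv j (F k) * pderiv (T l) (F i) =
        if i = k then M.det * pderiv j (F k) else 0 := by
      intro k
      have h6 : ∑ l, M.adjugate l k * pderiv j (F k) * pderiv (T l) (F i) =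
          (∑ l, pderiv (T l) (F i) * M.adjugate l k) * pderiv j (F k) := by
        rw [Finset.sum_mul]
        refine Finset.sum_congr rfl (fun l _ => by ring)
      rw [h6, h2, ite_mul, zero_mul]
    rw [Finset.sum_congr rfl (fun k _ => h5 k), Finset.sum_ite_eq, if_pos (Finset.mem_univ _)]
  have hVI : ∀ j, ∀ h ∈ J, ∑ b, V j b * pderiv b h ∈ J := by
    intro j h hh
    obtain ⟨u, hu, hmem⟩ := (point_case J hJ p₀ hp₀ c' F hF hli).2 hdim h hh
    obtain ⟨g, hg⟩ := (Submodule.mem_span_range_iff_exists_fun _).mp hmem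
    have huI : u ∉ J := fun h => hu (hp₀ _ h)
    have h1 : ∑ b, V j b * pderiv b (u * h) = ∑ i, (∑ b, V j b * pderiv b (g i)) * F i := by
      rw [← hg]
      simp only [smul_eq_mul, map_sum, pderiv_mul, Finset.mul_sum, Finset.sum_mul]
      rw [Finset.sum_comm]
      refine Finset.sum_congr rfl (fun i _ => ?_)
      have h2 : ∑ b, V j b * (pderiv b (g i) * F i + g i * pderiv b (F i)) =
          (∑ b, V j b * pderiv b (g i) * F i) + g i * ∑ b, V j b * pderiv b (F i) := by
        rw [Finset.mul_sum, ← Finset.sum_add_distrib]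
        refine Finset.sum_congr rfl (fun b _ => by ring)
      rw [h2, hVF, mul_zero, add_zero]
    have h2 : ∑ b, V j b * pderiv b (u * h) = (∑ b, V j b * pderiv b u) * h +
        u * ∑ b, V j b * pderiv b h := by
      rw [Finset.mul_sum, Finset.sum_mul, ← Finset.sum_add_distrib]
      refine Finset.sum_congr rfl (fun b _ => ?_)
      rw [pderiv_mul]
      ring
    have h3 : u * ∑ b, V j b * pderiv b h ∈ J := by
      have h4 : u * ∑ b, V j b * pderiv b h = (∑ i, (∑ b, V j b * pderiv b (g i)) * F i) -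
          (∑ b, V j b * pderiv b u) * h := by
        rw [← h1, h2]; ring
      rw [h4]
      exact Ideal.sub_mem _ (Ideal.sum_mem _ (fun i _ => Ideal.mul_mem_left _ _ (hF i)))
        (Ideal.mul_mem_left _ _ hh)
    exact (hJ.mem_or_mem h3).resolve_left huI
  -- bad sets
  have hbad : ∀ j, ∃ g, g ∉ J ∧ ∀ q : ρ ⊕ ρ → ℂ, (∀ h ∈ J, eval (pl1 q) h = 0) →
      (∀ z : Fin 2 → ℂ, ∀ h ∈ I, eval (z 0 • pl1 q + z 1 • pl2 q) h = 0) →
      eval (pl1 q) g ≠ 0 → ∃ b : ρ → ℂ, ∀ h ∈ I, ∀ z : Fin 2 → ℂ,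
        grad (z 0 • pl1 q + z 1 • pl2 q) h ⬝ᵥ
          (z 0 • rowEval (pl1 q) (V j) + z 1 • b) = 0 := by
    intro j
    by_contra hno
    push Not at hno
    obtain ⟨q, hq, b, hb⟩ := free_generic_t7 I J hJ (V j) (hVI j)
      {q | (∀ h ∈ J, eval (pl1 q) h = 0) ∧
        (∀ z : Fin 2 → ℂ, ∀ h ∈ I, eval (z 0 • pl1 q + z 1 • pl2 q) h = 0) ∧
        ¬ ∃ b : ρ → ℂ, ∀ h ∈ I, ∀ z : Fin 2 → ℂ,
        grad (z 0 • pl1 q + z 1 • pl2 q) h ⬝ᵥ
          (z 0 • rowEval (pl1 q) (V j) + z 1 • b) = 0} (fun q hq => hq.1)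
      (fun q hq => hq.2.1) (by
      intro g hg
      by_contra hgJ
      obtain ⟨q, hq0, hq1, hq2, hq3⟩ := hno g hgJ
      apply hq2
      apply hg q
      refine ⟨hq0, hq1, ?_⟩
      rintro ⟨b, hb⟩
      obtain ⟨h, hh, z, hz⟩ := hq3 b
      exact hz (hb h hh z))
    exact hq.2.2 ⟨b, hb⟩
  choose g hgJ hg using hbad
  refine ⟨M.det * ∏ j, g j, ?_, ?_⟩
  · intro hmem
    rcases hJ.mem_or_mem hmem with h1 | h1
    · exact hΔI h1
    · obtain ⟨j, -, hj⟩ := (hJ.prod_mem_iff).mp h1
      exact hgJ j hj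
  intro x hx hxne
  rw [map_mul, map_prod] at hxne
  have hx2 := left_ne_zero_of_mul hxne
  have hx3 := Finset.prod_ne_zero_iff.mp (right_ne_zero_of_mul hxne)
  refine ⟨?_, ?_⟩
  · have h1 := rowEval_li_of_det x (fun i b => pderiv b (F i)) T hx2
    have h2 : ∀ i, rowEval x (fun b => pderiv b (F i)) = grad x (F i) := by
      intro i
      funext b
      rw [grad_apply]
      rfl
    simp only [h2] at h1
    exact h1
  · intro w hw a ha
    have h1 : ∀ j, ∃ b : ρ → ℂ, ∀ h ∈ I, ∀ z : Fin 2 → ℂ,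
        grad (z 0 • x + z 1 • w) h ⬝ᵥ (z 0 • rowEval x (V j) + z 1 • b) = 0 := by
      intro j
      exact hg j (Sum.elim x w) hx hw (hx3 j (Finset.mem_univ _))
    choose b hb using h1
    have h2 : eval x M.det • a = ∑ j, a j • rowEval x (V j) := by
      funext b'
      rw [Pi.smul_apply, Finset.sum_apply, smul_eq_mul]
      have h3 : ∀ j, (a j • rowEval x (V j)) b' = a j * (eval x M.det * (if j = b' then 1 else 0)) -
          ∑ l, if T l = b' then ∑ k, eval x (M.adjugate l k) *
            (a j * grad x (F k) j) else 0 := by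
        intro j
        rw [Pi.smul_apply, smul_eq_mul, rowEval_apply]
        simp only [hV, map_sub, map_mul, map_sum, mul_sub, Finset.mul_sum]
        congr 1
        · split_ifs <;> simp
        · refine Finset.sum_congr rfl (fun l _ => ?_)
          split_ifs
          · rw [map_sum, Finset.mul_sum]
            refine Finset.sum_congr rfl (fun k _ => ?_)
            rw [map_mul, grad_apply]
            ring
          · rw [map_zero, mul_zero]
      rw [Finset.sum_congr rfl (fun j _ => h3 j), Finset.sum_sub_distrib]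
      have h4 : ∑ j, a j * (eval x M.det * (if j = b' then 1 else 0)) = eval x M.det * a b' := by
        rw [Finset.sum_eq_single b']
        · rw [if_pos rfl]; ring
        · intro j _ hj
          rw [if_neg hj]; ring
        · intro h; exact absurd (Finset.mem_univ _) h
      have h5 : ∑ j, ∑ l, (if T l = b' then ∑ k, eval x (M.adjugate l k) *
            (a j * grad x (F k) j) else 0) = 0 := by
        rw [Finset.sum_comm]
        refine Finset.sum_eq_zero (fun l _ => ?_)
        split_ifs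
        · rw [Finset.sum_comm]
          refine Finset.sum_eq_zero (fun k _ => ?_)
          rw [← Finset.mul_sum]
          have h6 : ∑ j, a j * grad x (F k) j = grad x (F k) ⬝ᵥ a := by
            rw [dotProduct]
            exact Finset.sum_congr rfl (fun j _ => mul_comm _ _)
          rw [h6, ha k, mul_zero]
        · exact Finset.sum_const_zero
      rw [h4, h5, sub_zero]
    refine ⟨(eval x M.det)⁻¹ • ∑ j, a j • b j, ?_⟩
    intro h hh z
    set D := eval x M.det with hD
    have h3 : D • (z 0 • a + z 1 • (D⁻¹ • ∑ j, a j • b j) : ρ → ℂ) =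
        ∑ j, a j • (z 0 • rowEval x (V j) + z 1 • b j) := by
      have h4 : D • (z 0 • a + z 1 • (D⁻¹ • ∑ j, a j • b j) : ρ → ℂ) =
          z 0 • (D • a) + z 1 • ∑ j, a j • b j := by
        rw [smul_add, smul_comm D (z 0) a, smul_comm D (z 1), smul_smul D D⁻¹,
          mul_inv_cancel₀ hx2, one_smul]
      rw [h4, h2, Finset.smul_sum, Finset.smul_sum, ← Finset.sum_add_distrib]
      refine Finset.sum_congr rfl (fun j _ => ?_)
      rw [smul_add, smul_comm (z 0), smul_comm (z 1)]
    have h4 : D * (grad (z 0 • x + z 1 • w) h ⬝ᵥ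
        (z 0 • a + z 1 • (D⁻¹ • ∑ j, a j • b j))) = 0 := by
      rw [← smul_eq_mul, ← dotProduct_smul, h3, dotProduct_sum]
      exact Finset.sum_eq_zero (fun j _ => by rw [dotProduct_smul, hb j h hh z, smul_zero])
    exact (mul_eq_zero.mp h4).resolve_left hx2

end T7

end Pool.Agent.Hartshorne
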