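import Mathlib
import Pool.Agent.HartN.DefsT

/-!
Cones stable under a one-parameter group: reversal of the weights, and the part of largest weight.
-/

namespace Pool.Agent.Hartshorne

open MvPolynomial

set_option linter.unusedSectionVars false

section T1

variable {ρ : Type} [Fintype ρ] [DecidableEq ρ] {I : Ideal (MvPolynomial ρ ℂ)} {c D : ℕ}
  {a : ρ → ℕ} {A : ℕ}

private lemma weight_add_t1 (hle : ∀ b, a b ≤ A) (m : ρ →₀ ℕ) :
    Finsupp.weight (fun b => A - a b) m + Finsupp.weight a m = A * m.degree := by
  rw [Finsupp.weight_apply, Finsupp.weight_apply, Finsupp.degree_apply, Finsupp.sum, Finsupp.sum,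
    ← Finset.sum_add_distrib, Finset.mul_sum]
  refine Finset.sum_congr rfl (fun b _ => ?_)
  rw [smul_eq_mul, smul_eq_mul, ← mul_add, Nat.sub_add_cancel (hle b), mul_comm]

private lemma weight_eq_iff_t1 (hle : ∀ b, a b ≤ A) (m : ρ →₀ ℕ) :
    Finsupp.weight a m = A * m.degree ↔ ∀ b ∈ m.support, a b = A := by
  have h1 := weight_add_t1 hle m
  have h2 : Finsupp.weight a m = A * m.degree ↔ Finsupp.weight (fun b => A - a b) m = 0 := by
    omega
  rw [h2, Finsupp.weight_apply, Finsupp.sum, Finset.sum_eq_zero_iff]
  refine forall₂_congr (fun b hb => ?_)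
  rw [Finsupp.mem_support_iff] at hb
  rw [smul_eq_mul, Nat.mul_eq_zero]
  have := hle b
  omega

private lemma wcomp_flip_t1 (hle : ∀ b, a b ≤ A) (f : MvPolynomial ρ ℂ) (e : ℕ) :
    weightedHomogeneousComponent (fun b => A - a b) e f =
      ∑ n ∈ Finset.range (f.totalDegree + 1), if e ≤ A * n then
        weightedHomogeneousComponent a (A * n - e) (homogeneousComponent n f) else 0 := by
  classical
  ext m
  rw [coeff_sum, coeff_weightedHomogeneousComponent]
  have h1 := weight_add_t1 hle m
  by_cases hm : coeff m f = 0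
  · rw [hm, ite_self, Finset.sum_eq_zero]
    intro n _
    split_ifs with h
    · rw [coeff_weightedHomogeneousComponent, coeff_homogeneousComponent, hm, ite_self, ite_self]
    · exact coeff_zero _
  · have hdeg : m.degree ≤ f.totalDegree := by
      rw [Finsupp.degree_eq_sum]
      have := le_totalDegree (mem_support_iff.mpr hm)
      rwa [Finsupp.sum_fintype _ _ (fun _ => rfl)] at this
    rw [Finset.sum_eq_single m.degree]
    · by_cases he : e ≤ A * m.degree
      · rw [if_pos he, coeff_weightedHomogeneousComponent, coeff_homogeneousComponent, if_pos rfl]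
        have h2 : Finsupp.weight (fun b => A - a b) m = e ↔
            Finsupp.weight a m = A * m.degree - e := by omega
        rw [if_congr h2 rfl rfl]
      · rw [if_neg he, coeff_zero, if_neg (by omega)]
    · intro n _ hn
      split_ifs with h
      · rw [coeff_weightedHomogeneousComponent, coeff_homogeneousComponent,
          if_neg (Ne.symm hn), ite_self]
      · exact coeff_zero _
    · intro h
      exact absurd (Finset.mem_range.mpr (Nat.lt_succ_of_le hdeg)) h

/-- Reversal of the weights. -/
theorem TCone.flip (h : TCone I c D a A) : TCone I c D (fun b => A - a b) A where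
  toNsCone := h.toNsCone
  hw := by
    intro f hf e
    rw [wcomp_flip_t1 h.hle]
    refine Ideal.sum_mem _ (fun n _ => ?_)
    split_ifs with h1
    · exact h.hw _ (h.hhom _ hf n) _
    · exact Ideal.zero_mem _
  hnd := h.hnd
  hA := h.hA
  hle := fun b => Nat.sub_le _ _
  h0 := by
    obtain ⟨b, hb⟩ := h.hAA
    exact ⟨b, by rw [hb, Nat.sub_self]⟩
  hAA := by
    obtain ⟨b, hb⟩ := h.h0
    exact ⟨b, by rw [hb, Nat.sub_zero]⟩

private lemma eval_proj_monomial_t1 (hle : ∀ b, a b ≤ A) (p : ρ → ℂ) (m : ρ →₀ ℕ) (r : ℂ)
    (N : ℕ) (hN : m.degree < N) :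
    eval (prS (fun b => a b = A) p) (monomial m r) =
      ∑ n ∈ Finset.range N, eval p
        (weightedHomogeneousComponent a (A * n) (homogeneousComponent n (monomial m r))) := by
  classical
  have h0 : ∀ n, n ≠ m.degree →
      homogeneousComponent n (monomial m r : MvPolynomial ρ ℂ) = 0 := by
    intro n hn
    ext d
    rw [coeff_homogeneousComponent, coeff_monomial, coeff_zero]
    by_cases h1 : m = d
    · subst h1
      rw [if_neg (Ne.symm hn)]
    · rw [if_neg h1, ite_self]
  have h1 : homogeneousComponent m.degree (monomial m r : MvPolynomial ρ ℂ) = monomial m r := by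
    ext d
    rw [coeff_homogeneousComponent, coeff_monomial]
    by_cases h1 : m = d
    · subst h1
      rw [if_pos rfl]
    · rw [if_neg h1, ite_self]
  rw [Finset.sum_eq_single m.degree]
  · rw [h1]
    by_cases hw : Finsupp.weight a m = A * m.degree
    · have h2 : weightedHomogeneousComponent a (A * m.degree)
          (monomial m r : MvPolynomial ρ ℂ) = monomial m r := by
        ext d
        rw [coeff_weightedHomogeneousComponent, coeff_monomial]
        by_cases h1 : m = d
        · subst h1
          rw [if_pos hw]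
        · rw [if_neg h1, ite_self]
      rw [h2, eval_monomial, eval_monomial]
      congr 1
      refine Finset.prod_congr rfl (fun b hb => ?_)
      show (prS (fun b => a b = A) p b) ^ (m b) = p b ^ (m b)
      rw [prS_apply, if_pos ((weight_eq_iff_t1 hle m).mp hw b hb)]
    · have h2 : weightedHomogeneousComponent a (A * m.degree)
          (monomial m r : MvPolynomial ρ ℂ) = 0 := by
        ext d
        rw [coeff_weightedHomogeneousComponent, coeff_monomial, coeff_zero]
        by_cases h1 : m = d
        · subst h1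
          rw [if_neg hw]
        · rw [if_neg h1, ite_self]
      rw [h2, map_zero, eval_monomial]
      rw [weight_eq_iff_t1 hle] at hw
      push Not at hw
      obtain ⟨b, hb, hbA⟩ := hw
      rw [Finsupp.prod, Finset.prod_eq_zero hb, mul_zero]
      rw [prS_apply, if_neg hbA, zero_pow (Finsupp.mem_support_iff.mp hb)]
  · intro n _ hn
    rw [h0 n hn, map_zero, map_zero]
  · intro h
    exact absurd (Finset.mem_range.mpr hN) h

private lemma eval_proj_t1 (hle : ∀ b, a b ≤ A) (p : ρ → ℂ) (f : MvPolynomial ρ ℂ) :
    eval (prS (fun b => a b = A) p) f =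
      ∑ n ∈ Finset.range (f.totalDegree + 1), eval p
        (weightedHomogeneousComponent a (A * n) (homogeneousComponent n f)) := by
  classical
  have h1 : ∀ q : ρ → ℂ, eval q f = ∑ m ∈ f.support, eval q (monomial m (coeff m f)) := by
    intro q
    conv_lhs => rw [← support_sum_monomial_coeff f]
    rw [map_sum]
  have h2 : ∀ n, eval p
      (weightedHomogeneousComponent a (A * n) (homogeneousComponent n f)) =
      ∑ m ∈ f.support, eval p (weightedHomogeneousComponent a (A * n)
        (homogeneousComponent n (monomial m (coeff m f)))) := by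
    intro n
    conv_lhs => rw [← support_sum_monomial_coeff f]
    rw [map_sum, map_sum, map_sum]
  rw [h1, Finset.sum_congr rfl (fun n _ => h2 n), Finset.sum_comm]
  refine Finset.sum_congr rfl (fun m hm => ?_)
  refine eval_proj_monomial_t1 hle p m _ _ ?_
  have := le_totalDegree hm
  rw [Finsupp.sum_fintype _ _ (fun _ => rfl)] at this
  rw [Finsupp.degree_eq_sum]
  exact Nat.lt_succ_of_le this

/-- The projection to the space of the largest weight preserves the variety. -/
theorem TCone.proj_mem (h : TCone I c D a A) {p : ρ → ℂ} (hp : ∀ h ∈ I, eval p h = 0) :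
    ∀ h ∈ I, eval (prS (fun b => a b = A) p) h = 0 := by
  intro f hf
  rw [eval_proj_t1 h.hle]
  exact Finset.sum_eq_zero (fun n _ => hp _ (h.hw _ (h.hhom _ hf n) _))

theorem TCone.extI_isPrime (h : TCone I c D a A) : (extI I a A).IsPrime := by
  have := h.hI
  exact Ideal.comap_isPrime _ _

theorem TCone.le_extI (h : TCone I c D a A) : I ≤ extI I a A := by
  intro f hf
  refine mem_of_eval_zero h.hI (fun z hz => ?_)
  rw [eval_lsub]
  exact h.proj_mem hz f hf

theorem TCone.mem_extI_iff (h : TCone I c D a A) (p : ρ → ℂ) :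
    (∀ g ∈ extI I a A, eval p g = 0) ↔ (∀ g ∈ I, eval p g = 0) ∧ ∀ b, a b ≠ A → p b = 0 := by
  constructor
  · intro h1
    refine ⟨fun g hg => h1 g (h.le_extI hg), fun b hb => ?_⟩
    have h2 : (X b : MvPolynomial ρ ℂ) ∈ extI I a A := by
      show lsub (prS (fun b => a b = A)) (X b) ∈ I
      rw [lsub_X]
      refine Ideal.sum_mem _ (fun j _ => ?_)
      rw [prS_apply, if_neg hb, map_zero, zero_mul]
      exact Ideal.zero_mem _
    have h3 := h1 _ h2
    rwa [eval_X] at h3
  · rintro ⟨h1, h2⟩ g hg
    have h3 : prS (fun b => a b = A) p = p := by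
      funext b
      rw [prS_apply]
      split_ifs with hb
      · rfl
      · exact (h2 b hb).symm
    have h4 := h1 _ (show lsub (prS (fun b => a b = A)) g ∈ I from hg)
    rwa [eval_lsub, h3] at h4

/-- General points of the largest weight. -/
theorem TCone.exists_top (h : TCone I c D a A) {g : MvPolynomial ρ ℂ} (hg : g ∉ extI I a A) :
    ∃ p : ρ → ℂ, p ≠ 0 ∧ (∀ g ∈ I, eval p g = 0) ∧ (∀ b, a b ≠ A → p b = 0) ∧
      eval p g ≠ 0 := by
  obtain ⟨b, hb⟩ := h.hAA
  have hX : (X b : MvPolynomial ρ ℂ) ∉ I := by
    intro h1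
    exact X_ne_zero b (h.hnd _ h1 (isHomogeneous_X _ _))
  have hg' : lsub (prS (fun b => a b = A)) g ∉ I := hg
  have h1 : X b * lsub (prS (fun b => a b = A)) g ∉ I := by
    intro h2
    rcases h.hI.mem_or_mem h2 with h3 | h3
    · exact hX h3
    · exact hg' h3
  have h2 : ∃ z : ρ → ℂ, (∀ g ∈ I, eval z g = 0) ∧
      eval z (X b * lsub (prS (fun b => a b = A)) g) ≠ 0 := by
    by_contra hcon
    push Not at hcon
    exact h1 (mem_of_eval_zero h.hI hcon)
  obtain ⟨z, hz, hz'⟩ := h2
  rw [map_mul, eval_X, eval_lsub] at hz'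
  refine ⟨prS (fun b => a b = A) z, ?_, h.proj_mem hz, ?_, right_ne_zero_of_mul hz'⟩
  · intro h3
    have h4 := congrFun h3 b
    rw [prS_apply, if_pos hb, Pi.zero_apply] at h4
    exact left_ne_zero_of_mul hz' h4
  · intro b' hb'
    rw [prS_apply, if_neg hb']

end T1

end Pool.Agent.Hartshorne
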