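import Mathlib
import Pool.Agent.HartN.DefsT

/-!
Bihomogeneous frames; gradients at the fixed points of a one-parameter group.
-/

namespace Pool.Agent.Hartshorne

open MvPolynomial

set_option linter.unusedSectionVars false

section T2
variable {ρ : Type} [Fintype ρ] [DecidableEq ρ] {I : Ideal (MvPolynomial ρ ℂ)} {c D : ℕ}
  {a : ρ → ℕ} {A : ℕ}

/-- A weighted component of a form is a form of the same degree. -/
lemma isHom_wc_t2 {n : ℕ} {f : MvPolynomial ρ ℂ} (hf : f.IsHomogeneous n) (v : ρ → ℕ) (m : ℕ) :
    (weightedHomogeneousComponent v m f).IsHomogeneous n :=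
  isWH_wc (w := (1 : ρ → ℕ)) hf m

/-- Bihomogeneous frames. -/
theorem TCone.exists_frame (h : TCone I c D a A) {p : ρ → ℂ} (hp0 : p ≠ 0)
    (hp : ∀ g ∈ I, eval p g = 0) :
    ∃ (F : Fin c → MvPolynomial ρ ℂ) (w : Fin c → ℕ),
      (∀ i, F i ∈ I ∧ (F i).IsHomogeneous D ∧ IsWeightedHomogeneous a (F i) (w i)) ∧
      LinearIndependent ℂ (fun i => grad p (F i)) := by
  obtain ⟨⟨w, hw, hli⟩, hfin⟩ := h.good p hp0 hp
  set S : Set (MvPolynomial ρ ℂ) :=
    {g | g ∈ I ∧ g.IsHomogeneous D ∧ ∃ e, IsWeightedHomogeneous a g e} with hS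
  have h1 : ∀ i, grad p (w i) ∈ Submodule.span ℂ ((fun g => grad p g) '' S) := by
    intro i
    obtain ⟨M, hM⟩ := exists_sum_wc a (w i)
    rw [hM, map_sum]
    exact Submodule.sum_mem _ (fun n _ => Submodule.subset_span
      ⟨_, ⟨h.hw _ (hw i).1 n, isHom_wc_t2 (hw i).2 a n, n,
        weightedHomogeneousComponent_isWeightedHomogeneous _ _⟩, rfl⟩)
  have h2 : Submodule.span ℂ ((fun g => grad p g) '' S) ≤ gradSpan I p := by
    rw [Submodule.span_le]
    rintro _ ⟨g, hg, rfl⟩
    exact grad_mem_gradSpan hg.1 p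
  have h3 : Module.finrank ℂ (Submodule.span ℂ ((fun g => grad p g) '' S)) = c := by
    apply le_antisymm
    · rw [← hfin]; exact Submodule.finrank_mono h2
    · have h4 : Submodule.span ℂ (Set.range (fun i => grad p (w i))) ≤
          Submodule.span ℂ ((fun g => grad p g) '' S) := by
        rw [Submodule.span_le]
        rintro _ ⟨i, rfl⟩
        exact h1 i
      have h5 := Submodule.finrank_mono h4
      rwa [finrank_span_eq_card hli, Fintype.card_fin] at h5
  obtain ⟨F, hF, hFli⟩ := exists_li_image S (fun g => grad p g) h3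
  choose e he using fun i => (hF i).2.2
  exact ⟨F, e, fun i => ⟨(hF i).1, (hF i).2.1, he i⟩, hFli⟩

/-- The gradient at a fixed point is homogeneous. -/
theorem grad_fixed {g : MvPolynomial ρ ℂ} {d w k : ℕ} (hg : g.IsHomogeneous d)
    (hgw : IsWeightedHomogeneous a g w) {p : ρ → ℂ} (hp : ∀ b, a b ≠ k → p b = 0) {b : ρ}
    (hb : grad p g b ≠ 0) : w = k * (d - 1) + a b := by
  classical
  rw [grad_apply, eval_eq] at hb
  obtain ⟨m, hm, hm0⟩ := Finset.exists_ne_zero_of_sum_ne_zero hb
  have h1 : coeff (m + Finsupp.single b 1) g ≠ 0 := by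
    intro h
    apply mem_support_iff.mp hm
    rw [coeff_pderiv, h, zero_mul]
  have h2 : ∀ i ∈ m.support, a i = k := by
    intro i hi
    by_contra hne
    apply hm0
    have h3 : p i ^ m i = 0 := by
      rw [hp i hne]
      exact zero_pow (Finsupp.mem_support_iff.mp hi)
    rw [Finset.prod_eq_zero hi h3, mul_zero]
  have hd : Finsupp.weight (1 : ρ → ℕ) (m + Finsupp.single b 1) = d := hg h1
  have hw : Finsupp.weight a (m + Finsupp.single b 1) = w := hgw h1
  rw [map_add, Finsupp.weight_single, one_smul, Finsupp.weight_apply, Finsupp.sum] at hd hw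
  have h4 : ∑ i ∈ m.support, m i • a i = k * ∑ i ∈ m.support, m i := by
    rw [Finset.mul_sum]
    refine Finset.sum_congr rfl (fun i hi => ?_)
    rw [h2 i hi, smul_eq_mul, mul_comm]
  have h5 : ∑ i ∈ m.support, m i • (1 : ρ → ℕ) i = ∑ i ∈ m.support, m i := by
    refine Finset.sum_congr rfl (fun i hi => ?_)
    simp
  rw [h5, Pi.one_apply] at hd
  rw [h4] at hw
  have h6 : d - 1 = ∑ i ∈ m.support, m i := by omega
  rw [h6, ← hw]

lemma dot_prS_t2 (S : ρ → Prop) [DecidablePred S] (x y : ρ → ℂ) :
    x ⬝ᵥ prS S y = prS S x ⬝ᵥ y := by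
  simp only [dotProduct, prS_apply]
  refine Finset.sum_congr rfl (fun b _ => ?_)
  split_ifs <;> simp

/-- The gradient space at a fixed point is graded. -/
theorem TCone.gradSpan_graded (h : TCone I c D a A) {p : ρ → ℂ} {k : ℕ}
    (hp : ∀ b, a b ≠ k → p b = 0) (S : ℕ → Prop) [DecidablePred S] {q : ρ → ℂ}
    (hq : q ∈ gradSpan I p) : prS (fun b => S (a b)) q ∈ gradSpan I p := by
  have key : ∀ g ∈ I, prS (fun b => S (a b)) (grad p g) ∈ gradSpan I p := by
    intro g hg
    obtain ⟨M, hM⟩ := exists_sum_wc (1 : ρ → ℕ) g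
    have h1 : grad p g = ∑ n ∈ Finset.range M,
        grad p (homogeneousComponent n g) := by
      conv_lhs => rw [hM, map_sum]
      rfl
    rw [h1, map_sum]
    refine Submodule.sum_mem _ (fun n _ => ?_)
    obtain ⟨M', hM'⟩ := exists_sum_wc a (homogeneousComponent n g)
    have h2 : grad p (homogeneousComponent n g) = ∑ m ∈ Finset.range M',
        grad p (weightedHomogeneousComponent a m (homogeneousComponent n g)) := by
      conv_lhs => rw [hM', map_sum]
    rw [h2, map_sum]
    refine Submodule.sum_mem _ (fun m _ => ?_)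
    set f := weightedHomogeneousComponent a m (homogeneousComponent n g) with hf
    have hfI : f ∈ I := h.hw _ (h.hhom g hg n) m
    have hf1 : f.IsHomogeneous n := isHom_wc_t2 (homogeneousComponent_isHomogeneous n g) a m
    have hf2 : IsWeightedHomogeneous a f m := weightedHomogeneousComponent_isWeightedHomogeneous _ _
    by_cases hS : S (m - k * (n - 1))
    · have h3 : prS (fun b => S (a b)) (grad p f) = grad p f := by
        funext b
        rw [prS_apply]
        split_ifs with hb
        · rfl
        · by_contra hne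
          have h4 := grad_fixed hf1 hf2 hp (Ne.symm hne)
          apply hb
          have h5 : a b = m - k * (n - 1) := by omega
          rw [h5]; exact hS
      rw [h3]
      exact grad_mem_gradSpan hfI p
    · have h3 : prS (fun b => S (a b)) (grad p f) = 0 := by
        funext b
        rw [prS_apply, Pi.zero_apply]
        split_ifs with hb
        · by_contra hne
          have h4 := grad_fixed hf1 hf2 hp hne
          apply hS
          have h5 : m - k * (n - 1) = a b := by omega
          rw [h5]; exact hb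
        · rfl
      rw [h3]
      exact Submodule.zero_mem _
  have h0 : gradSpan I p ≤ (gradSpan I p).comap (prS (fun b => S (a b))) := by
    conv_lhs => rw [gradSpan]
    rw [Submodule.span_le]
    rintro _ ⟨g, hg, rfl⟩
    have h1 := key g hg
    rw [grad_eq_fun] at h1
    exact h1
  exact h0 hq

/-- Elements of the tangent space annihilate the gradient space. -/
lemma dot_gradSpan_t2 {p x y : ρ → ℂ} (hx : x ∈ gradSpan I p) (hy : y ∈ tanSp I p) :
    x ⬝ᵥ y = 0 := by
  induction hx using Submodule.span_induction with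
  | mem z hz =>
    obtain ⟨g, hg, rfl⟩ := hz
    rw [← grad_eq_fun]
    exact hy g hg
  | zero => exact zero_dotProduct _
  | add u v _ _ hu hv => rw [add_dotProduct, hu, hv, add_zero]
  | smul t u _ hu => rw [smul_dotProduct, hu, smul_zero]

/-- The tangent space at a fixed point is graded. -/
theorem TCone.tanSp_graded (h : TCone I c D a A) {p : ρ → ℂ} {k : ℕ}
    (hp : ∀ b, a b ≠ k → p b = 0) (S : ℕ → Prop) [DecidablePred S] {q : ρ → ℂ}
    (hq : q ∈ tanSp I p) : prS (fun b => S (a b)) q ∈ tanSp I p := by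
  intro g hg
  rw [dot_prS_t2]
  exact dot_gradSpan_t2 (h.gradSpan_graded hp S (grad_mem_gradSpan hg p)) hq

/-- Scaling of a weighted homogeneous polynomial. -/
lemma eval_wscale_t2 {σ : Type} {e : σ → ℕ} {g : MvPolynomial σ ℂ} {w : ℕ}
    (hg : IsWeightedHomogeneous e g w) (x : σ → ℂ) (z : ℂ) :
    eval (fun b => z ^ e b * x b) g = z ^ w * eval x g := by
  rw [eval_eq, eval_eq, Finset.mul_sum]
  refine Finset.sum_congr rfl (fun m hm => ?_)
  have h1 : Finsupp.weight e m = w := hg (mem_support_iff.mp hm)
  rw [Finsupp.weight_apply, Finsupp.sum] at h1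
  rw [mul_left_comm]
  congr 1
  rw [← h1, ← Finset.prod_pow_eq_pow_sum, ← Finset.prod_mul_distrib]
  refine Finset.prod_congr rfl (fun i _ => ?_)
  rw [mul_pow, ← pow_mul, smul_eq_mul, mul_comm (e i)]

lemma eval_hscale_t2 {σ : Type} {g : MvPolynomial σ ℂ} {d : ℕ} (hg : g.IsHomogeneous d)
    (x : σ → ℂ) (z : ℂ) : eval (z • x) g = z ^ d * eval x g := by
  rw [← eval_wscale_t2 hg x z]
  congr 2
  funext b
  simp

lemma peval_t2 {σ : Type} (x y : σ → ℂ) (g : MvPolynomial σ ℂ) (t : ℂ) :
    Polynomial.eval t (aeval (fun b => Polynomial.C (x b) + Polynomial.X * Polynomial.C (y b)) g :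
      Polynomial ℂ) = eval (x + t • y) g := by
  rw [← Polynomial.coe_aeval_eq_eval, comp_aeval_apply, aeval_eq_eval]
  have h2 : (fun b => Polynomial.aeval t
      (Polynomial.C (x b) + Polynomial.X * Polynomial.C (y b))) = x + t • y := by
    funext b
    simp only [map_add, map_mul, Polynomial.aeval_C, Polynomial.aeval_X, Pi.add_apply,
      Pi.smul_apply, smul_eq_mul, Algebra.algebraMap_self, RingHom.id_apply]
  rw [h2]

/-- Restriction to the plane of two fixed points. -/
theorem eval_two {g : MvPolynomial ρ ℂ} {d w k l : ℕ} (hg : g.IsHomogeneous d)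
    (hgw : IsWeightedHomogeneous a g w) {p v : ρ → ℂ} (hp : ∀ b, a b ≠ k → p b = 0)
    (hv : ∀ b, a b ≠ l → v b = 0) :
    ∃ co : ℕ → ℂ, (∀ j, co j ≠ 0 → j ≤ d ∧ k * (d - j) + l * j = w) ∧
      (∀ s t : ℂ, eval (s • p + t • v) g =
        ∑ j ∈ Finset.range (d + 1), s ^ (d - j) * t ^ j * co j) ∧
      co 0 = eval p g ∧ co 1 = grad p g ⬝ᵥ v := by
  set P : Polynomial ℂ := aeval (fun b => Polynomial.C (p b) + Polynomial.X * Polynomial.C (v b)) g
    with hP
  have hPe : ∀ t : ℂ, P.eval t = eval (p + t • v) g := by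
    intro t
    rw [hP, peval_t2]
  have hdeg : P.natDegree ≤ d := by
    have h1 := MvPolynomial.aeval_natDegree_le (m := d) (n := 1) g hg.totalDegree_le
      (fun b => Polynomial.C (p b) + Polynomial.X * Polynomial.C (v b)) (by
        intro b
        compute_degree)
    rwa [mul_one] at h1
  have hsum : ∀ t : ℂ, eval (p + t • v) g = ∑ j ∈ Finset.range (d + 1), P.coeff j * t ^ j := by
    intro t
    rw [← hPe, Polynomial.eval_eq_sum_range' (Nat.lt_succ_of_le hdeg)]
  have hne : ∀ s t : ℂ, s ≠ 0 → eval (s • p + t • v) g =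
      ∑ j ∈ Finset.range (d + 1), s ^ (d - j) * t ^ j * P.coeff j := by
    intro s t hs
    have h1 : s • p + t • v = s • (p + (t / s) • v) := by
      rw [smul_add, smul_smul, mul_div_cancel₀ _ hs]
    rw [h1, eval_hscale_t2 hg, hsum, Finset.mul_sum]
    refine Finset.sum_congr rfl (fun j hj => ?_)
    have hj' : j ≤ d := Nat.lt_succ_iff.mp (Finset.mem_range.mp hj)
    have h2 : s ^ d = s ^ (d - j) * s ^ j := by rw [← pow_add, Nat.sub_add_cancel hj']
    rw [h2, div_pow]
    field_simp
  refine ⟨P.coeff, ?_, ?_, ?_, ?_⟩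
  · intro j hj
    have hjd : j ≤ d := (Polynomial.le_natDegree_of_ne_zero hj).trans hdeg
    refine ⟨hjd, ?_⟩
    -- scaling by 2
    have h1 : ∀ t : ℂ, ∑ i ∈ Finset.range (d + 1), (2 ^ (k * (d - i) + l * i) * P.coeff i) * t ^ i =
        ∑ i ∈ Finset.range (d + 1), (2 ^ w * P.coeff i) * t ^ i := by
      intro t
      have h2 : eval ((2 ^ k : ℂ) • p + (2 ^ l * t : ℂ) • v) g =
          2 ^ w * eval ((1 : ℂ) • p + t • v) g := by
        have hfun : (fun b => (2 : ℂ) ^ a b * ((1 : ℂ) • p + t • v) b) =
            (2 ^ k : ℂ) • p + (2 ^ l * t : ℂ) • v := by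
          funext b
          simp only [Pi.add_apply, Pi.smul_apply, smul_eq_mul, one_mul]
          by_cases h3 : a b = k
          · by_cases h4 : a b = l
            · rw [← h3, ← h4]; ring
            · rw [hv b h4, ← h3]; ring
          · by_cases h4 : a b = l
            · rw [hp b h3, ← h4]; ring
            · rw [hp b h3, hv b h4]; ring
        rw [← eval_wscale_t2 hgw, hfun]
      rw [hne _ _ (pow_ne_zero k two_ne_zero), hne _ _ one_ne_zero, Finset.mul_sum] at h2
      calc _ = ∑ j ∈ Finset.range (d + 1), ((2 : ℂ) ^ k) ^ (d - j) * (2 ^ l * t) ^ j * P.coeff j := by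
            refine Finset.sum_congr rfl (fun i _ => ?_)
            rw [mul_pow, ← pow_mul, ← pow_mul, pow_add]
            ring
        _ = _ := by
            rw [h2]
            refine Finset.sum_congr rfl (fun i _ => ?_)
            rw [one_pow]
            ring
    have h3 : (∑ i ∈ Finset.range (d + 1), Polynomial.monomial i
          ((2 : ℂ) ^ (k * (d - i) + l * i) * P.coeff i)) =
        ∑ i ∈ Finset.range (d + 1), Polynomial.monomial i ((2 : ℂ) ^ w * P.coeff i) := by
      apply Polynomial.funext
      intro t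
      simp only [Polynomial.eval_finsetSum, Polynomial.eval_monomial]
      exact h1 t
    have h4 := congrArg (fun Q => Polynomial.coeff Q j) h3
    simp only [Polynomial.finsetSum_coeff, Polynomial.coeff_monomial,
      Finset.sum_ite_eq', Finset.mem_range, Nat.lt_succ_iff, hjd, if_true] at h4
    have h5 : (2 : ℂ) ^ (k * (d - j) + l * j) = 2 ^ w := mul_right_cancel₀ hj h4
    have h6 : (2 : ℕ) ^ (k * (d - j) + l * j) = 2 ^ w := by exact_mod_cast h5
    exact Nat.pow_right_injective le_rfl h6
  · intro s t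
    by_cases hs : s = 0
    · -- polynomial identity in `s`
      have h1 : (aeval (fun b => Polynomial.C ((t • v) b) + Polynomial.X * Polynomial.C (p b)) g :
          Polynomial ℂ) = ∑ j ∈ Finset.range (d + 1),
            Polynomial.monomial (d - j) (t ^ j * P.coeff j) := by
        apply Polynomial.eq_of_infinite_eval_eq
        refine Set.Infinite.mono (s := {(0 : ℂ)}ᶜ) ?_ (Set.Finite.infinite_compl (Set.finite_singleton _))
        intro s hs
        have hs' : s ≠ 0 := hs
        rw [Set.mem_ofPred_eq]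
        have h2 := hne s t hs'
        have h3 := peval_t2 (t • v) p g s
        rw [add_comm (t • v) (s • p)] at h3
        rw [h3, h2, Polynomial.eval_finsetSum]
        refine Finset.sum_congr rfl (fun j _ => ?_)
        rw [Polynomial.eval_monomial]
        ring
      have h4 := congrArg (Polynomial.eval s) h1
      have h3 := peval_t2 (t • v) p g s
      rw [add_comm (t • v) (s • p)] at h3
      rw [h3, Polynomial.eval_finsetSum] at h4
      rw [h4]
      refine Finset.sum_congr rfl (fun j _ => ?_)
      rw [Polynomial.eval_monomial]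
      ring
    · exact hne s t hs
  · have h1 := hPe 0
    rw [zero_smul, add_zero] at h1
    rw [← h1, Polynomial.coeff_zero_eq_eval_zero]
  · have h1 := deriv_algHom (Polynomial.derivative' (R := ℂ))
      (aeval (fun b => Polynomial.C (p b) + Polynomial.X * Polynomial.C (v b)) :
        MvPolynomial ρ ℂ →ₐ[ℂ] Polynomial ℂ) g
    have h2 := congrArg (Polynomial.eval 0) h1
    rw [← hP] at h2
    have h3 : Polynomial.eval 0 (Polynomial.derivative' P) = P.coeff 1 := by
      show Polynomial.eval 0 (Polynomial.derivative P) = P.coeff 1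
      rw [← Polynomial.coeff_zero_eq_eval_zero, Polynomial.coeff_derivative]
      simp
    rw [h3] at h2
    rw [h2, Polynomial.eval_finsetSum, dotProduct]
    refine Finset.sum_congr rfl (fun i _ => ?_)
    rw [smul_eq_mul, Polynomial.eval_mul, grad_apply]
    refine congrArg₂ (· * ·) ?_ ?_
    · rw [peval_t2, zero_smul, add_zero]
    · rw [aeval_X]
      show Polynomial.eval 0 (Polynomial.derivative _) = _
      simp

end T2

end Pool.Agent.Hartshorne
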