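import Mathlib
import Pool.Agent.HartN.GenT
import Pool.Agent.HartN.TBasic
import Pool.Agent.HartN.TFrame
import Pool.Agent.Hartshorne.Locus

/-!
Lines through a general point of the largest weight.
-/

namespace Pool.Agent.Hartshorne

open MvPolynomial

set_option linter.unusedSectionVars false

section T8
variable {ρ : Type} [Fintype ρ] [DecidableEq ρ] {I : Ideal (MvPolynomial ρ ℂ)} {c D : ℕ}
  {a : ρ → ℕ} {A : ℕ}

/-- A bihomogeneous polynomial of the wrong weight vanishes at the points of weight `A`. -/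
lemma eval_zero_of_weight_t8 {g : MvPolynomial ρ ℂ} {d w k : ℕ} (hg : g.IsHomogeneous d)
    (hgw : IsWeightedHomogeneous a g w) (hw : w ≠ k * d) {z : ρ → ℂ}
    (hz : ∀ b, a b ≠ k → z b = 0) : eval z g = 0 := by
  obtain ⟨co, h1, -, h2, -⟩ := eval_two hg hgw hz
    (v := (0 : ρ → ℂ)) (l := 0) (fun _ _ => rfl)
  by_contra hne
  rw [← h2] at hne
  have h3 := (h1 0 hne).2
  rw [Nat.sub_zero, Nat.mul_zero, Nat.add_zero] at h3
  exact hw h3.symm

lemma grad_X_t8 (p : ρ → ℂ) (b b' : ρ) :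
    grad p (X b : MvPolynomial ρ ℂ) b' = if b' = b then 1 else 0 := by
  rw [grad_apply, pderiv_X]
  by_cases hb : b' = b
  · subst hb
    rw [if_pos rfl, Pi.single_eq_same, map_one]
  · rw [if_neg hb, Pi.single_eq_of_ne (fun h => hb h.symm), map_zero]

/-- A frame of the ideal of the part of weight `A`. -/
noncomputable def frame_t8 (F : Fin c → MvPolynomial ρ ℂ) (w : Fin c → ℕ) (a : ρ → ℕ) (A D : ℕ) :
    ({b : ρ // a b ≠ A} ⊕ {i : Fin c // w i = A * D}) → MvPolynomial ρ ℂ :=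
  Sum.elim (fun b => X b.1) (fun i => F i.1)

lemma frame_li_t8 {F : Fin c → MvPolynomial ρ ℂ} {w : Fin c → ℕ} (hD : 0 < D) {p : ρ → ℂ}
    (hpA : ∀ b, a b ≠ A → p b = 0)
    (hF : ∀ i, (F i).IsHomogeneous D ∧ IsWeightedHomogeneous a (F i) (w i))
    (hli : LinearIndependent ℂ (fun i => grad p (F i))) :
    LinearIndependent ℂ (fun k => grad p (frame_t8 F w a A D k)) := by
  classical
  have hz : ∀ i : {i : Fin c // w i = A * D}, ∀ b, a b ≠ A → grad p (F i.1) b = 0 := by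
    intro i b hb
    by_contra hne
    have h1 := grad_fixed (hF i.1).1 (hF i.1).2 hpA hne
    rw [i.2] at h1
    apply hb
    obtain ⟨e, rfl⟩ : ∃ e, D = e + 1 := ⟨D - 1, by omega⟩
    rw [Nat.add_sub_cancel, Nat.mul_add, Nat.mul_one] at h1
    omega
  rw [Fintype.linearIndependent_iff]
  intro g hg
  rw [Fintype.sum_sum_type] at hg
  have h1 : ∀ b : {b : ρ // a b ≠ A}, g (Sum.inl b) = 0 := by
    intro b
    have h2 := congrFun hg b.1
    rw [Pi.add_apply, Finset.sum_apply, Finset.sum_apply, Pi.zero_apply] at h2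
    rw [Finset.sum_eq_single b, Finset.sum_eq_zero (s := (Finset.univ : Finset
      {i : Fin c // w i = A * D}))] at h2
    · rw [add_zero, Pi.smul_apply, frame_t8, Sum.elim_inl, grad_X_t8, if_pos rfl, smul_eq_mul,
        mul_one] at h2
      exact h2
    · intro i _
      rw [Pi.smul_apply, frame_t8, Sum.elim_inr, hz i b.1 b.2, smul_zero]
    · intro b' _ hb'
      rw [Pi.smul_apply, frame_t8, Sum.elim_inl, grad_X_t8, if_neg, smul_zero]
      intro h3
      exact hb' (Subtype.ext h3.symm)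
    · intro h3
      exact absurd (Finset.mem_univ _) h3
  have h2 : ∑ i : {i : Fin c // w i = A * D}, g (Sum.inr i) • grad p (F i.1) = 0 := by
    rw [Finset.sum_eq_zero (s := (Finset.univ : Finset {b : ρ // a b ≠ A})), zero_add] at hg
    · exact hg
    · intro b _
      rw [h1 b, zero_smul]
  have h3 := Fintype.linearIndependent_iff.mp
    (hli.comp (fun i : {i : Fin c // w i = A * D} => i.1) Subtype.val_injective)
    (fun i => g (Sum.inr i)) h2
  rintro (b | i)
  · exact h1 b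
  · exact h3 i

/-- Lines through a general point of the largest weight are free in the directions of the
largest weight. -/
theorem TCone.exists_gen (h : TCone I c D a A) :
    ∃ Δ : MvPolynomial ρ ℂ, Δ ∉ extI I a A ∧ ∀ p : ρ → ℂ, (∀ g ∈ I, eval p g = 0) →
      (∀ b, a b ≠ A → p b = 0) → eval p Δ ≠ 0 → ∀ w : ρ → ℂ, LineIn I p w →
      ∀ y ∈ tanSp I p, (∀ b, a b ≠ A → y b = 0) →
      ∃ b : ρ → ℂ, ∀ s t : ℂ, s • y + t • b ∈ tanSp I (s • p + t • w) := by
  classical
  have hJ := h.extI_isPrime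
  have h1 : (1 : MvPolynomial ρ ℂ) ∉ extI I a A := fun h2 =>
    hJ.ne_top ((Ideal.eq_top_iff_one _).mpr h2)
  obtain ⟨p₀, hp00, hp₀I, hp₀A, -⟩ := h.exists_top h1
  obtain ⟨F, w, hF, hli⟩ := h.exists_frame hp00 hp₀I
  set G := frame_t8 F w a A D with hG
  have hGli := frame_li_t8 h.hD hp₀A (fun i => (hF i).2) hli
  rw [← hG] at hGli
  -- the frame lies in the ideal
  have hGJ : ∀ k, G k ∈ extI I a A := by
    rintro (b | i)
    · refine mem_of_eval_zero hJ (fun z hz => ?_)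
      rw [hG, frame_t8, Sum.elim_inl, eval_X]
      exact ((h.mem_extI_iff z).mp hz).2 b.1 b.2
    · rw [hG, frame_t8, Sum.elim_inr]
      exact h.le_extI (hF i.1).1
  have hp₀J : ∀ g ∈ extI I a A, eval p₀ g = 0 := (h.mem_extI_iff p₀).mpr ⟨hp₀I, hp₀A⟩
  -- the dimension
  obtain ⟨Q, hQ, hGQ, hQp, hdimQ⟩ := exists_prime_at G p₀ (fun k => hp₀J _ (hGJ k))
  have hQz : ∀ z : ρ → ℂ, (∀ g ∈ Q, eval z g = 0) → ∀ b, a b ≠ A → z b = 0 := by
    intro z hz b hb
    have h2 := hz _ (hGQ (Sum.inl ⟨b, hb⟩))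
    rwa [hG, frame_t8, Sum.elim_inl, eval_X] at h2
  have hFQ : ∀ i, F i ∈ Q := by
    intro i
    by_cases hi : w i = A * D
    · have h2 := hGQ (Sum.inr ⟨i, hi⟩)
      rwa [hG, frame_t8, Sum.elim_inr] at h2
    · exact mem_of_eval_zero hQ (fun z hz =>
        eval_zero_of_weight_t8 (hF i).2.1 (hF i).2.2 hi (hQz z hz))
  have hIQ : I ≤ Q := by
    intro g hg
    obtain ⟨u, hu, hm⟩ := (point_case I h.hI p₀ hp₀I c F (fun i => (hF i).1) hli).2 h.hdim g hg
    have h2 : u * g ∈ Q := by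
      refine (Ideal.span_le.mpr ?_) hm
      rintro _ ⟨i, rfl⟩
      exact hFQ i
    exact (hQ.mem_or_mem h2).resolve_left (fun h3 => hu (hQp _ h3))
  have hJQ : extI I a A ≤ Q := by
    intro g hg
    refine mem_of_eval_zero hQ (fun z hz => ?_)
    exact (h.mem_extI_iff z).mpr ⟨fun f hf => hz f (hIQ hf), hQz z hz⟩ g hg
  have hdim : ((Fintype.card ρ : ℕ) : WithBot ℕ∞) ≤
      ringKrullDim (MvPolynomial ρ ℂ ⧸ extI I a A) +
        ((Fintype.card ({b : ρ // a b ≠ A} ⊕ {i : Fin c // w i = A * D}) : ℕ) : WithBot ℕ∞) := by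
    refine hdimQ.trans (add_le_add_left ?_ _)
    exact ringKrullDim_le_of_surjective (Ideal.Quotient.factor hJQ)
      (Ideal.Quotient.factor_surjective hJQ)
  -- the general points
  set ε := Fintype.equivFin ({b : ρ // a b ≠ A} ⊕ {i : Fin c // w i = A * D}) with hε
  obtain ⟨Δ, hΔ, hΔ2⟩ := exists_free_open2 I (extI I a A) hJ (fun k => G (ε.symm k))
    (fun k => hGJ _) hp₀J (hGli.comp _ ε.symm.injective) hdim
  refine ⟨Δ, hΔ, fun p hp hpA hpΔ w' hline y hy hyA => ?_⟩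
  obtain ⟨-, h2⟩ := hΔ2 p ((h.mem_extI_iff p).mpr ⟨hp, hpA⟩) hpΔ
  obtain ⟨b, hb⟩ := h2 w' (fun z g hg => hline (z 0) (z 1) g hg) y (by
    intro k
    obtain ⟨k', hk'⟩ : ∃ k', ε.symm k = k' := ⟨_, rfl⟩
    rw [hk']
    rcases k' with b | i
    · rw [hG, frame_t8, Sum.elim_inl, dotProduct]
      refine Finset.sum_eq_zero (fun b' _ => ?_)
      rw [grad_X_t8]
      split_ifs with hbb
      · subst hbb
        rw [hyA _ b.2, mul_zero]
      · rw [zero_mul]
    · rw [hG, frame_t8, Sum.elim_inr]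
      exact hy _ (hF i.1).1)
  refine ⟨b, fun s t g hg => ?_⟩
  exact hb g hg ![s, t]

end T8

end Pool.Agent.Hartshorne
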