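import Mathlib
import Pool.Agent.HartN.DefsT
import Pool.Agent.Hartshorne.Pencil

/-!
The conormal spaces along a line which is stable under a one-parameter group.
-/

namespace Pool.Agent.Hartshorne

open MvPolynomial

set_option linter.unusedSectionVars false

section T5
variable {ρ : Type} [Fintype ρ] [DecidableEq ρ] {I : Ideal (MvPolynomial ρ ℂ)} {c D : ℕ}
  {a : ρ → ℕ} {A : ℕ}

/-- The one-parameter group. -/
noncomputable def tor_t5 (a : ρ → ℕ) (l : ℂ) : (ρ → ℂ) →ₗ[ℂ] (ρ → ℂ) where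
  toFun := fun x b => l ^ a b * x b
  map_add' := by
    intro x y; funext b
    rw [Pi.add_apply, Pi.add_apply, mul_add]
  map_smul' := by
    intro t x; funext b
    rw [Pi.smul_apply, Pi.smul_apply, smul_eq_mul, smul_eq_mul, RingHom.id_apply]
    ring

lemma tor_t5_apply (l : ℂ) (x : ρ → ℂ) (b : ρ) : tor_t5 a l x b = l ^ a b * x b := rfl

lemma eval_tor_t5 {f : MvPolynomial ρ ℂ} {e : ℕ} (hf : IsWeightedHomogeneous a f e) (l : ℂ)
    (x : ρ → ℂ) : eval (tor_t5 a l x) f = l ^ e * eval x f := by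
  rw [eval_eq', eval_eq', Finset.mul_sum]
  refine Finset.sum_congr rfl (fun s hs => ?_)
  have h1 : Finsupp.weight a s = e := hf (mem_support_iff.mp hs)
  have h2 : ∏ i, (tor_t5 a l x i) ^ s i = l ^ e * ∏ i, x i ^ s i := by
    have h3 : ∀ i, (tor_t5 a l x i) ^ s i = l ^ (s i * a i) * x i ^ s i := by
      intro i
      rw [tor_t5_apply, mul_pow, ← pow_mul, mul_comm (a i)]
    rw [Finset.prod_congr rfl (fun i _ => h3 i), Finset.prod_mul_distrib,
      Finset.prod_pow_eq_pow_sum]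
    congr 2
    rw [← h1, Finsupp.weight_apply, Finsupp.sum_fintype]
    · simp only [smul_eq_mul]
    · intro i; exact zero_smul _ _
  rw [h2]
  ring

lemma grad_tor_t5 {f : MvPolynomial ρ ℂ} {e : ℕ} (hf : IsWeightedHomogeneous a f e) (l : ℂ)
    (x : ρ → ℂ) (b : ρ) : l ^ a b * grad (tor_t5 a l x) f b = l ^ e * grad x f b := by
  have h1 : lsub (tor_t5 a l) f = C (l ^ e) * f := by
    apply MvPolynomial.funext
    intro y
    rw [eval_lsub, eval_tor_t5 hf, map_mul, eval_C]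
  have h2 := pderiv_lsub (tor_t5 a l) b f
  rw [h1, pderiv_C_mul] at h2
  have h3 := congrArg (eval x) h2
  rw [map_mul, eval_C, map_sum, Finset.sum_eq_single b] at h3
  · rw [map_mul, eval_C, eval_lsub] at h3
    have h4 : tor_t5 a l (Pi.single b 1) b = l ^ a b := by
      rw [tor_t5_apply, Pi.single_eq_same, mul_one]
    rw [h4] at h3
    rw [grad_apply, grad_apply, h3]
  · intro i _ hi
    have h4 : tor_t5 a l (Pi.single b 1) i = 0 := by
      rw [tor_t5_apply, Pi.single_eq_of_ne hi, mul_zero]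
    rw [h4, C_0, zero_mul, map_zero]
  · intro h; exact absurd (Finset.mem_univ _) h

lemma grad_line_t5 {k : ℕ} (hk : k ≠ A) {p v : ρ → ℂ} (hpA : ∀ b, a b ≠ A → p b = 0)
    (hvk : ∀ b, a b ≠ k → v b = 0) {h : MvPolynomial ρ ℂ} {m w : ℕ} (hm : h.IsHomogeneous m)
    (hw : IsWeightedHomogeneous a h w) (l σ : ℂ) (b : ρ) :
    l ^ a b * grad ((σ * l ^ A) • p + (σ * l ^ k) • v) h b =
      σ ^ (m - 1) * l ^ w * grad (p + v) h b := by
  have h1 : (σ * l ^ A) • p + (σ * l ^ k) • v = σ • tor_t5 a l (p + v) := by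
    funext b
    rw [Pi.add_apply, Pi.smul_apply, Pi.smul_apply, Pi.smul_apply, tor_t5_apply, Pi.add_apply,
      smul_eq_mul, smul_eq_mul, smul_eq_mul]
    by_cases hA : a b = A
    · have hv : v b = 0 := hvk b (by rw [hA]; exact fun h => hk h.symm)
      rw [hA, hv]; ring
    · rw [hpA b hA]
      by_cases hk' : a b = k
      · rw [hk']; ring
      · rw [hvk b hk']; ring
  have h2 : grad (σ • tor_t5 a l (p + v)) h b =
      σ ^ (m - 1) * grad (tor_t5 a l (p + v)) h b := by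
    rw [grad_apply, grad_apply, eval_smul_of_isHomogeneous hm.pderiv]
  rw [h1, h2]
  have h3 := grad_tor_t5 hw l (p + v) b
  calc l ^ a b * (σ ^ (m - 1) * grad (tor_t5 a l (p + v)) h b)
      = σ ^ (m - 1) * (l ^ a b * grad (tor_t5 a l (p + v)) h b) := by ring
    _ = σ ^ (m - 1) * l ^ w * grad (p + v) h b := by rw [h3]; ring

/-- The linear map which moves the conormal spaces along the line. -/
def dst_t5 (a : ρ → ℕ) (δ : ℕ) (s t : ℂ) : (ρ → ℂ) →ₗ[ℂ] (ρ → ℂ) :=
  s ^ 2 • prS (fun b => a b < δ) + (s * t) • prS (fun b => δ ≤ a b ∧ a b < 2 * δ) +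
    t ^ 2 • prS (fun b => a b = 2 * δ)

lemma dst_t5_eq (δ : ℕ) (s t : ℂ) (q : ρ → ℂ) : dst_t5 a δ s t q =
    s ^ 2 • prS (fun b => a b < δ) q + (s * t) • prS (fun b => δ ≤ a b ∧ a b < 2 * δ) q +
      t ^ 2 • prS (fun b => a b = 2 * δ) q := rfl

lemma dst_t5_class {δ : ℕ} {s t l : ℂ} (hl : t * l ^ δ = s) (q : ρ → ℂ) {b : ρ}
    (hb : a b ≤ 2 * δ) : l ^ a b * dst_t5 a δ s t q b = s ^ 2 * l ^ (a b % δ) * q b := by
  rw [dst_t5_eq]
  simp only [Pi.add_apply, Pi.smul_apply, smul_eq_mul, prS_apply]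
  rcases lt_or_ge (a b) δ with h1 | h1
  · rw [if_pos h1, if_neg (by omega), if_neg (by omega), Nat.mod_eq_of_lt h1]
    ring
  · rcases lt_or_ge (a b) (2 * δ) with h2 | h2
    · rw [if_neg (by omega), if_pos ⟨h1, h2⟩, if_neg (by omega)]
      have h3 : a b % δ = a b - δ := by
        rw [Nat.mod_eq_sub_mod h1, Nat.mod_eq_of_lt (by omega)]
      have h4 : l ^ a b = l ^ δ * l ^ (a b % δ) := by
        rw [h3, ← pow_add]
        congr 1
        omega
      rw [h4, ← hl]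
      ring
    · have h3 : a b = 2 * δ := le_antisymm hb h2
      rcases Nat.eq_zero_or_pos δ with h0 | h0
      · subst h0
        rw [pow_zero, mul_one] at hl
        rw [h3, if_neg (by omega), if_neg (by omega), if_pos rfl, hl]
        simp
      · rw [if_neg (by omega), if_neg (by omega), if_pos h3]
        have h4 : a b % δ = 0 := by rw [h3, Nat.mul_mod_left]
        have h5 : l ^ a b = l ^ δ * l ^ δ := by
          rw [h3, two_mul, pow_add]
        rw [h4, h5, ← hl]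
        ring

lemma mod_eq_t5 {k δ : ℕ} (hδ : 0 < δ) (hkδ : k + δ = A) {p v : ρ → ℂ}
    (hpA : ∀ b, a b ≠ A → p b = 0)
    (hvk : ∀ b, a b ≠ k → v b = 0) {h : MvPolynomial ρ ℂ} {m w : ℕ} (hm : h.IsHomogeneous m)
    (hw : IsWeightedHomogeneous a h w) {b b' : ρ} (hb : grad (p + v) h b ≠ 0)
    (hb' : grad (p + v) h b' ≠ 0) : a b % δ = a b' % δ := by
  have hζ := Complex.isPrimitiveRoot_exp δ hδ.ne'
  set ζ : ℂ := Complex.exp (2 * Real.pi * Complex.I / δ)
  have hζ0 : ζ ≠ 0 := hζ.ne_zero hδ.ne'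
  have h1 : (ζ ^ k)⁻¹ * ζ ^ k = 1 := inv_mul_cancel₀ (pow_ne_zero _ hζ0)
  have h2 : (ζ ^ k)⁻¹ * ζ ^ A = 1 := by
    rw [← hkδ, pow_add, hζ.pow_eq_one, mul_one, h1]
  have h3 : ∀ b, grad (p + v) h b ≠ 0 → ζ ^ a b = ((ζ ^ k)⁻¹) ^ (m - 1) * ζ ^ w := by
    intro b hb
    have h4 := grad_line_t5 (A := A) (k := k) (by omega) hpA hvk hm hw ζ ((ζ ^ k)⁻¹) b
    rw [h1, h2, one_smul, one_smul] at h4
    exact mul_right_cancel₀ hb h4
  have h5 : ζ ^ a b = ζ ^ a b' := by rw [h3 b hb, h3 b' hb']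
  rw [pow_eq_pow_mod (a b) hζ.pow_eq_one, pow_eq_pow_mod (a b') hζ.pow_eq_one] at h5
  exact hζ.pow_inj (Nat.mod_lt _ hδ) (Nat.mod_lt _ hδ) h5

lemma exists_mu_t5 {k δ : ℕ} (hδ : 0 < δ) (hkδ : k + δ = A) (hle : ∀ b, a b ≤ 2 * δ)
    {p v : ρ → ℂ} (hpA : ∀ b, a b ≠ A → p b = 0)
    (hvk : ∀ b, a b ≠ k → v b = 0) {s t : ℂ} (hs : s ≠ 0) (ht : t ≠ 0)
    {h : MvPolynomial ρ ℂ} {m w : ℕ} (hm : h.IsHomogeneous m)
    (hw : IsWeightedHomogeneous a h w) :
    ∃ μ : ℂ, μ ≠ 0 ∧ grad (s • p + t • v) h = μ • dst_t5 a δ s t (grad (p + v) h) := by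
  obtain ⟨l, hl⟩ := IsAlgClosed.exists_pow_nat_eq (s / t) hδ
  have hl1 : t * l ^ δ = s := by
    rw [hl]; field_simp
  have hl0 : l ≠ 0 := by
    rintro rfl
    rw [zero_pow hδ.ne', mul_zero] at hl1
    exact hs hl1.symm
  set σ : ℂ := t * (l ^ k)⁻¹ with hσ
  have hσ0 : σ ≠ 0 := mul_ne_zero ht (inv_ne_zero (pow_ne_zero _ hl0))
  have h1 : σ * l ^ k = t := by
    rw [hσ, mul_assoc, inv_mul_cancel₀ (pow_ne_zero _ hl0), mul_one]
  have h2 : σ * l ^ A = s := by
    rw [← hkδ, pow_add, ← mul_assoc, h1, hl1]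
  have h3 : ∀ b, l ^ a b * grad (s • p + t • v) h b =
      σ ^ (m - 1) * l ^ w * grad (p + v) h b := by
    intro b
    have h4 := grad_line_t5 (A := A) (k := k) (by omega) hpA hvk hm hw l σ b
    rwa [h1, h2] at h4
  by_cases hall : ∀ b, grad (p + v) h b = 0
  · refine ⟨1, one_ne_zero, ?_⟩
    have h4 : grad (p + v) h = 0 := funext hall
    rw [h4, map_zero, smul_zero]
    funext b
    have h5 := h3 b
    rw [hall b, mul_zero] at h5
    exact (mul_eq_zero.mp h5).resolve_left (pow_ne_zero _ hl0)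
  · push Not at hall
    obtain ⟨b₀, hb₀⟩ := hall
    refine ⟨σ ^ (m - 1) * l ^ w / (s ^ 2 * l ^ (a b₀ % δ)), ?_, ?_⟩
    · exact div_ne_zero (mul_ne_zero (pow_ne_zero _ hσ0) (pow_ne_zero _ hl0))
        (mul_ne_zero (pow_ne_zero _ hs) (pow_ne_zero _ hl0))
    · funext b
      apply mul_left_cancel₀ (pow_ne_zero (a b) hl0)
      rw [h3 b, Pi.smul_apply, smul_eq_mul]
      have h4 := dst_t5_class hl1 (grad (p + v) h) (hle b)
      have h5 : l ^ a b * (σ ^ (m - 1) * l ^ w / (s ^ 2 * l ^ (a b₀ % δ)) *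
          dst_t5 a δ s t (grad (p + v) h) b) = σ ^ (m - 1) * l ^ w / (s ^ 2 * l ^ (a b₀ % δ)) *
          (l ^ a b * dst_t5 a δ s t (grad (p + v) h) b) := by ring
      rw [h5, h4]
      by_cases hb : grad (p + v) h b = 0
      · rw [hb]; ring
      · rw [mod_eq_t5 hδ hkδ hpA hvk hm hw hb hb₀]
        have h6 : s ^ 2 * l ^ (a b₀ % δ) ≠ 0 :=
          mul_ne_zero (pow_ne_zero _ hs) (pow_ne_zero _ hl0)
        field_simp

lemma bihom_induction_t5 (hhom : HI I)
    (hw : ∀ f ∈ I, ∀ e, weightedHomogeneousComponent a e f ∈ I)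
    {P : MvPolynomial ρ ℂ → Prop} (h0 : P 0) (hadd : ∀ f g, P f → P g → P (f + g))
    (hb : ∀ f ∈ I, ∀ m w, f.IsHomogeneous m → IsWeightedHomogeneous a f w → P f) :
    ∀ f ∈ I, P f := by
  intro f hf
  have hs : ∀ (S : Finset ℕ) (g : ℕ → MvPolynomial ρ ℂ), (∀ i ∈ S, P (g i)) →
      P (∑ i ∈ S, g i) := by
    intro S g hg
    exact Finset.sum_induction g P hadd h0 hg
  rw [← sum_homogeneousComponent f]
  refine hs _ _ (fun m _ => ?_)
  obtain ⟨D, hD⟩ := exists_sum_wc a (homogeneousComponent m f)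
  rw [hD]
  refine hs _ _ (fun w _ => ?_)
  refine hb _ (hw _ (hhom f hf m) w) m w ?_ ?_
  · exact isWH_wc (v := a) (w := (1 : ρ → ℕ)) (homogeneousComponent_isHomogeneous m f) w
  · exact weightedHomogeneousComponent_isWeightedHomogeneous _ _

lemma TCone.dst_mem_t5 (h : TCone I c D a A) {k δ : ℕ} (hδ : 0 < δ) (hkδ : k + δ = A)
    (hδ2 : A ≤ 2 * δ) {p v : ρ → ℂ} (hpA : ∀ b, a b ≠ A → p b = 0)
    (hvk : ∀ b, a b ≠ k → v b = 0) {s t : ℂ} (hs : s ≠ 0) (ht : t ≠ 0) {q : ρ → ℂ}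
    (hq : q ∈ gradSpan I (p + v)) : dst_t5 a δ s t q ∈ gradSpan I (s • p + t • v) := by
  rw [gradSpan] at hq
  induction hq using Submodule.span_induction with
  | mem w hw =>
    obtain ⟨g, hg, rfl⟩ := hw
    rw [← grad_eq_fun]
    refine bihom_induction_t5 (P := fun g => dst_t5 a δ s t (grad (p + v) g) ∈
      gradSpan I (s • p + t • v)) h.hhom h.hw ?_ ?_ ?_ g hg
    · rw [map_zero, map_zero]; exact Submodule.zero_mem _
    · intro f g hf hg
      rw [map_add, map_add]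
      exact Submodule.add_mem _ hf hg
    · intro f hf m w hm hw
      obtain ⟨μ, hμ, he⟩ := exists_mu_t5 hδ hkδ (fun b => (h.hle b).trans hδ2) hpA hvk hs ht hm hw
      have h1 : dst_t5 a δ s t (grad (p + v) f) = μ⁻¹ • grad (s • p + t • v) f := by
        rw [he, smul_smul, inv_mul_cancel₀ hμ, one_smul]
      rw [h1]
      exact Submodule.smul_mem _ _ (grad_mem_gradSpan hf _)
  | zero => rw [map_zero]; exact Submodule.zero_mem _
  | add x y _ _ hx hy => rw [map_add]; exact Submodule.add_mem _ hx hy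
  | smul r x _ hx => rw [map_smul]; exact Submodule.smul_mem _ _ hx

lemma TCone.sat_t5 (h : TCone I c D a A) {k δ : ℕ} (hδ : 0 < δ) (hkδ : k + δ = A)
    {p v : ρ → ℂ} (hp0 : p ≠ 0) (hpA : ∀ b, a b ≠ A → p b = 0)
    (hv0 : v ≠ 0) (hvk : ∀ b, a b ≠ k → v b = 0) (hline : LineIn I p v)
    {r : ρ → MvPolynomial (Fin 2) ℂ}
    (hr : ∀ z : Fin 2 → ℂ, z 0 ≠ 0 → z 1 ≠ 0 →
      rowEval z r ∈ gradSpan I (z 0 • p + z 1 • v)) {z : Fin 2 → ℂ} (hz : z ≠ 0) :
    rowEval z r ∈ gradSpan I (z 0 • p + z 1 • v) := by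
  have hcomb : ∀ z : Fin 2 → ℂ, comb (ln p v) z = z 0 • p + z 1 • v := fun z => comb_ln p v z
  have hne : ∀ z : Fin 2 → ℂ, z ≠ 0 → z 0 • p + z 1 • v ≠ 0 := by
    intro z hz h0
    apply hz
    have h1 : z 0 = 0 := by
      obtain ⟨b, hb⟩ := Function.ne_iff.mp hp0
      have h2 := congrFun h0 b
      rw [Pi.add_apply, Pi.smul_apply, Pi.smul_apply, smul_eq_mul, smul_eq_mul] at h2
      have hA : a b = A := by
        by_contra hA
        exact hb (hpA b hA)
      rw [hvk b (by omega), mul_zero, add_zero] at h2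
      exact (mul_eq_zero.mp h2).resolve_right hb
    have h2 : z 1 = 0 := by
      obtain ⟨b, hb⟩ := Function.ne_iff.mp hv0
      have h2 := congrFun h0 b
      rw [Pi.add_apply, Pi.smul_apply, Pi.smul_apply, smul_eq_mul, smul_eq_mul] at h2
      have hA : a b = k := by
        by_contra hA
        exact hb (hvk b hA)
      rw [hpA b (by omega), mul_zero, zero_add] at h2
      exact (mul_eq_zero.mp h2).resolve_right hb
    funext i
    rcases fin2_cases i with rfl | rfl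
    · exact h1
    · exact h2
  have hb := isBundle_g (c := c) (d := D) (I := I) (ln p v) (by
    intro z hz
    rw [hcomb]
    exact h.good _ (hne z hz) (fun g hg => hline _ _ g hg))
  have h1 := hb.sat (h := X 0 * X 1) (mul_ne_zero (X_ne_zero _) (X_ne_zero _)) (r := r) (by
    intro z _ hz'
    rw [map_mul, eval_X, eval_X] at hz'
    show rowEval z r ∈ gradSpan I (comb (ln p v) z)
    rw [hcomb]
    exact hr z (left_ne_zero_of_mul hz') (right_ne_zero_of_mul hz'))
  have h2 : rowEval z r ∈ gradSpan I (comb (ln p v) z) := h1 z hz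
  rwa [hcomb] at h2

/-- The conormal spaces along a stable line. -/
theorem TCone.conormal (h : TCone I c D a A) {k δ : ℕ} (hδ : 0 < δ) (hkδ : k + δ = A)
    (hδ2 : A ≤ 2 * δ) {p v : ρ → ℂ} (hp0 : p ≠ 0) (hpA : ∀ b, a b ≠ A → p b = 0)
    (hv0 : v ≠ 0) (hvk : ∀ b, a b ≠ k → v b = 0) (hline : LineIn I p v) {q : ρ → ℂ}
    (hq : q ∈ gradSpan I (p + v)) :
    (∀ s t : ℂ, s ^ 2 • prS (fun b => a b < δ) q + (s * t) • prS (fun b => δ ≤ a b ∧ a b < 2 * δ) q +
      t ^ 2 • prS (fun b => a b = 2 * δ) q ∈ gradSpan I (s • p + t • v)) ∧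
    prS (fun b => a b < δ) q ∈ gradSpan I p ∧
    (prS (fun b => a b < δ) q = 0 → prS (fun b => δ ≤ a b ∧ a b < 2 * δ) q ∈ gradSpan I p) ∧
    prS (fun b => a b = 2 * δ) q ∈ gradSpan I v ∧
    (prS (fun b => a b = 2 * δ) q = 0 →
      prS (fun b => δ ≤ a b ∧ a b < 2 * δ) q ∈ gradSpan I v) := by
  have key : ∀ z : Fin 2 → ℂ, z 0 ≠ 0 → z 1 ≠ 0 →
      dst_t5 a δ (z 0) (z 1) q ∈ gradSpan I (z 0 • p + z 1 • v) := fun z h0 h1 =>
    h.dst_mem_t5 hδ hkδ hδ2 hpA hvk h0 h1 hq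
  -- the quadratic row
  have hA : ∀ s t : ℂ, dst_t5 a δ s t q ∈ gradSpan I (s • p + t • v) := by
    intro s t
    by_cases hst : s = 0 ∧ t = 0
    · rw [dst_t5_eq, hst.1, hst.2]
      simp
    · have h1 := h.sat_t5 hδ hkδ hp0 hpA hv0 hvk hline
        (r := fun b => X 0 ^ 2 * C (prS (fun b => a b < δ) q b) +
          X 0 * X 1 * C (prS (fun b => δ ≤ a b ∧ a b < 2 * δ) q b) +
          X 1 ^ 2 * C (prS (fun b => a b = 2 * δ) q b)) (by
        intro z h0 h1
        have h2 := key z h0 h1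
        have h3 : rowEval z (fun b => X 0 ^ 2 * C (prS (fun b => a b < δ) q b) +
          X 0 * X 1 * C (prS (fun b => δ ≤ a b ∧ a b < 2 * δ) q b) +
          X 1 ^ 2 * C (prS (fun b => a b = 2 * δ) q b)) = dst_t5 a δ (z 0) (z 1) q := by
          funext b
          rw [rowEval_apply, dst_t5_eq]
          simp only [map_add, map_mul, map_pow, eval_X, eval_C, Pi.add_apply, Pi.smul_apply,
            smul_eq_mul]
        rw [h3]
        exact h2) (z := ![s, t]) (by
        intro h0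
        apply hst
        exact ⟨congrFun h0 0, congrFun h0 1⟩)
      have h3 : rowEval ![s, t] (fun b => X 0 ^ 2 * C (prS (fun b => a b < δ) q b) +
          X 0 * X 1 * C (prS (fun b => δ ≤ a b ∧ a b < 2 * δ) q b) +
          X 1 ^ 2 * C (prS (fun b => a b = 2 * δ) q b)) = dst_t5 a δ s t q := by
        funext b
        rw [rowEval_apply, dst_t5_eq]
        simp only [map_add, map_mul, map_pow, eval_X, eval_C, Pi.add_apply, Pi.smul_apply,
          smul_eq_mul]
        simp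
      rw [h3] at h1
      exact h1
  refine ⟨fun s t => hA s t, ?_, ?_, ?_, ?_⟩
  · have h1 := hA 1 0
    rw [dst_t5_eq] at h1
    simpa using h1
  · intro hq0
    have h1 := h.sat_t5 hδ hkδ hp0 hpA hv0 hvk hline
      (r := fun b => X 0 * C (prS (fun b => δ ≤ a b ∧ a b < 2 * δ) q b) +
        X 1 * C (prS (fun b => a b = 2 * δ) q b)) (by
      intro z h0 h1
      have h2 := key z h0 h1
      have h3 : dst_t5 a δ (z 0) (z 1) q = z 1 •
          rowEval z (fun b => X 0 * C (prS (fun b => δ ≤ a b ∧ a b < 2 * δ) q b) +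
        X 1 * C (prS (fun b => a b = 2 * δ) q b)) := by
        funext b
        rw [dst_t5_eq, hq0, Pi.smul_apply, rowEval_apply]
        simp only [map_add, map_mul, eval_X, eval_C, Pi.add_apply, Pi.smul_apply,
          smul_eq_mul, Pi.zero_apply]
        ring
      rw [h3] at h2
      exact (Submodule.smul_mem_iff _ h1).mp h2) (z := ![1, 0]) (by
      intro h0
      exact one_ne_zero (congrFun h0 0))
    have h3 : rowEval ![1, 0] (fun b => X 0 * C (prS (fun b => δ ≤ a b ∧ a b < 2 * δ) q b) +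
        X 1 * C (prS (fun b => a b = 2 * δ) q b)) =
        prS (fun b => δ ≤ a b ∧ a b < 2 * δ) q := by
      funext b
      rw [rowEval_apply]
      simp
    rw [h3] at h1
    simpa using h1
  · have h1 := hA 0 1
    rw [dst_t5_eq] at h1
    simpa using h1
  · intro hq0
    have h1 := h.sat_t5 hδ hkδ hp0 hpA hv0 hvk hline
      (r := fun b => X 0 * C (prS (fun b => a b < δ) q b) +
        X 1 * C (prS (fun b => δ ≤ a b ∧ a b < 2 * δ) q b)) (by
      intro z h0 h1
      have h2 := key z h0 h1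
      have h3 : dst_t5 a δ (z 0) (z 1) q = z 0 •
          rowEval z (fun b => X 0 * C (prS (fun b => a b < δ) q b) +
        X 1 * C (prS (fun b => δ ≤ a b ∧ a b < 2 * δ) q b)) := by
        funext b
        rw [dst_t5_eq, hq0, Pi.smul_apply, rowEval_apply]
        simp only [map_add, map_mul, eval_X, eval_C, Pi.add_apply, Pi.smul_apply,
          smul_eq_mul, Pi.zero_apply]
        ring
      rw [h3] at h2
      exact (Submodule.smul_mem_iff _ h0).mp h2) (z := ![0, 1]) (by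
      intro h0
      exact one_ne_zero (congrFun h0 1))
    have h3 : rowEval ![0, 1] (fun b => X 0 * C (prS (fun b => a b < δ) q b) +
        X 1 * C (prS (fun b => δ ≤ a b ∧ a b < 2 * δ) q b)) =
        prS (fun b => δ ≤ a b ∧ a b < 2 * δ) q := by
      funext b
      rw [rowEval_apply]
      simp
    rw [h3] at h1
    simpa using h1

/-- Conversely, the conormal spaces along the line come from the one at `p + v`. -/
theorem TCone.conormal_rev (h : TCone I c D a A) {k δ : ℕ} (hδ : 0 < δ) (hkδ : k + δ = A)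
    (hδ2 : A ≤ 2 * δ) {p v : ρ → ℂ} (hp0 : p ≠ 0) (hpA : ∀ b, a b ≠ A → p b = 0)
    (hv0 : v ≠ 0) (hvk : ∀ b, a b ≠ k → v b = 0) (hline : LineIn I p v) {s t : ℂ}
    (hs : s ≠ 0) (ht : t ≠ 0) {g : MvPolynomial ρ ℂ} (hg : g ∈ I) :
    ∃ q ∈ gradSpan I (p + v), grad (s • p + t • v) g =
      s ^ 2 • prS (fun b => a b < δ) q + (s * t) • prS (fun b => δ ≤ a b ∧ a b < 2 * δ) q +
      t ^ 2 • prS (fun b => a b = 2 * δ) q := by
  have key : ∀ g ∈ I, ∃ q ∈ gradSpan I (p + v), grad (s • p + t • v) g = dst_t5 a δ s t q := by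
    refine bihom_induction_t5 (P := fun g => ∃ q ∈ gradSpan I (p + v),
      grad (s • p + t • v) g = dst_t5 a δ s t q) h.hhom h.hw ?_ ?_ ?_
    · exact ⟨0, Submodule.zero_mem _, by rw [map_zero, map_zero]⟩
    · rintro f g ⟨q, hq, hq'⟩ ⟨q₂, hq₂, hq₂'⟩
      exact ⟨q + q₂, Submodule.add_mem _ hq hq₂, by rw [map_add, map_add, hq', hq₂']⟩
    · intro f hf m w hm hw
      obtain ⟨μ, -, he⟩ := exists_mu_t5 hδ hkδ (fun b => (h.hle b).trans hδ2) hpA hvk hs ht hm hw
      exact ⟨μ • grad (p + v) f, Submodule.smul_mem _ _ (grad_mem_gradSpan hf _), by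
        rw [map_smul, he]⟩
  exact key g hg

end T5

end Pool.Agent.Hartshorne
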