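import Mathlib
import Pool.Agent.HartN.TNormal
import Pool.Agent.Hartshorne.Frame

/-!
The index and the freeness of a line which is stable under a one-parameter group.
-/

namespace Pool.Agent.Hartshorne

open MvPolynomial

set_option linter.unusedSectionVars false

section Lin

variable {β : Type*} [Fintype β] [DecidableEq β]

/-- The annihilator of a subspace for the standard bilinear form. -/
def annS_t6 (S : Submodule ℂ (β → ℂ)) : Submodule ℂ (β → ℂ) where
  carrier := {y | ∀ q ∈ S, q ⬝ᵥ y = 0}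
  zero_mem' := fun _ _ => dotProduct_zero _
  add_mem' := by
    intro x y hx hy q hq
    rw [dotProduct_add, hx q hq, hy q hq, add_zero]
  smul_mem' := by
    intro t x hx q hq
    rw [dotProduct_smul, hx q hq, smul_zero]

lemma finrank_annS_t6 (S : Submodule ℂ (β → ℂ)) :
    Module.finrank ℂ (annS_t6 S) + Module.finrank ℂ S = Fintype.card β := by
  classical
  set b := Module.finBasis ℂ S with hb
  have hli : LinearIndependent ℂ (fun l => (b l : β → ℂ)) :=
    b.linearIndependent.map' S.subtype (Submodule.ker_subtype _)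
  refine finrank_sol_of_li _ hli (annS_t6 S) ?_
  intro k
  constructor
  · intro hk l
    exact hk _ (b l).2
  · intro hk q hq
    have h1 : (⟨q, hq⟩ : S) ∈ Submodule.span ℂ (Set.range b) := by
      rw [b.span_eq]
      exact Submodule.mem_top
    obtain ⟨t, ht⟩ := (Submodule.mem_span_range_iff_exists_fun _).mp h1
    have h2 : q = ∑ l, t l • (b l : β → ℂ) := by
      have h3 := congrArg Subtype.val ht
      rw [Submodule.coe_sum] at h3
      exact h3.symm
    rw [h2, sum_dotProduct]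
    refine Finset.sum_eq_zero (fun l _ => ?_)
    rw [smul_dotProduct, hk l, smul_zero]

/-- Functionals are given by vectors. -/
lemma exists_dot_t6 (φ : (β → ℂ) →ₗ[ℂ] ℂ) : ∃ b : β → ℂ, ∀ h, φ h = h ⬝ᵥ b := by
  classical
  refine ⟨fun i => φ (Pi.single i 1), fun h => ?_⟩
  conv_lhs => rw [pi_eq_sum_univ' h, map_sum]
  refine Finset.sum_congr rfl (fun i _ => ?_)
  rw [map_smul, smul_eq_mul]

/-- Prescribed values on the image of a subspace. -/
lemma exists_vec_t6 (E : Submodule ℂ (β → ℂ)) (f : (β → ℂ) →ₗ[ℂ] (β → ℂ))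
    (ψ : (β → ℂ) →ₗ[ℂ] ℂ) (h : ∀ q ∈ E, f q = 0 → ψ q = 0) :
    ∃ b : β → ℂ, ∀ q ∈ E, f q ⬝ᵥ b = ψ q := by
  classical
  set f' : E →ₗ[ℂ] (β → ℂ) := f.comp E.subtype with hf'
  set ψ' : E →ₗ[ℂ] ℂ := ψ.comp E.subtype with hψ'
  have h1 : ψ' ∈ (LinearMap.ker f').dualAnnihilator := by
    rw [Submodule.mem_dualAnnihilator]
    intro q hq
    exact h q q.2 hq
  rw [← LinearMap.range_dualMap_eq_dualAnnihilator_ker] at h1
  obtain ⟨φ, hφ⟩ := h1
  obtain ⟨b, hb⟩ := exists_dot_t6 φ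
  refine ⟨b, fun q hq => ?_⟩
  rw [← hb]
  exact LinearMap.congr_fun hφ ⟨q, hq⟩

/-- Images of a subspace and of a larger subspace. -/
lemma finrank_map_t6 (f : (β → ℂ) →ₗ[ℂ] (β → ℂ)) {K E : Submodule ℂ (β → ℂ)} (hKE : K ≤ E) :
    Module.finrank ℂ (E.map f) + Module.finrank ℂ K ≤
      Module.finrank ℂ (K.map f) + Module.finrank ℂ E := by
  have h1 : ∀ U : Submodule ℂ (β → ℂ), Module.finrank ℂ (U.map f) +
      Module.finrank ℂ (LinearMap.ker (f.domRestrict U)) = Module.finrank ℂ U := by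
    intro U
    have h2 := LinearMap.finrank_range_add_finrank_ker (f.domRestrict U)
    rw [LinearMap.range_domRestrict] at h2
    exact h2
  have hK := h1 K
  have hE := h1 E
  have h3 : Module.finrank ℂ (LinearMap.ker (f.domRestrict K)) ≤
      Module.finrank ℂ (LinearMap.ker (f.domRestrict E)) := by
    set j : LinearMap.ker (f.domRestrict K) →ₗ[ℂ] LinearMap.ker (f.domRestrict E) :=
      LinearMap.codRestrict _ ((Submodule.inclusion hKE).comp (Submodule.subtype _)) (by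
        intro x
        exact x.2) with hj
    refine LinearMap.finrank_le_finrank_of_injective (f := j) ?_
    intro x y hxy
    have h4 := congrArg (fun z : LinearMap.ker (f.domRestrict E) => ((z : E) : β → ℂ)) hxy
    exact Subtype.ext (Subtype.ext h4)
  omega

end Lin

section T6
variable {ρ : Type} [Fintype ρ] [DecidableEq ρ] {I : Ideal (MvPolynomial ρ ℂ)} {c D : ℕ}
  {a : ρ → ℕ} {A : ℕ}

lemma dot_of_mem_tanSp_t6 {p y w : ρ → ℂ} (hy : y ∈ tanSp I p) (hw : w ∈ gradSpan I p) :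
    w ⬝ᵥ y = 0 := by
  have h1 : gradSpan I p ≤ annS_t6 (Submodule.span ℂ {y}) := by
    rw [gradSpan, Submodule.span_le]
    rintro _ ⟨h, hh, rfl⟩ q hq
    obtain ⟨t, rfl⟩ := Submodule.mem_span_singleton.mp hq
    have h2 := hy h hh
    rw [grad_eq_fun] at h2
    rw [smul_dotProduct, dotProduct_comm, h2, smul_zero]
  have h2 := h1 hw y (Submodule.mem_span_singleton_self y)
  rw [dotProduct_comm]
  exact h2

lemma prS_dot_t6 (S : ρ → Prop) [DecidablePred S] (q b : ρ → ℂ) :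
    prS S q ⬝ᵥ prS S b = prS S q ⬝ᵥ b := by
  refine Finset.sum_congr rfl (fun i _ => ?_)
  rw [prS_apply, prS_apply]
  by_cases h : S i
  · rw [if_pos h, if_pos h]
  · rw [if_neg h, zero_mul, zero_mul]

lemma prS_dot_disj_t6 (S T : ρ → Prop) [DecidablePred S] [DecidablePred T]
    (hST : ∀ i, ¬ (S i ∧ T i)) (q b : ρ → ℂ) : prS S q ⬝ᵥ prS T b = 0 := by
  refine Finset.sum_eq_zero (fun i _ => ?_)
  rw [prS_apply, prS_apply]
  by_cases h : S i
  · rw [if_neg (fun h' => hST i ⟨h, h'⟩), mul_zero]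
  · rw [if_neg h, zero_mul]

/-- Conditions on gradients along a line extend to all points of the line. -/
lemma closure_t6 (g : MvPolynomial ρ ℂ) (p v : ρ → ℂ) (Y : ρ → MvPolynomial (Fin 2) ℂ)
    (h : ∀ z : Fin 2 → ℂ, z 0 ≠ 0 → z 1 ≠ 0 →
      grad (z 0 • p + z 1 • v) g ⬝ᵥ (fun b => eval z (Y b)) = 0) (z : Fin 2 → ℂ) :
    grad (z 0 • p + z 1 • v) g ⬝ᵥ (fun b => eval z (Y b)) = 0 := by
  set G : MvPolynomial (Fin 2) ℂ := ∑ b, gRow (ln p v) g b * Y b with hG
  have hGe : ∀ z, eval z G = grad (z 0 • p + z 1 • v) g ⬝ᵥ (fun b => eval z (Y b)) := by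
    intro z
    rw [hG, map_sum, ← comb_ln, ← rowEval_gRow]
    refine Finset.sum_congr rfl (fun b _ => ?_)
    rw [map_mul, rowEval_apply]
  have h1 : X 0 * X 1 * G = 0 := by
    apply MvPolynomial.funext
    intro z
    rw [map_mul, map_mul, eval_X, eval_X, map_zero]
    by_cases h0 : z 0 = 0
    · rw [h0, zero_mul, zero_mul]
    by_cases h1 : z 1 = 0
    · rw [h1, mul_zero, zero_mul]
    rw [hGe, h z h0 h1, mul_zero]
  have h2 : G = 0 := by
    rcases mul_eq_zero.mp h1 with h3 | h3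
    · rcases mul_eq_zero.mp h3 with h4 | h4
      · exact absurd h4 (X_ne_zero 0)
      · exact absurd h4 (X_ne_zero 1)
    · exact h3
  rw [← hGe, h2, map_zero]

lemma TCone.add_ne_t6 {k δ : ℕ} (hδ : 0 < δ) (hkδ : k + δ = A) {p v : ρ → ℂ} (hp0 : p ≠ 0)
    (hpA : ∀ b, a b ≠ A → p b = 0) (hvk : ∀ b, a b ≠ k → v b = 0) : p + v ≠ 0 := by
  obtain ⟨i, hi⟩ := Function.ne_iff.mp hp0
  intro h0
  have h1 : a i = A := by
    by_contra hne
    exact hi (hpA i hne)
  have h2 : v i = 0 := hvk i (by omega)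
  have h3 := congrFun h0 i
  rw [Pi.add_apply, h2, add_zero] at h3
  exact hi h3

/-- The index of a stable line. -/
theorem TCone.index (h : TCone I c D a A) {k δ : ℕ} (hδ : 0 < δ) (hkδ : k + δ = A)
    (hδ2 : A ≤ 2 * δ) {p v : ρ → ℂ} (hp0 : p ≠ 0) (hpA : ∀ b, a b ≠ A → p b = 0)
    (hv0 : v ≠ 0) (hvk : ∀ b, a b ≠ k → v b = 0) (hline : LineIn I p v) :
    Fintype.card ρ ≤ Module.finrank ℂ (tanLine I p v) + c +
      Module.finrank ℂ (gradSpan I v ⊓ supS (fun b => δ ≤ a b ∧ a b < 2 * δ) : Submodule ℂ (ρ → ℂ)) +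
      2 * Module.finrank ℂ (gradSpan I v ⊓ supS (fun b => a b = 2 * δ) : Submodule ℂ (ρ → ℂ)) := by
  classical
  set E := gradSpan I (p + v) with hE
  set P0 : (ρ → ℂ) →ₗ[ℂ] (ρ → ℂ) := prS (fun b => a b < δ) with hP0
  set P1 : (ρ → ℂ) →ₗ[ℂ] (ρ → ℂ) := prS (fun b => δ ≤ a b ∧ a b < 2 * δ) with hP1
  set P2 : (ρ → ℂ) →ₗ[ℂ] (ρ → ℂ) := prS (fun b => a b = 2 * δ) with hP2
  have hcn := fun q (hq : q ∈ E) =>
    h.conormal hδ hkδ hδ2 hp0 hpA hv0 hvk hline (q := q) hq
  -- dimension of `E`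
  have hpv : ∀ g ∈ I, eval (p + v) g = 0 := by
    intro g hg
    have h1 := hline 1 1 g hg
    rwa [one_smul, one_smul] at h1
  have hEc : Module.finrank ℂ E = c :=
    (h.good (p + v) (TCone.add_ne_t6 hδ hkδ hp0 hpA hvk) hpv).2
  -- the span of the graded pieces
  set S : Submodule ℂ (ρ → ℂ) := (E.map P0 ⊔ E.map P1) ⊔ E.map P2 with hS
  have hT0 : annS_t6 S ≤ tanLine I p v := by
    intro y hy
    rw [mem_tanLine]
    intro s t g hg
    have h1 := closure_t6 g p v (fun b => C (y b)) (by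
      intro z hz0 hz1
      have h2 : (fun b => eval z (C (y b) : MvPolynomial (Fin 2) ℂ)) = y := by
        funext b; rw [eval_C]
      rw [h2]
      obtain ⟨q, hq, hgq⟩ := h.conormal_rev hδ hkδ hδ2 hp0 hpA hv0 hvk hline hz0 hz1 hg
      rw [hgq, add_dotProduct, add_dotProduct, smul_dotProduct, smul_dotProduct,
        smul_dotProduct]
      have h3 : P0 q ⬝ᵥ y = 0 := hy _ (Submodule.mem_sup_left (Submodule.mem_sup_left
        (Submodule.mem_map_of_mem hq)))
      have h4 : P1 q ⬝ᵥ y = 0 := hy _ (Submodule.mem_sup_left (Submodule.mem_sup_right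
        (Submodule.mem_map_of_mem hq)))
      have h5 : P2 q ⬝ᵥ y = 0 := hy _ (Submodule.mem_sup_right
        (Submodule.mem_map_of_mem hq))
      rw [h3, h4, h5, smul_zero, smul_zero, smul_zero, add_zero, add_zero]) ![s, t]
    have h2 : (fun b => eval ![s, t] (C (y b) : MvPolynomial (Fin 2) ℂ)) = y := by
      funext b; rw [eval_C]
    rw [h2] at h1
    exact h1
  have h1 := finrank_annS_t6 S
  have h2 := Submodule.finrank_mono hT0
  -- bound for the dimension of `S`
  have h3 : Module.finrank ℂ S ≤ Module.finrank ℂ (E.map P0) + Module.finrank ℂ (E.map P1) +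
      Module.finrank ℂ (E.map P2) :=
    (Submodule.finrank_add_le_finrank_add_finrank _ _).trans
      (Nat.add_le_add_right (Submodule.finrank_add_le_finrank_add_finrank _ _) _)
  have h4 : Module.finrank ℂ (E.map P0) ≤ c := by
    rw [← hEc]
    exact Submodule.finrank_map_le _ _
  have h5 : Module.finrank ℂ (E.map P2) ≤ Module.finrank ℂ
      (gradSpan I v ⊓ supS (fun b => a b = 2 * δ) : Submodule ℂ (ρ → ℂ)) := by
    apply Submodule.finrank_mono
    rintro _ ⟨q, hq, rfl⟩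
    refine ⟨(hcn q hq).2.2.2.1, ?_⟩
    intro b hb
    exact if_neg hb
  set K : Submodule ℂ (ρ → ℂ) := E ⊓ LinearMap.ker P2 with hK
  have h6 : Module.finrank ℂ (K.map P1) ≤ Module.finrank ℂ
      (gradSpan I v ⊓ supS (fun b => δ ≤ a b ∧ a b < 2 * δ) : Submodule ℂ (ρ → ℂ)) := by
    apply Submodule.finrank_mono
    rintro _ ⟨q, ⟨hq, hq2⟩, rfl⟩
    refine ⟨(hcn q hq).2.2.2.2 hq2, ?_⟩
    intro b hb
    exact if_neg hb
  have hKE : K ≤ E := inf_le_left
  have h7 := finrank_map_t6 P1 hKE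
  have h9 : Module.finrank ℂ (E.map P2) + Module.finrank ℂ K = Module.finrank ℂ E := by
    have h10 := LinearMap.finrank_range_add_finrank_ker (P2.domRestrict E)
    rw [LinearMap.range_domRestrict] at h10
    have h11 : Module.finrank ℂ (LinearMap.ker (P2.domRestrict E)) = Module.finrank ℂ K := by
      have h12 : K = (LinearMap.ker (P2.domRestrict E)).map E.subtype := by
        ext q
        constructor
        · rintro ⟨hq, hq2⟩
          exact ⟨⟨q, hq⟩, hq2, rfl⟩
        · rintro ⟨q', hq', rfl⟩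
          exact ⟨q'.2, hq'⟩
      rw [h12]
      exact (LinearEquiv.finrank_eq (Submodule.equivMapOfInjective _
        (Submodule.injective_subtype E) _))
    rw [h11] at h10
    exact h10
  omega

/-- Freeness of a stable line. -/
theorem TCone.free (h : TCone I c D a A) {k δ : ℕ} (hδ : 0 < δ) (hkδ : k + δ = A)
    (hδ2 : A ≤ 2 * δ) {p v : ρ → ℂ} (hp0 : p ≠ 0) (hpA : ∀ b, a b ≠ A → p b = 0)
    (hv0 : v ≠ 0) (hvk : ∀ b, a b ≠ k → v b = 0) (hline : LineIn I p v)
    (H2 : ∀ q ∈ gradSpan I (p + v), prS (fun b => δ ≤ a b ∧ a b < 2 * δ) q = 0 →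
      ∀ y ∈ tanSp I p, prS (fun b => a b = 2 * δ) q ⬝ᵥ y = 0) : FreeLine I p v := by
  classical
  intro y hy
  set E := gradSpan I (p + v) with hE
  have hcn := fun q (hq : q ∈ E) =>
    h.conormal hδ hkδ hδ2 hp0 hpA hv0 hvk hline (q := q) hq
  obtain ⟨ψ, hψ⟩ : ∃ ψ : (ρ → ℂ) →ₗ[ℂ] ℂ, ∀ q, ψ q = q ⬝ᵥ y :=
    ⟨{ toFun := fun q => q ⬝ᵥ y
       map_add' := fun q q' => add_dotProduct q q' y
       map_smul' := fun t q => smul_dotProduct t q y }, fun q => rfl⟩
  obtain ⟨b0, hb0⟩ := exists_vec_t6 E (prS (fun b => a b < δ))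
    (-(ψ.comp (prS (fun b => δ ≤ a b ∧ a b < 2 * δ)))) (by
      intro q hq hq0
      rw [LinearMap.neg_apply, LinearMap.comp_apply, hψ,
        dot_of_mem_tanSp_t6 hy ((hcn q hq).2.2.1 hq0), neg_zero])
  obtain ⟨b1, hb1⟩ := exists_vec_t6 E (prS (fun b => δ ≤ a b ∧ a b < 2 * δ))
    (-(ψ.comp (prS (fun b => a b = 2 * δ)))) (by
      intro q hq hq1
      rw [LinearMap.neg_apply, LinearMap.comp_apply, hψ, H2 q hq hq1 y hy, neg_zero])
  set b : ρ → ℂ := prS (fun b => a b < δ) b0 + prS (fun b => δ ≤ a b ∧ a b < 2 * δ) b1 with hb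
  refine ⟨b, fun s t g hg => ?_⟩
  have h1 := closure_t6 g p v (fun j => X 0 * C (y j) + X 1 * C (b j)) (by
    intro z hz0 hz1
    have h2 : (fun j => eval z (X 0 * C (y j) + X 1 * C (b j) : MvPolynomial (Fin 2) ℂ)) =
        z 0 • y + z 1 • b := by
      funext j
      rw [map_add, map_mul, map_mul, eval_X, eval_X, eval_C, eval_C]
      rfl
    rw [h2]
    obtain ⟨q, hq, hgq⟩ := h.conormal_rev hδ hkδ hδ2 hp0 hpA hv0 hvk hline hz0 hz1 hg
    rw [hgq]
    have e0 : prS (fun b => a b < δ) q ⬝ᵥ y = 0 := dot_of_mem_tanSp_t6 hy (hcn q hq).2.1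
    have e1 : prS (fun b => a b < δ) q ⬝ᵥ b =
        -(prS (fun b => δ ≤ a b ∧ a b < 2 * δ) q ⬝ᵥ y) := by
      have h3 := hb0 q hq
      rw [LinearMap.neg_apply, LinearMap.comp_apply, hψ] at h3
      rw [hb, dotProduct_add, prS_dot_t6, h3, prS_dot_disj_t6, add_zero]
      intro i hi
      omega
    have e2 : prS (fun b => δ ≤ a b ∧ a b < 2 * δ) q ⬝ᵥ b =
        -(prS (fun b => a b = 2 * δ) q ⬝ᵥ y) := by
      have h3 := hb1 q hq
      rw [LinearMap.neg_apply, LinearMap.comp_apply, hψ] at h3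
      rw [hb, dotProduct_add, prS_dot_t6, h3, prS_dot_disj_t6, zero_add]
      intro i hi
      omega
    have e3 : prS (fun b => a b = 2 * δ) q ⬝ᵥ b = 0 := by
      rw [hb, dotProduct_add, prS_dot_disj_t6, prS_dot_disj_t6, add_zero]
      · intro i hi
        omega
      · intro i hi
        omega
    simp only [add_dotProduct, smul_dotProduct, dotProduct_add, dotProduct_smul, e0, e1, e2, e3,
      smul_eq_mul]
    ring) ![s, t]
  have h2 : (fun j => eval ![s, t] (X 0 * C (y j) + X 1 * C (b j) : MvPolynomial (Fin 2) ℂ)) =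
      s • y + t • b := by
    funext j
    rw [map_add, map_mul, map_mul, eval_X, eval_X, eval_C, eval_C]
    rfl
  rw [h2] at h1
  exact h1
end T6

end Pool.Agent.Hartshorne
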