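import Mathlib
import Pool.Agent.HartN.TFrame
import Pool.Agent.Hartshorne.Pencil

/-!
Lines through the fixed points of the largest and of the smallest weight.
-/

namespace Pool.Agent.Hartshorne

open MvPolynomial

set_option linter.unusedSectionVars false

section T3
variable {ρ : Type} [Fintype ρ] [DecidableEq ρ] {I : Ideal (MvPolynomial ρ ℂ)} {c D : ℕ}
  {a : ρ → ℕ} {A : ℕ}

/-- Extension by zero. -/
private def extZ_t3 (P : ρ → Prop) [DecidablePred P] : ({b // P b} → ℂ) →ₗ[ℂ] (ρ → ℂ) where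
  toFun := fun u b => if hb : P b then u ⟨b, hb⟩ else 0
  map_add' := by
    intro u u'; funext b
    by_cases hb : P b
    · simp [hb]
    · simp [hb]
  map_smul' := by
    intro t u; funext b
    by_cases hb : P b
    · simp [hb]
    · simp [hb]

private lemma extZ_t3_apply (P : ρ → Prop) [DecidablePred P] (u : {b // P b} → ℂ) (b : ρ) :
    extZ_t3 P u b = if hb : P b then u ⟨b, hb⟩ else 0 := rfl

/-- Independent equations which vanish on the plane give a line of the variety. -/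
private lemma lineIn_of_frame_t3 (h : TCone I c D a A) {p v : ρ → ℂ}
    (hp : ∀ g ∈ I, eval p g = 0) (F : Fin c → MvPolynomial ρ ℂ) (hF : ∀ i, F i ∈ I)
    (hli : LinearIndependent ℂ (fun i => grad p (F i)))
    (hv : ∀ i, ∀ s t : ℂ, eval (s • p + t • v) (F i) = 0) : LineIn I p v := by
  have e0 : comb (ln p v) ![1, 0] = p := by
    rw [comb_ln]; simp
  have key := vanish_on I h.hI h.hdim (ln p v) ![1, 0] (by rw [e0]; exact hp) F hF
    (by rw [e0]; exact hli) (fun i z => by rw [comb_ln]; exact hv i _ _)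
  intro s t g hg
  have := key ![s, t] g hg
  rw [comb_ln] at this
  simpa using this

theorem TCone.caseA (h : TCone I c D a A) (hc : c < Fintype.card {b // 2 * a b < A})
    {p : ρ → ℂ} (hp0 : p ≠ 0) (hp : ∀ g ∈ I, eval p g = 0) (hpA : ∀ b, a b ≠ A → p b = 0) :
    ∃ (k : ℕ) (v : ρ → ℂ), 2 * k < A ∧ v ≠ 0 ∧ (∀ b, a b ≠ k → v b = 0) ∧ LineIn I p v := by
  obtain ⟨F, w, hF, hli⟩ := h.exists_frame hp0 hp
  -- a vector in the kernel
  let L : ({b // 2 * a b < A} → ℂ) →ₗ[ℂ] (Fin c → ℂ) :=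
    (LinearMap.pi fun i => dotProductBilin ℂ ℂ (grad p (F i))) ∘ₗ extZ_t3 (fun b => 2 * a b < A)
  have hL : ∀ u i, L u i = grad p (F i) ⬝ᵥ extZ_t3 (fun b => 2 * a b < A) u := fun u i => rfl
  have hker : LinearMap.ker L ≠ ⊥ := by
    apply LinearMap.ker_ne_bot_of_finrank_lt
    rw [Module.finrank_fintype_fun_eq_card, Module.finrank_fintype_fun_eq_card, Fintype.card_fin]
    exact hc
  obtain ⟨u, huk, hu0⟩ := (Submodule.ne_bot_iff _).mp hker
  obtain ⟨b₀, hb₀⟩ := Function.ne_iff.mp hu0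
  obtain ⟨k, hk⟩ : ∃ k, k = a b₀.1 := ⟨_, rfl⟩
  have hkA : 2 * k < A := by rw [hk]; exact b₀.2
  obtain ⟨U, hU⟩ : ∃ U, U = extZ_t3 (fun b => 2 * a b < A) u := ⟨_, rfl⟩
  have hU0 : ∀ i, grad p (F i) ⬝ᵥ U = 0 := by
    intro i
    rw [hU, ← hL, LinearMap.mem_ker.mp huk]
    rfl
  have hvk : ∀ b, a b ≠ k → prS (fun b => a b = k) U b = 0 := fun b hb => by
    rw [prS_apply, if_neg hb]
  have hv0 : prS (fun b => a b = k) U ≠ 0 := by
    intro hv
    apply hb₀
    have h1 := congrFun hv b₀.1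
    rw [prS_apply, if_pos hk.symm, hU, extZ_t3_apply, dif_pos b₀.2] at h1
    simpa using h1
  have hw : ∀ i, A * (D - 1) ≤ w i := by
    intro i
    obtain ⟨b, hb⟩ := Function.ne_iff.mp (hli.ne_zero i)
    have := grad_fixed (hF i).2.1 (hF i).2.2 hpA hb
    omega
  have hgv : ∀ i, grad p (F i) ⬝ᵥ prS (fun b => a b = k) U = 0 := by
    intro i
    by_cases hz : ∀ b, a b = k → grad p (F i) b = 0
    · rw [dotProduct]
      refine Finset.sum_eq_zero (fun b _ => ?_)
      by_cases hb : a b = k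
      · rw [hz b hb, zero_mul]
      · rw [hvk b hb, mul_zero]
    · push Not at hz
      obtain ⟨b₁, hb₁, hb₁'⟩ := hz
      have h1 := grad_fixed (hF i).2.1 (hF i).2.2 hpA hb₁'
      rw [← hU0 i, dotProduct, dotProduct]
      refine Finset.sum_congr rfl (fun b _ => ?_)
      by_cases hb : grad p (F i) b = 0
      · rw [hb, zero_mul, zero_mul]
      · have h2 := grad_fixed (hF i).2.1 (hF i).2.2 hpA hb
        rw [prS_apply, if_pos (by omega)]
  refine ⟨k, prS (fun b => a b = k) U, hkA, hv0, hvk, ?_⟩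
  refine lineIn_of_frame_t3 h hp F (fun i => (hF i).1) hli (fun i s t => ?_)
  obtain ⟨co, hco, hev, hco0, hco1⟩ := eval_two (hF i).2.1 (hF i).2.2 hpA hvk
  rw [hev]
  refine Finset.sum_eq_zero (fun j _ => ?_)
  by_cases hj : co j = 0
  · rw [hj, mul_zero]
  · exfalso
    obtain ⟨h1, h2⟩ := hco j hj
    have h3 : j ≠ 0 := by
      rintro rfl
      exact hj (by rw [hco0]; exact hp _ (hF i).1)
    have h4 : j ≠ 1 := by
      rintro rfl
      exact hj (by rw [hco1]; exact hgv i)
    have h5 := hw i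
    rw [← h2] at h5
    -- A * (D - 1) ≤ A * (D - j) + k * j
    obtain ⟨m, rfl⟩ : ∃ m, j = m + 2 := ⟨j - 2, by omega⟩
    obtain ⟨D', rfl⟩ : ∃ D', D = D' + (m + 2) := ⟨D - (m + 2), by omega⟩
    have e1 : D' + (m + 2) - 1 = D' + m + 1 := by omega
    have e2 : D' + (m + 2) - (m + 2) = D' := by omega
    rw [e1, e2] at h5
    nlinarith

theorem TCone.caseB (h : TCone I c D a A) {k : ℕ} (hk : A = 2 * k)
    (hc : 2 * c < Fintype.card {b // a b = k})
    {p p' : ρ → ℂ} (hp0 : p ≠ 0) (hp : ∀ g ∈ I, eval p g = 0) (hpA : ∀ b, a b ≠ A → p b = 0)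
    (hp'0 : p' ≠ 0) (hp' : ∀ g ∈ I, eval p' g = 0) (hp'A : ∀ b, a b ≠ 0 → p' b = 0) :
    ∃ v : ρ → ℂ, v ≠ 0 ∧ (∀ b, a b ≠ k → v b = 0) ∧ LineIn I p v ∧ LineIn I p' v := by
  obtain ⟨F, w, hF, hli⟩ := h.exists_frame hp0 hp
  obtain ⟨F', w', hF', hli'⟩ := h.exists_frame hp'0 hp'
  have hk0 : 0 < k := by have := h.hA; omega
  let sb : (ρ → ℂ) → ρ → MvPolynomial {b // a b = k} ℂ := fun q b =>
    C (q b) + (if hb : a b = k then X ⟨b, hb⟩ else 0)
  have hsb : ∀ (q : ρ → ℂ) (u : {b // a b = k} → ℂ) (g : MvPolynomial ρ ℂ),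
      eval u (bind₁ (sb q) g) = eval (q + extZ_t3 (fun b => a b = k) u) g := by
    intro q u g
    have h1 := eval₂Hom_bind₁ (RingHom.id ℂ) u (sb q) g
    have h2 : (fun i => eval₂Hom (RingHom.id ℂ) u (sb q i)) =
        q + extZ_t3 (fun b => a b = k) u := by
      funext b
      rw [Pi.add_apply, extZ_t3_apply]
      by_cases hb : a b = k
      · simp [sb, hb]
      · simp [sb, hb]
    rw [h2] at h1
    exact h1
  obtain ⟨u, hu0, hu⟩ := exists_common_zero
    (Sum.elim (fun i => bind₁ (sb p) (F i)) (fun i => bind₁ (sb p') (F' i)))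
    (by
      rintro (i | i)
      · rw [Sum.elim_inl, hsb, map_zero, add_zero]
        exact hp _ (hF i).1
      · rw [Sum.elim_inr, hsb, map_zero, add_zero]
        exact hp' _ (hF' i).1)
    (by
      rw [Fintype.card_sum, Fintype.card_fin]
      omega)
  obtain ⟨v, hv⟩ : ∃ v, v = extZ_t3 (fun b => a b = k) u := ⟨_, rfl⟩
  have hv1 : ∀ i, eval (p + v) (F i) = 0 := by
    intro i
    have := hu (Sum.inl i)
    rw [Sum.elim_inl, hsb, ← hv] at this
    exact this
  have hv2 : ∀ i, eval (p' + v) (F' i) = 0 := by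
    intro i
    have := hu (Sum.inr i)
    rw [Sum.elim_inr, hsb, ← hv] at this
    exact this
  have hvk : ∀ b, a b ≠ k → v b = 0 := fun b hb => by
    rw [hv, extZ_t3_apply, dif_neg hb]
  have hv0 : v ≠ 0 := by
    intro hvz
    apply hu0
    funext b
    have h1 := congrFun hvz b.1
    rw [hv, extZ_t3_apply, dif_pos b.2] at h1
    simpa using h1
  -- a bihomogeneous form which vanishes at `q + v` vanishes on the plane
  have gen : ∀ (l : ℕ), l ≠ k → ∀ (q : ρ → ℂ), (∀ b, a b ≠ l → q b = 0) →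
      ∀ (g : MvPolynomial ρ ℂ) (e : ℕ), g.IsHomogeneous D → IsWeightedHomogeneous a g e →
      eval (q + v) g = 0 → ∀ s t : ℂ, eval (s • q + t • v) g = 0 := by
    intro l hl q hq g e hg hge h0 s t
    obtain ⟨co, hco, hev, -, -⟩ := eval_two hg hge hq hvk
    have huniq : ∀ i j, co i ≠ 0 → co j ≠ 0 → i = j := by
      intro i j hi hj
      obtain ⟨hi1, hi2⟩ := hco i hi
      obtain ⟨hj1, hj2⟩ := hco j hj
      by_contra hne
      have e1 : (l : ℤ) * (D - i) + k * i = l * (D - j) + k * j := by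
        have h1 : l * (D - i) + k * i = l * (D - j) + k * j := by rw [hi2, hj2]
        have h2 : ((D - i : ℕ) : ℤ) = (D : ℤ) - i := by push_cast [Nat.cast_sub hi1]; ring
        have h3 : ((D - j : ℕ) : ℤ) = (D : ℤ) - j := by push_cast [Nat.cast_sub hj1]; ring
        rw [← h2, ← h3]
        exact_mod_cast h1
      have e2 : ((l : ℤ) - k) * ((i : ℤ) - j) = 0 := by linarith
      rcases mul_eq_zero.mp e2 with e3 | e3
      · exact hl (by omega)
      · exact hne (by omega)
    have hall : ∀ j, co j = 0 := by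
      intro j
      by_contra hj
      have h1 := hev 1 1
      rw [one_smul, one_smul, h0] at h1
      have h2 : ∑ i ∈ Finset.range (D + 1), (1 : ℂ) ^ (D - i) * 1 ^ i * co i = co j := by
        rw [Finset.sum_eq_single j]
        · simp
        · intro i _ hij
          have : co i = 0 := by
            by_contra hi
            exact hij (huniq i j hi hj)
          rw [this, mul_zero]
        · intro hnot
          exact absurd (Finset.mem_range.mpr (Nat.lt_succ_of_le (hco j hj).1)) hnot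
      rw [h2] at h1
      exact hj h1.symm
    rw [hev]
    exact Finset.sum_eq_zero (fun j _ => by rw [hall j, mul_zero])
  refine ⟨v, hv0, hvk, ?_, ?_⟩
  · exact lineIn_of_frame_t3 h hp F (fun i => (hF i).1) hli
      (fun i => gen A (by omega) p hpA (F i) (w i) (hF i).2.1 (hF i).2.2 (hv1 i))
  · exact lineIn_of_frame_t3 h hp' F' (fun i => (hF' i).1) hli'
      (fun i => gen 0 (by omega) p' hp'A (F' i) (w' i) (hF' i).2.1 (hF' i).2.2 (hv2 i))

end T3
end Pool.Agent.Hartshorne
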