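import Mathlib
import Pool.Agent.HartN.TGeneral
import Pool.Agent.HartN.TIndex
import Pool.Agent.HartN.TLines
import Pool.Agent.Hartshorne.Filt

/-!
A stable nonsingular cone of small codimension contains a free line of small degree.
-/

namespace Pool.Agent.Hartshorne

open MvPolynomial

set_option linter.unusedSectionVars false

section T9

variable {ρ : Type} [Fintype ρ] [DecidableEq ρ] {I : Ideal (MvPolynomial ρ ℂ)} {c D : ℕ}
  {a : ρ → ℕ} {A : ℕ}

/-- Two nonzero vectors of different weights are independent. -/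
lemma ln_li_t9 {k l : ℕ} (hkl : k ≠ l) {x w : ρ → ℂ} (hx0 : x ≠ 0)
    (hx : ∀ b, a b ≠ k → x b = 0) (hw0 : w ≠ 0) (hw : ∀ b, a b ≠ l → w b = 0) :
    LinearIndependent ℂ (ln x w) := by
  rw [ln, LinearIndependent.pair_iff]
  intro s t hst
  obtain ⟨b, hb⟩ := Function.ne_iff.mp hx0
  obtain ⟨b', hb'⟩ := Function.ne_iff.mp hw0
  rw [Pi.zero_apply] at hb hb'
  have h1 : a b = k := by
    by_contra h
    exact hb (hx b h)
  have h2 : a b' = l := by
    by_contra h
    exact hb' (hw b' h)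
  have h3 := congrFun hst b
  have h4 := congrFun hst b'
  rw [Pi.add_apply, Pi.smul_apply, Pi.smul_apply, Pi.zero_apply, smul_eq_mul, smul_eq_mul] at h3 h4
  rw [hw b (by rw [h1]; exact hkl), mul_zero, add_zero] at h3
  rw [hx b' (by rw [h2]; exact hkl.symm), mul_zero, zero_add] at h4
  exact ⟨(mul_eq_zero.mp h3).resolve_right hb, (mul_eq_zero.mp h4).resolve_right hb'⟩

lemma finrank_two_t9 (E : Submodule ℂ (ρ → ℂ)) (S T : ρ → Prop) (h : ∀ b, S b → ¬ T b) :
    Module.finrank ℂ (E ⊓ supS S : Submodule ℂ (ρ → ℂ)) +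
      Module.finrank ℂ (E ⊓ supS T : Submodule ℂ (ρ → ℂ)) ≤
      Module.finrank ℂ (E ⊓ supS (fun b => S b ∨ T b) : Submodule ℂ (ρ → ℂ)) := by
  have h1 : (E ⊓ supS S) ⊓ (E ⊓ supS T) = (⊥ : Submodule ℂ (ρ → ℂ)) := by
    rw [eq_bot_iff]
    rintro q ⟨⟨-, hq1⟩, ⟨-, hq2⟩⟩
    rw [Submodule.mem_bot]
    funext b
    by_cases hb : S b
    · exact hq2 b (h b hb)
    · exact hq1 b hb
  have h2 := Submodule.finrank_sup_add_finrank_inf_eq (E ⊓ supS S) (E ⊓ supS T)
  rw [h1, finrank_bot, add_zero] at h2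
  rw [← h2]
  apply Submodule.finrank_mono
  rw [sup_le_iff]
  constructor
  · rintro q ⟨hq1, hq2⟩
    exact ⟨hq1, fun b hb => hq2 b fun hS => hb (Or.inl hS)⟩
  · rintro q ⟨hq1, hq2⟩
    exact ⟨hq1, fun b hb => hq2 b fun hT => hb (Or.inr hT)⟩

lemma finrank_three_t9 (E : Submodule ℂ (ρ → ℂ)) (S T U : ρ → Prop) (h : ∀ b, S b → ¬ T b)
    (h' : ∀ b, S b ∨ T b → ¬ U b) :
    Module.finrank ℂ (E ⊓ supS S : Submodule ℂ (ρ → ℂ)) +
      Module.finrank ℂ (E ⊓ supS T : Submodule ℂ (ρ → ℂ)) +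
      Module.finrank ℂ (E ⊓ supS U : Submodule ℂ (ρ → ℂ)) ≤ Module.finrank ℂ E := by
  have h1 := finrank_two_t9 E S T h
  have h2 := finrank_two_t9 E (fun b => S b ∨ T b) U h'
  have h3 := Submodule.finrank_mono (inf_le_left :
    (E ⊓ supS (fun b => (S b ∨ T b) ∨ U b) : Submodule ℂ (ρ → ℂ)) ≤ E)
  omega

lemma dot_t9 {p q y : ρ → ℂ} (hq : q ∈ gradSpan I p) (hy : y ∈ tanSp I p) : q ⬝ᵥ y = 0 := by
  rw [gradSpan] at hq
  induction hq using Submodule.span_induction with
  | mem r hr =>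
    obtain ⟨g, hg, rfl⟩ := hr
    have h1 := hy g hg
    rwa [grad_eq_fun] at h1
  | zero => exact zero_dotProduct _
  | add x z _ _ hx hz => rw [add_dotProduct, hx, hz, add_zero]
  | smul t x _ hx => rw [smul_dotProduct, hx, smul_zero]

lemma right_mem_t9 {p v : ρ → ℂ} (h : LineIn I p v) : ∀ g ∈ I, eval v g = 0 := by
  intro g hg
  have h1 := h 0 1 g hg
  rwa [zero_smul, one_smul, zero_add] at h1

/-- Case A. -/
theorem TCone.free_line_A_t9 (h : TCone I c D a A)
    (hc : c < Fintype.card {b // 2 * a b < A}) :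
    ∃ x w : ρ → ℂ, LinearIndependent ℂ (ln x w) ∧ LineIn I x w ∧ FreeLine I x w ∧
      Fintype.card ρ ≤ Module.finrank ℂ (tanLine I x w) + (c + c) := by
  have h1 : (1 : MvPolynomial ρ ℂ) ∉ extI I a A :=
    (Ideal.ne_top_iff_one _).mp h.extI_isPrime.ne_top
  obtain ⟨p, hp0, hp, hpA, -⟩ := h.exists_top h1
  obtain ⟨k, v, hk, hv0, hvk, hline⟩ := h.caseA hc hp0 hp hpA
  have hδ : 0 < A - k := by omega
  have hkδ : k + (A - k) = A := by omega
  have hδ2 : A ≤ 2 * (A - k) := by omega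
  have hno : ∀ b, ¬ a b = 2 * (A - k) := by
    intro b hb
    have := h.hle b
    omega
  refine ⟨p, v, ln_li_t9 (by omega) hp0 hpA hv0 hvk, hline, ?_, ?_⟩
  · refine h.free hδ hkδ hδ2 hp0 hpA hv0 hvk hline fun q _ _ y _ => ?_
    have h2 : prS (fun b => a b = 2 * (A - k)) q = 0 := by
      funext b
      rw [prS_apply, if_neg (hno b), Pi.zero_apply]
    rw [h2, zero_dotProduct]
  · have h2 := h.index hδ hkδ hδ2 hp0 hpA hv0 hvk hline
    have h3 : Module.finrank ℂ (gradSpan I v) = c :=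
      (h.good v hv0 (right_mem_t9 hline)).2
    have h4 := finrank_two_t9 (gradSpan I v) (fun b => A - k ≤ a b ∧ a b < 2 * (A - k))
      (fun b => a b = 2 * (A - k)) (fun b hb hb' => hno b hb')
    have h5 := Submodule.finrank_mono (inf_le_left :
      (gradSpan I v ⊓ supS (fun b => (A - k ≤ a b ∧ a b < 2 * (A - k)) ∨ a b = 2 * (A - k)) :
        Submodule ℂ (ρ → ℂ)) ≤ gradSpan I v)
    have h6 : Module.finrank ℂ
        (gradSpan I v ⊓ supS (fun b => a b = 2 * (A - k)) : Submodule ℂ (ρ → ℂ)) = 0 := by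
      have h7 : (gradSpan I v ⊓ supS (fun b => a b = 2 * (A - k)) : Submodule ℂ (ρ → ℂ)) = ⊥ := by
        rw [eq_bot_iff]
        rintro q ⟨-, hq⟩
        rw [Submodule.mem_bot]
        funext b
        exact hq b (hno b)
      rw [h7, finrank_bot]
    omega

/-- The condition for freeness in Case B. -/
theorem TCone.H2_t9 (h : TCone I c D a A) {k : ℕ} (hk : A = 2 * k) {p v : ρ → ℂ} (hp0 : p ≠ 0)
    (hpA : ∀ b, a b ≠ A → p b = 0) (hv0 : v ≠ 0) (hvk : ∀ b, a b ≠ k → v b = 0)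
    (hline : LineIn I p v)
    (hgen : ∀ y ∈ tanSp I p, (∀ b, a b ≠ A → y b = 0) →
      ∃ b : ρ → ℂ, ∀ s t : ℂ, s • y + t • b ∈ tanSp I (s • p + t • v)) :
    ∀ q ∈ gradSpan I (p + v), prS (fun b => k ≤ a b ∧ a b < 2 * k) q = 0 →
      ∀ y ∈ tanSp I p, prS (fun b => a b = 2 * k) q ⬝ᵥ y = 0 := by
  intro q hq hq1 y hy
  have hA := h.hA
  have hkpos : 0 < k := by omega
  have hkδ : k + k = A := by omega
  obtain ⟨hcon, -⟩ := h.conormal hkpos hkδ (by omega) hp0 hpA hv0 hvk hline hq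
  have hyA : prS (fun b => a b = A) y ∈ tanSp I p :=
    h.tanSp_graded hpA (fun n => n = A) hy
  obtain ⟨b, hb⟩ := hgen _ hyA (fun b' hb' => by rw [prS_apply, if_neg hb'])
  have key : ∀ s t : ℂ,
      (s ^ 2 • prS (fun b => a b < k) q + t ^ 2 • prS (fun b => a b = 2 * k) q) ⬝ᵥ
        (s • prS (fun b => a b = A) y + t • b) = 0 := by
    intro s t
    have h1 := hcon s t
    rw [hq1, smul_zero, add_zero] at h1
    exact dot_t9 h1 (hb s t)
  have hα : prS (fun b => a b < k) q ⬝ᵥ prS (fun b => a b = A) y = 0 := by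
    rw [dotProduct]
    refine Finset.sum_eq_zero fun b' _ => ?_
    rw [prS_apply, prS_apply]
    by_cases h1 : a b' < k
    · rw [if_neg (show ¬ a b' = A by omega), mul_zero]
    · rw [if_neg h1, zero_mul]
  have h11 := key 1 1
  have h12 := key 1 (-1)
  simp only [add_dotProduct, dotProduct_add, smul_dotProduct, dotProduct_smul, smul_eq_mul,
    hα] at h11 h12
  have hβ : prS (fun b => a b = 2 * k) q ⬝ᵥ prS (fun b => a b = A) y = 0 := by
    linear_combination (1 / 2 : ℂ) * h11 + (1 / 2 : ℂ) * h12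
  rw [← hβ, dotProduct, dotProduct]
  refine Finset.sum_congr rfl fun b' _ => ?_
  rw [prS_apply, prS_apply]
  by_cases h1 : a b' = 2 * k
  · rw [if_pos h1, if_pos (show a b' = A by omega)]
  · rw [if_neg h1, zero_mul, zero_mul]

/-- A free line of small degree. -/
theorem TCone.exists_free_line (h : TCone I c D a A) (hN : 4 * c < Fintype.card ρ) :
    ∃ x w : ρ → ℂ, LinearIndependent ℂ (ln x w) ∧ LineIn I x w ∧ FreeLine I x w ∧
      Fintype.card ρ ≤ Module.finrank ℂ (tanLine I x w) + (c + c) := by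
  classical
  have hA := h.hA
  by_cases h1 : c < Fintype.card {b // 2 * a b < A}
  · exact h.free_line_A_t9 h1
  by_cases h2 : c < Fintype.card {b // 2 * (A - a b) < A}
  · exact h.flip.free_line_A_t9 h2
  -- case B
  have hcard : Fintype.card ρ ≤ Fintype.card {b // 2 * a b < A} +
      Fintype.card {b // 2 * (A - a b) < A} + Fintype.card {b // 2 * a b = A} := by
    rw [Fintype.card_subtype, Fintype.card_subtype, Fintype.card_subtype]
    have h3 : (Finset.univ : Finset ρ) ⊆ (Finset.univ.filter (fun b => 2 * a b < A) ∪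
        Finset.univ.filter (fun b => 2 * (A - a b) < A)) ∪
        Finset.univ.filter (fun b => 2 * a b = A) := by
      intro b _
      have := h.hle b
      simp only [Finset.mem_union, Finset.mem_filter, Finset.mem_univ, true_and]
      omega
    have h4 := Finset.card_le_card h3
    rw [Finset.card_univ] at h4
    refine h4.trans ((Finset.card_union_le _ _).trans ?_)
    exact Nat.add_le_add_right (Finset.card_union_le _ _) _
  have h3 : 2 * c < Fintype.card {b // 2 * a b = A} := by omega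
  obtain ⟨⟨b₀, hb₀⟩⟩ : Nonempty {b // 2 * a b = A} := Fintype.card_pos_iff.mp (by omega)
  obtain ⟨k, hk⟩ : ∃ k, k = a b₀ := ⟨_, rfl⟩
  have hkA : A = 2 * k := by omega
  have hkpos : 0 < k := by omega
  have hkδ : k + k = A := by omega
  have h4 : 2 * c < Fintype.card {b // a b = k} := by
    have h5 : Fintype.card {b // 2 * a b = A} = Fintype.card {b // a b = k} :=
      Fintype.card_congr (Equiv.subtypeEquivRight fun b => by omega)
    omega
  -- general points
  obtain ⟨Δ, hΔ, hgen⟩ := h.exists_gen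
  obtain ⟨p, hp0, hp, hpA, hpΔ⟩ := h.exists_top hΔ
  obtain ⟨Δ', hΔ', hgen'⟩ := h.flip.exists_gen
  obtain ⟨p', hp'0, hp', hp'A, hp'Δ⟩ := h.flip.exists_top hΔ'
  have hp'z : ∀ b, a b ≠ 0 → p' b = 0 := by
    intro b hb
    apply hp'A
    have := h.hle b
    omega
  obtain ⟨v, hv0, hvk, hl, hl'⟩ := h.caseB hkA h4 hp0 hp hpA hp'0 hp' hp'z
  have hvk' : ∀ b, A - a b ≠ k → v b = 0 := by
    intro b hb
    apply hvk
    have := h.hle b
    omega
  have hf1 : FreeLine I p v := h.free hkpos hkδ (by omega) hp0 hpA hv0 hvk hl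
    (h.H2_t9 hkA hp0 hpA hv0 hvk hl fun y hy hyA => hgen p hp hpA hpΔ v hl y hy hyA)
  have hf2 : FreeLine I p' v := h.flip.free hkpos hkδ (by omega) hp'0 hp'A hv0 hvk' hl'
    (h.flip.H2_t9 hkA hp'0 hp'A hv0 hvk' hl' fun y hy hyA =>
      hgen' p' hp' hp'A hp'Δ v hl' y hy hyA)
  have hi1 := h.index hkpos hkδ (by omega) hp0 hpA hv0 hvk hl
  have hi2 := h.flip.index hkpos hkδ (by omega) hp'0 hp'A hv0 hvk' hl'
  have hE : Module.finrank ℂ (gradSpan I v) = c := (h.good v hv0 (right_mem_t9 hl)).2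
  have hd1 := finrank_three_t9 (gradSpan I v) (fun b => k ≤ a b ∧ a b < 2 * k)
    (fun b => a b = 2 * k) (fun b => A - a b = 2 * k) (fun b hb hb' => by omega)
    (fun b hb hb' => by omega)
  have hd2 := finrank_three_t9 (gradSpan I v) (fun b => k ≤ A - a b ∧ A - a b < 2 * k)
    (fun b => A - a b = 2 * k) (fun b => a b = 2 * k) (fun b hb hb' => by omega)
    (fun b hb hb' => by omega)
  by_cases hfin : Fintype.card ρ ≤ Module.finrank ℂ (tanLine I p v) + (c + c)
  · exact ⟨p, v, ln_li_t9 (by omega) hp0 hpA hv0 hvk, hl, hf1, hfin⟩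
  · refine ⟨p', v, ln_li_t9 (show 0 ≠ k by omega) hp'0 hp'z hv0 hvk, hl', hf2, ?_⟩
    omega

end T9

end Pool.Agent.Hartshorne
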