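import Mathlib
import Pool.Agent.Hartshorne.Locus

/-!
Nonsingular bilinear maps over the complex numbers.
-/

namespace Pool.Agent.Hartshorne

open MvPolynomial

set_option linter.unusedSectionVars false

section T10

private lemma minor_mem_t10 {k c : ℕ} {P : Ideal (MvPolynomial (Fin (k + 1) × Fin (c + 1)) ℂ)}
    (hP : P.IsPrime) (h00 : X (0, 0) ∉ P)
    (h : ∀ i j, X (i, j) * X (0, 0) - X (i, 0) * X (0, j) ∈ P)
    (i i' : Fin (k + 1)) (j j' : Fin (c + 1)) :
    X (i, j) * X (i', j') - X (i, j') * X (i', j) ∈ P := by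
  have h1 : X (0, 0) * X (0, 0) * (X (i, j) * X (i', j') - X (i, j') * X (i', j)) ∈ P := by
    have e : X (0, 0) * X (0, 0) * (X (i, j) * X (i', j') - X (i, j') * X (i', j)) =
        (X (i', j') * X (0, 0)) * (X (i, j) * X (0, 0) - X (i, 0) * X (0, j)) +
        (X (i, 0) * X (0, j)) * (X (i', j') * X (0, 0) - X (i', 0) * X (0, j')) -
        (X (i', j) * X (0, 0)) * (X (i, j') * X (0, 0) - X (i, 0) * X (0, j')) -
        (X (i, 0) * X (0, j')) * (X (i', j) * X (0, 0) - X (i', 0) * X (0, j) :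
          MvPolynomial (Fin (k + 1) × Fin (c + 1)) ℂ) := by ring
    rw [e]
    exact P.sub_mem (P.sub_mem (P.add_mem (P.mul_mem_left _ (h i j))
      (P.mul_mem_left _ (h i' j'))) (P.mul_mem_left _ (h i j'))) (P.mul_mem_left _ (h i' j))
  rcases hP.mem_or_mem h1 with h2 | h2
  · rcases hP.mem_or_mem h2 with h3 | h3
    · exact absurd h3 h00
    · exact absurd h3 h00
  · exact h2

private lemma bilin_expand_t10 {k c l : ℕ}
    (B : (Fin k → ℂ) →ₗ[ℂ] (Fin c → ℂ) →ₗ[ℂ] (Fin l → ℂ)) (y : Fin k → ℂ) (s : Fin c → ℂ) :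
    B y s = ∑ p : Fin k × Fin c, (y p.1 * s p.2) • B (Pi.single p.1 1) (Pi.single p.2 1) := by
  have hy : y = ∑ i, y i • (Pi.single i 1 : Fin k → ℂ) := pi_eq_sum_univ' y
  have hs : s = ∑ j, s j • (Pi.single j 1 : Fin c → ℂ) := pi_eq_sum_univ' s
  have h1 : B y s = ∑ j, s j • B y (Pi.single j 1) := by
    conv_lhs => rw [hs]
    rw [map_sum]
    exact Finset.sum_congr rfl fun j _ => map_smul _ _ _
  have h2 : ∀ t, B y t = ∑ i, y i • B (Pi.single i 1) t := by
    intro t
    conv_lhs => rw [hy]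
    rw [map_sum, LinearMap.sum_apply]
    refine Finset.sum_congr rfl fun i _ => ?_
    rw [map_smul, LinearMap.smul_apply]
  rw [h1, Fintype.sum_prod_type, Finset.sum_comm]
  refine Finset.sum_congr rfl fun j _ => ?_
  rw [h2, Finset.smul_sum]
  refine Finset.sum_congr rfl fun i _ => ?_
  rw [smul_smul, mul_comm]

/-- Hopf's lemma over the complex numbers. -/
theorem hopf_complex {k c l : ℕ} (hk : 0 < k) (hc : 0 < c)
    (B : (Fin k → ℂ) →ₗ[ℂ] (Fin c → ℂ) →ₗ[ℂ] (Fin l → ℂ))
    (hB : ∀ y s, y ≠ 0 → s ≠ 0 → B y s ≠ 0) : k + c ≤ l + 1 := by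
  classical
  obtain ⟨k, rfl⟩ : ∃ k', k = k' + 1 := ⟨k - 1, by omega⟩
  obtain ⟨c, rfl⟩ : ∃ c', c = c' + 1 := ⟨c - 1, by omega⟩
  by_contra hlt
  push Not at hlt
  set σ := Fin (k + 1) × Fin (c + 1) with hσ
  set g : Fin k × Fin c → MvPolynomial σ ℂ := fun q =>
    X (q.1.succ, q.2.succ) * X (0, 0) - X (q.1.succ, 0) * X (0, q.2.succ) with hg
  set v : σ → ℂ := fun p => if p = (0, 0) then 1 else 0 with hv
  obtain ⟨P, hP, hgP, hPv, hdim⟩ := exists_prime_at g v (by
    intro q
    have e1 : v (q.1.succ, q.2.succ) = 0 :=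
      if_neg fun h => Fin.succ_ne_zero _ (congrArg Prod.fst h)
    have e2 : v (q.1.succ, 0) = 0 :=
      if_neg fun h => Fin.succ_ne_zero _ (congrArg Prod.fst h)
    simp only [hg, map_sub, map_mul, eval_X]
    rw [e1, e2, zero_mul, zero_mul, sub_zero])
  have h00 : (X (0, 0) : MvPolynomial σ ℂ) ∉ P := by
    intro h
    have h1 := hPv _ h
    rw [eval_X] at h1
    simp [hv] at h1
  have hall : ∀ (i : Fin (k + 1)) (j : Fin (c + 1)),
      (X (i, j) * X (0, 0) - X (i, 0) * X (0, j) : MvPolynomial σ ℂ) ∈ P := by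
    intro i j
    refine Fin.cases ?_ (fun i => ?_) i
    · rw [mul_comm, sub_self]
      exact P.zero_mem
    · refine Fin.cases ?_ (fun j => ?_) j
      · rw [sub_self]
        exact P.zero_mem
      · exact hgP (i, j)
  set Φ : (σ → ℂ) →ₗ[ℂ] (Fin l → ℂ) :=
    ∑ p : σ, (LinearMap.proj (R := ℂ) (φ := fun _ : σ => ℂ) p).smulRight
      (B (Pi.single p.1 1) (Pi.single p.2 1)) with hΦ
  have hdim' : ((Fintype.card σ : ℕ) : WithBot ℕ∞) ≤
      ringKrullDim (MvPolynomial σ ℂ ⧸ hcore P) + ((k * c : ℕ) : WithBot ℕ∞) := by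
    have h1 : Fintype.card (Fin k × Fin c) = k * c := by simp
    rw [h1] at hdim
    refine hdim.trans (add_le_add_left ?_ _)
    exact ringKrullDim_le_of_surjective (Ideal.Quotient.factor (hcore_le P))
      (Ideal.Quotient.factor_surjective (hcore_le P))
  have hker : k * c < Module.finrank ℂ (LinearMap.ker Φ) := by
    have h1 := LinearMap.finrank_range_add_finrank_ker Φ
    have h2 : Module.finrank ℂ (LinearMap.range Φ) ≤ l := by
      refine (Submodule.finrank_le _).trans ?_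
      rw [Module.finrank_fintype_fun_eq_card, Fintype.card_fin]
    have h3 : Module.finrank ℂ (σ → ℂ) = (k + 1) * (c + 1) := by
      rw [Module.finrank_fintype_fun_eq_card]
      simp [hσ]
    rw [h3] at h1
    nlinarith
  obtain ⟨z, hzΛ, hz0, hzP⟩ := exists_zero (LinearMap.ker Φ) (hcore P) (hcore_hom P) hdim' hker
  have hmin : ∀ (i i' : Fin (k + 1)) (j j' : Fin (c + 1)),
      z (i, j) * z (i', j') = z (i, j') * z (i', j) := by
    intro i i' j j'
    have h1 : (X (i, j) * X (i', j') - X (i, j') * X (i', j) : MvPolynomial σ ℂ) ∈ hcore P := by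
      refine mem_hcore_of_homog (d := 2) ?_ (minor_mem_t10 hP h00 hall i i' j j')
      exact ((isHomogeneous_X ℂ _).mul (isHomogeneous_X ℂ _)).sub
        ((isHomogeneous_X ℂ _).mul (isHomogeneous_X ℂ _))
    have h2 := hzP _ h1
    simp only [map_sub, map_mul, eval_X] at h2
    exact sub_eq_zero.1 h2
  obtain ⟨⟨a, b⟩, hab⟩ := Function.ne_iff.1 hz0
  rw [Pi.zero_apply] at hab
  set y : Fin (k + 1) → ℂ := fun i => z (i, b) with hy
  set s : Fin (c + 1) → ℂ := fun j => z (a, j) / z (a, b) with hs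
  have hy0 : y ≠ 0 := by
    intro h
    exact hab (congrFun h a)
  have hs0 : s ≠ 0 := by
    intro h
    have h1 := congrFun h b
    simp only [hs, Pi.zero_apply, div_self hab] at h1
    exact one_ne_zero h1
  apply hB y s hy0 hs0
  rw [bilin_expand_t10]
  have h1 : Φ z = 0 := hzΛ
  rw [hΦ, LinearMap.sum_apply] at h1
  rw [← h1]
  refine Finset.sum_congr rfl fun p _ => ?_
  rw [LinearMap.smulRight_apply, LinearMap.proj_apply]
  congr 1
  obtain ⟨i, j⟩ := p
  simp only [hy, hs]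
  rw [← mul_div_assoc, div_eq_iff hab]
  exact (hmin i a j b).symm

end T10

end Pool.Agent.Hartshorne
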