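import Mathlib
import Pool.Agent.HartN.TBasic
import Pool.Agent.HartN.TFrame
import Pool.Agent.HartN.THopf

/-!
A nonsingular complete intersection of quadrics, stable under a one-parameter group, is a
hypersurface.
-/

namespace Pool.Agent.Hartshorne

open MvPolynomial

set_option linter.unusedSectionVars false

section T11
variable {ρ : Type} [Fintype ρ] [DecidableEq ρ] {I : Ideal (MvPolynomial ρ ℂ)} {c D : ℕ}
  {a : ρ → ℕ} {A : ℕ}

private lemma gradSpan_le_t11 {H : Fin c → MvPolynomial ρ ℂ} (hH : Ideal.span (Set.range H) = I)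
    {p : ρ → ℂ} (hp : ∀ g ∈ I, eval p g = 0) :
    gradSpan I p ≤ Submodule.span ℂ (Set.range (fun k => grad p (H k))) := by
  rw [gradSpan, Submodule.span_le]
  rintro _ ⟨h, hh, rfl⟩
  rw [← hH, Ideal.mem_span_range_iff_exists_fun] at hh
  obtain ⟨f, rfl⟩ := hh
  rw [← grad_eq_fun, map_sum]
  refine Submodule.sum_mem _ (fun k _ => ?_)
  have hk : eval p (H k) = 0 := hp _ (hH ▸ Ideal.subset_span ⟨k, rfl⟩)
  rw [grad_mul, hk, zero_smul, add_zero]
  exact Submodule.smul_mem _ _ (Submodule.subset_span ⟨k, rfl⟩)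

private lemma span_grad_eq_t11 {H : Fin c → MvPolynomial ρ ℂ}
    (hH : Ideal.span (Set.range H) = I) {p : ρ → ℂ} (hp : ∀ g ∈ I, eval p g = 0) :
    Submodule.span ℂ (Set.range (fun k => grad p (H k))) = gradSpan I p := by
  apply le_antisymm
  · rw [Submodule.span_le]
    rintro _ ⟨k, rfl⟩
    exact grad_mem_gradSpan (hH ▸ Ideal.subset_span ⟨k, rfl⟩) p
  · exact gradSpan_le_t11 hH hp

private lemma li_grad_t11 (h : TCone I c D a A) {H : Fin c → MvPolynomial ρ ℂ}
    (hH : Ideal.span (Set.range H) = I) {p : ρ → ℂ} (hp0 : p ≠ 0)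
    (hp : ∀ g ∈ I, eval p g = 0) : LinearIndependent ℂ (fun k => grad p (H k)) := by
  rw [linearIndependent_iff_card_eq_finrank_span, Fintype.card_fin, Set.finrank,
    span_grad_eq_t11 hH hp]
  exact (h.good p hp0 hp).2.symm

/-- Elements of degree two are combinations of the quadrics. -/
private lemma quad_comb_t11 {G : Fin c → MvPolynomial ρ ℂ} (hG : ∀ k, (G k).IsHomogeneous 2)
    (hGI : Ideal.span (Set.range G) = I) {g : MvPolynomial ρ ℂ} (hg : g ∈ I)
    (hg2 : g.IsHomogeneous 2) : ∃ m : Fin c → ℂ, g = ∑ j, C (m j) * G j := by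
  rw [← hGI, Ideal.mem_span_range_iff_exists_fun] at hg
  obtain ⟨f, hf⟩ := hg
  refine ⟨fun j => coeff 0 (f j), ?_⟩
  have h1 : homogeneousComponent 2 g = g := homogeneousComponent_eq_self hg2
  rw [← h1, ← hf, map_sum]
  refine Finset.sum_congr rfl (fun j _ => ?_)
  rw [homogeneousComponent_mul_right (hG j), if_pos le_rfl, Nat.sub_self,
    homogeneousComponent_zero]

/-- Weight homogeneous generators. -/
private lemma exists_wgens_t11 (h : TCone I c D a A) (G : Fin c → MvPolynomial ρ ℂ)
    (hG : ∀ k, (G k).IsHomogeneous 2) (hGI : Ideal.span (Set.range G) = I)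
    {p : ρ → ℂ} (hp0 : p ≠ 0) (hp : ∀ g ∈ I, eval p g = 0) :
    ∃ (H : Fin c → MvPolynomial ρ ℂ) (w : Fin c → ℕ), (∀ k, (H k).IsHomogeneous 2) ∧
      (∀ k, IsWeightedHomogeneous a (H k) (w k)) ∧ Ideal.span (Set.range H) = I := by
  classical
  set s : Set (ρ → ℂ) :=
    {v | ∃ (i : Fin c) (e : ℕ), v = grad p (weightedHomogeneousComponent a e (G i))} with hs
  have hGm : ∀ i, G i ∈ I := fun i => hGI ▸ Ideal.subset_span ⟨i, rfl⟩
  have hsp : Submodule.span ℂ s = gradSpan I p := by
    apply le_antisymm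
    · rw [Submodule.span_le]
      rintro _ ⟨i, e, rfl⟩
      exact grad_mem_gradSpan (h.hw _ (hGm i) e) p
    · refine (gradSpan_le_t11 hGI hp).trans ?_
      rw [Submodule.span_le]
      rintro _ ⟨i, rfl⟩
      have h1 : G i = ∑ᶠ e, weightedHomogeneousComponent a e (G i) :=
        (finsum_weightedHomogeneousComponent a (G i)).symm
      show grad p (G i) ∈ Submodule.span ℂ s
      rw [h1, map_finsum (grad p) (weightedHomogeneousComponent_finsupp (G i))]
      exact finsum_induction (fun x => x ∈ Submodule.span ℂ s) (Submodule.zero_mem _)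
        (fun x y hx hy => Submodule.add_mem _ hx hy)
        (fun e => Submodule.subset_span ⟨i, e, rfl⟩)
  have hfr : Module.finrank ℂ (Submodule.span ℂ s) = c := by
    rw [hsp]; exact (h.good p hp0 hp).2
  have key := Submodule.exists_fun_fin_finrank_span_eq ℂ s
  rw [hfr] at key
  obtain ⟨f, hf, -, hli⟩ := key
  choose i e hie using hf
  refine ⟨fun k => weightedHomogeneousComponent a (e k) (G (i k)), e,
    fun k => isHom_wc_t2 (hG _) a _, fun k =>
      weightedHomogeneousComponent_isWeightedHomogeneous _ _, ?_⟩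
  have hHm : ∀ k, weightedHomogeneousComponent a (e k) (G (i k)) ∈ I := fun k =>
    h.hw _ (hGm _) _
  have hex : ∀ k, ∃ m : Fin c → ℂ, weightedHomogeneousComponent a (e k) (G (i k)) =
      ∑ j, C (m j) * G j := fun k => quad_comb_t11 hG hGI (hHm k) (isHom_wc_t2 (hG _) a _)
  choose m hm using hex
  have hli' : LinearIndependent ℂ (fun k => grad p (weightedHomogeneousComponent a (e k)
      (G (i k)))) := by
    have : (fun k => grad p (weightedHomogeneousComponent a (e k) (G (i k)))) = f := by
      funext k; exact (hie k).symm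
    rw [this]; exact hli
  have hgr : ∀ k, grad p (weightedHomogeneousComponent a (e k) (G (i k))) =
      ∑ j, m k j • grad p (G j) := by
    intro k
    rw [hm k, map_sum]
    refine Finset.sum_congr rfl (fun j _ => ?_)
    rw [← smul_eq_C_mul, map_smul]
  have hrow : LinearIndependent ℂ (fun k => m k) := by
    rw [Fintype.linearIndependent_iff]
    intro x hx
    rw [Fintype.linearIndependent_iff] at hli'
    apply hli' x
    simp only [hgr, Finset.smul_sum, smul_smul]
    rw [Finset.sum_comm]
    refine Finset.sum_eq_zero (fun j _ => ?_)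
    rw [← Finset.sum_smul]
    have := congrFun hx j
    rw [Finset.sum_apply] at this
    simp only [Pi.smul_apply, smul_eq_mul, Pi.zero_apply] at this
    rw [this, zero_smul]
  have hunit : IsUnit (Matrix.of m) := by
    rw [← Matrix.linearIndependent_rows_iff_isUnit]
    exact hrow
  obtain ⟨N, hN⟩ : ∃ N : Matrix (Fin c) (Fin c) ℂ, N * Matrix.of m = 1 := by
    obtain ⟨u, hu⟩ := hunit
    exact ⟨((u⁻¹ : (Matrix (Fin c) (Fin c) ℂ)ˣ) : Matrix (Fin c) (Fin c) ℂ), by
      rw [← hu]; exact u.inv_mul⟩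
  apply le_antisymm
  · rw [Ideal.span_le]
    rintro _ ⟨k, rfl⟩
    exact hHm k
  · rw [← hGI, Ideal.span_le]
    rintro _ ⟨j, rfl⟩
    have h2 : G j = ∑ k, C (N j k) * weightedHomogeneousComponent a (e k) (G (i k)) := by
      simp only [hm, Finset.mul_sum, ← mul_assoc, ← C_mul]
      rw [Finset.sum_comm]
      simp only [← Finset.sum_mul, ← map_sum]
      have h3 : ∀ l, ∑ k, N j k * m k l = (1 : Matrix (Fin c) (Fin c) ℂ) j l := by
        intro l
        rw [← hN, Matrix.mul_apply]
        rfl
      simp only [h3, Matrix.one_apply]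
      rw [Finset.sum_eq_single j]
      · simp
      · intro b _ hb
        rw [if_neg (Ne.symm hb)]; simp
      · intro hcon; exact absurd (Finset.mem_univ _) hcon
    rw [h2]
    exact Ideal.sum_mem _ (fun k _ => Ideal.mul_mem_left _ _ (Ideal.subset_span ⟨k, rfl⟩))

/-- Evaluation of a linear form. -/
private lemma exists_lin_t11 {g : MvPolynomial ρ ℂ} (hg : g.IsHomogeneous 1) :
    ∃ L : (ρ → ℂ) →ₗ[ℂ] ℂ, ∀ y, eval y g = L y := by
  refine ⟨∑ d ∈ g.support, coeff d g • ∑ i, ((d i : ℕ) : ℂ) • LinearMap.proj i, fun y => ?_⟩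
  rw [eval_eq', LinearMap.sum_apply]
  refine Finset.sum_congr rfl (fun d hd => ?_)
  rw [LinearMap.smul_apply, LinearMap.sum_apply, smul_eq_mul]
  congr 1
  have h1 : Finsupp.sum d (fun _ n => n) = 1 := by
    have h0 : Finsupp.weight (1 : ρ → ℕ) d = 1 := hg (mem_support_iff.mp hd)
    rw [Finsupp.weight_apply, Finsupp.sum] at h0
    rw [Finsupp.sum, ← h0]
    exact Finset.sum_congr rfl (fun i _ => by simp)
  obtain ⟨j, rfl⟩ := (Finsupp.sum_eq_one_iff _).mp h1
  rw [Finset.prod_eq_single j, Finset.sum_eq_single j]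
  · simp
  · intro b _ hb
    simp [Finsupp.single_eq_of_ne hb]
  · intro hcon; exact absurd (Finset.mem_univ _) hcon
  · intro b _ hb
    simp [Finsupp.single_eq_of_ne hb]
  · intro hcon; exact absurd (Finset.mem_univ _) hcon

/-- A form of weight different from `k * d` vanishes on the space of weight `k`. -/
private lemma eval_zero_t11 {g : MvPolynomial ρ ℂ} {d w k : ℕ} (hg : g.IsHomogeneous d)
    (hgw : IsWeightedHomogeneous a g w) (hne : w ≠ k * d) {p : ρ → ℂ}
    (hp : ∀ b, a b ≠ k → p b = 0) : eval p g = 0 := by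
  by_contra hb
  rw [eval_eq] at hb
  obtain ⟨m, hm, hm0⟩ := Finset.exists_ne_zero_of_sum_ne_zero hb
  have h2 : ∀ i ∈ m.support, a i = k := by
    intro i hi
    by_contra hne
    apply hm0
    have h3 : p i ^ m i = 0 := by
      rw [hp i hne]
      exact zero_pow (Finsupp.mem_support_iff.mp hi)
    rw [Finset.prod_eq_zero hi h3, mul_zero]
  have hd : Finsupp.weight (1 : ρ → ℕ) m = d := hg (mem_support_iff.mp hm)
  have hw : Finsupp.weight a m = w := hgw (mem_support_iff.mp hm)
  rw [Finsupp.weight_apply, Finsupp.sum] at hd hw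
  apply hne
  rw [← hw, ← hd, Finset.mul_sum]
  refine Finset.sum_congr rfl (fun i hi => ?_)
  rw [h2 i hi, smul_eq_mul, Pi.one_apply, smul_eq_mul, mul_one, mul_comm]

/-- One half of the inequality. -/
private lemma half_t11 (h : TCone I c D a A) (G : Fin c → MvPolynomial ρ ℂ)
    (hG : ∀ k, (G k).IsHomogeneous 2) (hGI : Ideal.span (Set.range G) = I) (hc : 0 < c) :
    Fintype.card {b // a b = A} + c ≤ Fintype.card {b // a b = 0} + 1 := by
  classical
  have h1 : (1 : MvPolynomial ρ ℂ) ∉ extI I a A := fun hcon =>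
    h.extI_isPrime.ne_top ((Ideal.eq_top_iff_one _).mpr hcon)
  obtain ⟨p, hp0, hp, hpA, -⟩ := h.exists_top h1
  have h1' : (1 : MvPolynomial ρ ℂ) ∉ extI I (fun b => A - a b) A := fun hcon =>
    h.flip.extI_isPrime.ne_top ((Ideal.eq_top_iff_one _).mpr hcon)
  obtain ⟨p', hp'0, hp', hp'A, -⟩ := h.flip.exists_top h1'
  have hp'A' : ∀ b, a b ≠ 0 → p' b = 0 := by
    intro b hb
    apply hp'A
    show A - a b ≠ A
    have := h.hle b
    have := h.hA
    omega
  obtain ⟨H, w, hH2, hHw, hHI⟩ := exists_wgens_t11 h G hG hGI hp0 hp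
  have hwA : ∀ k, w k = A := by
    intro k
    apply le_antisymm
    · have hne := (li_grad_t11 h hHI hp'0 hp').ne_zero k
      obtain ⟨b, hb⟩ := Function.ne_iff.mp hne
      have := grad_fixed (hH2 k) (hHw k) hp'A' hb
      have h3 := h.hle b
      omega
    · have hne := (li_grad_t11 h hHI hp0 hp).ne_zero k
      obtain ⟨b, hb⟩ := Function.ne_iff.mp hne
      have := grad_fixed (hH2 k) (hHw k) hpA hb
      omega
  have hA0 := h.hA
  -- the gradients on the space of weight `A`
  have hyI : ∀ y : ρ → ℂ, (∀ b, a b ≠ A → y b = 0) → ∀ g ∈ I, eval y g = 0 := by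
    intro y hy g hg
    rw [← hHI, Ideal.mem_span_range_iff_exists_fun] at hg
    obtain ⟨f, rfl⟩ := hg
    rw [map_sum]
    refine Finset.sum_eq_zero (fun k _ => ?_)
    rw [map_mul, eval_zero_t11 (hH2 k) (hHw k) (by rw [hwA k]; omega) hy, mul_zero]
  have hlin : ∀ k b, ∃ L : (ρ → ℂ) →ₗ[ℂ] ℂ, ∀ y, eval y (pderiv b (H k)) = L y := fun k b =>
    exists_lin_t11 ((hH2 k).pderiv)
  choose L hL using hlin
  -- the embedding of the space of weight `A`
  let e1 : Fin (Fintype.card {b // a b = A}) ≃ {b // a b = A} := (Fintype.equivFin _).symm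
  let e0 : Fin (Fintype.card {b // a b = 0}) ≃ {b // a b = 0} := (Fintype.equivFin _).symm
  let ext : (Fin (Fintype.card {b // a b = A}) → ℂ) →ₗ[ℂ] (ρ → ℂ) :=
    { toFun := fun y b => if hb : a b = A then y (e1.symm ⟨b, hb⟩) else 0
      map_add' := by
        intro x y; funext b
        by_cases hb : a b = A
        · simp [hb]
        · simp [hb]
      map_smul' := by
        intro t y; funext b
        by_cases hb : a b = A
        · simp [hb]
        · simp [hb] }
  have hext : ∀ y b, ext y b = if hb : a b = A then y (e1.symm ⟨b, hb⟩) else 0 := fun _ _ => rfl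
  have hextA : ∀ y, ∀ b, a b ≠ A → ext y b = 0 := by
    intro y b hb
    rw [hext, dif_neg hb]
  have hext0 : ∀ y, y ≠ 0 → ext y ≠ 0 := by
    intro y hy hcon
    apply hy
    funext i
    have := congrFun hcon (e1 i).1
    rw [hext, dif_pos (e1 i).2] at this
    simpa using this
  let B : (Fin (Fintype.card {b // a b = A}) → ℂ) →ₗ[ℂ] (Fin c → ℂ) →ₗ[ℂ]
      (Fin (Fintype.card {b // a b = 0}) → ℂ) :=
    LinearMap.mk₂ ℂ (fun y s j => ∑ i, s i * L i (e0 j).1 (ext y))
      (by intro x y s; funext j
          simp only [map_add, mul_add, Finset.sum_add_distrib, Pi.add_apply])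
      (by intro t y s; funext j
          simp only [map_smul, smul_eq_mul, Pi.smul_apply, Finset.mul_sum]
          exact Finset.sum_congr rfl (fun i _ => by ring))
      (by intro y s s'; funext j
          simp only [Pi.add_apply, add_mul, Finset.sum_add_distrib])
      (by intro t y s; funext j
          simp only [Pi.smul_apply, smul_eq_mul, Finset.mul_sum]
          exact Finset.sum_congr rfl (fun i _ => by ring))
  refine hopf_complex (Fintype.card_pos_iff.mpr ?_) hc B ?_
  · obtain ⟨b, hb⟩ := h.hAA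
    exact ⟨⟨b, hb⟩⟩
  · intro y s hy hs hcon
    apply hs
    have hy' := hyI (ext y) (hextA y)
    have hli := li_grad_t11 h hHI (hext0 y hy) hy'
    rw [Fintype.linearIndependent_iff] at hli
    funext i
    refine hli s ?_ i
    funext b
    rw [Finset.sum_apply, Pi.zero_apply]
    by_cases hb : a b = 0
    · have h4 := congrFun hcon (e0.symm ⟨b, hb⟩)
      have h5 : B y s (e0.symm ⟨b, hb⟩) =
          ∑ i, s i * L i (e0 (e0.symm ⟨b, hb⟩)).1 (ext y) := rfl
      rw [h5, Equiv.apply_symm_apply, Pi.zero_apply] at h4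
      rw [← h4]
      refine Finset.sum_congr rfl (fun k _ => ?_)
      rw [Pi.smul_apply, smul_eq_mul, grad_apply, hL]
    · refine Finset.sum_eq_zero (fun k _ => ?_)
      rw [Pi.smul_apply, smul_eq_mul]
      have h6 : grad (ext y) (H k) b = 0 := by
        by_contra hne
        have := grad_fixed (hH2 k) (hHw k) (hextA y) hne
        rw [hwA k] at this
        omega
      rw [h6, mul_zero]

/-- A stable nonsingular complete intersection of quadrics is a hypersurface. -/
theorem TCone.c_le_one (h : TCone I c D a A) (G : Fin c → MvPolynomial ρ ℂ)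
    (hG : ∀ k, (G k).IsHomogeneous 2) (hGI : Ideal.span (Set.range G) = I) : c ≤ 1 := by
  by_contra hc
  have hc0 : 0 < c := by omega
  have h1 := half_t11 h G hG hGI hc0
  have h2 := half_t11 h.flip G hG hGI hc0
  have hA := h.hA
  have e1 : Fintype.card {b // A - a b = A} = Fintype.card {b // a b = 0} :=
    Fintype.card_congr (Equiv.subtypeEquivRight (fun b => by
      have := h.hle b
      omega))
  have e2 : Fintype.card {b // A - a b = 0} = Fintype.card {b // a b = A} :=
    Fintype.card_congr (Equiv.subtypeEquivRight (fun b => by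
      have := h.hle b
      omega))
  rw [e1, e2] at h2
  omega

end T11

end Pool.Agent.Hartshorne
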