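import Mathlib
import Pool.Agent.HartN.Final
import Pool.Agent.HartN.TFree
import Pool.Agent.HartN.TQuad
import Pool.Agent.HartN.FreeToLines

/-!
Hartshorne's conjecture for varieties with one free line of small degree, and for varieties
stable under a one-parameter group of diagonal matrices.
-/

namespace Pool.Agent.Hartshorne

open MvPolynomial

set_option linter.unusedSectionVars false

section FinalT

variable {ρ : Type} [Fintype ρ] [DecidableEq ρ]

lemma exists_nsCone {c : ℕ} (I : Ideal (MvPolynomial ρ ℂ)) (hI : I.IsPrime) (hhom : HI I)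
    (hdim : ((Fintype.card ρ : ℕ) : WithBot ℕ∞) ≤
      ringKrullDim (MvPolynomial ρ ℂ ⧸ I) + (c : WithBot ℕ∞))
    (hsm : ∀ p : ρ → ℂ, p ≠ 0 → (∀ h ∈ I, eval p h = 0) →
      ∃ q : Fin c → MvPolynomial ρ ℂ, (∀ k, q k ∈ I) ∧
        LinearIndependent ℂ (fun k => fun j => eval p (pderiv j (q k)))) :
    ∃ D, NsCone I c D := by
  obtain ⟨D, hS⟩ := exists_setup (c := c) (⊤ : Submodule ℂ (ρ → ℂ)) I hI hhom hdim
    (fun p _ hp0 hp => hsm p hp0 hp)
  exact ⟨D, hS.hI, hS.hhom, hS.hdim, hS.hD, fun p hp0 hp => hS.good p Submodule.mem_top hp0 hp⟩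

/-- **Hartshorne's conjecture for varieties with one free line.** -/
theorem core_free {c : ℕ} (r : ℕ) (hc : 0 < c)
    (hN : 2 * (c + r) + c * (r - c - 1) + 1 < Fintype.card ρ)
    (I : Ideal (MvPolynomial ρ ℂ)) (hI : I.IsPrime) (hhom : HI I)
    (hdim : ((Fintype.card ρ : ℕ) : WithBot ℕ∞) ≤
      ringKrullDim (MvPolynomial ρ ℂ ⧸ I) + (c : WithBot ℕ∞))
    (hsm : ∀ p : ρ → ℂ, p ≠ 0 → (∀ h ∈ I, eval p h = 0) →
      ∃ q : Fin c → MvPolynomial ρ ℂ, (∀ k, q k ∈ I) ∧
        LinearIndependent ℂ (fun k => fun j => eval p (pderiv j (q k))))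
    (hnd : ∀ l ∈ I, l.IsHomogeneous 1 → l = 0)
    {x w : ρ → ℂ} (hli : LinearIndependent ℂ ![x, w]) (hline : LineIn I x w)
    (hfree : FreeLine I x w)
    (hr : Fintype.card ρ ≤ Module.finrank ℂ (tanLine I x w) + (c + r)) :
    ∃ (G : Fin c → MvPolynomial ρ ℂ) (e : Fin c → ℕ),
      (∀ k, 2 ≤ e k ∧ (G k).IsHomogeneous (e k)) ∧ ∑ k, (e k - 1) ≤ r ∧
      Ideal.span (Set.range G) = I := by
  obtain ⟨D, hS⟩ := exists_nsCone I hI hhom hdim hsm
  exact core_lines r hc hN I hI hhom hdim hsm hnd (hS.lines_of_free r hli hline hfree hr)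

/-- A variety stable under a one-parameter group has a weighted homogeneous ideal. -/
lemma weighted_of_stable {I : Ideal (MvPolynomial ρ ℂ)} (hI : I.IsPrime) (a : ρ → ℕ)
    (hT : ∀ t : ℂ, t ≠ 0 → ∀ x : ρ → ℂ, (∀ h ∈ I, eval x h = 0) →
      ∀ h ∈ I, eval (fun b => t ^ a b * x b) h = 0) :
    ∀ f ∈ I, ∀ e, weightedHomogeneousComponent a e f ∈ I := by
  intro f hf e
  obtain ⟨M, hM⟩ := exists_sum_wc a f
  by_cases heM : e < M
  · refine mem_of_eval_zero hI (fun x hx => ?_)
    set Q : Polynomial ℂ := ∑ n ∈ Finset.range M,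
      Polynomial.C (eval x (weightedHomogeneousComponent a n f)) * Polynomial.X ^ n with hQdef
    have hQ : ∀ t : ℂ, t ≠ 0 → Polynomial.eval t Q = 0 := by
      intro t ht
      have h1 := hT t ht x hx f hf
      rw [hM, map_sum] at h1
      rw [hQdef, Polynomial.eval_finsetSum, ← h1]
      refine Finset.sum_congr rfl (fun n _ => ?_)
      rw [eval_wscale_t2 (weightedHomogeneousComponent_isWeightedHomogeneous n f) x t,
        Polynomial.eval_mul, Polynomial.eval_C, Polynomial.eval_pow, Polynomial.eval_X, mul_comm]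
    have hQ0 : Q = 0 := by
      refine Polynomial.eq_zero_of_infinite_isRoot Q
        ((Set.infinite_of_finite_compl (s := {t : ℂ | t ≠ 0}) ?_).mono (fun t ht => hQ t ht))
      simp
    have h2 := congrArg (fun q => Polynomial.coeff q e) hQ0
    simp only [hQdef, Polynomial.finsetSum_coeff, Polynomial.coeff_C_mul, Polynomial.coeff_X_pow,
      Polynomial.coeff_zero] at h2
    rw [Finset.sum_eq_single e] at h2
    · simpa using h2
    · intro n _ hn
      rw [if_neg (Ne.symm hn), mul_zero]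
    · intro h
      exact absurd (Finset.mem_range.mpr heM) h
  · rw [hM, map_sum, Finset.sum_eq_zero]
    · exact I.zero_mem
    · intro n hn
      refine (weightedHomogeneousComponent_isWeightedHomogeneous
        (w := a) n f).weightedHomogeneousComponent_ne e ?_
      rintro rfl
      exact heM (Finset.mem_range.mp hn)

/-- Scaling preserves the cone of a variety. -/
lemma scale_mem {I : Ideal (MvPolynomial ρ ℂ)} (hhom : HI I) {x : ρ → ℂ}
    (hx : ∀ h ∈ I, eval x h = 0) (t : ℂ) : ∀ h ∈ I, eval (t • x) h = 0 := by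
  intro h hh
  obtain ⟨M, hM⟩ := exists_sum_wc (1 : ρ → ℕ) h
  rw [hM, map_sum]
  refine Finset.sum_eq_zero (fun n _ => ?_)
  have h1 : (homogeneousComponent n h).IsHomogeneous n := homogeneousComponent_isHomogeneous n h
  have h2 := eval_hscale_t2 h1 x t
  rw [hx _ (hhom h hh n), mul_zero] at h2
  exact h2

/-- **Hartshorne's conjecture for varieties stable under a one-parameter group.** -/
theorem core_torus {c : ℕ} (hc : 0 < c) (hN : 4 * c + 1 < Fintype.card ρ)
    (I : Ideal (MvPolynomial ρ ℂ)) (hI : I.IsPrime) (hhom : HI I)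
    (hdim : ((Fintype.card ρ : ℕ) : WithBot ℕ∞) ≤
      ringKrullDim (MvPolynomial ρ ℂ ⧸ I) + (c : WithBot ℕ∞))
    (hsm : ∀ p : ρ → ℂ, p ≠ 0 → (∀ h ∈ I, eval p h = 0) →
      ∃ q : Fin c → MvPolynomial ρ ℂ, (∀ k, q k ∈ I) ∧
        LinearIndependent ℂ (fun k => fun j => eval p (pderiv j (q k))))
    (hnd : ∀ l ∈ I, l.IsHomogeneous 1 → l = 0)
    (a : ρ → ℤ) (ha : ∃ b b', a b ≠ a b')
    (hT : ∀ t : ℂ, t ≠ 0 → ∀ x : ρ → ℂ, (∀ h ∈ I, eval x h = 0) →
      ∀ h ∈ I, eval (fun b => t ^ a b * x b) h = 0) :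
    c = 1 ∧ ∃ G : MvPolynomial ρ ℂ, G.IsHomogeneous 2 ∧ Ideal.span {G} = I := by
  classical
  obtain ⟨b₁, b₂, hb⟩ := ha
  obtain ⟨bm, -, hbm⟩ := Finset.exists_min_image (Finset.univ : Finset ρ) a ⟨b₁, Finset.mem_univ _⟩
  obtain ⟨bM, -, hbM⟩ := Finset.exists_max_image (Finset.univ : Finset ρ) a ⟨b₁, Finset.mem_univ _⟩
  set a' : ρ → ℕ := fun b => (a b - a bm).toNat with ha'
  have ha'a : ∀ b, (a' b : ℤ) = a b - a bm := fun b => by
    rw [ha']
    exact Int.toNat_of_nonneg (by have := hbm b (Finset.mem_univ _); omega)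
  obtain ⟨D, hS⟩ := exists_nsCone I hI hhom hdim hsm
  have hT' : ∀ t : ℂ, t ≠ 0 → ∀ x : ρ → ℂ, (∀ h ∈ I, eval x h = 0) →
      ∀ h ∈ I, eval (fun b => t ^ a' b * x b) h = 0 := by
    intro t ht x hx h hh
    have h1 := scale_mem hhom (hT t ht x hx) ((t ^ a bm)⁻¹) h hh
    rw [← h1]
    congr 2
    funext b
    rw [Pi.smul_apply, smul_eq_mul, ← mul_assoc, ← zpow_natCast, ha'a, zpow_sub₀ ht,
      div_eq_inv_mul]
  have hTC : TCone I c D a' (a' bM) :=
    { hS with
      hw := weighted_of_stable hI a' hT'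
      hnd := hnd
      hA := by
        have h1 := ha'a bM
        have h2 := hbM b₁ (Finset.mem_univ _)
        have h3 := hbM b₂ (Finset.mem_univ _)
        have h4 := hbm b₁ (Finset.mem_univ _)
        have h5 := hbm b₂ (Finset.mem_univ _)
        omega
      hle := fun b => by
        have h1 := ha'a bM
        have h2 := ha'a b
        have h3 := hbM b (Finset.mem_univ _)
        omega
      h0 := ⟨bm, by have h1 := ha'a bm; omega⟩
      hAA := ⟨bM, rfl⟩ }
  obtain ⟨x, w, hli, hline, hfree, hr⟩ := hTC.exists_free_line (by omega)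
  obtain ⟨G, e, hG, hGs, hGI⟩ := core_free c hc (by
    have h1 : c * (c - c - 1) = 0 := by
      rw [Nat.sub_self, Nat.zero_sub, mul_zero]
    omega) I hI hhom hdim hsm hnd hli hline hfree hr
  have he2 : ∀ k, e k = 2 := by
    have h1 : ∑ k : Fin c, 1 ≤ ∑ k, (e k - 1) :=
      Finset.sum_le_sum (fun k _ => by have := (hG k).1; omega)
    have h2 : ∑ k : Fin c, 1 = ∑ k, (e k - 1) := by
      refine le_antisymm h1 ?_
      simpa using hGs
    have h3 := (Finset.sum_eq_sum_iff_of_le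
      (fun k _ => by have := (hG k).1; omega : ∀ k ∈ Finset.univ, 1 ≤ e k - 1)).mp h2
    intro k
    have := h3 k (Finset.mem_univ _)
    omega
  have hc1 : c = 1 := by
    have := hTC.c_le_one G (fun k => by rw [← he2 k]; exact (hG k).2) hGI
    omega
  refine ⟨hc1, ?_⟩
  subst hc1
  refine ⟨G 0, by rw [← he2 0]; exact (hG 0).2, ?_⟩
  rw [← hGI]
  congr 1
  ext g
  constructor
  · intro h; exact ⟨0, h.symm⟩
  · rintro ⟨k, rfl⟩
    rw [Subsingleton.elim k 0]
    exact Set.mem_singleton _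

end FinalT

end Pool.Agent.Hartshorne
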