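import Mathlib
import Pool.Agent.HartN.PairEq

/-!
Local equations of the space of parametrized rational curves of degree `k` in a nonsingular
variety.
-/

namespace Pool.Agent.Hartshorne

open MvPolynomial

set_option linter.unusedSectionVars false

section Curves

variable {ρ : Type} [Fintype ρ] [DecidableEq ρ] {k : ℕ}

/-- The point of the curve with coefficients `x, q` at `z`. -/
noncomputable def crv (x : ρ → ℂ) (q : Fin k × ρ → ℂ) (z : Fin 2 → ℂ) : ρ → ℂ :=
  fun b => z 0 ^ k * x b + ∑ i : Fin k, z 0 ^ (k - 1 - (i : ℕ)) * z 1 ^ ((i : ℕ) + 1) * q (i, b)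

/-- Substitution of a point of the universal curve. -/
noncomputable def crvA (k : ℕ) (z : Fin 2 → ℂ) :
    MvPolynomial ρ ℂ →ₐ[ℂ] MvPolynomial (ρ ⊕ (Fin k × ρ)) ℂ :=
  aeval (fun b => C (z 0 ^ k) * X (Sum.inl b) +
    ∑ i : Fin k, C (z 0 ^ (k - 1 - (i : ℕ)) * z 1 ^ ((i : ℕ) + 1)) * X (Sum.inr (i, b)))

/-- Substitution of the universal point of the universal curve. -/
noncomputable def crvU (k : ℕ) :
    MvPolynomial ρ ℂ →ₐ[ℂ] MvPolynomial (ρ ⊕ (Fin k × ρ)) (MvPolynomial (Fin 2) ℂ) :=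
  aeval (fun b => C (X 0 ^ k) * X (Sum.inl b) +
    ∑ i : Fin k, C (X 0 ^ (k - 1 - (i : ℕ)) * X 1 ^ ((i : ℕ) + 1)) * X (Sum.inr (i, b)))

/-- Restriction to a curve. -/
noncomputable def crvR (x : ρ → ℂ) (q : Fin k × ρ → ℂ) :
    MvPolynomial ρ ℂ →ₐ[ℂ] MvPolynomial (Fin 2) ℂ :=
  aeval (fun b => X 0 ^ k * C (x b) +
    ∑ i : Fin k, X 0 ^ (k - 1 - (i : ℕ)) * X 1 ^ ((i : ℕ) + 1) * C (q (i, b)))

lemma eval_crvA (z : Fin 2 → ℂ) (p : ρ ⊕ (Fin k × ρ) → ℂ) (h : MvPolynomial ρ ℂ) :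
    eval p (crvA k z h) =
      eval (crv (fun b => p (Sum.inl b)) (fun j => p (Sum.inr j)) z) h := by
  rw [crvA, ← aeval_eq_eval, comp_aeval_apply, aeval_eq_eval]
  congr 2
  funext b
  simp only [map_add, map_mul, map_sum, aeval_eq_eval, eval_C, eval_X, crv]

lemma eval_crvR (x : ρ → ℂ) (q : Fin k × ρ → ℂ) (z : Fin 2 → ℂ) (h : MvPolynomial ρ ℂ) :
    eval z (crvR x q h) = eval (crv x q z) h := by
  rw [crvR, ← aeval_eq_eval, comp_aeval_apply, aeval_eq_eval]
  congr 2
  funext b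
  simp only [map_add, map_mul, map_sum, map_pow, aeval_eq_eval, eval_C, eval_X, crv]

lemma map_crvU (z : Fin 2 → ℂ) (h : MvPolynomial ρ ℂ) :
    MvPolynomial.map (eval z) (crvU k h) = crvA k z h := by
  have h1 : (MvPolynomial.map (eval z)).comp ((crvU k : MvPolynomial ρ ℂ →ₐ[ℂ]
      MvPolynomial (ρ ⊕ (Fin k × ρ)) (MvPolynomial (Fin 2) ℂ)) :
      MvPolynomial ρ ℂ →+* MvPolynomial (ρ ⊕ (Fin k × ρ)) (MvPolynomial (Fin 2) ℂ)) =
      ((crvA k z : MvPolynomial ρ ℂ →ₐ[ℂ] MvPolynomial (ρ ⊕ (Fin k × ρ)) ℂ) :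
      MvPolynomial ρ ℂ →+* MvPolynomial (ρ ⊕ (Fin k × ρ)) ℂ) := by
    apply MvPolynomial.ringHom_ext
    · intro a
      have h2 : (crvU k : MvPolynomial ρ ℂ →ₐ[ℂ]
          MvPolynomial (ρ ⊕ (Fin k × ρ)) (MvPolynomial (Fin 2) ℂ)) (C a) = C (C a) := by
        rw [← algebraMap_eq, AlgHom.commutes]
        rfl
      have h3 : (crvA k z : MvPolynomial ρ ℂ →ₐ[ℂ] MvPolynomial (ρ ⊕ (Fin k × ρ)) ℂ) (C a) =
          C a := by
        rw [← algebraMap_eq, AlgHom.commutes]
        rfl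
      rw [RingHom.comp_apply, RingHom.coe_coe, RingHom.coe_coe, h2, h3, map_C, eval_C]
    · intro i
      rw [RingHom.comp_apply, RingHom.coe_coe, RingHom.coe_coe, crvU, crvA, aeval_X, aeval_X,
        map_add, map_mul, map_sum, map_C, map_X, map_pow, eval_X]
      congr 1
      refine Finset.sum_congr rfl (fun j _ => ?_)
      rw [map_mul, map_C, map_X, map_mul, map_pow, map_pow, eval_X, eval_X]
  exact RingHom.congr_fun h1 h

lemma crv_smul (x : ρ → ℂ) (q : Fin k × ρ → ℂ) (t : ℂ) (z : Fin 2 → ℂ) :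
    crv x q (t • z) = t ^ k • crv x q z := by
  funext b
  simp only [crv, Pi.smul_apply, smul_eq_mul]
  rw [mul_add, Finset.mul_sum, mul_pow, mul_assoc]
  congr 1
  refine Finset.sum_congr rfl (fun i _ => ?_)
  have h1 : t ^ k = t ^ (k - 1 - (i : ℕ)) * t ^ ((i : ℕ) + 1) := by
    rw [← pow_add]
    congr 1
    have := i.2
    omega
  rw [h1, mul_pow, mul_pow]
  ring

/-- The value of a functional along the curve, as a binary form. -/
noncomputable def lamC (lam : MvPolynomial (ρ ⊕ (Fin k × ρ)) ℂ →ₗ[ℂ] ℂ)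
    (h : MvPolynomial ρ ℂ) : MvPolynomial (Fin 2) ℂ :=
  ∑ m ∈ (crvU k h).support, coeff m (crvU k h) * C (lam (monomial m 1))

lemma eval_lamC (lam : MvPolynomial (ρ ⊕ (Fin k × ρ)) ℂ →ₗ[ℂ] ℂ) (h : MvPolynomial ρ ℂ)
    (z : Fin 2 → ℂ) : eval z (lamC lam h) = lam (crvA k z h) := by
  rw [← map_crvU, lamC]
  conv_rhs => rw [← support_sum_monomial_coeff (crvU k h), map_sum, map_sum]
  rw [map_sum]
  refine Finset.sum_congr rfl (fun m _ => ?_)
  rw [map_monomial, map_mul, eval_C]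
  have h1 : (monomial m (eval z (coeff m (crvU k h))) : MvPolynomial (ρ ⊕ (Fin k × ρ)) ℂ) =
      (eval z (coeff m (crvU k h))) • monomial m 1 := by
    rw [smul_monomial, smul_eq_mul, mul_one]
  rw [h1, map_smul, smul_eq_mul]

/-- The ideal of the curves of degree `k` contained in the variety. -/
noncomputable def crvI (I : Ideal (MvPolynomial ρ ℂ)) (k : ℕ) :
    Ideal (MvPolynomial (ρ ⊕ (Fin k × ρ)) ℂ) :=
  Ideal.span {g | ∃ z : Fin 2 → ℂ, ∃ h ∈ I, g = crvA k z h}

end Curves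

section CurveEq

variable {ρ : Type} [Fintype ρ] [DecidableEq ρ] {I : Ideal (MvPolynomial ρ ℂ)} {c D k : ℕ}

theorem NsCone.lam_curve_zero (h : NsCone I c D) {x : ρ → ℂ} {q : Fin k × ρ → ℂ}
    (hne : ∀ z ≠ 0, crv x q z ≠ 0) (hvan : ∀ z, ∀ g ∈ I, eval (crv x q z) g = 0)
    {f : Fin c → ℕ} {ψ : Fin c → ρ → MvPolynomial (Fin 2) ℂ}
    (hψ : ∀ i, HomRow (f i) (ψ i))
    (hψE : ∀ z ≠ 0, ∀ i, rowEval z (ψ i) ∈ gradSpan I (crv x q z))
    (hψs : ∀ z ≠ 0, Submodule.span ℂ (Set.range fun i => rowEval z (ψ i)) =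
      gradSpan I (crv x q z))
    (G : Fin c → ℕ → MvPolynomial ρ ℂ)
    (hG : ∀ i l, G i l ∈ I ∧ grad (crv x q (pt (l : ℂ))) (G i l) =
      rowEval (pt (l : ℂ)) (ψ i))
    (lam : MvPolynomial (ρ ⊕ (Fin k × ρ)) ℂ →ₗ[ℂ] ℂ)
    (hlam1 : ∀ g b, eval (Sum.elim x q) g = 0 → b ∈ crvI I k → lam (g * b) = 0)
    (hlam2 : ∀ i (l : ℕ), l < f i + k + 1 → lam (crvA k (pt (l : ℂ)) (G i l)) = 0) :
    ∀ b ∈ crvI I k, lam b = 0 := by
  classical
  have hI := h.hI
  have hgood : ∀ z ≠ 0, GoodPt I c D (crv x q z) := fun z hz =>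
    h.good _ (hne z hz) (hvan z)
  have hev : ∀ z g, eval (Sum.elim x q) (crvA k z g) = eval (crv x q z) g := by
    intro z g
    rw [eval_crvA]
    rfl
  have hmem : ∀ g ∈ I, ∀ z, crvA k z g ∈ crvI I k := fun g hg z =>
    Ideal.subset_span ⟨z, g, hg, rfl⟩
  -- multiplicativity
  have hmul : ∀ z g b, b ∈ I → lam (crvA k z (g * b)) =
      eval (crv x q z) g * lam (crvA k z b) := by
    intro z g b hb
    have h1 : crvA k z (g * b) = (crvA k z g - C (eval (crv x q z) g)) *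
        crvA k z b + (eval (crv x q z) g) • crvA k z b := by
      rw [map_mul, smul_eq_C_mul]
      ring
    rw [h1, map_add, map_smul, smul_eq_mul, hlam1 _ _ _ (hmem b hb z), zero_add]
    rw [map_sub, hev, eval_C, sub_self]
  -- gradients
  have hzero : ∀ z, z ≠ 0 → ∀ g ∈ I, grad (crv x q z) g = 0 →
      lam (crvA k z g) = 0 := by
    intro z hz g hg hg0
    obtain ⟨⟨w', hw, hwli⟩, -⟩ := hgood z hz
    obtain ⟨q', hq, hqm⟩ := (point_case I hI (crv x q z) (hvan z) c w'
      (fun k => (hw k).1) hwli).2 h.hdim g hg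
    obtain ⟨t, ht⟩ := (Submodule.mem_span_range_iff_exists_fun _).mp hqm
    have h1 : ∑ k, eval (crv x q z) (t k) • grad (crv x q z) (w' k) = 0 := by
      have h2 := congrArg (grad (crv x q z)) ht
      rw [map_sum, grad_mul, hg0, smul_zero, zero_add, hvan z g hg, zero_smul] at h2
      rw [← h2]
      refine Finset.sum_congr rfl (fun k _ => ?_)
      rw [smul_eq_mul, grad_mul, hvan z (w' k) (hw k).1, zero_smul, add_zero]
    have h2 := Fintype.linearIndependent_iff.mp hwli _ h1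
    have h3 : eval (crv x q z) q' * lam (crvA k z g) = 0 := by
      rw [← hmul z q' g hg, ← ht, map_sum, map_sum]
      refine Finset.sum_eq_zero (fun k _ => ?_)
      rw [smul_eq_mul, hmul z _ _ (hw k).1, h2 k, zero_mul]
    exact (mul_eq_zero.mp h3).resolve_left hq
  -- the sections
  have hex : ∀ z, z ≠ 0 → ∀ i, ∃ g ∈ I, g.IsHomogeneous D ∧
      grad (crv x q z) g = rowEval z (ψ i) := fun z hz i =>
    exists_grad_eq (hgood z hz) (hψE z hz i)
  set H : (Fin 2 → ℂ) → Fin c → MvPolynomial ρ ℂ := fun z i =>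
    if hz : z ≠ 0 then (hex z hz i).choose else 0 with hH
  have hHI : ∀ z i, H z i ∈ I := by
    intro z i
    simp only [hH]
    split_ifs with hz
    · exact (hex z hz i).choose_spec.1
    · exact I.zero_mem
  have hHD : ∀ z i, (H z i).IsHomogeneous D := by
    intro z i
    simp only [hH]
    split_ifs with hz
    · exact (hex z hz i).choose_spec.2.1
    · exact isHomogeneous_zero _ _ _
  have hHg : ∀ z, z ≠ 0 → ∀ i, grad (crv x q z) (H z i) = rowEval z (ψ i) := by
    intro z hz i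
    simp only [hH]
    rw [dif_pos hz]
    exact (hex z hz i).choose_spec.2.2
  have hsub : ∀ g : MvPolynomial ρ ℂ, g ∈ I → ∀ t : ℂ, t • g ∈ I := by
    intro g hg t
    rw [smul_eq_C_mul]
    exact Ideal.mul_mem_left _ _ hg
  -- Hartogs
  have hhart : ∀ i, ∃ δ : MvPolynomial (Fin 2) ℂ, ∀ z, z ≠ 0 →
      lam (crvA k z (H z i)) = eval z δ := by
    intro i
    refine hartogs (by simp) _ ?_
    intro z₀ hz₀
    obtain ⟨⟨w', hw, hwli⟩, -⟩ := hgood z₀ hz₀
    obtain ⟨T, hT⟩ := exists_minor _ hwli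
    set P : Fin c → ρ → MvPolynomial (Fin 2) ℂ := fun j b => crvR x q (pderiv b (w' j)) with hP
    have hPev : ∀ z j, rowEval z (P j) = grad (crv x q z) (w' j) := by
      intro z j
      funext b
      rw [rowEval_apply, hP, eval_crvR, grad_apply]
    refine ⟨∑ k, (Matrix.cramer (Matrix.of fun i l => P i (T l)).transpose
      (fun l => ψ i (T l))) k * lamC lam (w' k), (Matrix.of fun i l => P i (T l)).det,
      ?_, ?_⟩
    · rw [eval_det]
      have h1 : (Matrix.of fun i l => eval z₀ (Matrix.of (fun i l => P i (T l)) i l)) =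
          Matrix.of fun i l => grad (crv x q z₀) (w' i) (T l) := by
        ext i l
        rw [Matrix.of_apply, Matrix.of_apply, Matrix.of_apply, ← hPev]
        rfl
      rw [h1]
      exact hT
    · intro z hz _
      have h1 : mm (fun k => rowEval z (P k)) T (rowEval z (ψ i)) = 0 := by
        refine mm_of_mem (hgood z hz).2 _ (fun k => ?_) T (hψE z hz i)
        rw [hPev]
        exact grad_mem_gradSpan (hw k).1 _
      rw [← rowEval_minorMap, minorMap, rowEval_sub, rowEval_smul, rowEval_sum] at h1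
      simp only [rowEval_smul] at h1
      have h2 : grad (crv x q z) (eval z (Matrix.of fun i l => P i (T l)).det • H z i -
          ∑ k, eval z ((Matrix.cramer (Matrix.of fun i l => P i (T l)).transpose
      (fun l => ψ i (T l))) k) • w' k) = 0 := by
        rw [map_sub, map_smul, hHg z hz, map_sum, ← h1]
        congr 1
        refine Finset.sum_congr rfl (fun k _ => ?_)
        rw [map_smul, hPev]
      have h3 := hzero z hz _ (I.sub_mem (hsub _ (hHI z i) _)
        (Ideal.sum_mem _ (fun k _ => hsub _ (hw k).1 _))) h2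
      rw [map_sub, map_smul, map_sum, map_sub, map_smul, map_sum, sub_eq_zero, smul_eq_mul] at h3
      rw [mul_comm, h3, map_sum]
      refine Finset.sum_congr rfl (fun k _ => ?_)
      rw [map_smul, map_smul, smul_eq_mul, map_mul, eval_lamC]
  choose δ hδ using hhart
  -- homogeneity
  have hδh : ∀ i, (δ i).IsHomogeneous (f i + k) := by
    intro i
    refine isHomogeneous_of_scaling (fun z hz t ht => ?_) 0
    have htz : t • z ≠ 0 := smul_ne_zero ht hz
    rw [← hδ i _ htz, ← hδ i z hz]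
    have hcomb : crv x q (t • z) = t ^ k • crv x q z := crv_smul x q t z
    have h1 : grad (crv x q (t • z)) ((t ^ k) ^ (D - 1) • H (t • z) i - t ^ f i • H z i) =
        0 := by
      rw [map_sub, (grad (crv x q (t • z))).map_smul,
        (grad (crv x q (t • z))).map_smul, hHg _ htz]
      have h2 : grad (crv x q (t • z)) (H z i) = (t ^ k) ^ (D - 1) • rowEval z (ψ i) := by
        rw [← hHg z hz i, hcomb]
        funext b
        rw [grad_apply, Pi.smul_apply, grad_apply, smul_eq_mul,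
          eval_smul_of_isHomogeneous (hHD z i).pderiv]
      have h3 : rowEval (t • z) (ψ i) = t ^ f i • rowEval z (ψ i) := by
        funext b
        rw [rowEval_apply, Pi.smul_apply, rowEval_apply, smul_eq_mul,
          eval_smul_of_isHomogeneous (hψ i b)]
      rw [h2, h3, smul_smul, smul_smul, mul_comm, sub_self]
    have h2 := hzero _ htz _ (I.sub_mem (hsub _ (hHI _ i) _) (hsub _ (hHI z i) _)) h1
    rw [map_sub, map_smul, map_smul, map_sub, map_smul, map_smul, smul_eq_mul, smul_eq_mul,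
      sub_eq_zero] at h2
    have h3 : lam (crvA k (t • z) (H z i)) = (t ^ k) ^ D * lam (crvA k z (H z i)) := by
      have h4 : crvA k (t • z) (H z i) = (t ^ k) ^ D • crvA k z (H z i) := by
        apply MvPolynomial.funext
        intro v
        rw [smul_eq_C_mul, map_mul, eval_C, eval_crvA, eval_crvA, crv_smul,
          eval_smul_of_isHomogeneous (hHD z i)]
      rw [h4, map_smul, smul_eq_mul]
    rw [h3] at h2
    have hDpos := h.hD
    have h5 : (t ^ k) ^ (D - 1) * lam (crvA k (t • z) (H (t • z) i)) =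
        (t ^ k) ^ (D - 1) * (t ^ (f i + k) * lam (crvA k z (H z i))) := by
      rw [h2]
      have h6 : (t ^ k) ^ D = (t ^ k) ^ (D - 1) * t ^ k := by
        rw [← pow_succ, Nat.sub_add_cancel hDpos]
      rw [h6]
      ring
    exact mul_left_cancel₀ (pow_ne_zero _ (pow_ne_zero _ ht)) h5
  -- vanishing
  have hδ0 : ∀ i, δ i = 0 := by
    intro i
    apply form_zero (hδh i)
    intro l hl
    have hpt : (pt (l : ℂ) : Fin 2 → ℂ) ≠ 0 := by
      intro h1
      exact one_ne_zero (congrFun h1 0)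
    rw [← hδ i _ hpt]
    have h1 := hzero _ hpt (H (pt (l : ℂ)) i - G i l) (I.sub_mem (hHI _ i) (hG i l).1) (by
      rw [map_sub, hHg _ hpt, (hG i l).2, sub_self])
    rw [map_sub, map_sub, hlam2 i l (by omega), sub_zero] at h1
    exact h1
  have hall : ∀ z, z ≠ 0 → ∀ g ∈ I, lam (crvA k z g) = 0 := by
    intro z hz g hg
    have h1 := grad_mem_gradSpan hg (crv x q z)
    rw [← hψs z hz] at h1
    obtain ⟨t, ht⟩ := (Submodule.mem_span_range_iff_exists_fun _).mp h1
    have h2 := hzero z hz (g - ∑ i, t i • H z i) (I.sub_mem hg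
      (Ideal.sum_mem _ (fun i _ => hsub _ (hHI z i) _))) (by
      rw [map_sub, map_sum, ← ht, sub_eq_zero]
      exact Finset.sum_congr rfl (fun i _ => by rw [map_smul, hHg z hz]))
    rw [map_sub, map_sum, map_sub, map_sum, sub_eq_zero] at h2
    rw [h2]
    refine Finset.sum_eq_zero (fun i _ => ?_)
    rw [map_smul, map_smul, hδ i z hz, hδ0, map_zero, smul_zero]
  have hall' : ∀ z, ∀ g ∈ I, lam (crvA k z g) = 0 := by
    intro z g hg
    have h1 : lamC lam g = 0 := by
      apply eq_zero_of_eval (X_ne_zero (0 : Fin 2) : (X 0 : MvPolynomial (Fin 2) ℂ) ≠ 0)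
      intro z' hz'
      rw [eval_X] at hz'
      rw [eval_lamC]
      refine hall z' ?_ g hg
      rintro rfl
      exact hz' rfl
    rw [← eval_lamC, h1, map_zero]
  intro b hb
  refine Submodule.span_induction (p := fun b _ => lam b = 0) ?_ ?_ ?_ ?_ hb
  · rintro _ ⟨z, g, hg, rfl⟩
    exact hall' z g hg
  · exact map_zero _
  · intro b b' _ _ hb hb'
    rw [map_add, hb, hb', add_zero]
  · intro g b hb hb0
    have h4 : g • b = (g - C (eval (Sum.elim x q) g)) * b + (eval (Sum.elim x q) g) • b := by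
      rw [smul_eq_mul, smul_eq_C_mul]; ring
    rw [h4, map_add, hlam1 _ _ (by rw [map_sub, eval_C, sub_self]) hb, map_smul, hb0, smul_zero,
      add_zero]

/-- **The deformations of a rational curve.** -/
theorem NsCone.exists_curve_prime (h : NsCone I c D) {x : ρ → ℂ} {q : Fin k × ρ → ℂ}
    (hne : ∀ z ≠ 0, crv x q z ≠ 0) (hvan : ∀ z, ∀ g ∈ I, eval (crv x q z) g = 0)
    {f : Fin c → ℕ} {ψ : Fin c → ρ → MvPolynomial (Fin 2) ℂ}
    (hψ : ∀ i, HomRow (f i) (ψ i))
    (hψE : ∀ z ≠ 0, ∀ i, rowEval z (ψ i) ∈ gradSpan I (crv x q z))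
    (hψli : ∀ z ≠ 0, LinearIndependent ℂ fun i => rowEval z (ψ i)) :
    ∃ P : Ideal (MvPolynomial (ρ ⊕ (Fin k × ρ)) ℂ), P.IsPrime ∧
      (∀ g ∈ P, eval (Sum.elim x q) g = 0) ∧ crvI I k ≤ P ∧
      (((k + 1) * Fintype.card ρ : ℕ) : WithBot ℕ∞) ≤
        ringKrullDim (MvPolynomial (ρ ⊕ (Fin k × ρ)) ℂ ⧸ P) +
          ((∑ i, f i + c * (k + 1) : ℕ) : WithBot ℕ∞) := by
  classical
  have hgood : ∀ z ≠ 0, GoodPt I c D (crv x q z) := fun z hz =>
    h.good _ (hne z hz) (hvan z)
  have hpt : ∀ t : ℂ, (pt t : Fin 2 → ℂ) ≠ 0 := by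
    intro t h1
    exact one_ne_zero (congrFun h1 0)
  have hψs : ∀ z ≠ 0, Submodule.span ℂ (Set.range fun i => rowEval z (ψ i)) =
      gradSpan I (crv x q z) :=
    fun z hz => span_eq_of_li (hgood z hz).2 _ (hψli z hz) (hψE z hz)
  choose G hGI hGD hGg using fun i (l : ℕ) =>
    exists_grad_eq (hgood _ (hpt (l : ℂ))) (hψE _ (hpt (l : ℂ)) i)
  -- the equations
  set e' : (Σ i : Fin c, Fin (f i + k + 1)) → MvPolynomial (ρ ⊕ (Fin k × ρ)) ℂ :=
    fun p => crvA k (pt ((p.2 : ℕ) : ℂ)) (G p.1 p.2) with he'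
  have he'I : ∀ p, e' p ∈ crvI I k := fun p => Ideal.subset_span ⟨_, _, hGI _ _, rfl⟩
  have hcv : ∀ g ∈ crvI I k, eval (Sum.elim x q) g = 0 := by
    have h1 : crvI I k ≤ RingHom.ker (eval (Sum.elim x q)) := by
      rw [crvI, Ideal.span_le]
      rintro _ ⟨z, g, hg, rfl⟩
      show eval (Sum.elim x q) (crvA k z g) = 0
      rw [eval_crvA]
      exact hvan z g hg
    exact fun g hg => h1 hg
  -- Nakayama
  set N : Ideal (MvPolynomial (ρ ⊕ (Fin k × ρ)) ℂ) := Ideal.span (Set.range e') with hN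
  set m : Ideal (MvPolynomial (ρ ⊕ (Fin k × ρ)) ℂ) :=
    RingHom.ker (eval (Sum.elim x q)) with hm
  have hle : crvI I k ≤ N ⊔ m • crvI I k := by
    intro b hb
    by_contra hbn
    obtain ⟨lam, hlamb, hlam⟩ := Submodule.exists_le_ker_of_notMem
      (p := (N ⊔ m • crvI I k).restrictScalars ℂ) (v := b) hbn
    apply hlamb
    refine h.lam_curve_zero hne hvan hψ hψE hψs G (fun i l => ⟨hGI i l, hGg i l⟩) lam ?_ ?_ b hb
    · intro g b hg hb
      exact hlam (Submodule.mem_sup_right (Submodule.smul_mem_smul hg hb))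
    · intro i l hl
      exact hlam (Submodule.mem_sup_left (Ideal.subset_span ⟨⟨i, ⟨l, hl⟩⟩, rfl⟩))
  obtain ⟨r, hr, hr2⟩ := Submodule.exists_sub_one_mem_and_smul_le_of_fg_of_le_sup
    (IsNoetherian.noetherian (crvI I k)) le_rfl hle
  have hr0 : eval (Sum.elim x q) r ≠ 0 := by
    have h1 : eval (Sum.elim x q) (r - 1) = 0 := hr
    rw [map_sub, map_one, sub_eq_zero] at h1
    rw [h1]
    exact one_ne_zero
  obtain ⟨P, hP, heP, hPp, hdim⟩ := exists_prime_at e' (Sum.elim x q) (fun p => hcv _ (he'I p))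
  refine ⟨P, hP, hPp, ?_, ?_⟩
  · intro g hg
    have h1 : r * g ∈ N := hr2 (Submodule.smul_mem_pointwise_smul _ r _ hg)
    have h2 : N ≤ P := by
      rw [hN, Ideal.span_le]
      rintro _ ⟨p, rfl⟩
      exact heP p
    refine (hP.mem_or_mem (h2 h1)).resolve_left (fun h3 => hr0 (hPp r h3))
  · have h1 : Fintype.card (ρ ⊕ (Fin k × ρ)) = (k + 1) * Fintype.card ρ := by
      rw [Fintype.card_sum, Fintype.card_prod, Fintype.card_fin]
      ring
    have h2 : Fintype.card (Σ i : Fin c, Fin (f i + k + 1)) = ∑ i, f i + c * (k + 1) := by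
      rw [Fintype.card_sigma]
      simp only [Fintype.card_fin]
      have h3 : ∀ i, f i + k + 1 = f i + (k + 1) := fun i => by omega
      simp only [h3]
      rw [Finset.sum_add_distrib, Finset.sum_const, Finset.card_univ, Fintype.card_fin,
        smul_eq_mul]
    rw [h1, h2] at hdim
    exact hdim

end CurveEq

end Pool.Agent.Hartshorne
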