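import Mathlib
import Pool.Agent.HartN.LineS

/-!
Coefficients of the sections of the gradient bundle along a free line, near the point opposite
to the vertex.
-/

namespace Pool.Agent.Hartshorne

open MvPolynomial

set_option linter.unusedSectionVars false

section Jets

variable {τ : Type*} [Fintype τ]

/-- Dehomogenisation at the point `(0, 1)`. -/
noncomputable def dz : MvPolynomial (Fin 2) ℂ →ₐ[ℂ] Polynomial ℂ :=
  MvPolynomial.aeval ![Polynomial.X, 1]

lemma dz_X0 : dz (X 0) = Polynomial.X := by simp [dz]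

lemma dz_X1 : dz (X 1) = 1 := by simp [dz]

lemma dz_C (a : ℂ) : dz (C a) = Polynomial.C a := by
  rw [dz, aeval_C]
  rfl

lemma coeff_dz_arr (N : ℕ) (q : Fin (N + 1) × τ → ℂ) (b : τ) (k : ℕ) (hk : k ≤ N) :
    (dz (arr (N + 1) q b)).coeff k = q (⟨N - k, by omega⟩, b) := by
  rw [arr_apply, map_sum, Polynomial.finsetSum_coeff]
  rw [Finset.sum_eq_single (⟨N - k, by omega⟩ : Fin (N + 1))]
  · rw [map_mul, map_mul, map_pow, map_pow, dz_C, dz_X0, dz_X1, one_pow, mul_one,
      Polynomial.coeff_C_mul_X_pow, if_pos]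
    simp only
    omega
  · intro j _ hj
    rw [map_mul, map_mul, map_pow, map_pow, dz_C, dz_X0, dz_X1, one_pow, mul_one,
      Polynomial.coeff_C_mul_X_pow, if_neg]
    intro h
    apply hj
    apply Fin.ext
    have := j.2
    simp only
    omega
  · intro h; exact absurd (Finset.mem_univ _) h

lemma coeff_dz_arr_of_lt (N : ℕ) (q : Fin (N + 1) × τ → ℂ) (b : τ) (k : ℕ) (hk : N < k) :
    (dz (arr (N + 1) q b)).coeff k = 0 := by
  rw [arr_apply, map_sum, Polynomial.finsetSum_coeff]
  refine Finset.sum_eq_zero (fun j _ => ?_)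
  rw [map_mul, map_mul, map_pow, map_pow, dz_C, dz_X0, dz_X1, one_pow, mul_one,
    Polynomial.coeff_C_mul_X_pow, if_neg]
  have := j.2
  omega

/-- The coefficients of order `e` at the point `(0, 1)` of the sections of degree `N`. -/
noncomputable def Jsp (E : (Fin 2 → ℂ) → Submodule ℂ (τ → ℂ)) (N e : ℕ) :
    Submodule ℂ (τ → ℂ) :=
  (KM E (N + 1)).map (LinearMap.funLeft ℂ ℂ
    (fun b => ((⟨N - e, Nat.lt_succ_of_le (Nat.sub_le N e)⟩ : Fin (N + 1)), b)))

variable {c : ℕ} {Γ : Submodule (MvPolynomial (Fin 2) ℂ) (τ → MvPolynomial (Fin 2) ℂ)}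
  {E : (Fin 2 → ℂ) → Submodule ℂ (τ → ℂ)}

/-- The coefficients of the sections in terms of the coefficients of a homogeneous basis. -/
theorem Jsp_eq (hb : IsBundle c Γ E) {f : Fin c → ℕ}
    (κ : (Σ i : Fin c, Fin (f i + 1)) → (τ → ℂ))
    (hE : ∀ i, InE E (arr (f i + 1) (fun p => κ ⟨i, p.1⟩ p.2)))
    (hli : ∀ z ≠ 0, LinearIndependent ℂ
      (fun i => rowEval z (arr (f i + 1) (fun p => κ ⟨i, p.1⟩ p.2))))
    {N e : ℕ} (hN : ∀ i, f i + e ≤ N) (he : e ≤ N) :
    Jsp E N e = Submodule.span ℂ (Set.range fun p :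
      {p : (Σ i : Fin c, Fin (f i + 1)) // f p.1 ≤ (p.2 : ℕ) + e} => κ p.1) := by
  classical
  have hhom : ∀ i, HomRow (f i) (arr (f i + 1) (fun p => κ ⟨i, p.1⟩ p.2)) := by
    intro i
    have h1 := homRow_arr (f i + 1) (fun p : Fin (f i + 1) × τ => κ ⟨i, p.1⟩ p.2)
    rwa [Nat.add_sub_cancel] at h1
  apply le_antisymm
  · rintro _ ⟨P, hP, rfl⟩
    obtain ⟨a, ha⟩ := (Submodule.mem_span_range_iff_exists_fun _).mp
      (mem_span_of_li hb _ hhom hE hli (mem_KM.mp hP))
    have h1 : LinearMap.funLeft ℂ ℂ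
        (fun b => ((⟨N - e, Nat.lt_succ_of_le (Nat.sub_le N e)⟩ : Fin (N + 1)), b)) P =
        ∑ i, ∑ y ∈ Finset.HasAntidiagonal.antidiagonal e, (dz (a i)).coeff y.1 •
          (fun b => (dz (arr (f i + 1) (fun p => κ ⟨i, p.1⟩ p.2) b)).coeff y.2) := by
      funext b
      rw [Finset.sum_apply]
      simp only [Finset.sum_apply, Pi.smul_apply, smul_eq_mul]
      have h2 := coeff_dz_arr N P b e he
      have h3 : LinearMap.funLeft ℂ ℂ
        (fun b => ((⟨N - e, Nat.lt_succ_of_le (Nat.sub_le N e)⟩ : Fin (N + 1)), b)) P b =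
        P (⟨N - e, by omega⟩, b) := rfl
      rw [h3, ← h2, ← ha, Finset.sum_apply, map_sum, Polynomial.finsetSum_coeff]
      refine Finset.sum_congr rfl (fun i _ => ?_)
      rw [Pi.smul_apply, smul_eq_mul, map_mul, Polynomial.coeff_mul]
    rw [h1]
    refine Submodule.sum_mem _ (fun i _ => Submodule.sum_mem _ (fun y hy => ?_))
    apply Submodule.smul_mem
    have hye : y.2 ≤ e := by
      have := Finset.HasAntidiagonal.mem_antidiagonal.mp hy
      omega
    by_cases hyf : y.2 ≤ f i
    · apply Submodule.subset_span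
      refine ⟨⟨⟨i, ⟨f i - y.2, by omega⟩⟩, ?_⟩, ?_⟩
      · simp only
        omega
      · funext b
        rw [coeff_dz_arr (f i) _ b y.2 hyf]
    · have h2 : (fun b => (dz (arr (f i + 1) (fun p => κ ⟨i, p.1⟩ p.2) b)).coeff y.2) = 0 := by
        funext b
        rw [coeff_dz_arr_of_lt (f i) _ b y.2 (by omega)]
        rfl
      rw [h2]
      exact Submodule.zero_mem _
  · rw [Submodule.span_le]
    rintro _ ⟨⟨⟨i, l⟩, hl⟩, rfl⟩
    simp only at hl
    have hl2 := l.2
    have hNi := hN i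
    set r : τ → MvPolynomial (Fin 2) ℂ := (X 0 ^ (e + (l : ℕ) - f i) * X 1 ^ (N - e - (l : ℕ)) :
      MvPolynomial (Fin 2) ℂ) • arr (f i + 1) (fun p => κ ⟨i, p.1⟩ p.2) with hr
    have hrh : HomRow (N + 1 - 1) r := by
      have h1 := HomRow.smul (((isHomogeneous_X ℂ (0 : Fin 2)).pow (e + (l : ℕ) - f i)).mul
        ((isHomogeneous_X ℂ (1 : Fin 2)).pow (N - e - (l : ℕ)))) (hhom i)
      have h2 : 1 * (e + (l : ℕ) - f i) + 1 * (N - e - (l : ℕ)) + f i = N + 1 - 1 := by omega
      rwa [h2] at h1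
    obtain ⟨q, hq⟩ := exists_arr (Nat.succ_pos N) hrh
    refine ⟨q, ?_, ?_⟩
    · rw [SetLike.mem_coe, mem_KM, hq]
      exact (hE i).smul _
    · funext b
      have h1 := coeff_dz_arr N q b e he
      have h3 : LinearMap.funLeft ℂ ℂ
        (fun b => ((⟨N - e, Nat.lt_succ_of_le (Nat.sub_le N e)⟩ : Fin (N + 1)), b)) q b =
        q (⟨N - e, by omega⟩, b) := rfl
      rw [h3, ← h1, hq, hr, Pi.smul_apply, smul_eq_mul, map_mul, map_mul, map_pow, map_pow,
        dz_X0, dz_X1, one_pow, mul_one, Polynomial.coeff_X_pow_mul', if_pos (by omega)]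
      have h4 : e - (e + (l : ℕ) - f i) = f i - (l : ℕ) := by omega
      rw [h4, coeff_dz_arr (f i) _ b _ (Nat.sub_le _ _)]
      simp only
      congr 2
      have h5 : (⟨f i - (f i - (l : ℕ)), by omega⟩ : Fin (f i + 1)) = l :=
        Fin.ext (by simp only; omega)
      rw [h5]

/-- Counting coefficients. -/
lemma sum_min_add (f : Fin c → ℕ) (e : ℕ) :
    ∑ i, min (f i) e + ∑ k ∈ Finset.range e, (Finset.univ.filter (fun i => f i ≤ k)).card =
      c * e := by
  induction e with
  | zero => simp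
  | succ e ih =>
    have h1 : ∑ i, min (f i) (e + 1) = ∑ i, min (f i) e +
        (Finset.univ.filter (fun i => e < f i)).card := by
      rw [Finset.card_filter, ← Finset.sum_add_distrib]
      refine Finset.sum_congr rfl (fun i _ => ?_)
      split_ifs with h
      · omega
      · omega
    have h2 : (Finset.univ.filter (fun i => e < f i)).card +
        (Finset.univ.filter (fun i => f i ≤ e)).card = c := by
      have h3 := Finset.card_filter_add_card_filter_not (s := (Finset.univ : Finset (Fin c)))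
        (fun i => e < f i)
      rw [Finset.card_univ, Fintype.card_fin] at h3
      have h4 : (Finset.univ.filter (fun i => f i ≤ e)) =
          Finset.univ.filter (fun i => ¬ e < f i) := by
        ext i
        simp
      rw [h4]
      exact h3
    rw [Finset.sum_range_succ, h1, mul_add, mul_one, ← ih]
    omega

lemma card_top (f : Fin c → ℕ) (e : ℕ) :
    Fintype.card {p : (Σ i : Fin c, Fin (f i + 1)) // f p.1 ≤ (p.2 : ℕ) + e} =
      ∑ i, (min (f i) e + 1) := by
  have h1 : {p : (Σ i : Fin c, Fin (f i + 1)) // f p.1 ≤ (p.2 : ℕ) + e} ≃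
      (Σ i : Fin c, Fin (min (f i) e + 1)) :=
    { toFun := fun p => ⟨p.1.1, ⟨f p.1.1 - (p.1.2 : ℕ), by
        have := p.2
        have := p.1.2.2
        omega⟩⟩
      invFun := fun p => ⟨⟨p.1, ⟨f p.1 - (p.2 : ℕ), by omega⟩⟩, by
        have := p.2.2
        simp only
        omega⟩
      left_inv := by
        rintro ⟨⟨i, l⟩, hl⟩
        have := l.2
        simp only [Subtype.mk.injEq, Sigma.mk.injEq, heq_eq_eq, true_and]
        apply Fin.ext
        simp only
        omega
      right_inv := by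
        rintro ⟨i, l⟩
        have := l.2
        simp only [Sigma.mk.injEq, heq_eq_eq, true_and]
        apply Fin.ext
        simp only
        omega }
  rw [Fintype.card_congr h1, Fintype.card_sigma]
  exact Finset.sum_congr rfl (fun i _ => Fintype.card_fin _)

/-- The dimension of the space of coefficients. -/
theorem finrank_Jsp (hb : IsBundle c Γ E) {f : Fin c → ℕ}
    (κ : (Σ i : Fin c, Fin (f i + 1)) → (τ → ℂ)) (hκ : LinearIndependent ℂ κ)
    (hE : ∀ i, InE E (arr (f i + 1) (fun p => κ ⟨i, p.1⟩ p.2)))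
    (hli : ∀ z ≠ 0, LinearIndependent ℂ
      (fun i => rowEval z (arr (f i + 1) (fun p => κ ⟨i, p.1⟩ p.2))))
    {N e : ℕ} (hN : ∀ i, f i + e ≤ N) (he : e ≤ N) :
    Module.finrank ℂ (Jsp E N e) = ∑ i, (min (f i) e + 1) := by
  have h1 : LinearIndependent ℂ (fun p :
      {p : (Σ i : Fin c, Fin (f i + 1)) // f p.1 ≤ (p.2 : ℕ) + e} => κ p.1) :=
    hκ.comp _ Subtype.val_injective
  rw [Jsp_eq hb κ hE hli hN he, finrank_span_eq_card h1, card_top]

/-- Vectors at the first point which extend to sections of degree `e`. -/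
theorem mem_Wsp_iff_Jsp (hb : IsBundle c Γ E) {f : Fin c → ℕ}
    (κ : (Σ i : Fin c, Fin (f i + 1)) → (τ → ℂ)) (hκ : LinearIndependent ℂ κ)
    (hE : ∀ i, InE E (arr (f i + 1) (fun p => κ ⟨i, p.1⟩ p.2)))
    (hli : ∀ z ≠ 0, LinearIndependent ℂ
      (fun i => rowEval z (arr (f i + 1) (fun p => κ ⟨i, p.1⟩ p.2))))
    {N e : ℕ} (hN : ∀ i, f i + e ≤ N) (he : e ≤ N) {w : τ → ℂ} (hw : w ∈ E (pt 0)) :
    w ∈ Wsp E e ↔ w ∈ Jsp E N e := by
  classical
  have hhom : ∀ i, HomRow (f i) (arr (f i + 1) (fun p => κ ⟨i, p.1⟩ p.2)) := by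
    intro i
    have h1 := homRow_arr (f i + 1) (fun p : Fin (f i + 1) × τ => κ ⟨i, p.1⟩ p.2)
    rwa [Nat.add_sub_cancel] at h1
  have hpt : ∀ i, rowEval (pt 0) (arr (f i + 1) (fun p : Fin (f i + 1) × τ => κ ⟨i, p.1⟩ p.2)) =
      κ ⟨i, 0⟩ := by
    intro i
    rw [rowEval_arr_pt _ (Nat.succ_pos _)]
    rfl
  have hgen : ∀ e r, HomRow e r → InE E r → r ∈ Submodule.span (MvPolynomial (Fin 2) ℂ)
      (Set.range fun i => arr (f i + 1) (fun p => κ ⟨i, p.1⟩ p.2)) := fun e r _ hr =>
    mem_span_of_li hb _ hhom hE hli hr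
  rw [Jsp_eq hb κ hE hli hN he]
  constructor
  · rintro ⟨r, hr, hrE, rfl⟩
    obtain ⟨a, ha, ha0, hsum⟩ := exists_homog_coeffs hr _ f hhom (hgen e r hr hrE)
    rw [← hsum, rowEval_sum]
    refine Submodule.sum_mem _ (fun i _ => ?_)
    rw [rowEval_smul, hpt]
    by_cases hi : f i ≤ e
    · apply Submodule.smul_mem
      apply Submodule.subset_span
      exact ⟨⟨⟨i, 0⟩, by simpa using hi⟩, rfl⟩
    · rw [ha0 i (by omega), map_zero, zero_smul]
      exact Submodule.zero_mem _
  · intro hwJ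
    have h1 : Submodule.span ℂ (Set.range fun i => κ ⟨i, 0⟩) = E (pt 0) := by
      have h2 := hli _ pt_zero_ne
      simp only [hpt] at h2
      refine span_eq_of_li (hb.finrank _ pt_zero_ne) _ h2 (fun i => ?_)
      rw [← hpt]
      exact hE i _ pt_zero_ne
    rw [← h1] at hw
    obtain ⟨b, hb'⟩ := (Submodule.mem_span_range_iff_exists_fun _).mp hw
    obtain ⟨μ, hμ⟩ := (Submodule.mem_span_range_iff_exists_fun _).mp hwJ
    have hbi : ∀ i, e < f i → b i = 0 := by
      intro i hi
      have h3 : ∑ p : (Σ i : Fin c, Fin (f i + 1)),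
          ((if (p.2 : ℕ) = 0 then b p.1 else 0) -
            (if h : f p.1 ≤ (p.2 : ℕ) + e then μ ⟨p, h⟩ else 0)) • κ p = 0 := by
        simp only [sub_smul, Finset.sum_sub_distrib]
        rw [sub_eq_zero]
        have h4 : ∑ p : (Σ i : Fin c, Fin (f i + 1)), (if (p.2 : ℕ) = 0 then b p.1 else 0) • κ p =
            w := by
          rw [← hb', Fintype.sum_sigma]
          refine Finset.sum_congr rfl (fun i _ => ?_)
          rw [Finset.sum_eq_single (0 : Fin (f i + 1))]
          · simp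
          · intro l _ hl
            rw [if_neg, zero_smul]
            intro h5
            exact hl (Fin.ext h5)
          · intro h; exact absurd (Finset.mem_univ _) h
        have h5 : ∑ p : (Σ i : Fin c, Fin (f i + 1)),
            (if h : f p.1 ≤ (p.2 : ℕ) + e then μ ⟨p, h⟩ else 0) • κ p = w := by
          rw [← hμ]
          symm
          have h6 := Finset.sum_subtype_of_mem
            (fun p : (Σ i : Fin c, Fin (f i + 1)) =>
              (if h : f p.1 ≤ (p.2 : ℕ) + e then μ ⟨p, h⟩ else 0) • κ p)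
            (s := Finset.univ.filter
              (fun p : (Σ i : Fin c, Fin (f i + 1)) => f p.1 ≤ (p.2 : ℕ) + e))
            (p := fun p => f p.1 ≤ (p.2 : ℕ) + e) (fun p hp => (Finset.mem_filter.mp hp).2)
          have h7 : ∑ p : (Σ i : Fin c, Fin (f i + 1)),
            (if h : f p.1 ≤ (p.2 : ℕ) + e then μ ⟨p, h⟩ else 0) • κ p =
            ∑ p ∈ Finset.univ.filter
              (fun p : (Σ i : Fin c, Fin (f i + 1)) => f p.1 ≤ (p.2 : ℕ) + e),
              (if h : f p.1 ≤ (p.2 : ℕ) + e then μ ⟨p, h⟩ else 0) • κ p := by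
            symm
            refine Finset.sum_subset (Finset.subset_univ _) (fun p _ hp => ?_)
            rw [dif_neg, zero_smul]
            intro h
            exact hp (Finset.mem_filter.mpr ⟨Finset.mem_univ _, h⟩)
          rw [h7, ← h6]
          refine Finset.sum_congr ?_ (fun p _ => ?_)
          · ext p
            simp [p.2]
          · rw [dif_pos p.2]
        rw [h4, h5]
      have h4 := Fintype.linearIndependent_iff.mp hκ _ h3 ⟨i, 0⟩
      simp only [Fin.val_zero, if_true, zero_add] at h4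
      rw [dif_neg (by omega), sub_zero] at h4
      exact h4
    rw [← hb']
    refine Submodule.sum_mem _ (fun i _ => ?_)
    by_cases hi : f i ≤ e
    · apply Submodule.smul_mem
      refine ⟨(X 0 ^ (e - f i) : MvPolynomial (Fin 2) ℂ) •
        arr (f i + 1) (fun p => κ ⟨i, p.1⟩ p.2), ?_, (hE i).smul _, ?_⟩
      · have h2 := HomRow.smul ((isHomogeneous_X ℂ (0 : Fin 2)).pow (e - f i)) (hhom i)
        rwa [one_mul, Nat.sub_add_cancel hi] at h2
      · rw [rowEval_smul, map_pow, eval_X, hpt]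
        simp [pt]
    · rw [hbi i (by omega), zero_smul]
      exact Submodule.zero_mem _

end Jets

section Kappa

variable {ρ : Type*} [Fintype ρ] [DecidableEq ρ] {c d D n : ℕ} {I : Ideal (MvPolynomial ρ ℂ)}
  {x : ρ → ℂ} {u : Fin n → (ρ → ℂ)} {F : Fin c → MvPolynomial ρ ℂ} {f : Fin c → ℕ}
  {v : Fin n → ℂ}

/-- The coefficients of a homogeneous basis along a free line are independent. -/
theorem LineS.exists_kappa (h : LineS I x u c d D F f v) :
    ∃ κ : (Σ i : Fin c, Fin (f i + 1)) → (ρ → ℂ), LinearIndependent ℂ κ ∧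
      (∀ i, InE (El I x u v) (arr (f i + 1) (fun p => κ ⟨i, p.1⟩ p.2))) ∧
      ∀ z ≠ 0, LinearIndependent ℂ
        (fun i => rowEval z (arr (f i + 1) (fun p => κ ⟨i, p.1⟩ p.2))) := by
  classical
  obtain ⟨ψ, a, hψ, hψli⟩ := h.exists_data
  obtain ⟨θ, hθ, hθψ, -⟩ := h.exists_theta hψ hψli
  have hex : ∀ i, ∃ q : Fin (f i + 1) × ρ → ℂ, arr (f i + 1) q = ψ i := fun i =>
    exists_arr (Nat.succ_pos _) (by rw [Nat.add_sub_cancel]; exact hψ.hψ i)
  choose q hq using hex
  have hrow : ∀ i, arr (f i + 1) (fun p : Fin (f i + 1) × ρ => q i (p.1, p.2)) = ψ i := by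
    intro i
    rw [← hq i]
  refine ⟨fun p b => q p.1 (p.2, b), ?_, ?_, ?_⟩
  · have h1 : ∀ p : (Σ i : Fin c, Fin (f i + 1)), ust u (fun b => q p.1 (p.2, b)) = θ p := by
      rintro ⟨i, l⟩
      have h2 : ∀ k, (fun l : Fin (f i + 1) => ust u (fun b => q i (l, b)) k - θ ⟨i, l⟩ k) =
          0 := by
        intro k
        apply poly_coeff_zero
        intro t
        have h3 := congrFun (hθψ (pt t) i) k
        rw [← hq i] at h3
        have h4 : rowEval (pt t) (arr (f i + 1) (q i)) = ∑ l : Fin (f i + 1),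
            (t ^ (l : ℕ)) • (fun b => q i (l, b)) := by
          rw [rowEval_arr]
          funext b
          rw [Finset.sum_apply]
          refine Finset.sum_congr rfl (fun l _ => ?_)
          simp [pt]
        rw [h4, map_sum, Finset.sum_apply, Finset.sum_apply] at h3
        rw [← sub_eq_zero, ← Finset.sum_sub_distrib] at h3
        rw [← h3]
        refine Finset.sum_congr rfl (fun l _ => ?_)
        rw [map_smul, Pi.smul_apply, Pi.smul_apply, smul_eq_mul, smul_eq_mul]
        simp [pt]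
        ring
      funext k
      have h5 := congrFun (h2 k) l
      simp only [Pi.zero_apply] at h5
      exact sub_eq_zero.mp h5
    have h2 : LinearIndependent ℂ (fun p : (Σ i : Fin c, Fin (f i + 1)) =>
        ust u (fun b => q p.1 (p.2, b))) := by
      have h3 : (fun p : (Σ i : Fin c, Fin (f i + 1)) => ust u (fun b => q p.1 (p.2, b))) = θ :=
        funext h1
      rw [h3]
      exact hθ
    exact LinearIndependent.of_comp (ust u) h2
  · intro i z hz
    have h1 := hψ.hψE z hz i
    rw [← hrow i] at h1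
    exact h1
  · intro z hz
    have h1 := hψli z hz
    simp only [← hrow] at h1
    exact h1

end Kappa

end Pool.Agent.Hartshorne
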