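import Mathlib
import Pool.Agent.HartN.Jets
import Pool.Agent.HartN.CompS
import Pool.Agent.HartN.ConstK

/-!
Constancy of the filtration of the gradient space at the vertex of an irreducible family of free
lines, with a bound which does not depend on the type of the lines: constant vectors are used as
test functions.
-/

namespace Pool.Agent.Hartshorne

open MvPolynomial

set_option linter.unusedSectionVars false

section Rel

variable {σ γ : Type*} [Fintype γ] [Fintype σ]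

/-- The locus where a vector of the larger family lies in the smaller one. -/
theorem isLocus_mem_rel {Y : Set (σ → ℂ)} {H₁ H₂ : (σ → ℂ) → Submodule ℂ (γ → ℂ)} {g₁ g₂ : ℕ}
    (hF₁ : FrameProp {v | v ∈ Y ∧ v ≠ 0} H₁)
    (hg₁ : ∀ v ∈ {v | v ∈ Y ∧ v ≠ 0}, Module.finrank ℂ (H₁ v) = g₁)
    (hF₂ : FrameProp {v | v ∈ Y ∧ v ≠ 0} H₂)
    (hg₂ : ∀ v ∈ {v | v ∈ Y ∧ v ≠ 0}, Module.finrank ℂ (H₂ v) = g₂)
    (hle : ∀ v ∈ {v | v ∈ Y ∧ v ≠ 0}, H₁ v ≤ H₂ v)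
    (a : γ → MvPolynomial σ ℂ)
    (ha : ∀ v ∈ {v | v ∈ Y ∧ v ≠ 0}, rowEval v a ∈ H₂ v)
    (hsm : ∀ v ∈ Y, v ≠ 0 → rowEval v a ∈ H₁ v → ∀ t : ℂ, t ≠ 0 →
      t • v ∈ Y ∧ rowEval (t • v) a ∈ H₁ (t • v)) :
    IsLocus Y (g₂ - g₁) {v | (v ∈ Y ∧ v ≠ 0) ∧ rowEval v a ∈ H₁ v} := by
  classical
  have hL := isLocus_mem hF₁ hg₁ a hsm
  refine ⟨hL.sub, hL.smul, ?_, hL.closed⟩
  rintro v₀ ⟨hv₀, hva⟩
  obtain ⟨Δ₁, k₁, T₁, hΔ₁, hk₁⟩ := hF₁.exists_basis hg₁ hv₀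
  obtain ⟨Δ₂, k₂, T₂, hΔ₂, hk₂⟩ := hF₂.exists_basis hg₂ hv₀
  -- the chosen coordinates are injective on the larger space
  have hinj : ∀ v ∈ {v | v ∈ Y ∧ v ≠ 0}, eval v Δ₂ ≠ 0 → ∀ w ∈ H₂ v,
      (∀ l, w (T₂ l) = 0) → w = 0 := by
    intro v hv hΔ w hw hwT
    have hkv := hk₂ v hv hΔ
    have hsp := span_eq_of_li (hg₂ v hv) _ (rowEval_li_of_det v k₂ T₂ hkv.2) hkv.1
    rw [← hsp] at hw
    obtain ⟨b, hb⟩ := (Submodule.mem_span_range_iff_exists_fun _).mp hw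
    have h1 : Matrix.vecMul b (Matrix.of fun i l => eval v (k₂ i (T₂ l))) = 0 := by
      funext l
      have h2 := hwT l
      rw [← hb, Finset.sum_apply] at h2
      rw [Pi.zero_apply, ← h2]
      rfl
    have h2 : (Matrix.of fun i l => eval v (k₂ i (T₂ l))).det ≠ 0 := by
      have h3 := hkv.2
      rw [eval_det] at h3
      exact h3
    have h3 : b = 0 := by
      by_contra hne
      exact h2 (Matrix.exists_vecMul_eq_zero_iff.mp ⟨b, hne, h1⟩)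
    rw [← hb, h3]
    simp
  set k' : Fin g₁ → Fin g₂ → MvPolynomial σ ℂ := fun i l => k₁ i (T₂ l) with hk'
  have hk'e : ∀ v i l, rowEval v (k' i) l = rowEval v (k₁ i) (T₂ l) := fun v i l => rfl
  have hli : LinearIndependent ℂ (fun i => rowEval v₀ (k' i)) := by
    rw [Fintype.linearIndependent_iff]
    intro b hb
    have h1 : ∑ i, b i • rowEval v₀ (k₁ i) = 0 := by
      apply hinj v₀ hv₀ hΔ₂
      · exact Submodule.sum_mem _ (fun i _ => Submodule.smul_mem _ _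
          (hle v₀ hv₀ ((hk₁ v₀ hv₀ hΔ₁).1 i)))
      · intro l
        have h2 := congrFun hb l
        rw [Finset.sum_apply] at h2
        rw [Finset.sum_apply]
        exact h2
    exact Fintype.linearIndependent_iff.mp
      (rowEval_li_of_det v₀ k₁ T₁ (hk₁ v₀ hv₀ hΔ₁).2) b h1
  obtain ⟨T', hT'⟩ := exists_minor _ hli
  have hdet₀ : eval v₀ (Matrix.of fun i l => k' i (T' l)).det ≠ 0 := by
    rw [eval_det]; exact hT'
  have hTinj : Function.Injective T' := by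
    intro i j hij
    by_contra hne
    apply hdet₀
    rw [Matrix.det_zero_of_column_eq hne (fun r => by
      rw [Matrix.of_apply, Matrix.of_apply, hij]), map_zero]
  have hcard : Fintype.card {b : Fin g₂ // b ∉ Set.range T'} = g₂ - g₁ := by
    have h1 := Fintype.card_subtype_compl (fun b => b ∈ Set.range T')
    have h2 : Fintype.card {b // b ∈ Set.range T'} = g₁ := by
      have h3 := Set.card_range_of_injective hTinj
      rw [Fintype.card_fin] at h3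
      convert h3 using 1
    rw [h2, Fintype.card_fin] at h1
    convert h1 using 1
  set e := Fintype.equivFinOfCardEq hcard with he
  set a' : Fin g₂ → MvPolynomial σ ℂ := fun l => a (T₂ l) with ha'
  refine ⟨Δ₁ * Δ₂ * (Matrix.of fun i l => k' i (T' l)).det,
    fun j => minorMap k' T' a' (e.symm j : Fin g₂), ?_, ?_, ?_⟩
  · rw [map_mul, map_mul]
    exact mul_ne_zero (mul_ne_zero hΔ₁ hΔ₂) hdet₀
  · intro j
    have h1 := minorMap_eval_of_mem k' T' a' v₀ (by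
      have hkv := hk₁ v₀ hv₀ hΔ₁
      have hsp := span_eq_of_li (hg₁ v₀ hv₀) _ (rowEval_li_of_det v₀ k₁ T₁ hkv.2) hkv.1
      rw [← hsp] at hva
      obtain ⟨b, hb⟩ := (Submodule.mem_span_range_iff_exists_fun _).mp hva
      refine (Submodule.mem_span_range_iff_exists_fun _).mpr ⟨b, ?_⟩
      funext l
      have h2 := congrFun hb (T₂ l)
      rw [Finset.sum_apply] at h2
      rw [Finset.sum_apply]
      exact h2)
    exact congrFun h1 _
  · intro v hvY hv hΔ hj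
    rw [map_mul, map_mul] at hΔ
    have hdet := right_ne_zero_of_mul hΔ
    have hΔ₂v := right_ne_zero_of_mul (left_ne_zero_of_mul hΔ)
    have hΔ₁v := left_ne_zero_of_mul (left_ne_zero_of_mul hΔ)
    refine ⟨⟨hvY, hv⟩, ?_⟩
    have hkv := hk₁ v ⟨hvY, hv⟩ hΔ₁v
    have h1 : rowEval v (minorMap k' T' a') = 0 := by
      funext b
      by_cases hb : b ∈ Set.range T'
      · obtain ⟨l, rfl⟩ := hb
        rw [rowEval_apply, minorMap_T, map_zero]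
        rfl
      · have h1 := hj (e ⟨b, hb⟩)
        simp only [Equiv.symm_apply_apply] at h1
        exact h1
    obtain ⟨b, hb⟩ := (Submodule.mem_span_range_iff_exists_fun _).mp
      (mem_span_of_minorMap k' T' a' v hdet h1)
    have h2 : rowEval v a - ∑ i, b i • rowEval v (k₁ i) = 0 := by
      apply hinj v ⟨hvY, hv⟩ hΔ₂v
      · refine Submodule.sub_mem _ (ha v ⟨hvY, hv⟩) (Submodule.sum_mem _ (fun i _ =>
          Submodule.smul_mem _ _ (hle v ⟨hvY, hv⟩ (hkv.1 i))))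
      · intro l
        have h3 := congrFun hb l
        rw [Finset.sum_apply] at h3
        rw [Pi.sub_apply, Finset.sum_apply, sub_eq_zero]
        exact h3.symm
    rw [sub_eq_zero.mp h2]
    exact Submodule.sum_mem _ (fun i _ => Submodule.smul_mem _ _ (hkv.1 i))

end Rel

section Const2

variable {σ : Type*} [Fintype σ] [DecidableEq σ]

/-- Constancy of vectors of the larger family in the smaller one. -/
theorem KLoc.constancy₂ {γ : Type*} [Fintype γ] {K : Ideal (MvPolynomial σ ℂ)} {c m : ℕ}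
    (h : KLoc K c m) {H₁ H₂ : (σ → ℂ) → Submodule ℂ (γ → ℂ)} {g₁ g₂ : ℕ}
    (hF₁ : FrameProp {v | v ∈ {v | ∀ g ∈ K, eval v g = 0} ∧ v ≠ 0} H₁)
    (hg₁ : ∀ v ∈ {v | v ∈ {v | ∀ g ∈ K, eval v g = 0} ∧ v ≠ 0},
      Module.finrank ℂ (H₁ v) = g₁)
    (hF₂ : FrameProp {v | v ∈ {v | ∀ g ∈ K, eval v g = 0} ∧ v ≠ 0} H₂)
    (hg₂ : ∀ v ∈ {v | v ∈ {v | ∀ g ∈ K, eval v g = 0} ∧ v ≠ 0},
      Module.finrank ℂ (H₂ v) = g₂)
    (hle : ∀ v ∈ {v | v ∈ {v | ∀ g ∈ K, eval v g = 0} ∧ v ≠ 0}, H₁ v ≤ H₂ v)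
    (hsc : ∀ v, (∀ g ∈ K, eval v g = 0) → v ≠ 0 → ∀ t : ℂ, t ≠ 0 → ∀ h ∈ H₁ v,
      h ∈ H₁ (t • v))
    (hcard : 2 * m + g₂ < Fintype.card σ + c)
    (α : γ → ℂ) (hα : ∀ v ∈ {v | v ∈ {v | ∀ g ∈ K, eval v g = 0} ∧ v ≠ 0}, α ∈ H₂ v)
    {v₁ v₂ : σ → ℂ} (hv₁ : ∀ g ∈ K, eval v₁ g = 0) (hv₁0 : v₁ ≠ 0)
    (hv₂ : ∀ g ∈ K, eval v₂ g = 0) (hv₂0 : v₂ ≠ 0)
    (h₁ : α ∈ H₁ v₁) : α ∈ H₁ v₂ := by
  classical
  by_contra hα₂
  have hYt : ∀ v, (∀ g ∈ K, eval v g = 0) → ∀ t : ℂ, ∀ g ∈ K, eval (t • v) g = 0 := by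
    intro v hv t g hgK
    rw [← sum_homogeneousComponent g, map_sum]
    refine Finset.sum_eq_zero (fun e _ => ?_)
    rw [eval_smul_of_isHomogeneous (homogeneousComponent_isHomogeneous e g),
      hv _ (h.hKh g hgK e), mul_zero]
  -- a functional
  obtain ⟨f, hf, hfH⟩ := Submodule.exists_le_ker_of_notMem hα₂
  set a₀ : γ → ℂ := fun b => f (Pi.single b 1) with ha₀
  have hfa : ∀ h : γ → ℂ, f h = a₀ ⬝ᵥ h := by
    intro h
    conv_lhs => rw [pi_eq_sum_univ' h, map_sum]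
    refine Finset.sum_congr rfl (fun b _ => ?_)
    rw [map_smul, smul_eq_mul, mul_comm]
  have hC : ∀ (w : γ → ℂ) (v : σ → ℂ), rowEval v (fun b => (C (w b) : MvPolynomial σ ℂ)) = w := by
    intro w v; funext b; rw [rowEval_apply, eval_C]
  -- the second locus
  have hZ₂ := isLocus_le (Y := {v | ∀ g ∈ K, eval v g = 0}) hF₁ hg₁ (fun b => C (a₀ b)) (by
    intro v hvY hv hva t ht
    refine ⟨hYt v hvY t, fun h hh => ?_⟩
    have h1 := hsc (t • v) (hYt v hvY t) (smul_ne_zero ht hv) t⁻¹ (inv_ne_zero ht) h hh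
    rw [smul_smul, inv_mul_cancel₀ ht, one_smul] at h1
    have h2 := hva _ h1
    rw [hC] at h2 ⊢
    exact h2)
  -- the first locus
  have hZ₁ := isLocus_mem_rel (Y := {v | ∀ g ∈ K, eval v g = 0}) hF₁ hg₁ hF₂ hg₂ hle
    (fun b => C (α b)) (fun v hv => by rw [hC]; exact hα v hv) (by
    intro v hvY hv hva t ht
    refine ⟨hYt v hvY t, ?_⟩
    rw [hC] at hva ⊢
    exact hsc v hvY hv t ht α hva)
  have hgg : g₁ ≤ g₂ := by
    rw [← hg₁ v₁ ⟨hv₁, hv₁0⟩, ← hg₂ v₁ ⟨hv₁, hv₁0⟩]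
    exact Submodule.finrank_mono (hle v₁ ⟨hv₁, hv₁0⟩)
  obtain ⟨v, hvZ₁, hvZ₂⟩ := h.meet hZ₁ hZ₂ (by omega)
    ⟨v₁, ⟨hv₁, hv₁0⟩, by rw [hC]; exact h₁⟩
    ⟨v₂, ⟨hv₂, hv₂0⟩, fun h hh => by
      rw [hC, ← hfa]
      exact hfH hh⟩
  have h1 := hvZ₂.2 α (by
    have h2 := hvZ₁.2
    rwa [hC] at h2)
  rw [hC, ← hfa] at h1
  exact hf h1

end Const2

section ConstL

variable {ρ : Type*} [Fintype ρ] [DecidableEq ρ] {c d D n : ℕ} {I : Ideal (MvPolynomial ρ ℂ)}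
  {x : ρ → ℂ} {u : Fin n → (ρ → ℂ)} {F : Fin c → MvPolynomial ρ ℂ}
  {K : Ideal (MvPolynomial (Fin n) ℂ)} {m : ℕ}

/-- The coefficients along one line of a component. -/
lemma CompS.exists_kappa (h : CompS I x u c d D F K m) {v : Fin n → ℂ} (hv0 : v ≠ 0)
    (hv : ∀ g ∈ K, eval v g = 0) :
    ∃ (f : Fin c → ℕ) (κ : (Σ i : Fin c, Fin (f i + 1)) → (ρ → ℂ)),
      ∑ i, (f i + 1) = m ∧ LinearIndependent ℂ κ ∧
      (∀ i, InE (El I x u v) (arr (f i + 1) (fun p => κ ⟨i, p.1⟩ p.2))) ∧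
      ∀ z ≠ 0, LinearIndependent ℂ
        (fun i => rowEval z (arr (f i + 1) (fun p => κ ⟨i, p.1⟩ p.2))) := by
  obtain ⟨A, f, hL⟩ := h.toPtS.exists_line hv0
    ((h.toPtS.cone_iff v).mpr (fun g hg => hv g (h.hKa hg)))
  obtain ⟨κ, h1, h2, h3⟩ := hL.exists_kappa
  exact ⟨f, κ, (h.loc _ _ _ hL hv).1, h1, h2, h3⟩

lemma Jsp_smul {N e : ℕ} {v : Fin n → ℂ} {t : ℂ} (ht : t ≠ 0) {w : ρ → ℂ}
    (hw : w ∈ Jsp (El I x u v) N e) : w ∈ Jsp (El I x u (t • v)) N e := by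
  obtain ⟨q, hq, rfl⟩ := hw
  have h1 := KM_smul I x u (N + 1) ht hq
  have h2 : t ^ (N - e) • (LinearMap.funLeft ℂ ℂ (fun b : ρ =>
      ((⟨N - e, Nat.lt_succ_of_le (Nat.sub_le N e)⟩ : Fin (N + 1)), b)) q) ∈
      Jsp (El I x u (t • v)) N e := by
    refine ⟨_, h1, ?_⟩
    funext b
    rfl
  exact (Submodule.smul_mem_iff _ (pow_ne_zero _ ht)).mp h2

/-- **The filtration of the gradient space at the vertex is constant.** -/
theorem CompS.Wsp_constL (h : CompS I x u c d D F K m) (hcard : 3 * m < n + c)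
    {v₁ v₂ : Fin n → ℂ} (hv₁0 : v₁ ≠ 0) (hv₁ : ∀ g ∈ K, eval v₁ g = 0)
    (hv₂0 : v₂ ≠ 0) (hv₂ : ∀ g ∈ K, eval v₂ g = 0) (e : ℕ) :
    Wsp (El I x u v₁) e = Wsp (El I x u v₂) e := by
  classical
  have hb : ∀ v ≠ 0, (∀ g ∈ K, eval v g = 0) →
      IsBundle c (gMod I D (pl x u v)) (El I x u v) := fun v hv0 hv =>
    isBundle_El I x u (h.kpen.good v hv0 hv)
  have hfr : ∀ v ≠ 0, (∀ g ∈ K, eval v g = 0) → ∃ f : Fin c → ℕ,
      ∑ i, (f i + 1) = m ∧ (∀ i, f i ≤ m) ∧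
      (∀ e, Module.finrank ℂ (Wsp (El I x u v) e) =
        (Finset.univ.filter (fun k => f k ≤ e)).card) ∧
      (∀ N e, (∀ i, f i + e ≤ N) → e ≤ N →
        Module.finrank ℂ (Jsp (El I x u v) N e) = ∑ i, (min (f i) e + 1)) ∧
      (∀ N e, (∀ i, f i + e ≤ N) → e ≤ N → ∀ w ∈ gradSpan I x,
        (w ∈ Wsp (El I x u v) e ↔ w ∈ Jsp (El I x u v) N e)) ∧
      (∀ N e e', e ≤ e' → (∀ i, f i + e' ≤ N) → e' ≤ N →
        Jsp (El I x u v) N e ≤ Jsp (El I x u v) N e') := by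
    intro v hv0 hv
    obtain ⟨f, κ, hm, hκ, hE, hli⟩ := h.exists_kappa hv0 hv
    have hhom : ∀ i, HomRow (f i) (arr (f i + 1) (fun p : Fin (f i + 1) × ρ =>
        κ ⟨i, p.1⟩ p.2)) := by
      intro i
      have h1 := homRow_arr (f i + 1) (fun p : Fin (f i + 1) × ρ => κ ⟨i, p.1⟩ p.2)
      rwa [Nat.add_sub_cancel] at h1
    refine ⟨f, hm, ?_, ?_, ?_, ?_, ?_⟩
    · intro i
      have h1 := Finset.single_le_sum (f := fun i => f i + 1) (fun i _ => Nat.zero_le _)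
        (Finset.mem_univ i)
      rw [hm] at h1
      omega
    · intro e
      exact finrank_Wsp ⟨hhom, hE, hli, fun e r _ hr =>
        mem_span_of_li (hb v hv0 hv) _ hhom hE hli hr⟩ e
    · intro N e hN he
      exact finrank_Jsp (hb v hv0 hv) κ hκ hE hli hN he
    · intro N e hN he w hw
      exact mem_Wsp_iff_Jsp (hb v hv0 hv) κ hκ hE hli hN he (by rw [El_pt_zero]; exact hw)
    · intro N e e' hee hN he'
      rw [Jsp_eq (hb v hv0 hv) κ hE hli (fun i => by have := hN i; omega) (by omega),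
        Jsp_eq (hb v hv0 hv) κ hE hli hN he', Submodule.span_le]
      rintro _ ⟨⟨p, hp⟩, rfl⟩
      exact Submodule.subset_span ⟨⟨p, by omega⟩, rfl⟩
  have hfrx : Module.finrank ℂ (gradSpan I x) = c := h.kpen.vertex.fr
  have htop : ∀ v ≠ 0, (∀ g ∈ K, eval v g = 0) → ∀ e, m ≤ e →
      Wsp (El I x u v) e = gradSpan I x := by
    intro v hv0 hv e he
    obtain ⟨f, -, hfm, hW, -⟩ := hfr v hv0 hv
    apply Submodule.eq_of_le_of_finrank_eq
    · rw [← El_pt_zero I x u v]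
      exact Wsp_le _ _
    · rw [hfrx, hW e, Finset.filter_true_of_mem (fun i _ => (hfm i).trans he),
        Finset.card_univ, Fintype.card_fin]
  induction e using Nat.strong_induction_on generalizing v₁ v₂ with
  | _ e ih =>
  rcases Nat.lt_or_ge e m with hlt | hge
  swap
  · rw [htop v₁ hv₁0 hv₁ e hge, htop v₂ hv₂0 hv₂ e hge]
  have hFr : ∀ e', FrameProp {v | v ∈ {v : Fin n → ℂ | ∀ g ∈ K, eval v g = 0} ∧ v ≠ 0}
      (fun v => Jsp (El I x u v) (2 * m) e') := by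
    intro e'
    have h1 := frame_of_eqs {v | v ∈ {v : Fin n → ℂ | ∀ g ∈ K, eval v g = 0} ∧ v ≠ 0}
      (famA I x u c D (2 * m + 1)) (Module.finrank ℂ (KM (El I x u v₁) (2 * m + 1))) (by
        rintro v ⟨hv, hv0⟩
        rw [solS_famA I x u _ (h.kpen.good v hv0 hv)]
        exact h.kpen.finrank_KM_const (2 * m + 1)
          (fun v hv0 hv e he => htop v hv0 hv e (by omega)) hv0 hv hv₁0 hv₁)
    have h2 := h1.comap_coord (fun b : ρ =>
      ((⟨2 * m - e', Nat.lt_succ_of_le (Nat.sub_le (2 * m) e')⟩ : Fin (2 * m + 1)), b))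
    intro v₀ hv₀ q hh
    obtain ⟨Δ, k, hΔ, hk, hkS⟩ := h2 v₀ hv₀ q (by
      beta_reduce
      rw [solS_famA I x u _ (h.kpen.good v₀ hv₀.2 hv₀.1)]
      exact hh)
    refine ⟨Δ, k, hΔ, hk, ?_⟩
    intro v hv hvΔ
    have h3 := hkS v hv hvΔ
    beta_reduce at h3
    rw [solS_famA I x u _ (h.kpen.good v hv.2 hv.1)] at h3
    exact h3
  have hg₁ : ∀ v ∈ {v | v ∈ {v : Fin n → ℂ | ∀ g ∈ K, eval v g = 0} ∧ v ≠ 0},
      Module.finrank ℂ (Jsp (El I x u v) (2 * m) e) =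
        c * (e + 1) - ∑ k ∈ Finset.range e, Module.finrank ℂ (Wsp (El I x u v₁) k) := by
    rintro v ⟨hv, hv0⟩
    obtain ⟨f, -, hfm, hW, hJ, -⟩ := hfr v hv0 hv
    rw [hJ (2 * m) e (fun i => by have := hfm i; omega) (by omega)]
    have h1 := sum_min_add f e
    have h2 : ∑ k ∈ Finset.range e, Module.finrank ℂ (Wsp (El I x u v₁) k) =
        ∑ k ∈ Finset.range e, (Finset.univ.filter (fun i => f i ≤ k)).card := by
      refine Finset.sum_congr rfl (fun k hk => ?_)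
      rw [ih k (Finset.mem_range.mp hk) hv₁0 hv₁ hv0 hv, hW k]
    rw [h2, Finset.sum_add_distrib, mul_add, mul_one, ← h1]
    simp only [Finset.sum_const, Finset.card_univ, Fintype.card_fin, smul_eq_mul, mul_one]
    omega
  have hg₂ : ∀ v ∈ {v | v ∈ {v : Fin n → ℂ | ∀ g ∈ K, eval v g = 0} ∧ v ≠ 0},
      Module.finrank ℂ (Jsp (El I x u v) (2 * m) m) = m := by
    rintro v ⟨hv, hv0⟩
    obtain ⟨f, hm, hfm, hW, hJ, -⟩ := hfr v hv0 hv
    rw [hJ (2 * m) m (fun i => by have := hfm i; omega) (by omega), ← hm]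
    refine Finset.sum_congr rfl (fun i _ => ?_)
    rw [hm, min_eq_left (hfm i)]
  have hle : ∀ v ∈ {v | v ∈ {v : Fin n → ℂ | ∀ g ∈ K, eval v g = 0} ∧ v ≠ 0},
      Jsp (El I x u v) (2 * m) e ≤ Jsp (El I x u v) (2 * m) m := by
    rintro v ⟨hv, hv0⟩
    obtain ⟨f, -, hfm, -, -, -, hmono⟩ := hfr v hv0 hv
    exact hmono _ _ _ (le_of_lt hlt) (fun i => by have := hfm i; omega) (by omega)
  have key : ∀ {v₁ v₂ : Fin n → ℂ} (hv₁0 : v₁ ≠ 0) (hv₁ : ∀ g ∈ K, eval v₁ g = 0)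
      (hv₂0 : v₂ ≠ 0) (hv₂ : ∀ g ∈ K, eval v₂ g = 0),
      Wsp (El I x u v₁) e ≤ Wsp (El I x u v₂) e := by
    intro v₁ v₂ hv₁0 hv₁ hv₂0 hv₂ w hw
    have hwx : w ∈ gradSpan I x := by
      rw [← El_pt_zero I x u v₁]
      exact Wsp_le _ _ hw
    have hwJ : ∀ v, v ≠ 0 → (∀ g ∈ K, eval v g = 0) → ∀ e', e' ≤ m →
        (w ∈ Wsp (El I x u v) e' ↔ w ∈ Jsp (El I x u v) (2 * m) e') := by
      intro v hv0 hv e' he'
      obtain ⟨f, -, hfm, -, -, hWJ, -⟩ := hfr v hv0 hv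
      exact hWJ _ _ (fun i => by have := hfm i; omega) (by omega) w hwx
    rw [hwJ v₂ hv₂0 hv₂ e (le_of_lt hlt)]
    rw [hwJ v₁ hv₁0 hv₁ e (le_of_lt hlt)] at hw
    refine h.kpen.kloc.constancy₂ (hFr e) hg₁ (hFr m) hg₂ hle
      (fun v _ _ t ht w hw => Jsp_smul ht hw) (by rw [Fintype.card_fin]; omega) w ?_
      hv₁ hv₁0 hv₂ hv₂0 hw
    rintro v ⟨hv, hv0⟩
    rw [← hwJ v hv0 hv m le_rfl, htop v hv0 hv m le_rfl]
    exact hwx
  exact le_antisymm (key hv₁0 hv₁ hv₂0 hv₂) (key hv₂0 hv₂ hv₁0 hv₁)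

end ConstL

end Pool.Agent.Hartshorne
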